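import Pool.Agent.Lib.MP_49c3df_gt.GlueH

/-! JOB Bd (MP_49c3df_gt): lower bounds for the certificate function at tops, on a vertical wall and
on the roof, from bounds on the controls.

PROOFS.
* `top_bound`: `H r z 1 = sh true r z 0`, `H r z (-1) = sh false r z 0`. If `1 ≤ κ z`: both are `c3 _ r (κ z) 0`,
  `V = 0` is the knot `0`: `S3_V`, then `spl_add` (or `S3_add` for the sum net, then `S3_ge` with `b = 0`) and the
  bound on `g3 true i j 0 + g3 false i j 0`. If `κ z < 1`: `0 ≤ κ z`, both are `c2 _ r (κ z) (0 / (κ z))`; same.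
* `wall_bound`: `q ≤ 0`: `H = sh false r z x` with `x = 1 + q ≥ 0` (`H_sh` with `s = false`). `5 r = KR i0`. If
  `1 ≤ κ z`: `c3`, `S3_R` at knot `i0`, then `spl_ge` in `U` (up to the last knot `NT`, `DT (κ z) ≤ DT + NT`) and in
  `V` (up to knot `b3`, since `DY x ≤ b3`). If `κ z < 1`: `x ≤ κ z`, `c2`, `S3_R`, `spl_ge` in `U` (up to `DX`) and `V`
  (up to `b2`: `DY (x / (κ z)) ≤ b2`).
* `roof_bound`: `z = zm`, `DT (κ zm) = DT + NT` is the last knot in `U` (in particular `1 ≤ κ zm`); `H = sh s r zm x`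
  with `x ∈ [0, 1]` by `H_sh`, `sh_c3`, `S3_U` at the knot `NT`, then `spl_ge` in `R` (up to the knot `i0`) and in `V`. -/

namespace SShr

private theorem Bd_id (n : ℕ) : ∀ i < n, (fun a : ℕ => (a : ℝ)) i < (fun a : ℕ => (a : ℝ)) (i + 1) := by
  intro i _
  show ((i : ℕ) : ℝ) < ((i + 1 : ℕ) : ℝ)
  exact_mod_cast Nat.lt_succ_self i

private theorem Bd_sh (D n : ℕ) :
    ∀ i < n, (fun a : ℕ => (D : ℝ) + a) i < (fun a : ℕ => (D : ℝ) + a) (i + 1) := by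
  intro i _
  show (D : ℝ) + ((i : ℕ) : ℝ) < (D : ℝ) + ((i + 1 : ℕ) : ℝ)
  have h : ((i : ℕ) : ℝ) < ((i + 1 : ℕ) : ℝ) := by exact_mod_cast Nat.lt_succ_self i
  linarith

private theorem Bd_H_true {C : Cert} {Rm zm : ℝ} (hG : C.Glue Rm zm) (r z q : ℝ) (hq : 0 ≤ q) :
    C.H r z q = C.sh true r z (1 - q) := by
  have h := H_sh hG true r z q (by simp only [sgn]; linarith)
  rw [h]
  simp only [sgn, one_mul]

private theorem Bd_H_false {C : Cert} {Rm zm : ℝ} (hG : C.Glue Rm zm) (r z q : ℝ) (hq : q ≤ 0) :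
    C.H r z q = C.sh false r z (1 + q) := by
  have h := H_sh hG false r z q (by simp only [sgn]; linarith)
  rw [h]
  have e : 1 - sgn false * q = 1 + q := by simp only [sgn]; ring
  rw [e]

private theorem Bd_U3 {C : Cert} {Rm zm : ℝ} (hG : C.Glue Rm zm) {z : ℝ} (hz1 : z ≤ zm)
    (h : 1 ≤ C.ka * z) :
    (C.DT : ℝ) + ((0 : ℕ) : ℝ) ≤ C.DT * (C.ka * z) ∧ C.DT * (C.ka * z) ≤ (C.DT : ℝ) + C.NT := by
  have hD : (0 : ℝ) < C.DT := by exact_mod_cast hG.DT0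
  constructor
  · rw [Nat.cast_zero, add_zero]
    nlinarith
  · refine le_trans ?_ hG.hzm
    exact mul_le_mul_of_nonneg_left (mul_le_mul_of_nonneg_left hz1 hG.ka0.le) hD.le

theorem top_bound {C : Cert} {Rm zm : ℝ} (hG : C.Glue Rm zm) (m : ℝ)
    (h2 : ∀ i ≤ 2 * C.NR, ∀ j ≤ 2 * C.DX, m ≤ C.g2 true i j 0 + C.g2 false i j 0)
    (h3 : ∀ i ≤ 2 * C.NR, ∀ j ≤ 2 * C.NT, m ≤ C.g3 true i j 0 + C.g3 false i j 0)
    (r z : ℝ) (hr : 0 < r) (hr1 : r ≤ Rm) (hz : 0 < z) (hz1 : z ≤ zm) :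
    m ≤ C.H r z 1 + C.H r z (-1) := by
  rw [Bd_H_true hG r z 1 zero_le_one, Bd_H_false hG r z (-1) (by norm_num), sub_self,
    add_neg_cancel]
  have hDX : (0 : ℝ) < C.DX := by exact_mod_cast hG.DX0
  have hkz : 0 < C.ka * z := mul_pos hG.ka0 hz
  rcases le_or_gt 1 (C.ka * z) with h | h
  · rw [sh_c3 true r z 0 h, sh_c3 false r z 0 h]
    unfold Cert.c3
    rw [← S3_add]
    obtain ⟨hU0, hU1⟩ := Bd_U3 hG hz1 h
    refine S3_ge C.KR (fun a => (C.DT : ℝ) + a) (fun b => (b : ℝ)) C.NR C.NT C.DY _ _ _ _ m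
      hG.Kmono (Bd_sh _ _) (Bd_id _) C.NR C.NT 0 le_rfl le_rfl (Nat.zero_le _) ?_ ?_ hU0 hU1 ?_ ?_
      (fun i' hi' j' hj' k' hk' => ?_)
    · rw [hG.K0]; linarith
    · rw [hG.Klast]; linarith
    · simp
    · simp
    · have hk0 : k' = 0 := by omega
      rw [hk0]
      exact h3 i' hi' j' hj'
  · rw [sh_c2 hG true r z 0 h.le hkz.le, sh_c2 hG false r z 0 h.le hkz.le]
    unfold Cert.c2
    rw [← S3_add]
    refine S3_ge C.KR (fun a => (a : ℝ)) (fun b => (b : ℝ)) C.NR C.DX C.DY _ _ _ _ m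
      hG.Kmono (Bd_id _) (Bd_id _) C.NR C.DX 0 le_rfl le_rfl (Nat.zero_le _) ?_ ?_ ?_ ?_ ?_ ?_
      (fun i' hi' j' hj' k' hk' => ?_)
    · rw [hG.K0]; linarith
    · rw [hG.Klast]; linarith
    · rw [Nat.cast_zero]
      positivity
    · nlinarith
    · simp
    · simp
    · have hk0 : k' = 0 := by omega
      rw [hk0]
      exact h2 i' hi' j' hj'

theorem wall_bound {C : Cert} {Rm zm : ℝ} (hG : C.Glue Rm zm) (m : ℝ) (i0 b2 b3 : ℕ)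
    (hi : i0 ≤ C.NR) (hb2 : b2 ≤ C.DY) (hb3 : b3 ≤ C.DY)
    (h2 : ∀ j ≤ 2 * C.DX, ∀ k ≤ 2 * b2, m ≤ C.g2 false (2 * i0) j k)
    (h3 : ∀ j ≤ 2 * C.NT, ∀ k ≤ 2 * b3, m ≤ C.g3 false (2 * i0) j k)
    (r z q : ℝ) (hr : 5 * r = C.KR i0) (hz : 0 < z) (hz1 : z ≤ zm) (hq0 : -1 ≤ q) (hq : q ≤ 0)
    (hx2 : C.ka * z < 1 → 1 + q ≤ C.ka * z ∧ C.DY * ((1 + q) / (C.ka * z)) ≤ b2)
    (hx3 : 1 ≤ C.ka * z → C.DY * (1 + q) ≤ b3) :
    m ≤ C.H r z q := by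
  rw [Bd_H_false hG r z q hq]
  have hDX : (0 : ℝ) < C.DX := by exact_mod_cast hG.DX0
  have hDY : (0 : ℝ) < C.DY := by exact_mod_cast hG.DY0
  have hkz : 0 < C.ka * z := mul_pos hG.ka0 hz
  have hx0 : 0 ≤ 1 + q := by linarith
  rcases le_or_gt 1 (C.ka * z) with h | h
  · rw [sh_c3 false r z (1 + q) h]
    unfold Cert.c3
    rw [hr, S3_R C.KR _ _ _ _ _ _ _ _ hG.Kmono i0 hi]
    obtain ⟨hU0, hU1⟩ := Bd_U3 hG hz1 h
    refine spl_ge _ _ _ m C.NT (Bd_sh _ _) C.NT le_rfl hU0 hU1 (fun j hj => ?_)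
    refine spl_ge _ _ _ m C.DY (Bd_id _) b3 hb3 ?_ (hx3 h) (fun k hk => h3 j hj k hk)
    rw [Nat.cast_zero]
    positivity
  · obtain ⟨h4, h5⟩ := hx2 h
    rw [sh_c2 hG false r z (1 + q) h.le h4]
    unfold Cert.c2
    rw [hr, S3_R C.KR _ _ _ _ _ _ _ _ hG.Kmono i0 hi]
    refine spl_ge _ _ _ m C.DX (Bd_id _) C.DX le_rfl ?_ ?_ (fun j hj => ?_)
    · rw [Nat.cast_zero]
      positivity
    · nlinarith
    · refine spl_ge _ _ _ m C.DY (Bd_id _) b2 hb2 ?_ h5 (fun k hk => h2 j hj k hk)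
      rw [Nat.cast_zero]
      exact mul_nonneg hDY.le (div_nonneg hx0 hkz.le)

theorem roof_bound {C : Cert} {Rm zm : ℝ} (hG : C.Glue Rm zm) (m : ℝ) (i0 : ℕ) (hi : i0 ≤ C.NR)
    (hzT : C.DT * (C.ka * zm) = C.DT + C.NT)
    (h : ∀ s, ∀ i ≤ 2 * i0, ∀ k ≤ 2 * C.DY, m ≤ C.g3 s i (2 * C.NT) k)
    (r q : ℝ) (hr : 0 < r) (hr1 : 5 * r ≤ C.KR i0) (hq : -1 ≤ q) (hq1 : q ≤ 1) :
    m ≤ C.H r zm q := by
  have hDT : (0 : ℝ) < C.DT := by exact_mod_cast hG.DT0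
  have hDY : (0 : ℝ) < C.DY := by exact_mod_cast hG.DY0
  have hNT : (0 : ℝ) ≤ C.NT := Nat.cast_nonneg _
  have h1 : 1 ≤ C.ka * zm := by
    have h2 : (C.DT : ℝ) * 1 ≤ C.DT * (C.ka * zm) := by rw [hzT]; linarith
    exact le_of_mul_le_mul_left h2 hDT
  have key : ∀ s : Bool, ∀ x : ℝ, 0 ≤ x → x ≤ 1 → m ≤ C.sh s r zm x := by
    intro s x hx0 hx1
    rw [sh_c3 s r zm x h1]
    unfold Cert.c3
    rw [hzT]
    have e := S3_U C.KR (fun a => (C.DT : ℝ) + a) (fun b => (b : ℝ)) C.NR C.NT C.DY (C.g3 s) (5 * r)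
      (C.DY * x) (Bd_sh _ _) C.NT le_rfl
    rw [e]
    refine spl_ge _ _ _ m C.NR hG.Kmono i0 hi ?_ hr1 (fun i hi' => ?_)
    · rw [hG.K0]; linarith
    · refine spl_ge _ _ _ m C.DY (Bd_id _) C.DY le_rfl ?_ ?_ (fun k hk => h s i hi' k hk)
      · rw [Nat.cast_zero]
        positivity
      · nlinarith
  rcases le_total 0 q with h2 | h2
  · rw [Bd_H_true hG r zm q h2]
    exact key true _ (by linarith) (by linarith)
  · rw [Bd_H_false hG r zm q h2]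
    exact key false _ (by linarith) (by linarith)

end SShr
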