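import Pool.Agent.Lib.MP_49c3df_gt.PolyC

/-! The cell inequalities in the three charts, and the checker. -/

namespace SShr

/-- `R`, `R * R`, `50 - R * R` and `q` in the local coordinate -/
def pR (Ra dR : Int) : P1 := [Ra, dR]
def pR2 (Ra dR : Int) : P1 := [Ra * Ra, 2 * Ra * dR, dR * dR]
def pF (Ra dR : Int) : P1 := [50 - Ra * Ra, -(2 * Ra * dR), -(dR * dR)]
def pQ (Q0 Q1 Q2 dR : Int) : P1 := [Q0, Q1 * dR, Q2 * (dR * dR)]

/-- the cell inequality in chart 3 -/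
noncomputable def cellE3 (kn kd DU DV sg : Int) (Ra dR Ua Va Q0 Q1 Q2 A B : Int) (net : P3)
    (i j k : Nat) : P3 :=
  let O : P2 := [[DV - Va, -1]]
  let N : P2 := add2 [[DV * DV]] (mul2 O O)
  let W : P2 := [mul1 [Va, 1] [2 * DV - Va, -1]]
  let U : P2 := [[Ua], [1]]
  let P : P2 := [[A - B * (Ua * Ua)], [-(2 * (B * Ua))], [-B]]
  let hv := hV net i j k
  add3 (mulR (pR Ra dR)
    (add3 (add3 (mul23 (sm2 (200 * kn * kd * DU * DV * DV * sg) O) (hR net i j k))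
      (mul23 (sm2 (-(dR * 20 * kn * kn * DU * DU * DV)) W) (hU net i j k)))
      (mul23 (sm2 (dR * 10 * kd * kd * DV) (mul2 U (mul2 N O))) hv)))
    (add3 (mulR (pF Ra dR) (mul23 (sm2 (-(dR * kn * kd * DU * sg)) (mul2 N W)) hv))
      (mulR (mul1 (pR2 Ra dR) (pQ Q0 Q1 Q2 dR)) [sm2 (dR * 4 * kn * kd * DU * DV) (mul2 N P)]))

/-- the cell inequality in chart 2 -/
noncomputable def cellE2 (kn kd DU DV sg : Int) (Ra dR Ua Va Q0 Q1 Q2 A B : Int) (net : P3)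
    (i j k : Nat) : P3 :=
  let X : P2 := [[Ua * Va, Ua], [Va, 1]]
  let O : P2 := add2 [[DU * DV]] (sm2 (-1) X)
  let T : P2 := add2 [[2 * (DU * DV)]] (sm2 (-1) X)
  let N : P2 := add2 [[DU * DV * (DU * DV)]] (mul2 O O)
  let P : P2 := [[A - B * (Ua * Ua)], [-(2 * (B * Ua))], [-B]]
  let V : P2 := [[Va, 1]]
  let hv := hV net i j k
  add3 (mulR (pR Ra dR)
    (add3 (add3 (mul23 (sm2 (200 * kn * kd * (DU * DV) * (DU * DV) * sg) O) (hR net i j k))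
      (mul23 (sm2 (-(dR * 20 * kn * kn * (DU * DV) * DU)) (mul2 X T)) (hU net i j k)))
      (mul23 (add2 (sm2 (dR * 20 * kn * kn * DU * (DU * DV)) (mul2 V (mul2 V T)))
        (sm2 (dR * 10 * kd * kd * DV) (mul2 N O))) hv)))
    (add3 (mulR (pF Ra dR) (mul23 (sm2 (-(dR * kn * kd * sg)) (mul2 N (mul2 V T))) hv))
      (mulR (mul1 (pR2 Ra dR) (pQ Q0 Q1 Q2 dR)) [sm2 (dR * 4 * kn * kd * (DU * DV)) (mul2 N P)]))

/-- the cell inequality in chart 1 -/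
noncomputable def cellE1 (kn kd DU DV sg : Int) (Ra dR Ua Va Q0 Q1 Q2 A B : Int) (net : P3)
    (i j k : Nat) : P3 :=
  let O : P2 := [[DU - Ua], [-1]]
  let T : P2 := [[2 * DU - Ua], [-1]]
  let N : P2 := add2 [[DU * DU]] (mul2 O O)
  let U : P2 := [[Ua], [1]]
  let V : P2 := [[Va, 1]]
  let X : P2 := [[Ua * Va, Ua], [Va, 1]]
  let P : P2 := add2 [[A]] (sm2 (-B) (mul2 X X))
  let hv := hV net i j k
  let G : P3 := add3 (mul23 U (hU net i j k)) (mul23 (sm2 (-1) V) hv)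
  add3 (mulR (pR Ra dR)
    (add3 (add3 (mul23 (sm2 (200 * kn * kd * DU * DU * DV * sg) O) (hR net i j k))
      (mul23 (sm2 (-(dR * 20 * kn * kn * DU * DU * DV * DV)) T) hv))
      (mul23 (sm2 (dR * 10 * kd * kd) (mul2 V (mul2 N O))) G)))
    (add3 (mulR (pF Ra dR) (mul23 (sm2 (-(dR * kn * kd * DV * sg)) (mul2 N T)) G))
      (mulR (mul1 (pR2 Ra dR) (pQ Q0 Q1 Q2 dR)) [sm2 (dR * 4 * kn * kd * DU * DV) (mul2 N P)]))

end SShr
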