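import Pool.Agent.Lib.MP_49c3df_gt.Poly

/-! JOB PosS (MP_49c3df_gt): soundness of the Bernstein positivity test.

`bernG ad z p acc` reads the coefficients `a` of `p` and replaces the accumulator `acc` by
`addG ad (snocG acc a) (z :: acc)`. Recursor equations hold by `rfl` (state them first:
`bernG ad z [] acc = acc`, `bernG ad z (a :: p) acc = bernG ad z p (addG ad (snocG acc a) (z :: acc))`,
`snocG [] x = [x]`, `snocG (a :: p) x = a :: snocG p x`, `allG f (a :: p) = Bool.rec false (allG f p) (f a)`).

PROOF. For a list `l = [b_0, ..., b_m]` put `hom l x y = Σ b_i x^i y^(m-i)` (`hom [] = 0`,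
`hom (b :: l) = e b * y ^ l.length + x * hom l`). Facts (induction): `hom (snocG l a) = y * hom l + e a * x ^ l.length`;
`hom (addG l l') = hom l + hom l'` if the lengths are equal; `hom (z :: l) = x * hom l` if `e z = 0`;
`snocG` and `z :: ·` raise the length by one, `addG` of equal lengths keeps it. So for `x + y = 1`:
`hom (addG ad (snocG acc a) (z :: acc)) = (x + y) hom acc + e a * x ^ (length acc) = hom acc + e a * x ^ (length acc)`,
and by induction on `p`: `hom (bernG ad z p acc) = hom acc + x ^ (length acc) * evG e x p`. With `acc = []`: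
`evG e x p = hom (bernG ad z p []) x (1 - x)`. If all entries `b` of a list satisfy `0 ≤ e b` and `0 ≤ x, y` then
`0 ≤ hom`. `allG f l = true` means `f b = true` for all `b ∈ l`. So `bern_pos` below; apply it at the three levels. -/

namespace SShr

private theorem PosS_allG_cons {α : Type} (f : α → Bool) (a : α) (p : List α) :
    allG f (a :: p) = Bool.rec false (allG f p) (f a) := rfl

private theorem PosS_addG_nil {α : Type} (ad : α → α → α) (q : List α) : addG ad [] q = q := rfl

private theorem PosS_addG_cons_nil {α : Type} (ad : α → α → α) (a : α) (p : List α) :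
    addG ad (a :: p) [] = a :: p := rfl

private theorem PosS_addG_cons {α : Type} (ad : α → α → α) (a b : α) (p q : List α) :
    addG ad (a :: p) (b :: q) = ad a b :: addG ad p q := rfl

private theorem PosS_snoc_cons {α : Type} (a x : α) (p : List α) :
    snocG (a :: p) x = a :: snocG p x := rfl

private theorem PosS_bern_nil {α : Type} (ad : α → α → α) (z : α) (acc : List α) :
    bernG ad z [] acc = acc := rfl

private theorem PosS_bern_cons {α : Type} (ad : α → α → α) (z a : α) (p acc : List α) :
    bernG ad z (a :: p) acc = bernG ad z p (addG ad (snocG acc a) (z :: acc)) := rfl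

theorem allG_iff {α : Type} (f : α → Bool) (p : List α) :
    allG f p = true ↔ ∀ a ∈ p, f a = true := by
  induction p with
  | nil => exact ⟨fun _ a ha => absurd ha List.not_mem_nil, fun _ => rfl⟩
  | cons a p ih =>
    rw [PosS_allG_cons, List.forall_mem_cons, ← ih]
    cases h : f a with
    | false => simp
    | true => simp

/-- the homogeneous form -/
private noncomputable def PosS_hom {α : Type} (e : α → ℝ) (x y : ℝ) : List α → ℝ
  | [] => 0
  | b :: l => e b * y ^ l.length + x * PosS_hom e x y l

private theorem PosS_hom_cons {α : Type} (e : α → ℝ) (x y : ℝ) (b : α) (l : List α) :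
    PosS_hom e x y (b :: l) = e b * y ^ l.length + x * PosS_hom e x y l := rfl

private theorem PosS_len_snoc {α : Type} (l : List α) (a : α) : (snocG l a).length = l.length + 1 := by
  induction l with
  | nil => rfl
  | cons b l ih => rw [PosS_snoc_cons, List.length_cons, ih, List.length_cons]

private theorem PosS_len_add {α : Type} (ad : α → α → α) (l l' : List α) (h : l.length = l'.length) :
    (addG ad l l').length = l.length := by
  induction l generalizing l' with
  | nil =>
    rw [PosS_addG_nil, ← h]
  | cons b l ih =>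
    cases l' with
    | nil => rfl
    | cons b' l' =>
      rw [PosS_addG_cons, List.length_cons, List.length_cons,
        ih l' (by rw [List.length_cons, List.length_cons] at h; omega)]

private theorem PosS_hom_snoc {α : Type} (e : α → ℝ) (x y : ℝ) (l : List α) (a : α) :
    PosS_hom e x y (snocG l a) = y * PosS_hom e x y l + e a * x ^ l.length := by
  induction l with
  | nil =>
    have h1 : PosS_hom e x y (snocG [] a) = e a * y ^ 0 + x * 0 := rfl
    have h2 : PosS_hom e x y ([] : List α) = 0 := rfl
    rw [h1, h2, List.length_nil]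
    ring
  | cons b l ih =>
    rw [PosS_snoc_cons, PosS_hom_cons, PosS_hom_cons, ih, PosS_len_snoc, List.length_cons]
    ring

private theorem PosS_hom_add {α : Type} (e : α → ℝ) (ad : α → α → α) (h : ∀ a b, e (ad a b) = e a + e b)
    (x y : ℝ) (l l' : List α) (hl : l.length = l'.length) :
    PosS_hom e x y (addG ad l l') = PosS_hom e x y l + PosS_hom e x y l' := by
  induction l generalizing l' with
  | nil =>
    have h1 : PosS_hom e x y ([] : List α) = 0 := rfl
    rw [PosS_addG_nil, h1, zero_add]
  | cons b l ih =>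
    cases l' with
    | nil => simp at hl
    | cons b' l' =>
      have hl' : l.length = l'.length := by
        rw [List.length_cons, List.length_cons] at hl
        omega
      rw [PosS_addG_cons, PosS_hom_cons, PosS_hom_cons, PosS_hom_cons, ih l' hl', PosS_len_add ad l l' hl',
        h, ← hl']
      ring

private theorem PosS_hom_bern {α : Type} (e : α → ℝ) (ad : α → α → α) (z : α)
    (h : ∀ a b, e (ad a b) = e a + e b) (hz : e z = 0) (x y : ℝ) (hxy : x + y = 1) (p acc : List α) :
    PosS_hom e x y (bernG ad z p acc) = PosS_hom e x y acc + x ^ acc.length * evG e x p := by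
  induction p generalizing acc with
  | nil =>
    have h1 : evG e x ([] : List α) = 0 := rfl
    rw [PosS_bern_nil, h1, mul_zero, add_zero]
  | cons a p ih =>
    have h1 : evG e x (a :: p) = e a + x * evG e x p := rfl
    have hlen : (snocG acc a).length = (z :: acc).length := by
      rw [PosS_len_snoc, List.length_cons]
    rw [PosS_bern_cons, ih, PosS_hom_add e ad h x y _ _ hlen, PosS_len_add ad _ _ hlen, PosS_len_snoc,
      PosS_hom_snoc, PosS_hom_cons, hz, h1]
    have h2 : y = 1 - x := by linarith
    rw [h2]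
    ring

private theorem PosS_hom_nonneg {α : Type} (e : α → ℝ) (x y : ℝ) (hx : 0 ≤ x) (hy : 0 ≤ y) (l : List α)
    (hl : ∀ b ∈ l, 0 ≤ e b) : 0 ≤ PosS_hom e x y l := by
  induction l with
  | nil => exact le_rfl
  | cons b l ih =>
    rw [List.forall_mem_cons] at hl
    rw [PosS_hom_cons]
    exact add_nonneg (mul_nonneg hl.1 (pow_nonneg hy _)) (mul_nonneg hx (ih hl.2))

theorem bern_pos {α : Type} (e : α → ℝ) (ad : α → α → α) (z : α)
    (h : ∀ a b, e (ad a b) = e a + e b) (hz : e z = 0) (p : List α) (t : ℝ) (h0 : 0 ≤ t) (h1 : t ≤ 1)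
    (hp : ∀ b ∈ bernG ad z p [], 0 ≤ e b) : 0 ≤ evG e t p := by
  have h2 := PosS_hom_bern e ad z h hz t (1 - t) (by ring) p []
  have h3 : PosS_hom e t (1 - t) ([] : List α) = 0 := rfl
  rw [h3, List.length_nil, pow_zero, one_mul, zero_add] at h2
  rw [← h2]
  exact PosS_hom_nonneg e t (1 - t) h0 (by linarith) _ hp

private theorem PosS_ev_add {α : Type} (e : α → ℝ) (ad : α → α → α) (h : ∀ a b, e (ad a b) = e a + e b)
    (t : ℝ) (p q : List α) : evG e t (addG ad p q) = evG e t p + evG e t q := by
  induction p generalizing q with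
  | nil =>
    have h1 : evG e t ([] : List α) = 0 := rfl
    rw [PosS_addG_nil, h1, zero_add]
  | cons a p ih =>
    cases q with
    | nil =>
      have h1 : evG e t ([] : List α) = 0 := rfl
      rw [PosS_addG_cons_nil, h1, add_zero]
    | cons b q =>
      have h1 : ∀ (c : α) (l : List α), evG e t (c :: l) = e c + t * evG e t l := fun _ _ => rfl
      rw [PosS_addG_cons, h1, h1, h1, ih, h]
      ring

private theorem PosS_add0 (a b : ℤ) : ((Int.add a b : ℤ) : ℝ) = (a : ℝ) + (b : ℝ) := by
  have h : Int.add a b = a + b := rfl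
  rw [h, Int.cast_add]

private theorem PosS_add1 (z : ℝ) (p q : P1) : ev1 z (add1 p q) = ev1 z p + ev1 z q :=
  PosS_ev_add (fun a : ℤ => (a : ℝ)) Int.add PosS_add0 z p q

private theorem PosS_add2 (y z : ℝ) (p q : P2) : ev2 y z (add2 p q) = ev2 y z p + ev2 y z q :=
  PosS_ev_add (ev1 z) add1 (PosS_add1 z) y p q

theorem pos1_sound (p : P1) (z : ℝ) (hz : 0 ≤ z) (hz1 : z ≤ 1) (h : pos1 p = true) :
    0 ≤ ev1 z p := by
  refine bern_pos (fun a : ℤ => (a : ℝ)) Int.add 0 PosS_add0 Int.cast_zero p z hz hz1 ?_
  intro b hb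
  have h1 := (allG_iff _ _).mp h b hb
  cases b with
  | ofNat n =>
    show (0 : ℝ) ≤ ((Int.ofNat n : ℤ) : ℝ)
    have h2 : (0 : ℤ) ≤ Int.ofNat n := Int.natCast_nonneg n
    exact_mod_cast h2
  | negSucc n => exact absurd h1 Bool.false_ne_true

theorem pos2_sound (p : P2) (y z : ℝ) (hy : 0 ≤ y) (hy1 : y ≤ 1) (hz : 0 ≤ z) (hz1 : z ≤ 1)
    (h : pos2 p = true) : 0 ≤ ev2 y z p := by
  refine bern_pos (ev1 z) add1 [] (PosS_add1 z) rfl p y hy hy1 ?_
  intro b hb
  exact pos1_sound b z hz hz1 ((allG_iff _ _).mp h b hb)

theorem pos3_sound (p : P3) (x y z : ℝ) (hx : 0 ≤ x) (hx1 : x ≤ 1) (hy : 0 ≤ y) (hy1 : y ≤ 1)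
    (hz : 0 ≤ z) (hz1 : z ≤ 1) (h : pos3 p = true) : 0 ≤ ev3 x y z p := by
  refine bern_pos (ev2 y z) add2 [] (PosS_add2 y z) rfl p x hx hx1 ?_
  intro b hb
  exact pos2_sound b y z hy hy1 hz hz1 ((allG_iff _ _).mp h b hb)

end SShr
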