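import Pool.Agent.Lib.MP_49c3df_gt.PolyS
import Pool.Agent.Lib.MP_49c3df_gt.PosS
import Pool.Agent.Lib.MP_49c3df_gt.Cell

/-! JOB Cell2S (MP_49c3df_gt): meaning of the cell test in chart 2.

PROOF. `ev3 x y z (cellE2 ...) = 100 * kn * kd * (DU * DV) ^ 3 * dR * DH * E2n (...)` (unfold `cellE2`, use the `ev` lemmas of
`PolyS`, evaluate the explicit small lists with `simp [ev1, ev2, ev3, evG]`, unfold `E2n`, `field_simp`, `ring`);
the left side is `≥ 0` by `pos3_sound`, and the factor is positive. (Hint: `set` or `generalize` the three values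
`tens ..` before `field_simp`/`ring`.) -/

namespace SShr

theorem ev3_cellE2 (kn kd DU DV sg Ra dR Ua Va Q0 Q1 Q2 A B : ℤ) (net : P3) (i j k : ℕ)
    (x y z : ℝ) :
    ev3 x y z (cellE2 kn kd DU DV sg Ra dR Ua Va Q0 Q1 Q2 A B net i j k) =
      (Ra + dR * x) * (200 * kn * kd * (DU * DV) * (DU * DV) * sg * (DU * DV - (Ua + y) * (Va + z)) *
          tens dbq bq bq (rn net) i j k x y z
        - dR * 20 * kn * kn * (DU * DV) * DU * ((Ua + y) * (Va + z) * (2 * (DU * DV) - (Ua + y) * (Va + z))) *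
          tens bq dbq bq (rn net) i j k x y z
        + (dR * 20 * kn * kn * DU * (DU * DV) * ((Va + z) * ((Va + z) * (2 * (DU * DV) - (Ua + y) * (Va + z))))
          + dR * 10 * kd * kd * DV * ((DU * DV * (DU * DV) + (DU * DV - (Ua + y) * (Va + z)) ^ 2) *
          (DU * DV - (Ua + y) * (Va + z)))) * tens bq bq dbq (rn net) i j k x y z)
      - (50 - (Ra + dR * x) ^ 2) * (dR * kn * kd * sg *
          ((DU * DV * (DU * DV) + (DU * DV - (Ua + y) * (Va + z)) ^ 2) * ((Va + z) * (2 * (DU * DV) - (Ua + y) * (Va + z))))) *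
          tens bq bq dbq (rn net) i j k x y z
      + (Ra + dR * x) ^ 2 * (Q0 + Q1 * (dR * x) + Q2 * (dR * x) ^ 2) *
        (dR * 4 * kn * kd * (DU * DV) * ((DU * DV * (DU * DV) + (DU * DV - (Ua + y) * (Va + z)) ^ 2) *
          (A - B * (Ua + y) ^ 2))) := by
  have e : ∀ w : P2, ev3 x y z [w] = ev2 y z w := by
    intro w; simp [ev3, evG]
  unfold cellE2
  simp only [ev3_add, ev3_mulR, ev3_mul23, ev2_sm, ev2_mul, ev2_add, ev3_hR, ev3_hU, ev3_hV,
    ev1_mul, e]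
  simp only [ev2, ev1, evG, pR, pR2, pF, pQ]
  push_cast
  ring

theorem cell2_sound (kn kd DU DV sg Ra dR Ua Va Q0 Q1 Q2 A B : ℤ) (net : P3) (i j k : ℕ)
    (h : pos3 (cellE2 kn kd DU DV sg Ra dR Ua Va Q0 Q1 Q2 A B net i j k) = true)
    (hkn : 0 < kn) (hkd : 0 < kd) (hDU : 0 < DU) (hDV : 0 < DV) (hdR : 0 < dR) (DH : ℝ)
    (hDH : 0 < DH) (x y z : ℝ) (hx : 0 ≤ x) (hx1 : x ≤ 1) (hy : 0 ≤ y) (hy1 : y ≤ 1) (hz : 0 ≤ z)
    (hz1 : z ≤ 1) :
    0 ≤ E2n ((kn : ℝ) / kd) sg ((Ra + dR * x) / 5) ((Ua + y) / DU) ((Va + z) / DV)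
      (5 / dR * (tens dbq bq bq (rn net) i j k x y z / DH))
      (DU * (tens bq dbq bq (rn net) i j k x y z / DH))
      (DV * (tens bq bq dbq (rn net) i j k x y z / DH))
      ((Q0 + Q1 * (dR * x) + Q2 * (dR * x) ^ 2) * (A - B * (Ua + y) ^ 2) / DH) := by
  have hE := pos3_sound _ x y z hx hx1 hy hy1 hz hz1 h
  rw [ev3_cellE2] at hE
  have hkn' : (0 : ℝ) < kn := by exact_mod_cast hkn
  have hkd' : (0 : ℝ) < kd := by exact_mod_cast hkd
  have hDU' : (0 : ℝ) < DU := by exact_mod_cast hDU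
  have hDV' : (0 : ℝ) < DV := by exact_mod_cast hDV
  have hdR' : (0 : ℝ) < dR := by exact_mod_cast hdR
  generalize tens dbq bq bq (rn net) i j k x y z = a1 at *
  generalize tens bq dbq bq (rn net) i j k x y z = a2 at *
  generalize tens bq bq dbq (rn net) i j k x y z = a3 at *
  have hc : (0 : ℝ) < 100 * kn * kd * (DU * DV) ^ 3 * dR * DH := by positivity
  refine (mul_nonneg_iff_of_pos_left hc).1 ?_
  refine le_of_le_of_eq hE ?_
  unfold E2n
  field_simp
  ring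

end SShr
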