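import Pool.Agent.Lib.MP_49c3df_gt.TensD

/-! JOB Chain1 (MP_49c3df_gt): derivative of a cell polynomial along the flow, chart 1
(`u = x = 1 - σ q`, `v = κ z / x`, `σ = sgn s`).

PROOF. `tens_deriv` gives `F' = hx * (5 r' / (K1 - K0)) + hy * (DU x') + hz * (DV v')` with
`x' = -σ q'`, `v' = κ z' / x - κ z x' / x^2`. With `σ ^ 2 = 1`, `q = σ (1 - x)`, `1 - q^2 = x (2 - x)`,
`1 + q^2 = 1 + (1-x)^2`, `κ z = u v`, and `HR = 5/(K1-K0) hx`, `HU = DU hy`, `HV = DV hz` the exact identity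
`r * (F' + r gw (1 + q^2) u0) = u0 * E1n κ σ r x (κ z/x) HR HU HV gw` holds (`u0` = the speed
factor `u` of the statement; the function `E1n` contains `u hu - v hv`, and `z = u v / κ`).
Since `r > 0`, `u > 0`, the claim follows. (Do `cases s`, then `field_simp; ring`.) -/

namespace SShr

theorem Chain1_alg {κ σ r z q u T1 T2 T3 K DU DV w : ℝ} (hκ : κ ≠ 0) (hr : r ≠ 0)
    (hx : 1 - σ * q ≠ 0) (hK : K ≠ 0) (hσ : σ = 1 ∨ σ = -1) :
    r * (T1 * (5 * (2 * q * u) / K)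
      + T2 * (DU * -(σ * (u * (1 + q ^ 2) / 2 * ((1 / r - r / 2) * (1 - q ^ 2) - z * q))))
      + T3 * (DV * ((κ * (-(1 - q ^ 2) * u) * (1 - σ * q)
        - κ * z * -(σ * (u * (1 + q ^ 2) / 2 * ((1 / r - r / 2) * (1 - q ^ 2) - z * q))))
          / (1 - σ * q) ^ 2))
      + r * w * (1 + q ^ 2) * u) =
    u * E1n κ σ r (1 - σ * q) (κ * z / (1 - σ * q)) (5 / K * T1) (DU * T2) (DV * T3) w := by
  unfold E1n
  rcases hσ with rfl | rfl
  · rw [one_mul] at hx ⊢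
    field_simp
    ring
  · rw [neg_one_mul] at hx ⊢
    field_simp
    ring

theorem chain1 {κ : ℝ} (hκ : 0 < κ) (s : Bool) (g : ℕ → ℕ → ℕ → ℝ) (i a b : ℕ)
    (K0 K1 DU DV Ua Va : ℝ) (hK : K0 < K1) {r z q : ℝ → ℝ} {t u : ℝ}
    (hr : HasDerivAt r (2 * q t * u) t) (hz : HasDerivAt z (-(1 - q t ^ 2) * u) t)
    (hq : HasDerivAt q
      (u * (1 + q t ^ 2) / 2 * ((1 / r t - r t / 2) * (1 - q t ^ 2) - z t * q t)) t)
    (hu : 0 < u) (hr0 : 0 < r t) (hx0 : 0 < 1 - sgn s * q t)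
    (hE : 0 ≤ E1n κ (sgn s) (r t) (1 - sgn s * q t) (κ * z t / (1 - sgn s * q t))
      (5 / (K1 - K0) * tens dbq bq bq g i a b ((5 * r t - K0) / (K1 - K0))
        (DU * (1 - sgn s * q t) - Ua) (DV * (κ * z t / (1 - sgn s * q t)) - Va))
      (DU * tens bq dbq bq g i a b ((5 * r t - K0) / (K1 - K0))
        (DU * (1 - sgn s * q t) - Ua) (DV * (κ * z t / (1 - sgn s * q t)) - Va))
      (DV * tens bq bq dbq g i a b ((5 * r t - K0) / (K1 - K0))
        (DU * (1 - sgn s * q t) - Ua) (DV * (κ * z t / (1 - sgn s * q t)) - Va))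
      (gw (r t) (z t))) :
    ∃ F', HasDerivAt (fun t => tens bq bq bq g i a b ((5 * r t - K0) / (K1 - K0))
        (DU * (1 - sgn s * q t) - Ua) (DV * (κ * z t / (1 - sgn s * q t)) - Va)) F' t ∧
      0 ≤ F' + r t * gw (r t) (z t) * (1 + q t ^ 2) * u := by
  have hσ : sgn s = 1 ∨ sgn s = -1 := by
    cases s
    · exact Or.inr rfl
    · exact Or.inl rfl
  have hK' : K1 - K0 ≠ 0 := by
    have : 0 < K1 - K0 := by linarith
    exact this.ne'
  have hX : HasDerivAt (fun t => (5 * r t - K0) / (K1 - K0)) (5 * (2 * q t * u) / (K1 - K0)) t :=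
    ((hr.const_mul 5).sub_const K0).div_const (K1 - K0)
  have hx : HasDerivAt (fun t => 1 - sgn s * q t)
      (-(sgn s * (u * (1 + q t ^ 2) / 2 * ((1 / r t - r t / 2) * (1 - q t ^ 2) - z t * q t)))) t :=
    (hq.const_mul (sgn s)).const_sub 1
  have hY : HasDerivAt (fun t => DU * (1 - sgn s * q t) - Ua)
      (DU * -(sgn s * (u * (1 + q t ^ 2) / 2 * ((1 / r t - r t / 2) * (1 - q t ^ 2) - z t * q t)))) t :=
    (hx.const_mul DU).sub_const Ua
  have hZ : HasDerivAt (fun t => DV * (κ * z t / (1 - sgn s * q t)) - Va)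
      (DV * ((κ * (-(1 - q t ^ 2) * u) * (1 - sgn s * q t)
        - κ * z t * -(sgn s * (u * (1 + q t ^ 2) / 2 *
          ((1 / r t - r t / 2) * (1 - q t ^ 2) - z t * q t))))
          / (1 - sgn s * q t) ^ 2)) t :=
    (((hz.const_mul κ).div hx hx0.ne').const_mul DV).sub_const Va
  refine ⟨_, tens_deriv g i a b hX hY hZ, ?_⟩
  have h1 := Chain1_alg (κ := κ) (σ := sgn s) (r := r t) (z := z t) (q := q t) (u := u)
    (T1 := tens dbq bq bq g i a b ((5 * r t - K0) / (K1 - K0))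
        (DU * (1 - sgn s * q t) - Ua) (DV * (κ * z t / (1 - sgn s * q t)) - Va))
    (T2 := tens bq dbq bq g i a b ((5 * r t - K0) / (K1 - K0))
        (DU * (1 - sgn s * q t) - Ua) (DV * (κ * z t / (1 - sgn s * q t)) - Va))
    (T3 := tens bq bq dbq g i a b ((5 * r t - K0) / (K1 - K0))
        (DU * (1 - sgn s * q t) - Ua) (DV * (κ * z t / (1 - sgn s * q t)) - Va))
    (K := K1 - K0) (DU := DU) (DV := DV) (w := gw (r t) (z t)) hκ.ne' hr0.ne' hx0.ne' hK' hσ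
  have h2 := mul_nonneg hu.le hE
  rw [← h1] at h2
  exact nonneg_of_mul_nonneg_right h2 hr0

end SShr
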