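import Pool.Agent.Lib.MP_49c3df_gt.TensD

/-! JOB Chain2 (MP_49c3df_gt): derivative of a cell polynomial along the flow, chart 2
(`u = κ z`, `v = x / (κ z)`, `x = 1 - σ q`, `σ = sgn s`).

PROOF. `tens_deriv` gives `F' = hx * (5 r' / (K1 - K0)) + hy * (DU κ z') + hz * (DV v')` with
`v' = x' / (κ z) - x z' / (κ z^2)`, `x' = -σ q'`. With `σ ^ 2 = 1`, `q = σ (1 - x)`, `1 - q^2 = x (2 - x)`,
`1 + q^2 = 1 + (1-x)^2`, `x = u v`, and `HR = 5/(K1-K0) hx`, `HU = DU hy`, `HV = DV hz` the exact identity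
`r * (F' + r gw (1 + q^2) u0) = u0 * E2n κ σ r (κ z) (x/(κ z)) HR HU HV gw` holds (`u0` = the speed
factor `u` of the statement). Since `r > 0`, `u > 0`, the claim follows.
(Do `cases s`, then `field_simp; ring` or `linear_combination`.) -/

namespace SShr

theorem chain2 {κ : ℝ} (hκ : 0 < κ) (s : Bool) (g : ℕ → ℕ → ℕ → ℝ) (i a b : ℕ)
    (K0 K1 DU DV Ua Va : ℝ) (hK : K0 < K1) {r z q : ℝ → ℝ} {t u : ℝ}
    (hr : HasDerivAt r (2 * q t * u) t) (hz : HasDerivAt z (-(1 - q t ^ 2) * u) t)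
    (hq : HasDerivAt q
      (u * (1 + q t ^ 2) / 2 * ((1 / r t - r t / 2) * (1 - q t ^ 2) - z t * q t)) t)
    (hu : 0 < u) (hr0 : 0 < r t) (hz0 : 0 < z t)
    (hE : 0 ≤ E2n κ (sgn s) (r t) (κ * z t) ((1 - sgn s * q t) / (κ * z t))
      (5 / (K1 - K0) * tens dbq bq bq g i a b ((5 * r t - K0) / (K1 - K0)) (DU * (κ * z t) - Ua)
        (DV * ((1 - sgn s * q t) / (κ * z t)) - Va))
      (DU * tens bq dbq bq g i a b ((5 * r t - K0) / (K1 - K0)) (DU * (κ * z t) - Ua)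
        (DV * ((1 - sgn s * q t) / (κ * z t)) - Va))
      (DV * tens bq bq dbq g i a b ((5 * r t - K0) / (K1 - K0)) (DU * (κ * z t) - Ua)
        (DV * ((1 - sgn s * q t) / (κ * z t)) - Va))
      (gw (r t) (z t))) :
    ∃ F', HasDerivAt (fun t => tens bq bq bq g i a b ((5 * r t - K0) / (K1 - K0))
        (DU * (κ * z t) - Ua) (DV * ((1 - sgn s * q t) / (κ * z t)) - Va)) F' t ∧
      0 ≤ F' + r t * gw (r t) (z t) * (1 + q t ^ 2) * u := by
  have hK0 : K1 - K0 ≠ 0 := (sub_pos.2 hK).ne'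
  have hz1 : z t ≠ 0 := hz0.ne'
  have hr1 : r t ≠ 0 := hr0.ne'
  have hk1 : κ ≠ 0 := hκ.ne'
  have hX : HasDerivAt (fun t => (5 * r t - K0) / (K1 - K0)) (5 * (2 * q t * u) / (K1 - K0)) t :=
    ((hr.const_mul 5).sub_const K0).div_const (K1 - K0)
  have hY : HasDerivAt (fun t => DU * (κ * z t) - Ua) (DU * (κ * (-(1 - q t ^ 2) * u))) t :=
    ((hz.const_mul κ).const_mul DU).sub_const Ua
  have hx : HasDerivAt (fun t => 1 - sgn s * q t) (-(sgn s * (u * (1 + q t ^ 2) / 2 *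
      ((1 / r t - r t / 2) * (1 - q t ^ 2) - z t * q t)))) t := (hq.const_mul (sgn s)).const_sub 1
  have hZ : HasDerivAt (fun t => DV * ((1 - sgn s * q t) / (κ * z t)) - Va)
      (DV * ((-(sgn s * (u * (1 + q t ^ 2) / 2 *
      ((1 / r t - r t / 2) * (1 - q t ^ 2) - z t * q t))) * (κ * z t) -
        (1 - sgn s * q t) * (κ * (-(1 - q t ^ 2) * u))) / (κ * z t) ^ 2)) t :=
    ((hx.div (hz.const_mul κ) (mul_ne_zero hk1 hz1)).const_mul DV).sub_const Va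
  refine ⟨_, tens_deriv g i a b hX hY hZ, ?_⟩
  generalize tens dbq bq bq g i a b ((5 * r t - K0) / (K1 - K0)) (DU * (κ * z t) - Ua)
        (DV * ((1 - sgn s * q t) / (κ * z t)) - Va) = hx' at hE ⊢
  generalize tens bq dbq bq g i a b ((5 * r t - K0) / (K1 - K0)) (DU * (κ * z t) - Ua)
        (DV * ((1 - sgn s * q t) / (κ * z t)) - Va) = hy' at hE ⊢
  generalize tens bq bq dbq g i a b ((5 * r t - K0) / (K1 - K0)) (DU * (κ * z t) - Ua)
        (DV * ((1 - sgn s * q t) / (κ * z t)) - Va) = hz' at hE ⊢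
  generalize gw (r t) (z t) = w at hE ⊢
  generalize r t = R at hE hr0 hr1 ⊢
  generalize z t = Z at hE hz0 hz1 ⊢
  generalize q t = Q at hE ⊢
  have key : R * (hx' * (5 * (2 * Q * u) / (K1 - K0)) + hy' * (DU * (κ * (-(1 - Q ^ 2) * u))) +
      hz' * (DV * ((-(sgn s * (u * (1 + Q ^ 2) / 2 *
      ((1 / R - R / 2) * (1 - Q ^ 2) - Z * Q))) * (κ * Z) -
        (1 - sgn s * Q) * (κ * (-(1 - Q ^ 2) * u))) / (κ * Z) ^ 2)) +
      R * w * (1 + Q ^ 2) * u) =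
      u * E2n κ (sgn s) R (κ * Z) ((1 - sgn s * Q) / (κ * Z)) (5 / (K1 - K0) * hx') (DU * hy')
        (DV * hz') w := by
    unfold E2n
    cases s
    · simp only [sgn]
      field_simp
      ring
    · simp only [sgn]
      field_simp
      ring
  have h1 : 0 ≤ R * (hx' * (5 * (2 * Q * u) / (K1 - K0)) + hy' * (DU * (κ * (-(1 - Q ^ 2) * u))) +
      hz' * (DV * ((-(sgn s * (u * (1 + Q ^ 2) / 2 *
      ((1 / R - R / 2) * (1 - Q ^ 2) - Z * Q))) * (κ * Z) -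
        (1 - sgn s * Q) * (κ * (-(1 - Q ^ 2) * u))) / (κ * Z) ^ 2)) +
      R * w * (1 + Q ^ 2) * u) := by
    rw [key]
    exact mul_nonneg hu.le hE
  exact nonneg_of_mul_nonneg_right h1 hr0

end SShr
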