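import Pool.Agent.Lib.MP_49c3df_gt.TensD

/-! JOB Chain3 (MP_49c3df_gt): derivative of a cell polynomial along the flow, chart 3
(`u = κ z`, `v = x = 1 - σ q`, `σ = sgn s`).

PROOF. `tens_deriv` gives the derivative `F' = hx * (5 r' / (K1 - K0)) + hy * (DU κ z') + hz * (DV * (-σ q'))`.
Put `x = 1 - σ q`; `σ ^ 2 = 1`, so `q = σ (1 - x)`, `1 - q^2 = x (2 - x)`, `1 + q^2 = 1 + (1-x)^2`. With
`HR = 5/(K1-K0) hx`, `HU = DU hy`, `HV = DV hz` the exact identity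
`r * (F' + r gw (1 + q^2) u) = u * E3n κ σ r (κ z) x HR HU HV gw` holds (the three terms are
`2 q r HR`, `-κ r (1 - q^2) HU`, `-σ HV (1+q^2)/2 ((1 - r^2/2)(1 - q^2) - r z q)`). Since `r > 0`, `u > 0`,
the claim follows. (Do `cases s`, then `field_simp; ring` or `linear_combination`.) -/

namespace SShr

private theorem Chain3_alg {κ σ r z q u K0 K1 DU DV A B C W : ℝ} (hκ : 0 < κ)
    (hσ : σ = 1 ∨ σ = -1) (hK : K0 < K1) (hu : 0 < u) (hr : 0 < r)
    (hE : 0 ≤ E3n κ σ r (κ * z) (1 - σ * q) (5 / (K1 - K0) * A) (DU * B) (DV * C) W) :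
    0 ≤ A * (5 * (2 * q * u) / (K1 - K0)) + B * (DU * (κ * (-(1 - q ^ 2) * u)))
      + C * (DV * (-(σ * (u * (1 + q ^ 2) / 2 * ((1 / r - r / 2) * (1 - q ^ 2) - z * q)))))
      + r * W * (1 + q ^ 2) * u := by
  have hK' : K1 - K0 ≠ 0 := by
    have : 0 < K1 - K0 := by linarith
    exact this.ne'
  have key : A * (5 * (2 * q * u) / (K1 - K0)) + B * (DU * (κ * (-(1 - q ^ 2) * u)))
      + C * (DV * (-(σ * (u * (1 + q ^ 2) / 2 * ((1 / r - r / 2) * (1 - q ^ 2) - z * q)))))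
      + r * W * (1 + q ^ 2) * u =
      u / r * E3n κ σ r (κ * z) (1 - σ * q) (5 / (K1 - K0) * A) (DU * B) (DV * C) W := by
    rw [E3n]
    rcases hσ with h | h <;> subst h <;> field_simp <;> ring
  rw [key]
  exact mul_nonneg (div_pos hu hr).le hE

theorem chain3 {κ : ℝ} (hκ : 0 < κ) (s : Bool) (g : ℕ → ℕ → ℕ → ℝ) (i a b : ℕ)
    (K0 K1 DU DV Ua Va : ℝ) (hK : K0 < K1) {r z q : ℝ → ℝ} {t u : ℝ}
    (hr : HasDerivAt r (2 * q t * u) t) (hz : HasDerivAt z (-(1 - q t ^ 2) * u) t)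
    (hq : HasDerivAt q
      (u * (1 + q t ^ 2) / 2 * ((1 / r t - r t / 2) * (1 - q t ^ 2) - z t * q t)) t)
    (hu : 0 < u) (hr0 : 0 < r t)
    (hE : 0 ≤ E3n κ (sgn s) (r t) (κ * z t) (1 - sgn s * q t)
      (5 / (K1 - K0) * tens dbq bq bq g i a b ((5 * r t - K0) / (K1 - K0)) (DU * (κ * z t) - Ua)
        (DV * (1 - sgn s * q t) - Va))
      (DU * tens bq dbq bq g i a b ((5 * r t - K0) / (K1 - K0)) (DU * (κ * z t) - Ua)
        (DV * (1 - sgn s * q t) - Va))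
      (DV * tens bq bq dbq g i a b ((5 * r t - K0) / (K1 - K0)) (DU * (κ * z t) - Ua)
        (DV * (1 - sgn s * q t) - Va))
      (gw (r t) (z t))) :
    ∃ F', HasDerivAt (fun t => tens bq bq bq g i a b ((5 * r t - K0) / (K1 - K0))
        (DU * (κ * z t) - Ua) (DV * (1 - sgn s * q t) - Va)) F' t ∧
      0 ≤ F' + r t * gw (r t) (z t) * (1 + q t ^ 2) * u := by
  have h1 : HasDerivAt (fun t => (5 * r t - K0) / (K1 - K0)) (5 * (2 * q t * u) / (K1 - K0)) t :=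
    ((hr.const_mul 5).sub_const K0).div_const (K1 - K0)
  have h2 : HasDerivAt (fun t => DU * (κ * z t) - Ua) (DU * (κ * (-(1 - q t ^ 2) * u))) t :=
    ((hz.const_mul κ).const_mul DU).sub_const Ua
  have h3 : HasDerivAt (fun t => DV * (1 - sgn s * q t) - Va)
      (DV * (-(sgn s * (u * (1 + q t ^ 2) / 2 * ((1 / r t - r t / 2) * (1 - q t ^ 2) - z t * q t))))) t :=
    (((hq.const_mul (sgn s)).const_sub 1).const_mul DV).sub_const Va
  refine ⟨_, tens_deriv g i a b h1 h2 h3, ?_⟩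
  generalize tens dbq bq bq g i a b ((5 * r t - K0) / (K1 - K0)) (DU * (κ * z t) - Ua)
        (DV * (1 - sgn s * q t) - Va) = A at *
  generalize tens bq dbq bq g i a b ((5 * r t - K0) / (K1 - K0)) (DU * (κ * z t) - Ua)
        (DV * (1 - sgn s * q t) - Va) = B at *
  generalize tens bq bq dbq g i a b ((5 * r t - K0) / (K1 - K0)) (DU * (κ * z t) - Ua)
        (DV * (1 - sgn s * q t) - Va) = C at *
  exact Chain3_alg hκ (by cases s <;> simp [sgn]) hK hu hr0 hE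

end SShr
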