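import Pool.Agent.Lib.MP_49c3df_gt.Cell

/-! The checker over all cells of a chart. -/

namespace SShr

noncomputable def allN (n : Nat) (f : Nat → Bool) : Bool :=
  Nat.rec (motive := fun _ => Bool) true (fun m ih => Bool.rec false ih (f m)) n

/-- data common to a chart: constants, knots of `R`, quadratic lower bounds `q`, lower bounds `p`,
first knots and numbers of cells in `U`, `V`, control net -/
structure Chart where
  kn : Int
  kd : Int
  DU : Int
  DV : Int
  sg : Int
  RK : List Int
  QL : List (List Int)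
  U0 : Int
  V0 : Int
  AB : List (List (List Int))
  net : P3

noncomputable def Chart.cell (C : Chart) (E : Int → Int → Int → Int → Int → Int → Int → Int → Int → Int → Int → Int → Int → Int →
    P3 → Nat → Nat → Nat → P3) (i a b : Nat) : P3 :=
  E C.kn C.kd C.DU C.DV C.sg (nth 0 C.RK i) (nth 0 C.RK (i + 1) - nth 0 C.RK i)
    (C.U0 + a) (C.V0 + b)
    (nth 0 (nth [] C.QL i) 0) (nth 0 (nth [] C.QL i) 1) (nth 0 (nth [] C.QL i) 2)
    (nth 0 (nth [] (nth [] C.AB a) b) 0) (nth 0 (nth [] (nth [] C.AB a) b) 1) C.net i a b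

noncomputable def Chart.chk (C : Chart) (E : Int → Int → Int → Int → Int → Int → Int → Int → Int → Int → Int → Int → Int → Int →
    P3 → Nat → Nat → Nat → P3) (nR nU nV : Nat) : Bool :=
  allN nR fun i => allN nU fun a => allN nV fun b => pos3 (C.cell E i a b)

/-- sign of a sheet as an integer -/
def sgz : Bool → Int
  | true => 1
  | false => -1

/-- data of a certificate: scale `kn / kd`, knots, quadratic lower bounds `QL` for `exp (-R²/100)`,
tangent bounds `A1, A2, A3` in the three charts, control nets -/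
structure CData where
  kn : Int
  kd : Int
  RK : List Int
  QL : List (List Int)
  NR : Nat
  DX : Nat
  DZ : Nat
  DY : Nat
  DT : Nat
  NT : Nat
  A1 : List (List (List Int))
  A2 : List (List (List Int))
  A3 : List (List (List Int))
  n1 : Bool → P3
  n2 : Bool → P3
  n3 : Bool → P3

def CData.ch1 (D : CData) (s : Bool) : Chart :=
  ⟨D.kn, D.kd, D.DX, D.DZ, sgz s, D.RK, D.QL, 0, 0, D.A1, D.n1 s⟩
def CData.ch2 (D : CData) (s : Bool) : Chart :=
  ⟨D.kn, D.kd, D.DX, D.DY, sgz s, D.RK, D.QL, 0, 0, D.A2, D.n2 s⟩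
def CData.ch3 (D : CData) (s : Bool) : Chart :=
  ⟨D.kn, D.kd, D.DT, D.DY, sgz s, D.RK, D.QL, D.DT, 0, D.A3, D.n3 s⟩

end SShr
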