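import Pool.Agent.Lib.MP_49c3df_gt.DataD

/-! Kernel checks of certificate D, one theorem for each cell of `R`. -/

set_option maxRecDepth 100000

namespace SShr

theorem rD1p_0 : (allN dataD.DX fun a => allN dataD.DZ fun b =>
    pos3 ((dataD.ch1 true).cell cellE1 0 a b)) = true := by
  decide +kernel

theorem rD1p_1 : (allN dataD.DX fun a => allN dataD.DZ fun b =>
    pos3 ((dataD.ch1 true).cell cellE1 1 a b)) = true := by
  decide +kernel

theorem rD1p_2 : (allN dataD.DX fun a => allN dataD.DZ fun b =>
    pos3 ((dataD.ch1 true).cell cellE1 2 a b)) = true := by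
  decide +kernel

theorem rD1p_3 : (allN dataD.DX fun a => allN dataD.DZ fun b =>
    pos3 ((dataD.ch1 true).cell cellE1 3 a b)) = true := by
  decide +kernel

theorem rD1p_4 : (allN dataD.DX fun a => allN dataD.DZ fun b =>
    pos3 ((dataD.ch1 true).cell cellE1 4 a b)) = true := by
  decide +kernel

theorem rD1p_5 : (allN dataD.DX fun a => allN dataD.DZ fun b =>
    pos3 ((dataD.ch1 true).cell cellE1 5 a b)) = true := by
  decide +kernel

theorem rD1p_6 : (allN dataD.DX fun a => allN dataD.DZ fun b =>
    pos3 ((dataD.ch1 true).cell cellE1 6 a b)) = true := by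
  decide +kernel

theorem rD1p_7 : (allN dataD.DX fun a => allN dataD.DZ fun b =>
    pos3 ((dataD.ch1 true).cell cellE1 7 a b)) = true := by
  decide +kernel

theorem rD1p_8 : (allN dataD.DX fun a => allN dataD.DZ fun b =>
    pos3 ((dataD.ch1 true).cell cellE1 8 a b)) = true := by
  decide +kernel

theorem rD1m_0 : (allN dataD.DX fun a => allN dataD.DZ fun b =>
    pos3 ((dataD.ch1 false).cell cellE1 0 a b)) = true := by
  decide +kernel

theorem rD1m_1 : (allN dataD.DX fun a => allN dataD.DZ fun b =>
    pos3 ((dataD.ch1 false).cell cellE1 1 a b)) = true := by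
  decide +kernel

theorem rD1m_2 : (allN dataD.DX fun a => allN dataD.DZ fun b =>
    pos3 ((dataD.ch1 false).cell cellE1 2 a b)) = true := by
  decide +kernel

theorem rD1m_3 : (allN dataD.DX fun a => allN dataD.DZ fun b =>
    pos3 ((dataD.ch1 false).cell cellE1 3 a b)) = true := by
  decide +kernel

theorem rD1m_4 : (allN dataD.DX fun a => allN dataD.DZ fun b =>
    pos3 ((dataD.ch1 false).cell cellE1 4 a b)) = true := by
  decide +kernel

theorem rD1m_5 : (allN dataD.DX fun a => allN dataD.DZ fun b =>
    pos3 ((dataD.ch1 false).cell cellE1 5 a b)) = true := by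
  decide +kernel

theorem rD1m_6 : (allN dataD.DX fun a => allN dataD.DZ fun b =>
    pos3 ((dataD.ch1 false).cell cellE1 6 a b)) = true := by
  decide +kernel

theorem rD1m_7 : (allN dataD.DX fun a => allN dataD.DZ fun b =>
    pos3 ((dataD.ch1 false).cell cellE1 7 a b)) = true := by
  decide +kernel

theorem rD1m_8 : (allN dataD.DX fun a => allN dataD.DZ fun b =>
    pos3 ((dataD.ch1 false).cell cellE1 8 a b)) = true := by
  decide +kernel

theorem rD2p_0 : (allN dataD.DX fun a => allN dataD.DY fun b =>
    pos3 ((dataD.ch2 true).cell cellE2 0 a b)) = true := by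
  decide +kernel

theorem rD2p_1 : (allN dataD.DX fun a => allN dataD.DY fun b =>
    pos3 ((dataD.ch2 true).cell cellE2 1 a b)) = true := by
  decide +kernel

theorem rD2p_2 : (allN dataD.DX fun a => allN dataD.DY fun b =>
    pos3 ((dataD.ch2 true).cell cellE2 2 a b)) = true := by
  decide +kernel

theorem rD2p_3 : (allN dataD.DX fun a => allN dataD.DY fun b =>
    pos3 ((dataD.ch2 true).cell cellE2 3 a b)) = true := by
  decide +kernel

theorem rD2p_4 : (allN dataD.DX fun a => allN dataD.DY fun b =>
    pos3 ((dataD.ch2 true).cell cellE2 4 a b)) = true := by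
  decide +kernel

theorem rD2p_5 : (allN dataD.DX fun a => allN dataD.DY fun b =>
    pos3 ((dataD.ch2 true).cell cellE2 5 a b)) = true := by
  decide +kernel

theorem rD2p_6 : (allN dataD.DX fun a => allN dataD.DY fun b =>
    pos3 ((dataD.ch2 true).cell cellE2 6 a b)) = true := by
  decide +kernel

theorem rD2p_7 : (allN dataD.DX fun a => allN dataD.DY fun b =>
    pos3 ((dataD.ch2 true).cell cellE2 7 a b)) = true := by
  decide +kernel

theorem rD2p_8 : (allN dataD.DX fun a => allN dataD.DY fun b =>
    pos3 ((dataD.ch2 true).cell cellE2 8 a b)) = true := by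
  decide +kernel

theorem rD2m_0 : (allN dataD.DX fun a => allN dataD.DY fun b =>
    pos3 ((dataD.ch2 false).cell cellE2 0 a b)) = true := by
  decide +kernel

theorem rD2m_1 : (allN dataD.DX fun a => allN dataD.DY fun b =>
    pos3 ((dataD.ch2 false).cell cellE2 1 a b)) = true := by
  decide +kernel

theorem rD2m_2 : (allN dataD.DX fun a => allN dataD.DY fun b =>
    pos3 ((dataD.ch2 false).cell cellE2 2 a b)) = true := by
  decide +kernel

theorem rD2m_3 : (allN dataD.DX fun a => allN dataD.DY fun b =>
    pos3 ((dataD.ch2 false).cell cellE2 3 a b)) = true := by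
  decide +kernel

theorem rD2m_4 : (allN dataD.DX fun a => allN dataD.DY fun b =>
    pos3 ((dataD.ch2 false).cell cellE2 4 a b)) = true := by
  decide +kernel

theorem rD2m_5 : (allN dataD.DX fun a => allN dataD.DY fun b =>
    pos3 ((dataD.ch2 false).cell cellE2 5 a b)) = true := by
  decide +kernel

theorem rD2m_6 : (allN dataD.DX fun a => allN dataD.DY fun b =>
    pos3 ((dataD.ch2 false).cell cellE2 6 a b)) = true := by
  decide +kernel

theorem rD2m_7 : (allN dataD.DX fun a => allN dataD.DY fun b =>
    pos3 ((dataD.ch2 false).cell cellE2 7 a b)) = true := by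
  decide +kernel

theorem rD2m_8 : (allN dataD.DX fun a => allN dataD.DY fun b =>
    pos3 ((dataD.ch2 false).cell cellE2 8 a b)) = true := by
  decide +kernel

end SShr
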