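import Pool.Agent.Lib.MP_49c3df_gt.DataM

/-! Kernel checks of certificate M, one theorem for each cell of `R`. -/

set_option maxRecDepth 100000

namespace SShr

theorem rM3m_0 : (allN dataM.NT fun a => allN dataM.DY fun b =>
    pos3 ((dataM.ch3 false).cell cellE3 0 a b)) = true := by
  decide +kernel

theorem rM3m_1 : (allN dataM.NT fun a => allN dataM.DY fun b =>
    pos3 ((dataM.ch3 false).cell cellE3 1 a b)) = true := by
  decide +kernel

theorem rM3m_2 : (allN dataM.NT fun a => allN dataM.DY fun b =>
    pos3 ((dataM.ch3 false).cell cellE3 2 a b)) = true := by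
  decide +kernel

theorem rM3m_3 : (allN dataM.NT fun a => allN dataM.DY fun b =>
    pos3 ((dataM.ch3 false).cell cellE3 3 a b)) = true := by
  decide +kernel

theorem rM3m_4 : (allN dataM.NT fun a => allN dataM.DY fun b =>
    pos3 ((dataM.ch3 false).cell cellE3 4 a b)) = true := by
  decide +kernel

theorem rM3m_5 : (allN dataM.NT fun a => allN dataM.DY fun b =>
    pos3 ((dataM.ch3 false).cell cellE3 5 a b)) = true := by
  decide +kernel

theorem rM3m_6 : (allN dataM.NT fun a => allN dataM.DY fun b =>
    pos3 ((dataM.ch3 false).cell cellE3 6 a b)) = true := by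
  decide +kernel

theorem rM3m_7 : (allN dataM.NT fun a => allN dataM.DY fun b =>
    pos3 ((dataM.ch3 false).cell cellE3 7 a b)) = true := by
  decide +kernel

theorem rM3m_8 : (allN dataM.NT fun a => allN dataM.DY fun b =>
    pos3 ((dataM.ch3 false).cell cellE3 8 a b)) = true := by
  decide +kernel

theorem rM3m_9 : (allN dataM.NT fun a => allN dataM.DY fun b =>
    pos3 ((dataM.ch3 false).cell cellE3 9 a b)) = true := by
  decide +kernel

theorem rM3m_10 : (allN dataM.NT fun a => allN dataM.DY fun b =>
    pos3 ((dataM.ch3 false).cell cellE3 10 a b)) = true := by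
  decide +kernel

end SShr
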