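import Pool.Agent.Lib.MP_49c3df_gt.Inst
import Pool.Agent.Lib.MP_49c3df_gt.CkM1
import Pool.Agent.Lib.MP_49c3df_gt.CkM2p
import Pool.Agent.Lib.MP_49c3df_gt.CkM2m
import Pool.Agent.Lib.MP_49c3df_gt.CkM3p
import Pool.Agent.Lib.MP_49c3df_gt.CkM3m
import Pool.Agent.Lib.MP_49c3df_gt.CkD12
import Pool.Agent.Lib.MP_49c3df_gt.CkD3

/-! The kernel checks put together. -/

namespace SShr

theorem ckM1p : (dataM.ch1 true).chk cellE1 dataM.NR dataM.DX dataM.DZ = true := by
  refine (allN_iff _ _).2 ?_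
  intro i hi
  have hi' : i < 11 := hi
  interval_cases i
  · exact rM1p_0
  · exact rM1p_1
  · exact rM1p_2
  · exact rM1p_3
  · exact rM1p_4
  · exact rM1p_5
  · exact rM1p_6
  · exact rM1p_7
  · exact rM1p_8
  · exact rM1p_9
  · exact rM1p_10

theorem ckM1m : (dataM.ch1 false).chk cellE1 dataM.NR dataM.DX dataM.DZ = true := by
  refine (allN_iff _ _).2 ?_
  intro i hi
  have hi' : i < 11 := hi
  interval_cases i
  · exact rM1m_0
  · exact rM1m_1
  · exact rM1m_2
  · exact rM1m_3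
  · exact rM1m_4
  · exact rM1m_5
  · exact rM1m_6
  · exact rM1m_7
  · exact rM1m_8
  · exact rM1m_9
  · exact rM1m_10

theorem ckM2p : (dataM.ch2 true).chk cellE2 dataM.NR dataM.DX dataM.DY = true := by
  refine (allN_iff _ _).2 ?_
  intro i hi
  have hi' : i < 11 := hi
  interval_cases i
  · exact rM2p_0
  · exact rM2p_1
  · exact rM2p_2
  · exact rM2p_3
  · exact rM2p_4
  · exact rM2p_5
  · exact rM2p_6
  · exact rM2p_7
  · exact rM2p_8
  · exact rM2p_9
  · exact rM2p_10

theorem ckM2m : (dataM.ch2 false).chk cellE2 dataM.NR dataM.DX dataM.DY = true := by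
  refine (allN_iff _ _).2 ?_
  intro i hi
  have hi' : i < 11 := hi
  interval_cases i
  · exact rM2m_0
  · exact rM2m_1
  · exact rM2m_2
  · exact rM2m_3
  · exact rM2m_4
  · exact rM2m_5
  · exact rM2m_6
  · exact rM2m_7
  · exact rM2m_8
  · exact rM2m_9
  · exact rM2m_10

theorem ckM3p : (dataM.ch3 true).chk cellE3 dataM.NR dataM.NT dataM.DY = true := by
  refine (allN_iff _ _).2 ?_
  intro i hi
  have hi' : i < 11 := hi
  interval_cases i
  · exact rM3p_0
  · exact rM3p_1
  · exact rM3p_2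
  · exact rM3p_3
  · exact rM3p_4
  · exact rM3p_5
  · exact rM3p_6
  · exact rM3p_7
  · exact rM3p_8
  · exact rM3p_9
  · exact rM3p_10

theorem ckM3m : (dataM.ch3 false).chk cellE3 dataM.NR dataM.NT dataM.DY = true := by
  refine (allN_iff _ _).2 ?_
  intro i hi
  have hi' : i < 11 := hi
  interval_cases i
  · exact rM3m_0
  · exact rM3m_1
  · exact rM3m_2
  · exact rM3m_3
  · exact rM3m_4
  · exact rM3m_5
  · exact rM3m_6
  · exact rM3m_7
  · exact rM3m_8
  · exact rM3m_9
  · exact rM3m_10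

theorem ckD1p : (dataD.ch1 true).chk cellE1 dataD.NR dataD.DX dataD.DZ = true := by
  refine (allN_iff _ _).2 ?_
  intro i hi
  have hi' : i < 9 := hi
  interval_cases i
  · exact rD1p_0
  · exact rD1p_1
  · exact rD1p_2
  · exact rD1p_3
  · exact rD1p_4
  · exact rD1p_5
  · exact rD1p_6
  · exact rD1p_7
  · exact rD1p_8

theorem ckD1m : (dataD.ch1 false).chk cellE1 dataD.NR dataD.DX dataD.DZ = true := by
  refine (allN_iff _ _).2 ?_
  intro i hi
  have hi' : i < 9 := hi
  interval_cases i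
  · exact rD1m_0
  · exact rD1m_1
  · exact rD1m_2
  · exact rD1m_3
  · exact rD1m_4
  · exact rD1m_5
  · exact rD1m_6
  · exact rD1m_7
  · exact rD1m_8

theorem ckD2p : (dataD.ch2 true).chk cellE2 dataD.NR dataD.DX dataD.DY = true := by
  refine (allN_iff _ _).2 ?_
  intro i hi
  have hi' : i < 9 := hi
  interval_cases i
  · exact rD2p_0
  · exact rD2p_1
  · exact rD2p_2
  · exact rD2p_3
  · exact rD2p_4
  · exact rD2p_5
  · exact rD2p_6
  · exact rD2p_7
  · exact rD2p_8

theorem ckD2m : (dataD.ch2 false).chk cellE2 dataD.NR dataD.DX dataD.DY = true := by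
  refine (allN_iff _ _).2 ?_
  intro i hi
  have hi' : i < 9 := hi
  interval_cases i
  · exact rD2m_0
  · exact rD2m_1
  · exact rD2m_2
  · exact rD2m_3
  · exact rD2m_4
  · exact rD2m_5
  · exact rD2m_6
  · exact rD2m_7
  · exact rD2m_8

theorem ckD3p : (dataD.ch3 true).chk cellE3 dataD.NR dataD.NT dataD.DY = true := by
  refine (allN_iff _ _).2 ?_
  intro i hi
  have hi' : i < 9 := hi
  interval_cases i
  · exact rD3p_0
  · exact rD3p_1
  · exact rD3p_2
  · exact rD3p_3
  · exact rD3p_4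
  · exact rD3p_5
  · exact rD3p_6
  · exact rD3p_7
  · exact rD3p_8

theorem ckD3m : (dataD.ch3 false).chk cellE3 dataD.NR dataD.NT dataD.DY = true := by
  refine (allN_iff _ _).2 ?_
  intro i hi
  have hi' : i < 9 := hi
  interval_cases i
  · exact rD3m_0
  · exact rD3m_1
  · exact rD3m_2
  · exact rD3m_3
  · exact rD3m_4
  · exact rD3m_5
  · exact rD3m_6
  · exact rD3m_7
  · exact rD3m_8

end SShr
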