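import Pool.Agent.Lib.MP_49c3df_gt.Defs

/-! JOB Cmp (MP_49c3df_gt): comparison lemma for a function which is given piecewise on finitely
many closed sets.

PROOF. Put `G = H + W`. Fix `ε > 0`; show `G a - ε (t - a) ≤ G t` for all `t ∈ [a, b]`; then let `ε → 0`
at `t = b`. Use `IsClosed.Icc_subset_of_forall_mem_nhdsWithin` for
`S = {t | G a - ε (t - a) ≤ G t} ∩ [a, b]`.
(1) closed: `G` is continuous on `[a, b]`: at `t ∈ [a, b]` the finitely many closed sets `D i` not
containing `t` avoid a neighbourhood of `t`; on `D i ∋ t`, `G = F i + W` which is continuous at `t`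
(differentiable), with the same value at `t`. (Or show `S` closed as the finite union of the sets
`{t ∈ D i | G a - ε (t - a) ≤ F i t + W t}`, each closed since `F i + W` is continuous on the closed set
`D i`: `ContinuousOn.preimage_isClosed_of_isClosed`.)
(2) step: `t ∈ S`, `t < b`. For every `i` with `t ∈ D i`, the derivative of `F i + W` at `t` is `≥ 0 > -ε`,
so for `t'` in a right neighbourhood of `t`: `F i t' + W t' ≥ F i t + W t - ε (t' - t)`
(`HasDerivAt.hasDerivWithinAt`, `hasDerivWithinAt_iff_tendsto_slope` or the little-o form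
`HasDerivAt.isLittleO`). For `i` with `t ∉ D i` a neighbourhood of `t` avoids `D i`. Finite
intersection over `i` (`Filter.eventually_all`). For such `t' ∈ (t, b]` choose `i` with `t' ∈ D i`, then
`t ∈ D i` and `G t' = F i t' + W t' ≥ G t - ε (t' - t) ≥ G a - ε (t' - a)`. -/

namespace SShr

theorem cmp_closed {ι : Type} [Finite ι] (a b : ℝ) (hab : a ≤ b) (H W : ℝ → ℝ) (D : ι → Set ℝ)
    (F : ι → ℝ → ℝ) (hD : ∀ i, IsClosed (D i)) (hcov : Set.Icc a b ⊆ ⋃ i, D i)
    (hF : ∀ i, ∀ t ∈ D i, H t = F i t)
    (hder : ∀ i, ∀ t ∈ D i, ∃ G', HasDerivAt (fun t => F i t + W t) G' t ∧ 0 ≤ G') :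
    H a + W a ≤ H b + W b := by
  have key : ∀ ε : ℝ, 0 < ε → H a + W a - ε * (b - a) ≤ H b + W b := by
    intro ε hε
    have hcl : IsClosed ({t | H a + W a - ε * (t - a) ≤ H t + W t} ∩ Set.Icc a b) := by
      have e : ({t | H a + W a - ε * (t - a) ≤ H t + W t} ∩ Set.Icc a b) =
          ⋃ i, ((D i ∩ Set.Icc a b) ∩ (fun t => F i t + W t + ε * (t - a)) ⁻¹' Set.Ici (H a + W a)) := by
        ext t
        constructor
        · rintro ⟨h1, h2⟩
          obtain ⟨i, hi⟩ := Set.mem_iUnion.mp (hcov h2)
          refine Set.mem_iUnion.mpr ⟨i, ⟨hi, h2⟩, ?_⟩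
          have h3 : H a + W a - ε * (t - a) ≤ H t + W t := h1
          rw [hF i t hi] at h3
          show H a + W a ≤ F i t + W t + ε * (t - a)
          linarith
        · intro h
          obtain ⟨i, ⟨hi, h2⟩, h3⟩ := Set.mem_iUnion.mp h
          refine ⟨?_, h2⟩
          have h4 : H a + W a ≤ F i t + W t + ε * (t - a) := h3
          show H a + W a - ε * (t - a) ≤ H t + W t
          rw [hF i t hi]
          linarith
      rw [e]
      refine isClosed_iUnion_of_finite fun i => ?_
      refine ContinuousOn.preimage_isClosed_of_isClosed ?_ ((hD i).inter isClosed_Icc) isClosed_Ici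
      intro t ht
      obtain ⟨G', hG, _⟩ := hder i t ht.1
      have h5 : ContinuousAt (fun t => F i t + W t + ε * (t - a)) t := by
        have h6 : ContinuousAt (fun t => F i t + W t) t := hG.continuousAt
        fun_prop
      exact h5.continuousWithinAt
    have hsub := hcl.Icc_subset_of_forall_mem_nhdsWithin
      (show a ∈ {t | H a + W a - ε * (t - a) ≤ H t + W t} by
        show H a + W a - ε * (a - a) ≤ H a + W a
        linarith) (by
        intro x hx
        have hx1 : H a + W a - ε * (x - a) ≤ H x + W x := hx.1
        have hxa : a ≤ x := hx.2.1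
        have hxb : x < b := hx.2.2
        have hall : ∀ i, ∀ᶠ t in nhdsWithin x (Set.Ioi x), t ∈ D i →
            H x + W x - ε * (t - x) ≤ F i t + W t := by
          intro i
          by_cases hi : x ∈ D i
          · obtain ⟨G', hG, hG0⟩ := hder i x hi
            have h1 : Filter.Tendsto (slope (fun t => F i t + W t) x) (nhdsWithin x (Set.Ioi x))
                (nhds G') :=
              (hasDerivWithinAt_iff_tendsto_slope' (Set.notMem_Ioi.mpr le_rfl)).mp hG.hasDerivWithinAt
            have h2 := h1.eventually (lt_mem_nhds (show -ε < G' by linarith))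
            filter_upwards [h2, self_mem_nhdsWithin] with t ht1 ht2 _
            have h3 : x < t := ht2
            have h4 : 0 < t - x := by linarith
            rw [slope_def_field] at ht1
            have h5 : -ε * (t - x) < (F i t + W t) - (F i x + W x) := by
              rwa [lt_div_iff₀ h4] at ht1
            rw [hF i x hi]
            linarith
          · have h1 : ∀ᶠ t in nhds x, t ∉ D i := (hD i).isOpen_compl.mem_nhds hi
            filter_upwards [mem_nhdsWithin_of_mem_nhds h1] with t ht1 ht2
            exact absurd ht2 ht1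
        have hall' := Filter.eventually_all.mpr hall
        filter_upwards [hall', Ioo_mem_nhdsGT hxb] with t ht1 ht2
        have h6 : t ∈ Set.Icc a b := ⟨by linarith [ht2.1], ht2.2.le⟩
        obtain ⟨i, hi⟩ := Set.mem_iUnion.mp (hcov h6)
        have h7 := ht1 i hi
        show H a + W a - ε * (t - a) ≤ H t + W t
        rw [hF i t hi]
        nlinarith)
    exact hsub (Set.right_mem_Icc.mpr hab)
  by_contra hne
  have hlt : H b + W b < H a + W a := lt_of_not_ge hne
  have hpos : 0 < b - a + 1 := by linarith
  have h1 := key ((H a + W a - (H b + W b)) / (2 * (b - a + 1))) (by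
    apply div_pos <;> linarith)
  have h2 : (H a + W a - (H b + W b)) / (2 * (b - a + 1)) * (b - a) ≤
      (H a + W a - (H b + W b)) / 2 := by
    rw [div_mul_eq_mul_div, div_le_div_iff₀ (by linarith) (by norm_num)]
    have h3 : 0 < H a + W a - (H b + W b) := by linarith
    nlinarith
  linarith

end SShr
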