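import Pool.Agent.Lib.MP_49c3df_gt.Check
import Pool.Agent.Lib.MP_49c3df_gt.NetD

/-! Data of certificate D. -/

namespace SShr

def dataD : CData where
  kn := 5
  kd := 6
  RK := [0, 4, 8, 12, 16, 18, 20, 22, 24, 26]
  QL := [[99948, -245, -872], [85176, -7391, -198], [52728, -8719, 359], [23641, -5610, 408], [7719, -2434, 266], [3907, -1376, 169], [1825, -709, 95], [786, -334, 49], [313, -144, 22]]
  NR := 9
  DX := 1
  DZ := 2
  DY := 3
  DT := 3
  NT := 2
  A1 := [[[9998, 887], [9958, 820]]]
  A2 := [[[9958, 3278], [9958, 3278], [9958, 3278]]]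
  A3 := [[[9097, 243], [9097, 243], [9097, 243]], [[8042, 178], [8042, 178], [8042, 178]]]
  n1 := fun s => match s with
    | true => netD1p
    | false => netD1m
  n2 := fun s => match s with
    | true => netD2p
    | false => netD2m
  n3 := fun s => match s with
    | true => netD3p
    | false => netD3m

end SShr
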