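import Pool.Agent.Lib.MP_49c3df_gt.Check
import Pool.Agent.Lib.MP_49c3df_gt.NetM

/-! Data of certificate M. -/

namespace SShr

def dataM : CData where
  kn := 1
  kd := 1
  RK := [0, 2, 4, 6, 8, 10, 12, 14, 16, 18, 21, 25]
  QL := [[99997, -32, -967], [96073, -3951, -747], [85208, -6961, -389], [69764, -8506, -14], [52726, -8527, 274], [36787, -7393, 421], [23689, -5678, 438], [14077, -3911, 368], [7719, -2434, 266], [3889, -1338, 148], [1184, -448, 50]]
  NR := 11
  DX := 2
  DZ := 3
  DY := 4
  DT := 2
  NT := 2
  A1 := [[[10000, 70], [10000, 70], [9998, 69]], [[10000, 70], [9981, 66], [9909, 61]]]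
  A2 := [[[9998, 616], [9998, 616], [9998, 616], [9998, 616]], [[9889, 535], [9889, 535], [9889, 535], [9889, 535]]]
  A3 := [[[9367, 417], [9367, 417], [9367, 417], [9367, 417]], [[8155, 287], [8155, 287], [8155, 287], [8155, 287]]]
  n1 := fun s => match s with
    | true => netM1p
    | false => netM1m
  n2 := fun s => match s with
    | true => netM2p
    | false => netM2m
  n3 := fun s => match s with
    | true => netM3p
    | false => netM3m

end SShr
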