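import Mathlib

/-! Definitions for the proof that closed geodesics of the shrinker metric are long:
piecewise quadratic functions, the cell inequalities, the flow, certificates, geodesics. -/

namespace SShr

/-! ### Quadratics in Bernstein form, tensor products, piecewise quadratics -/

/-- quadratic in Bernstein form on `[0,1]` -/
def bq (a b c t : ℝ) : ℝ := a * (1 - t) ^ 2 + 2 * b * t * (1 - t) + c * t ^ 2

/-- derivative of `bq a b c` in `t` -/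
def dbq (a b c t : ℝ) : ℝ := 2 * (b - a) * (1 - t) + 2 * (c - b) * t

/-- a quadratic operation applied to the three controls of cell `k` -/
def tn (f : ℝ → ℝ → ℝ → ℝ → ℝ) (g : ℕ → ℝ) (k : ℕ) (z : ℝ) : ℝ :=
  f (g (2 * k)) (g (2 * k + 1)) (g (2 * k + 2)) z

/-- tensor product: `f0` in `x`, `f1` in `y`, `f2` in `z`, on cell `(i, j, k)` of the net `g`,
in local coordinates -/
def tens (f0 f1 f2 : ℝ → ℝ → ℝ → ℝ → ℝ) (g : ℕ → ℕ → ℕ → ℝ) (i j k : ℕ) (x y z : ℝ) : ℝ :=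
  tn f0 (fun i' => tn f1 (fun j' => tn f2 (g i' j') k z) j y) i x

/-- piecewise quadratic function with knots `K 0 < K 1 < ... < K n` and controls
`c 0, ..., c (2 n)`; the number `n` of cells is the last argument -/
noncomputable def spl (K c : ℕ → ℝ) (x : ℝ) : ℕ → ℝ
  | 0 => c 0
  | n + 1 => if x ≤ K n then spl K c x n else tn bq c n ((x - K n) / (K (n + 1) - K n))

/-- piecewise triquadratic function -/
noncomputable def S3 (KR KU KV : ℕ → ℝ) (nR nU nV : ℕ) (g : ℕ → ℕ → ℕ → ℝ) (R U V : ℝ) : ℝ :=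
  spl KR (fun i => spl KU (fun j => spl KV (g i j) V nV) U nU) R nR

/-! ### The three inequalities -/

/-- chart 1: `u = x`, `v = κ z / x`, sign `s = 1` or `-1` -/
noncomputable def E1n (κ s r u v hr hu hv w : ℝ) : ℝ :=
  2 * s * (1 - u) * r * hr - κ * r * (2 - u) * hv
    + (1 + (1 - u) ^ 2) / 2 * (-s * (1 - r ^ 2 / 2) * (2 - u) + r * v / κ * (1 - u))
      * (u * hu - v * hv)
    + (1 + (1 - u) ^ 2) * r ^ 2 * w

/-- chart 2: `u = κ z`, `v = x / (κ z)` -/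
noncomputable def E2n (κ s r u v hr hu hv w : ℝ) : ℝ :=
  2 * s * (1 - u * v) * r * hr - κ * r * (u * v) * (2 - u * v) * hu
    + κ * r * v ^ 2 * (2 - u * v) * hv
    + (1 + (1 - u * v) ^ 2) / 2
      * (-s * (1 - r ^ 2 / 2) * v * (2 - u * v) + r / κ * (1 - u * v)) * hv
    + (1 + (1 - u * v) ^ 2) * r ^ 2 * w

/-- chart 3: `u = κ z`, `v = x` -/
noncomputable def E3n (κ s r u v hr hu hv w : ℝ) : ℝ :=
  2 * s * (1 - v) * r * hr - κ * r * v * (2 - v) * hu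
    + (1 + (1 - v) ^ 2) / 2 * (-s * (1 - r ^ 2 / 2) * v * (2 - v) + r * u / κ * (1 - v)) * hv
    + (1 + (1 - v) ^ 2) * r ^ 2 * w

/-- sign of a sheet -/
def sgn : Bool → ℝ
  | true => 1
  | false => -1

/-- the Gaussian weight -/
noncomputable def gw (r z : ℝ) : ℝ := Real.exp (-(r ^ 2 + z ^ 2) / 4)

/-! ### The flow in the variables `r, z, q` -/

/-- `r, z, q` solve the geodesic equation in the variable `q = c / (1 - s)`, with speed factor `u`,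
and `W` is the weighted length -/
structure Flow (r z q u W : ℝ → ℝ) (a b : ℝ) : Prop where
  hr : ∀ t ∈ Set.Icc a b, HasDerivAt r (2 * q t * u t) t
  hz : ∀ t ∈ Set.Icc a b, HasDerivAt z (-(1 - q t ^ 2) * u t) t
  hq : ∀ t ∈ Set.Icc a b, HasDerivAt q
    (u t * (1 + q t ^ 2) / 2 * ((1 / r t - r t / 2) * (1 - q t ^ 2) - z t * q t)) t
  hW : ∀ t ∈ Set.Icc a b, HasDerivAt W (r t * gw (r t) (z t) * (1 + q t ^ 2) * u t) t
  hu : ∀ t ∈ Set.Icc a b, 0 < u t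
  hr0 : ∀ t ∈ Set.Icc a b, 0 < r t
  hz0 : ∀ t ∈ Set.Icc a b, 0 ≤ z t
  hq1 : ∀ t ∈ Set.Icc a b, -1 ≤ q t ∧ q t ≤ 1
  hzq : ∀ t ∈ Set.Icc a b, z t = 0 → -1 < q t ∧ q t < 1

/-! ### Certificates -/

/-- a certificate: scale `κ`, cells in `R = 5 r` with knots `KR`, numbers of cells, and the control
nets of the three charts (for both sheets) -/
structure Cert where
  ka : ℝ
  NR : ℕ
  KR : ℕ → ℝ
  DX : ℕ
  DZ : ℕ
  DY : ℕ
  DT : ℕ
  NT : ℕ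
  g1 : Bool → ℕ → ℕ → ℕ → ℝ
  g2 : Bool → ℕ → ℕ → ℕ → ℝ
  g3 : Bool → ℕ → ℕ → ℕ → ℝ

/-- value of the certificate in chart 1, in the coordinates `R = 5 r`, `u = x`, `v = κ z / x` -/
noncomputable def Cert.c1 (C : Cert) (s : Bool) (r u v : ℝ) : ℝ :=
  S3 C.KR (fun a => a) (fun b => b) C.NR C.DX C.DZ (C.g1 s) (5 * r) (C.DX * u) (C.DZ * v)

/-- chart 2: `u = κ z`, `v = x / (κ z)` -/
noncomputable def Cert.c2 (C : Cert) (s : Bool) (r u v : ℝ) : ℝ :=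
  S3 C.KR (fun a => a) (fun b => b) C.NR C.DX C.DY (C.g2 s) (5 * r) (C.DX * u) (C.DY * v)

/-- chart 3: `u = κ z`, `v = x` -/
noncomputable def Cert.c3 (C : Cert) (s : Bool) (r u v : ℝ) : ℝ :=
  S3 C.KR (fun a => (C.DT : ℝ) + a) (fun b => b) C.NR C.NT C.DY (C.g3 s) (5 * r) (C.DT * u)
    (C.DY * v)

/-- the certificate function on sheet `s`, as a function of `r, z, x` -/
noncomputable def Cert.sh (C : Cert) (s : Bool) (r z x : ℝ) : ℝ :=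
  if 1 ≤ C.ka * z then C.c3 s r (C.ka * z) x
  else if x ≤ C.ka * z then C.c2 s r (C.ka * z) (x / (C.ka * z))
  else C.c1 s r x (C.ka * z / x)

/-- the certificate function of the state `(r, z, q)` -/
noncomputable def Cert.H (C : Cert) (r z q : ℝ) : ℝ :=
  if 0 ≤ q then C.sh true r z (1 - q) else C.sh false r z (1 + q)

/-- local coordinate in cell `i` of `R` -/
noncomputable def Cert.lx (C : Cert) (i : ℕ) (r : ℝ) : ℝ := (5 * r - C.KR i) / (C.KR (i + 1) - C.KR i)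

/-- factor turning the local derivative into the derivative in `r` -/
noncomputable def Cert.fr (C : Cert) (i : ℕ) : ℝ := 5 / (C.KR (i + 1) - C.KR i)

/-- gluing and structural conditions, on the domain `0 ≤ r ≤ Rm`, `0 ≤ z ≤ zm` -/
structure Cert.Glue (C : Cert) (Rm zm : ℝ) : Prop where
  ka0 : 0 < C.ka
  K0 : C.KR 0 = 0
  Kmono : ∀ i < C.NR, C.KR i < C.KR (i + 1)
  Klast : C.KR C.NR = 5 * Rm
  NR0 : 0 < C.NR
  DX0 : 0 < C.DX
  DZ0 : 0 < C.DZ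
  DY0 : 0 < C.DY
  DT0 : 0 < C.DT
  NT0 : 0 < C.NT
  hzm : C.DT * (C.ka * zm) ≤ C.DT + C.NT
  glue12 : ∀ s, ∀ i ≤ 2 * C.NR, ∀ j ≤ 2 * C.DX, C.g1 s i j (2 * C.DZ) = C.g2 s i j (2 * C.DY)
  glue23 : ∀ s, ∀ i ≤ 2 * C.NR, ∀ k ≤ 2 * C.DY, C.g2 s i (2 * C.DX) k = C.g3 s i 0 k
  pm1 : ∀ i ≤ 2 * C.NR, ∀ k ≤ 2 * C.DZ, C.g1 true i (2 * C.DX) k = C.g1 false i (2 * C.DX) k
  pm3 : ∀ i ≤ 2 * C.NR, ∀ j ≤ 2 * C.NT, C.g3 true i j (2 * C.DY) = C.g3 false i j (2 * C.DY)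

/-- exit conditions -/
structure Cert.Exit (C : Cert) : Prop where
  z1 : ∀ s, ∀ i ≤ 2 * C.NR, ∀ j ≤ 2 * C.DX, C.g1 s i j 0 ≤ 0
  r1 : ∀ j ≤ 2 * C.DX, ∀ k ≤ 2 * C.DZ, C.g1 true (2 * C.NR) j k ≤ 0
  r2 : ∀ j ≤ 2 * C.DX, ∀ k ≤ 2 * C.DY, C.g2 true (2 * C.NR) j k ≤ 0
  r3 : ∀ j ≤ 2 * C.NT, ∀ k ≤ 2 * C.DY, C.g3 true (2 * C.NR) j k ≤ 0

/-- the cell inequalities -/
structure Cert.Ineq (C : Cert) (zm : ℝ) : Prop where
  e1 : ∀ s, ∀ i < C.NR, ∀ a < C.DX, ∀ b < C.DZ, ∀ r u v : ℝ, 0 < r →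
    C.KR i ≤ 5 * r → 5 * r ≤ C.KR (i + 1) → (a : ℝ) ≤ C.DX * u → C.DX * u ≤ a + 1 →
    (b : ℝ) ≤ C.DZ * v → C.DZ * v ≤ b + 1 →
    0 ≤ E1n C.ka (sgn s) r u v
      (C.fr i * tens dbq bq bq (C.g1 s) i a b (C.lx i r) (C.DX * u - a) (C.DZ * v - b))
      (C.DX * tens bq dbq bq (C.g1 s) i a b (C.lx i r) (C.DX * u - a) (C.DZ * v - b))
      (C.DZ * tens bq bq dbq (C.g1 s) i a b (C.lx i r) (C.DX * u - a) (C.DZ * v - b))
      (gw r (u * v / C.ka))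
  e2 : ∀ s, ∀ i < C.NR, ∀ a < C.DX, ∀ b < C.DY, ∀ r u v : ℝ, 0 < r →
    C.KR i ≤ 5 * r → 5 * r ≤ C.KR (i + 1) → (a : ℝ) ≤ C.DX * u → C.DX * u ≤ a + 1 →
    (b : ℝ) ≤ C.DY * v → C.DY * v ≤ b + 1 →
    0 ≤ E2n C.ka (sgn s) r u v
      (C.fr i * tens dbq bq bq (C.g2 s) i a b (C.lx i r) (C.DX * u - a) (C.DY * v - b))
      (C.DX * tens bq dbq bq (C.g2 s) i a b (C.lx i r) (C.DX * u - a) (C.DY * v - b))
      (C.DY * tens bq bq dbq (C.g2 s) i a b (C.lx i r) (C.DX * u - a) (C.DY * v - b))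
      (gw r (u / C.ka))
  e3 : ∀ s, ∀ i < C.NR, ∀ a < C.NT, ∀ b < C.DY, ∀ r u v : ℝ, 0 < r → u ≤ C.ka * zm →
    C.KR i ≤ 5 * r → 5 * r ≤ C.KR (i + 1) → (C.DT : ℝ) + a ≤ C.DT * u →
    C.DT * u ≤ C.DT + a + 1 → (b : ℝ) ≤ C.DY * v → C.DY * v ≤ b + 1 →
    0 ≤ E3n C.ka (sgn s) r u v
      (C.fr i * tens dbq bq bq (C.g3 s) i a b (C.lx i r) (C.DT * u - (C.DT + a)) (C.DY * v - b))
      (C.DT * tens bq dbq bq (C.g3 s) i a b (C.lx i r) (C.DT * u - (C.DT + a)) (C.DY * v - b))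
      (C.DY * tens bq bq dbq (C.g3 s) i a b (C.lx i r) (C.DT * u - (C.DT + a)) (C.DY * v - b))
      (gw r (u / C.ka))

/-- a valid certificate on `0 < r ≤ Rm`, `0 ≤ z ≤ zm` -/
structure Cert.Valid (C : Cert) (Rm zm : ℝ) : Prop where
  glue : C.Glue Rm zm
  exit : C.Exit
  ineq : C.Ineq zm

/-! ### Geodesics -/

/-- curvature of a geodesic of `r^2 exp(-(r^2+z^2)/2) (dr^2 + dz^2)` with direction `(c, s)` -/
noncomputable def kap (r z c s : ℝ) : ℝ := -(1 / r - r / 2) * s - z / 2 * c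

/-- the profile curve `(r, z)` with speed `v` and direction `(c, s)` generates a self-shrinker -/
structure Geo (r z c s v : ℝ → ℝ) : Prop where
  hr : ∀ t, HasDerivAt r (v t * c t) t
  hz : ∀ t, HasDerivAt z (v t * s t) t
  hc : ∀ t, HasDerivAt c (-(v t * s t * kap (r t) (z t) (c t) (s t))) t
  hs : ∀ t, HasDerivAt s (v t * c t * kap (r t) (z t) (c t) (s t)) t
  cs : ∀ t, c t ^ 2 + s t ^ 2 = 1
  r0 : ∀ t, 0 < r t
  v0 : ∀ t, 0 < v t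
  vc : Continuous v

/-- weighted length density -/
noncomputable def wl (r z v : ℝ → ℝ) (t : ℝ) : ℝ := r t * gw (r t) (z t) * v t

end SShr
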