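import Pool.Agent.Lib.MP_49c3df_gt.GlueH
import Pool.Agent.Lib.MP_49c3df_gt.Cmp
import Pool.Agent.Lib.MP_49c3df_gt.Chain1
import Pool.Agent.Lib.MP_49c3df_gt.Chain2
import Pool.Agent.Lib.MP_49c3df_gt.Chain3

/-! JOB Dyn (MP_49c3df_gt): `H + W` does not decrease along the flow.

PROOF. Apply `cmp_closed` with `H t = C.H (r t) (z t) (q t)` and the index type
`ι = (Bool × Fin C.NR × Fin C.DX × Fin C.DZ) ⊕ (Bool × Fin C.NR × Fin C.DX × Fin C.DY) ⊕
(Bool × Fin C.NR × Fin C.NT × Fin C.DY)` (charts 1, 2, 3). Write `σ = sgn s`, `x t = 1 - σ q t`, `κ = C.ka`.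
Closed sets, all intersected with `[a, b]` and with `0 ≤ σ q t`, `KR i ≤ 5 r t ≤ KR (i+1)`:
* chart 1: `κ z ≤ x`, `A ≤ DX x ≤ A + 1`, `B x ≤ DZ (κ z) ≤ (B + 1) x`;
* chart 2: `x ≤ κ z ≤ 1`, `A ≤ DX (κ z) ≤ A + 1`, `B (κ z) ≤ DY x ≤ (B + 1) (κ z)`;
* chart 3: `1 ≤ κ z`, `DT + A ≤ DT (κ z) ≤ DT + A + 1`, `B ≤ DY x ≤ B + 1`.
They are closed because `r, z, q` are continuous on `[a, b]` (they have derivatives there).
The functions `F i` are the cell polynomials of `Chain1/2/3` with `K0 = KR i`, `K1 = KR (i+1)`, `g = C.g1 s` etc.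
`hcov`: at `t` choose `s` with `0 ≤ σ q t` (`true` if `0 ≤ q t`, else `false`); `0 ≤ x ≤ 1`. If `1 ≤ κ z`: chart 3
(`DT ≤ DT κ z ≤ DT + NT` by `Glue.hzm` and `z ≤ zm`). Else if `x ≤ κ z`: chart 2; else chart 1. The cells come
from `exists_cell` (for `V` in chart 1: `DZ (κ z / x) ∈ [0, DZ]`, then multiply by `x > 0`; in chart 2 if `κ z = 0`
then `x = 0` and `z = 0`, so `σ q = 1`, impossible by `Flow.hzq`; so `κ z > 0` there, and in chart 1 `x > 0` for the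
same reason).
`hF`: `H_sh`, then `sh_c1 / sh_c2 / sh_c3`, unfold `c1 / c2 / c3`, then `S3_cell` (knots: `(a : ℝ) + 1 - a = 1`).
`hder`: `Chain1/2/3` with `Cert.Ineq.e1/e2/e3` (same expressions up to `simp`/`ring`: `C.lx i r`, `C.fr i`; the
Gaussian weight `gw r (u v / κ)` with `u v / κ = z`), plus `Flow.hW`. -/

namespace SShr

private theorem Dyn_H1 {C : Cert} {Rm zm : ℝ} (hG : C.Glue Rm zm) (s : Bool) (i a b : ℕ)
    (hi : i < C.NR) (ha : a < C.DX) (hb : b < C.DZ) {r z q : ℝ} (hq : 0 ≤ sgn s * q)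
    (h1 : C.KR i ≤ 5 * r) (h2 : 5 * r ≤ C.KR (i + 1)) (hx0 : 0 < 1 - sgn s * q)
    (hz : C.ka * z ≤ 1 - sgn s * q)
    (h3 : (a : ℝ) ≤ C.DX * (1 - sgn s * q)) (h4 : C.DX * (1 - sgn s * q) ≤ a + 1)
    (h5 : (b : ℝ) ≤ C.DZ * (C.ka * z / (1 - sgn s * q)))
    (h6 : C.DZ * (C.ka * z / (1 - sgn s * q)) ≤ b + 1) :
    C.H r z q = tens bq bq bq (C.g1 s) i a b ((5 * r - C.KR i) / (C.KR (i + 1) - C.KR i))
      (C.DX * (1 - sgn s * q) - a) (C.DZ * (C.ka * z / (1 - sgn s * q)) - b) := by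
  rw [H_sh hG s r z q hq, sh_c1 hG s r z _ hx0 (by linarith) hz]
  unfold Cert.c1
  rw [S3_cell C.KR (fun a => (a : ℝ)) (fun b => (b : ℝ)) C.NR C.DX C.DZ (C.g1 s) (5 * r)
    (C.DX * (1 - sgn s * q)) (C.DZ * (C.ka * z / (1 - sgn s * q))) hG.Kmono
    (fun i _ => by push_cast; linarith) (fun i _ => by push_cast; linarith) i a b hi ha hb h1 h2
    h3 (by push_cast; linarith) h5 (by push_cast; linarith)]
  have e1 : (((a + 1 : ℕ) : ℝ)) - (a : ℝ) = 1 := by push_cast; ring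
  have e2 : (((b + 1 : ℕ) : ℝ)) - (b : ℝ) = 1 := by push_cast; ring
  simp only [e1, e2, div_one]

private theorem Dyn_H2 {C : Cert} {Rm zm : ℝ} (hG : C.Glue Rm zm) (s : Bool) (i a b : ℕ)
    (hi : i < C.NR) (ha : a < C.DX) (hb : b < C.DY) {r z q : ℝ} (hq : 0 ≤ sgn s * q)
    (h1 : C.KR i ≤ 5 * r) (h2 : 5 * r ≤ C.KR (i + 1))
    (hz : 1 - sgn s * q ≤ C.ka * z) (hz1 : C.ka * z ≤ 1)
    (h3 : (a : ℝ) ≤ C.DX * (C.ka * z)) (h4 : C.DX * (C.ka * z) ≤ a + 1)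
    (h5 : (b : ℝ) ≤ C.DY * ((1 - sgn s * q) / (C.ka * z)))
    (h6 : C.DY * ((1 - sgn s * q) / (C.ka * z)) ≤ b + 1) :
    C.H r z q = tens bq bq bq (C.g2 s) i a b ((5 * r - C.KR i) / (C.KR (i + 1) - C.KR i))
      (C.DX * (C.ka * z) - a) (C.DY * ((1 - sgn s * q) / (C.ka * z)) - b) := by
  rw [H_sh hG s r z q hq, sh_c2 hG s r z _ hz1 hz]
  unfold Cert.c2
  rw [S3_cell C.KR (fun a => (a : ℝ)) (fun b => (b : ℝ)) C.NR C.DX C.DY (C.g2 s) (5 * r)
    (C.DX * (C.ka * z)) (C.DY * ((1 - sgn s * q) / (C.ka * z))) hG.Kmono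
    (fun i _ => by push_cast; linarith) (fun i _ => by push_cast; linarith) i a b hi ha hb h1 h2
    h3 (by push_cast; linarith) h5 (by push_cast; linarith)]
  have e1 : (((a + 1 : ℕ) : ℝ)) - (a : ℝ) = 1 := by push_cast; ring
  have e2 : (((b + 1 : ℕ) : ℝ)) - (b : ℝ) = 1 := by push_cast; ring
  simp only [e1, e2, div_one]

private theorem Dyn_H3 {C : Cert} {Rm zm : ℝ} (hG : C.Glue Rm zm) (s : Bool) (i a b : ℕ)
    (hi : i < C.NR) (ha : a < C.NT) (hb : b < C.DY) {r z q : ℝ} (hq : 0 ≤ sgn s * q)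
    (h1 : C.KR i ≤ 5 * r) (h2 : 5 * r ≤ C.KR (i + 1)) (hz : 1 ≤ C.ka * z)
    (h3 : (C.DT : ℝ) + a ≤ C.DT * (C.ka * z)) (h4 : C.DT * (C.ka * z) ≤ C.DT + a + 1)
    (h5 : (b : ℝ) ≤ C.DY * (1 - sgn s * q))
    (h6 : C.DY * (1 - sgn s * q) ≤ b + 1) :
    C.H r z q = tens bq bq bq (C.g3 s) i a b ((5 * r - C.KR i) / (C.KR (i + 1) - C.KR i))
      (C.DT * (C.ka * z) - (C.DT + a)) (C.DY * (1 - sgn s * q) - b) := by
  rw [H_sh hG s r z q hq, sh_c3 s r z _ hz]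
  unfold Cert.c3
  rw [S3_cell C.KR (fun a => (C.DT : ℝ) + (a : ℝ)) (fun b => (b : ℝ)) C.NR C.NT C.DY (C.g3 s)
    (5 * r) (C.DT * (C.ka * z)) (C.DY * (1 - sgn s * q)) hG.Kmono
    (fun i _ => by push_cast; linarith) (fun i _ => by push_cast; linarith) i a b hi ha hb h1 h2
    h3 (by push_cast; linarith) h5 (by push_cast; linarith)]
  have e1 : (C.DT : ℝ) + (((a + 1 : ℕ) : ℝ)) - ((C.DT : ℝ) + (a : ℝ)) = 1 := by
    push_cast; ring
  have e2 : (((b + 1 : ℕ) : ℝ)) - (b : ℝ) = 1 := by push_cast; ring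
  simp only [e1, e2, div_one]

private theorem Dyn_sgn_le (s : Bool) {q : ℝ} (h : -1 ≤ q ∧ q ≤ 1) : sgn s * q ≤ 1 := by
  cases s <;> simp only [sgn] <;> linarith [h.1, h.2]

private theorem Dyn_sgn_lt (s : Bool) {q : ℝ} (h : -1 < q ∧ q < 1) : sgn s * q < 1 := by
  cases s <;> simp only [sgn] <;> linarith [h.1, h.2]

private theorem Dyn_sgn_ex (q : ℝ) : ∃ s, 0 ≤ sgn s * q := by
  rcases le_total 0 q with h | h
  · exact ⟨true, by simp only [sgn]; linarith⟩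
  · exact ⟨false, by simp only [sgn]; linarith⟩

private theorem Dyn_ncell (x : ℝ) (n : ℕ) (hn : 0 < n) (h0 : 0 ≤ x) (h1 : x ≤ n) :
    ∃ i < n, (i : ℝ) ≤ x ∧ x ≤ i + 1 := by
  obtain ⟨i, hi, h2, h3⟩ := exists_cell (fun i => (i : ℝ)) x n hn (by simpa using h0) h1
  refine ⟨i, hi, h2, ?_⟩
  have h4 : x ≤ ((i + 1 : ℕ) : ℝ) := h3
  push_cast at h4
  exact h4

/-- sheet and cell in `r` -/
private def Dyn_P0 (C : Cert) (s : Bool) (i : ℕ) (r q : ℝ) : Prop :=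
  0 ≤ sgn s * q ∧ C.KR i ≤ 5 * r ∧ 5 * r ≤ C.KR (i + 1)

private def Dyn_P1 (C : Cert) (s : Bool) (i a b : ℕ) (r z q : ℝ) : Prop :=
  Dyn_P0 C s i r q ∧ C.ka * z ≤ 1 - sgn s * q ∧
    (a : ℝ) ≤ C.DX * (1 - sgn s * q) ∧ C.DX * (1 - sgn s * q) ≤ a + 1 ∧
    (b : ℝ) * (1 - sgn s * q) ≤ C.DZ * (C.ka * z) ∧
    C.DZ * (C.ka * z) ≤ (b + 1) * (1 - sgn s * q)

private def Dyn_P2 (C : Cert) (s : Bool) (i a b : ℕ) (r z q : ℝ) : Prop :=
  Dyn_P0 C s i r q ∧ 1 - sgn s * q ≤ C.ka * z ∧ C.ka * z ≤ 1 ∧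
    (a : ℝ) ≤ C.DX * (C.ka * z) ∧ C.DX * (C.ka * z) ≤ a + 1 ∧
    (b : ℝ) * (C.ka * z) ≤ C.DY * (1 - sgn s * q) ∧
    C.DY * (1 - sgn s * q) ≤ (b + 1) * (C.ka * z)

private def Dyn_P3 (C : Cert) (s : Bool) (i a b : ℕ) (r z q : ℝ) : Prop :=
  Dyn_P0 C s i r q ∧ 1 ≤ C.ka * z ∧
    (C.DT : ℝ) + a ≤ C.DT * (C.ka * z) ∧ C.DT * (C.ka * z) ≤ C.DT + a + 1 ∧
    (b : ℝ) ≤ C.DY * (1 - sgn s * q) ∧ C.DY * (1 - sgn s * q) ≤ b + 1

private theorem Dyn_cl {a b : ℝ} {f g : ℝ → ℝ} (hf : ContinuousOn f (Set.Icc a b))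
    (hg : ContinuousOn g (Set.Icc a b)) {P : ℝ → Prop}
    (hP : IsClosed {t | t ∈ Set.Icc a b ∧ P t}) :
    IsClosed {t | t ∈ Set.Icc a b ∧ (f t ≤ g t ∧ P t)} := by
  have h1 := (IsClosed.isClosed_le isClosed_Icc hf hg).inter hP
  have h2 : {t | t ∈ Set.Icc a b ∧ (f t ≤ g t ∧ P t)} =
      {t | t ∈ Set.Icc a b ∧ f t ≤ g t} ∩ {t | t ∈ Set.Icc a b ∧ P t} := by
    ext t
    simp only [Set.mem_setOf_eq, Set.mem_inter_iff]
    tauto
  rw [h2]
  exact h1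

private theorem Dyn_cl1 {a b : ℝ} {f g : ℝ → ℝ} (hf : ContinuousOn f (Set.Icc a b))
    (hg : ContinuousOn g (Set.Icc a b)) :
    IsClosed {t | t ∈ Set.Icc a b ∧ f t ≤ g t} :=
  IsClosed.isClosed_le isClosed_Icc hf hg

private theorem Dyn_x0 {C : Cert} {Rm zm : ℝ} (hG : C.Glue Rm zm) (s : Bool) {z q : ℝ}
    (hz0 : 0 ≤ z) (hq1 : -1 ≤ q ∧ q ≤ 1) (hzq : z = 0 → -1 < q ∧ q < 1)
    (hz : C.ka * z ≤ 1 - sgn s * q) : 0 < 1 - sgn s * q := by
  have h1 := Dyn_sgn_le s hq1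
  rcases lt_or_eq_of_le h1 with h2 | h2
  · linarith
  · exfalso
    have h3 : C.ka * z ≤ 0 := by rw [h2] at hz; linarith
    have h4 : z = 0 := by
      rcases lt_or_eq_of_le hz0 with h5 | h5
      · exact absurd (mul_pos hG.ka0 h5) (by linarith)
      · exact h5.symm
    have h6 := Dyn_sgn_lt s (hzq h4)
    linarith

private theorem Dyn_z0 {C : Cert} {Rm zm : ℝ} (hG : C.Glue Rm zm) (s : Bool) {z q : ℝ}
    (hz0 : 0 ≤ z) (hzq : z = 0 → -1 < q ∧ q < 1)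
    (hz : 1 - sgn s * q ≤ C.ka * z) : 0 < z := by
  rcases lt_or_eq_of_le hz0 with h2 | h2
  · exact h2
  · exfalso
    have h6 := Dyn_sgn_lt s (hzq h2.symm)
    rw [← h2] at hz
    linarith

theorem dyn {C : Cert} {Rm zm : ℝ} (hC : C.Valid Rm zm) {r z q u W : ℝ → ℝ} {a b : ℝ}
    (hab : a ≤ b) (hf : Flow r z q u W a b) (hrm : ∀ t ∈ Set.Icc a b, r t ≤ Rm)
    (hzm : ∀ t ∈ Set.Icc a b, z t ≤ zm) :
    C.H (r a) (z a) (q a) + W a ≤ C.H (r b) (z b) (q b) + W b := by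
  have hG := hC.glue
  have hI := hC.ineq
  have hka := hG.ka0
  -- continuity
  have cr : ContinuousOn r (Set.Icc a b) := fun t ht => (hf.hr t ht).continuousAt.continuousWithinAt
  have cz : ContinuousOn z (Set.Icc a b) := fun t ht => (hf.hz t ht).continuousAt.continuousWithinAt
  have cq : ContinuousOn q (Set.Icc a b) := fun t ht => (hf.hq t ht).continuousAt.continuousWithinAt
  have cx : ∀ s, ContinuousOn (fun t => 1 - sgn s * q t) (Set.Icc a b) := fun s =>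
    continuousOn_const.sub (continuousOn_const.mul cq)
  have c5 : ContinuousOn (fun t => 5 * r t) (Set.Icc a b) := continuousOn_const.mul cr
  have ckz : ContinuousOn (fun t => C.ka * z t) (Set.Icc a b) := continuousOn_const.mul cz
  -- the sets
  set ι := (Bool × Fin C.NR × Fin C.DX × Fin C.DZ) ⊕ ((Bool × Fin C.NR × Fin C.DX × Fin C.DY) ⊕
    (Bool × Fin C.NR × Fin C.NT × Fin C.DY)) with hι
  let D : ι → Set ℝ := fun j => match j with
    | Sum.inl (s, i, A, B) => {t | t ∈ Set.Icc a b ∧ Dyn_P1 C s i A B (r t) (z t) (q t)}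
    | Sum.inr (Sum.inl (s, i, A, B)) =>
        {t | t ∈ Set.Icc a b ∧ Dyn_P2 C s i A B (r t) (z t) (q t)}
    | Sum.inr (Sum.inr (s, i, A, B)) =>
        {t | t ∈ Set.Icc a b ∧ Dyn_P3 C s i A B (r t) (z t) (q t)}
  let F : ι → ℝ → ℝ := fun j => match j with
    | Sum.inl (s, i, A, B) => fun t =>
        tens bq bq bq (C.g1 s) i A B ((5 * r t - C.KR i) / (C.KR ((i : ℕ) + 1) - C.KR i))
        (C.DX * (1 - sgn s * q t) - (A : ℕ)) (C.DZ * (C.ka * z t / (1 - sgn s * q t)) - (B : ℕ))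
    | Sum.inr (Sum.inl (s, i, A, B)) => fun t =>
        tens bq bq bq (C.g2 s) i A B ((5 * r t - C.KR i) / (C.KR ((i : ℕ) + 1) - C.KR i))
        (C.DX * (C.ka * z t) - (A : ℕ)) (C.DY * ((1 - sgn s * q t) / (C.ka * z t)) - (B : ℕ))
    | Sum.inr (Sum.inr (s, i, A, B)) => fun t =>
        tens bq bq bq (C.g3 s) i A B ((5 * r t - C.KR i) / (C.KR ((i : ℕ) + 1) - C.KR i))
        (C.DT * (C.ka * z t) - (C.DT + (A : ℕ))) (C.DY * (1 - sgn s * q t) - (B : ℕ))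
  refine cmp_closed (ι := ι) a b hab (fun t => C.H (r t) (z t) (q t)) W D F ?_ ?_ ?_ ?_
  · -- closed
    rintro (⟨s, i, A, B⟩ | ⟨s, i, A, B⟩ | ⟨s, i, A, B⟩)
    · show IsClosed {t | t ∈ Set.Icc a b ∧ Dyn_P1 C s i A B (r t) (z t) (q t)}
      unfold Dyn_P1 Dyn_P0
      simp only [and_assoc]
      refine Dyn_cl continuousOn_const (continuousOn_const.mul cq) (Dyn_cl continuousOn_const c5
        (Dyn_cl c5 continuousOn_const (Dyn_cl ckz (cx s) (Dyn_cl continuousOn_const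
          (continuousOn_const.mul (cx s)) (Dyn_cl (continuousOn_const.mul (cx s))
            continuousOn_const (Dyn_cl (continuousOn_const.mul (cx s))
              (continuousOn_const.mul ckz) (Dyn_cl1 (continuousOn_const.mul ckz)
                (continuousOn_const.mul (cx s)))))))))
    · show IsClosed {t | t ∈ Set.Icc a b ∧ Dyn_P2 C s i A B (r t) (z t) (q t)}
      unfold Dyn_P2 Dyn_P0
      simp only [and_assoc]
      refine Dyn_cl continuousOn_const (continuousOn_const.mul cq) (Dyn_cl continuousOn_const c5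
        (Dyn_cl c5 continuousOn_const (Dyn_cl (cx s) ckz (Dyn_cl ckz continuousOn_const
          (Dyn_cl continuousOn_const
          (continuousOn_const.mul ckz) (Dyn_cl (continuousOn_const.mul ckz)
            continuousOn_const (Dyn_cl (continuousOn_const.mul ckz)
              (continuousOn_const.mul (cx s)) (Dyn_cl1 (continuousOn_const.mul (cx s))
                (continuousOn_const.mul ckz)))))))))
    · show IsClosed {t | t ∈ Set.Icc a b ∧ Dyn_P3 C s i A B (r t) (z t) (q t)}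
      unfold Dyn_P3 Dyn_P0
      simp only [and_assoc]
      refine Dyn_cl continuousOn_const (continuousOn_const.mul cq) (Dyn_cl continuousOn_const c5
        (Dyn_cl c5 continuousOn_const (Dyn_cl continuousOn_const ckz
          (Dyn_cl continuousOn_const
          (continuousOn_const.mul ckz) (Dyn_cl (continuousOn_const.mul ckz)
            continuousOn_const (Dyn_cl continuousOn_const
              (continuousOn_const.mul (cx s)) (Dyn_cl1 (continuousOn_const.mul (cx s))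
                continuousOn_const)))))))
  · -- cover
    intro t ht
    obtain ⟨s, hs⟩ := Dyn_sgn_ex (q t)
    have hz0 := hf.hz0 t ht
    have hkz0 : 0 ≤ C.ka * z t := mul_nonneg hka.le hz0
    have hx1 : sgn s * q t ≤ 1 := Dyn_sgn_le s (hf.hq1 t ht)
    obtain ⟨i, hi, hi1, hi2⟩ := exists_cell C.KR (5 * r t) C.NR hG.NR0
      (by rw [hG.K0]; linarith [hf.hr0 t ht]) (by rw [hG.Klast]; linarith [hrm t ht])
    have hDX : (0 : ℝ) < C.DX := by exact_mod_cast hG.DX0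
    have hDZ : (0 : ℝ) < C.DZ := by exact_mod_cast hG.DZ0
    have hDY : (0 : ℝ) < C.DY := by exact_mod_cast hG.DY0
    have hDT : (0 : ℝ) < C.DT := by exact_mod_cast hG.DT0
    rw [Set.mem_iUnion]
    by_cases h3 : 1 ≤ C.ka * z t
    · obtain ⟨A, hA, hA1, hA2⟩ := Dyn_ncell (C.DT * (C.ka * z t) - C.DT) C.NT hG.NT0
        (by nlinarith) (by
          have h4 : C.DT * (C.ka * z t) ≤ C.DT * (C.ka * zm) :=
            mul_le_mul_of_nonneg_left (mul_le_mul_of_nonneg_left (hzm t ht) hka.le) hDT.le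
          have h5 := hG.hzm
          linarith)
      obtain ⟨B, hB, hB1, hB2⟩ := Dyn_ncell (C.DY * (1 - sgn s * q t)) C.DY hG.DY0
        (mul_nonneg hDY.le (by linarith)) (by nlinarith)
      exact ⟨Sum.inr (Sum.inr (s, ⟨i, hi⟩, ⟨A, hA⟩, ⟨B, hB⟩)), ht,
        ⟨hs, hi1, hi2⟩, h3, by linarith, by linarith, hB1, hB2⟩
    · push Not at h3
      by_cases h2 : 1 - sgn s * q t ≤ C.ka * z t
      · have hzpos := Dyn_z0 hG s hz0 (hf.hzq t ht) h2
        have hkz : 0 < C.ka * z t := mul_pos hka hzpos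
        obtain ⟨A, hA, hA1, hA2⟩ := Dyn_ncell (C.DX * (C.ka * z t)) C.DX hG.DX0
          (mul_nonneg hDX.le hkz0) (by nlinarith)
        obtain ⟨B, hB, hB1, hB2⟩ := Dyn_ncell (C.DY * ((1 - sgn s * q t) / (C.ka * z t))) C.DY
          hG.DY0 (mul_nonneg hDY.le (div_nonneg (by linarith) hkz0)) (by
            have h4 : (1 - sgn s * q t) / (C.ka * z t) ≤ 1 := by
              rw [div_le_one hkz]; exact h2
            nlinarith)
        refine ⟨Sum.inr (Sum.inl (s, ⟨i, hi⟩, ⟨A, hA⟩, ⟨B, hB⟩)), ht,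
          ⟨hs, hi1, hi2⟩, h2, h3.le, hA1, hA2, ?_, ?_⟩
        · have h5 := mul_le_mul_of_nonneg_right hB1 hkz0
          have h6 : C.DY * ((1 - sgn s * q t) / (C.ka * z t)) * (C.ka * z t) =
              C.DY * (1 - sgn s * q t) := by
            rw [mul_assoc, div_mul_cancel₀ _ hkz.ne']
          rw [h6] at h5
          exact h5
        · have h5 := mul_le_mul_of_nonneg_right hB2 hkz0
          have h6 : C.DY * ((1 - sgn s * q t) / (C.ka * z t)) * (C.ka * z t) =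
              C.DY * (1 - sgn s * q t) := by
            rw [mul_assoc, div_mul_cancel₀ _ hkz.ne']
          rw [h6] at h5
          exact h5
      · push Not at h2
        have hx0 : 0 < 1 - sgn s * q t := lt_of_le_of_lt hkz0 h2
        obtain ⟨A, hA, hA1, hA2⟩ := Dyn_ncell (C.DX * (1 - sgn s * q t)) C.DX hG.DX0
          (mul_nonneg hDX.le hx0.le) (by nlinarith)
        obtain ⟨B, hB, hB1, hB2⟩ := Dyn_ncell (C.DZ * (C.ka * z t / (1 - sgn s * q t))) C.DZ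
          hG.DZ0 (mul_nonneg hDZ.le (div_nonneg hkz0 hx0.le)) (by
            have h4 : C.ka * z t / (1 - sgn s * q t) ≤ 1 := by
              rw [div_le_one hx0]; exact h2.le
            nlinarith)
        refine ⟨Sum.inl (s, ⟨i, hi⟩, ⟨A, hA⟩, ⟨B, hB⟩), ht,
          ⟨hs, hi1, hi2⟩, h2.le, hA1, hA2, ?_, ?_⟩
        · have h5 := mul_le_mul_of_nonneg_right hB1 hx0.le
          have h6 : C.DZ * (C.ka * z t / (1 - sgn s * q t)) * (1 - sgn s * q t) =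
              C.DZ * (C.ka * z t) := by
            rw [mul_assoc, div_mul_cancel₀ _ hx0.ne']
          rw [h6] at h5
          exact h5
        · have h5 := mul_le_mul_of_nonneg_right hB2 hx0.le
          have h6 : C.DZ * (C.ka * z t / (1 - sgn s * q t)) * (1 - sgn s * q t) =
              C.DZ * (C.ka * z t) := by
            rw [mul_assoc, div_mul_cancel₀ _ hx0.ne']
          rw [h6] at h5
          exact h5
  · -- values
    rintro (⟨s, i, A, B⟩ | ⟨s, i, A, B⟩ | ⟨s, i, A, B⟩) t ⟨ht, h⟩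
    · obtain ⟨⟨h1, h2, h3⟩, h4, h5, h6, h7, h8⟩ := h
      have hx0 := Dyn_x0 hG s (hf.hz0 t ht) (hf.hq1 t ht) (hf.hzq t ht) h4
      refine Dyn_H1 hG s i A B i.2 A.2 B.2 h1 h2 h3 hx0 h4 h5 h6 ?_ ?_
      · rw [← mul_div_assoc, le_div_iff₀ hx0]; exact h7
      · rw [← mul_div_assoc, div_le_iff₀ hx0]; exact h8
    · obtain ⟨⟨h1, h2, h3⟩, h4, h40, h5, h6, h7, h8⟩ := h
      have hzpos := Dyn_z0 hG s (hf.hz0 t ht) (hf.hzq t ht) h4
      have hkz : 0 < C.ka * z t := mul_pos hka hzpos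
      refine Dyn_H2 hG s i A B i.2 A.2 B.2 h1 h2 h3 h4 h40 h5 h6 ?_ ?_
      · rw [← mul_div_assoc, le_div_iff₀ hkz]; exact h7
      · rw [← mul_div_assoc, div_le_iff₀ hkz]; exact h8
    · obtain ⟨⟨h1, h2, h3⟩, h4, h5, h6, h7, h8⟩ := h
      exact Dyn_H3 hG s i A B i.2 A.2 B.2 h1 h2 h3 h4 h5 h6 h7 h8
  · -- derivatives
    rintro (⟨s, i, A, B⟩ | ⟨s, i, A, B⟩ | ⟨s, i, A, B⟩) t ⟨ht, h⟩
    · obtain ⟨⟨h1, h2, h3⟩, h4, h5, h6, h7, h8⟩ := h
      have hx0 := Dyn_x0 hG s (hf.hz0 t ht) (hf.hq1 t ht) (hf.hzq t ht) h4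
      have hE := hI.e1 s i i.2 A A.2 B B.2 (r t) (1 - sgn s * q t)
        (C.ka * z t / (1 - sgn s * q t)) (hf.hr0 t ht) h2 h3 h5 h6
        (by rw [← mul_div_assoc, le_div_iff₀ hx0]; exact h7)
        (by rw [← mul_div_assoc, div_le_iff₀ hx0]; exact h8)
      have e1 : (1 - sgn s * q t) * (C.ka * z t / (1 - sgn s * q t)) / C.ka = z t := by
        field_simp
      rw [e1] at hE
      unfold Cert.fr Cert.lx at hE
      obtain ⟨F', hF', hF0⟩ := chain1 hka s (C.g1 s) i A B (C.KR i) (C.KR ((i : ℕ) + 1)) C.DX C.DZ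
        (A : ℕ) (B : ℕ) (hG.Kmono i i.2) (hf.hr t ht) (hf.hz t ht) (hf.hq t ht) (hf.hu t ht)
        (hf.hr0 t ht) hx0 hE
      exact ⟨F' + _, hF'.add (hf.hW t ht), hF0⟩
    · obtain ⟨⟨h1, h2, h3⟩, h4, h40, h5, h6, h7, h8⟩ := h
      have hzpos := Dyn_z0 hG s (hf.hz0 t ht) (hf.hzq t ht) h4
      have hkz : 0 < C.ka * z t := mul_pos hka hzpos
      have hE := hI.e2 s i i.2 A A.2 B B.2 (r t) (C.ka * z t)
        ((1 - sgn s * q t) / (C.ka * z t)) (hf.hr0 t ht) h2 h3 h5 h6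
        (by rw [← mul_div_assoc, le_div_iff₀ hkz]; exact h7)
        (by rw [← mul_div_assoc, div_le_iff₀ hkz]; exact h8)
      have e1 : C.ka * z t / C.ka = z t := by
        field_simp
      rw [e1] at hE
      unfold Cert.fr Cert.lx at hE
      obtain ⟨F', hF', hF0⟩ := chain2 hka s (C.g2 s) i A B (C.KR i) (C.KR ((i : ℕ) + 1)) C.DX C.DY
        (A : ℕ) (B : ℕ) (hG.Kmono i i.2) (hf.hr t ht) (hf.hz t ht) (hf.hq t ht) (hf.hu t ht)
        (hf.hr0 t ht) hzpos hE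
      exact ⟨F' + _, hF'.add (hf.hW t ht), hF0⟩
    · obtain ⟨⟨h1, h2, h3⟩, h4, h5, h6, h7, h8⟩ := h
      have hE := hI.e3 s i i.2 A A.2 B B.2 (r t) (C.ka * z t)
        (1 - sgn s * q t) (hf.hr0 t ht)
        (mul_le_mul_of_nonneg_left (hzm t ht) hka.le) h2 h3 h5 h6 h7 h8
      have e1 : C.ka * z t / C.ka = z t := by
        field_simp
      rw [e1] at hE
      unfold Cert.fr Cert.lx at hE
      obtain ⟨F', hF', hF0⟩ := chain3 hka s (C.g3 s) i A B (C.KR i) (C.KR ((i : ℕ) + 1)) C.DT C.DY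
        (C.DT + (A : ℕ)) (B : ℕ) (hG.Kmono i i.2) (hf.hr t ht) (hf.hz t ht) (hf.hq t ht)
        (hf.hu t ht) (hf.hr0 t ht) hE
      exact ⟨F' + _, hF'.add (hf.hW t ht), hF0⟩

end SShr
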