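import Pool.Agent.Lib.MP_49c3df_gt.Defs

/-! JOB FlowA (MP_49c3df_gt): elementary properties of the flow.

PROOFS.
* `Flow.mono`: restrict the interval.
* `Flow.W_mono`, `Flow.z_anti`: signs of the derivatives (`monotoneOn_of_deriv_nonneg`,
  `antitoneOn_of_deriv_nonpos` on `Icc`, or the mean value theorem). `1 - q^2 ≥ 0` by `hq1`.
* `Flow.cont*`: differentiable, hence continuous. -/

namespace SShr

variable {r z q u W : ℝ → ℝ} {a b : ℝ}

theorem Flow.mono (hf : Flow r z q u W a b) {a' b' : ℝ} (ha : a ≤ a') (hb : b' ≤ b) :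
    Flow r z q u W a' b' := by
  have h : ∀ t ∈ Set.Icc a' b', t ∈ Set.Icc a b := fun t ht => ⟨ha.trans ht.1, ht.2.trans hb⟩
  exact ⟨fun t ht => hf.hr t (h t ht), fun t ht => hf.hz t (h t ht), fun t ht => hf.hq t (h t ht),
    fun t ht => hf.hW t (h t ht), fun t ht => hf.hu t (h t ht), fun t ht => hf.hr0 t (h t ht),
    fun t ht => hf.hz0 t (h t ht), fun t ht => hf.hq1 t (h t ht), fun t ht => hf.hzq t (h t ht)⟩

theorem Flow.W_mono (hf : Flow r z q u W a b) {s t : ℝ} (hs : a ≤ s) (hst : s ≤ t) (ht : t ≤ b) :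
    W s ≤ W t := by
  have h : ∀ y ∈ Set.Icc s t, y ∈ Set.Icc a b := fun y hy => ⟨hs.trans hy.1, hy.2.trans ht⟩
  have h1 : MonotoneOn W (Set.Icc s t) := by
    refine monotoneOn_of_deriv_nonneg (convex_Icc s t)
      (fun y hy => (hf.hW y (h y hy)).continuousAt.continuousWithinAt)
      (fun y hy => (hf.hW y (h y (interior_subset hy))).differentiableAt.differentiableWithinAt)
      (fun y hy => ?_)
    have hy' := h y (interior_subset hy)
    rw [(hf.hW y hy').deriv]
    have h2 : 0 < gw (r y) (z y) := Real.exp_pos _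
    have h3 := hf.hr0 y hy'
    have h4 := hf.hu y hy'
    positivity
  exact h1 ⟨le_refl _, hst⟩ ⟨hst, le_refl _⟩ hst

theorem Flow.z_anti (hf : Flow r z q u W a b) {s t : ℝ} (hs : a ≤ s) (hst : s ≤ t) (ht : t ≤ b) :
    z t ≤ z s := by
  have h : ∀ y ∈ Set.Icc s t, y ∈ Set.Icc a b := fun y hy => ⟨hs.trans hy.1, hy.2.trans ht⟩
  have h1 : AntitoneOn z (Set.Icc s t) := by
    refine antitoneOn_of_deriv_nonpos (convex_Icc s t)
      (fun y hy => (hf.hz y (h y hy)).continuousAt.continuousWithinAt)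
      (fun y hy => (hf.hz y (h y (interior_subset hy))).differentiableAt.differentiableWithinAt)
      (fun y hy => ?_)
    have hy' := h y (interior_subset hy)
    rw [(hf.hz y hy').deriv]
    have h3 := hf.hq1 y hy'
    have h4 := hf.hu y hy'
    have h5 : 0 ≤ 1 - q y ^ 2 := by nlinarith [h3.1, h3.2]
    have h6 : 0 ≤ (1 - q y ^ 2) * u y := mul_nonneg h5 h4.le
    linarith
  exact h1 ⟨le_refl _, hst⟩ ⟨hst, le_refl _⟩ hst

theorem Flow.cont_r (hf : Flow r z q u W a b) : ContinuousOn r (Set.Icc a b) :=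
  fun y hy => (hf.hr y hy).continuousAt.continuousWithinAt

theorem Flow.cont_z (hf : Flow r z q u W a b) : ContinuousOn z (Set.Icc a b) :=
  fun y hy => (hf.hz y hy).continuousAt.continuousWithinAt

theorem Flow.cont_q (hf : Flow r z q u W a b) : ContinuousOn q (Set.Icc a b) :=
  fun y hy => (hf.hq y hy).continuousAt.continuousWithinAt

end SShr
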