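import Pool.Agent.Lib.MP_49c3df_gt.Dyn
import Pool.Agent.Lib.MP_49c3df_gt.FlowA

/-! JOB ExitT (MP_49c3df_gt): a trajectory which reaches `z = 0` has length at least the value of
the certificate at its start.

PROOFS.
* `H_exit_z`: `|q| < 1`. By `H_sh` (with `s = true` if `0 ≤ q`, else `false`) the value is `sh s r 0 x` with
  `x = 1 - σ q ∈ (0, 1]`; `sh_c1` gives `c1 s r x 0` (`κ 0 / x = 0`); unfold `c1`: `V = DZ * 0 = 0` is the knot `0`,
  `S3_V` with `b = 0`, then `spl_le` twice (or `S3_le` with `b = 0`) and `Exit.z1`.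
* `H_exit_r`: `0 ≤ q`: `H = sh true Rm z x`, `x = 1 - q ∈ [0, 1]`; `5 Rm = KR NR`; in the three charts use
  `S3_R` at the last knot and `spl_le` twice with `Exit.r1, r2, r3` (chart 3: `1 ≤ κ z`,
  `DT (κ z) ≤ DT + NT` by `hzm`; chart 2: `κ z ≤ 1`, `x ≤ κ z`: if `κ z = 0` then `x / 0 = 0`, fine, else
  `x / (κ z) ∈ [0, 1]`; chart 1: `κ z / x ∈ [0, 1]`).
* `exit_bound`: Let `T = {t ∈ [a, b] | Rm ≤ r t ∧ 0 ≤ q t}`. If some `t2 ∈ [a, b]` satisfies `r ≤ Rm` on `[a, t2]` and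
  `t2 ∈ T` or `t2 = b`, then `dyn` on `[a, t2]` gives `H a + W a ≤ H t2 + W t2 ≤ 0 + W t2 ≤ W b`
  (`H_exit_r` or `H_exit_z`; `z ≤ zm` on `[a, b]` by `z_anti`). Existence: if `r ≤ Rm` on `[a, b]` take `t2 = b`.
  Otherwise let `t2 = sInf {t ∈ [a, b] | Rm < r t}`; then `r ≤ Rm` on `[a, t2)` and, by continuity, `r t2 = Rm`
  (`r a ≤ Rm` and closedness from the left; `r t2 ≥ Rm` since points with `r > Rm` accumulate at `t2` from
  the right or `t2` itself is such, impossible). If `q t2 < 0` the derivative `2 q u` of `r` at `t2` is negative, so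
  `r < Rm` on a right neighbourhood of `t2`, contradicting the definition of `t2`. So `0 ≤ q t2`. -/

namespace SShr

/-- values at the last knot of `R` -/
theorem ExitT_R {C : Cert} {Rm zm : ℝ} (hG : C.Glue Rm zm) (KU KV : ℕ → ℝ) (nU nV : ℕ)
    (g : ℕ → ℕ → ℕ → ℝ) (U V : ℝ) (hU : ∀ i < nU, KU i < KU (i + 1)) (hV : ∀ i < nV, KV i < KV (i + 1))
    (hU0 : KU 0 ≤ U) (hU1 : U ≤ KU nU) (hV0 : KV 0 ≤ V) (hV1 : V ≤ KV nV)
    (hg : ∀ j ≤ 2 * nU, ∀ k ≤ 2 * nV, g (2 * C.NR) j k ≤ 0) :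
    S3 C.KR KU KV C.NR nU nV g (5 * Rm) U V ≤ 0 := by
  rw [← hG.Klast, S3_R C.KR KU KV C.NR nU nV g U V hG.Kmono C.NR le_rfl]
  refine spl_le KU _ U 0 nU hU nU le_rfl hU0 hU1 fun j hj => ?_
  exact spl_le KV _ V 0 nV hV nV le_rfl hV0 hV1 fun k hk => hg j hj k hk

theorem ExitT_cast (n : ℕ) : ∀ i < n, (fun b : ℕ => (b : ℝ)) i < (fun b : ℕ => (b : ℝ)) (i + 1) := by
  intro i _
  simp only
  push_cast
  linarith

theorem ExitT_mul {n : ℕ} {x : ℝ} (h0 : 0 ≤ x) (h1 : x ≤ 1) :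
    (fun b : ℕ => (b : ℝ)) 0 ≤ (n : ℝ) * x ∧ (n : ℝ) * x ≤ (fun b : ℕ => (b : ℝ)) n := by
  have hn : (0 : ℝ) ≤ n := Nat.cast_nonneg n
  refine ⟨?_, ?_⟩
  · simp only [Nat.cast_zero]
    exact mul_nonneg hn h0
  · simp only
    calc (n : ℝ) * x ≤ n * 1 := mul_le_mul_of_nonneg_left h1 hn
      _ = n := mul_one _

theorem H_exit_z {C : Cert} {Rm zm : ℝ} (hC : C.Valid Rm zm) (r q : ℝ) (hr : 0 < r) (hr1 : r ≤ Rm)
    (hq : -1 < q) (hq1 : q < 1) : C.H r 0 q ≤ 0 := by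
  have hG := hC.glue
  obtain ⟨s, hs⟩ : ∃ s : Bool, 0 ≤ sgn s * q := by
    rcases le_total 0 q with h | h
    · exact ⟨true, by simpa [sgn] using h⟩
    · exact ⟨false, by simpa [sgn] using h⟩
  have hx0 : 0 < 1 - sgn s * q := by
    cases s
    · simp only [sgn]
      linarith
    · simp only [sgn]
      linarith
  have hx1 : 1 - sgn s * q ≤ 1 := by linarith
  rw [H_sh hG s r 0 q hs, sh_c1 hG s r 0 _ hx0 hx1 (by rw [mul_zero]; exact hx0.le), mul_zero, zero_div]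
  set x := 1 - sgn s * q with hx
  have h1 : C.c1 s r x 0 = S3 C.KR (fun a => a) (fun b => b) C.NR C.DX C.DZ (C.g1 s) (5 * r) (C.DX * x)
      ((fun b : ℕ => (b : ℝ)) 0) := by
    unfold Cert.c1
    simp only [mul_zero, Nat.cast_zero]
  rw [h1, S3_V C.KR (fun a => a) (fun b => b) C.NR C.DX C.DZ (C.g1 s) (5 * r) (C.DX * x)
    (ExitT_cast C.DZ) 0 (Nat.zero_le _)]
  refine spl_le C.KR _ (5 * r) 0 C.NR hG.Kmono C.NR le_rfl ?_ ?_ fun i hi => ?_
  · rw [hG.K0]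
    linarith
  · rw [hG.Klast]
    linarith
  · exact spl_le (fun a => a) _ (C.DX * x) 0 C.DX (ExitT_cast C.DX) C.DX le_rfl (ExitT_mul hx0.le hx1).1
      (ExitT_mul hx0.le hx1).2 fun j hj => hC.exit.z1 s i hi j hj

theorem H_exit_r {C : Cert} {Rm zm : ℝ} (hC : C.Valid Rm zm) (z q : ℝ) (hz : 0 ≤ z) (hz1 : z ≤ zm)
    (hq : 0 ≤ q) (hq1 : q ≤ 1) : C.H Rm z q ≤ 0 := by
  have hG := hC.glue
  have hs : 0 ≤ sgn true * q := by simpa [sgn] using hq
  rw [H_sh hG true Rm z q hs]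
  have hx : 1 - sgn true * q = 1 - q := by simp [sgn]
  rw [hx]
  have hx0 : 0 ≤ 1 - q := by linarith
  have hx1 : 1 - q ≤ 1 := by linarith
  have hkz : 0 ≤ C.ka * z := mul_nonneg hG.ka0.le hz
  rcases le_or_gt 1 (C.ka * z) with h1 | h1
  · rw [sh_c3 true Rm z (1 - q) h1]
    have hDT : (0 : ℝ) ≤ C.DT := Nat.cast_nonneg _
    refine ExitT_R hG _ _ C.NT C.DY (C.g3 true) _ _ ?_ (ExitT_cast _) ?_ ?_ (ExitT_mul hx0 hx1).1
      (ExitT_mul hx0 hx1).2 fun j hj k hk => hC.exit.r3 j hj k hk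
    · intro i _
      push_cast
      linarith
    · simp only [Nat.cast_zero, add_zero]
      calc (C.DT : ℝ) = C.DT * 1 := (mul_one _).symm
        _ ≤ C.DT * (C.ka * z) := mul_le_mul_of_nonneg_left h1 hDT
    · calc (C.DT : ℝ) * (C.ka * z) ≤ C.DT * (C.ka * zm) :=
            mul_le_mul_of_nonneg_left (mul_le_mul_of_nonneg_left hz1 hG.ka0.le) hDT
        _ ≤ C.DT + C.NT := hG.hzm
  · rcases le_or_gt (1 - q) (C.ka * z) with h2 | h2
    · rw [sh_c2 hG true Rm z (1 - q) h1.le h2]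
      have h3 : 0 ≤ (1 - q) / (C.ka * z) := div_nonneg hx0 hkz
      have h4 : (1 - q) / (C.ka * z) ≤ 1 := div_le_one_of_le₀ h2 hkz
      exact ExitT_R hG _ _ C.DX C.DY (C.g2 true) _ _ (ExitT_cast _) (ExitT_cast _) (ExitT_mul hkz h1.le).1
        (ExitT_mul hkz h1.le).2 (ExitT_mul h3 h4).1 (ExitT_mul h3 h4).2 fun j hj k hk => hC.exit.r2 j hj k hk
    · have hx0' : 0 < 1 - q := lt_of_le_of_lt hkz h2
      rw [sh_c1 hG true Rm z (1 - q) hx0' hx1 h2.le]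
      have h3 : 0 ≤ C.ka * z / (1 - q) := div_nonneg hkz hx0
      have h4 : C.ka * z / (1 - q) ≤ 1 := div_le_one_of_le₀ h2.le hx0
      exact ExitT_R hG _ _ C.DX C.DZ (C.g1 true) _ _ (ExitT_cast _) (ExitT_cast _) (ExitT_mul hx0 hx1).1
        (ExitT_mul hx0 hx1).2 (ExitT_mul h3 h4).1 (ExitT_mul h3 h4).2 fun j hj k hk => hC.exit.r1 j hj k hk

theorem exit_bound {C : Cert} {Rm zm : ℝ} (hC : C.Valid Rm zm) {r z q u W : ℝ → ℝ} {a b : ℝ}
    (hab : a ≤ b) (hf : Flow r z q u W a b) (hr : r a ≤ Rm) (hz : z a ≤ zm) (hzb : z b = 0) :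
    C.H (r a) (z a) (q a) ≤ W b - W a := by
  have hzt : ∀ t ∈ Set.Icc a b, z t ≤ zm := fun t ht => (hf.z_anti le_rfl ht.1 ht.2).trans hz
  have key : ∀ t2 ∈ Set.Icc a b, (∀ t ∈ Set.Icc a t2, r t ≤ Rm) → C.H (r t2) (z t2) (q t2) ≤ 0 →
      C.H (r a) (z a) (q a) ≤ W b - W a := by
    intro t2 ht2 h1 h2
    have h3 := dyn hC ht2.1 (hf.mono le_rfl ht2.2) h1 fun t ht => hzt t ⟨ht.1, ht.2.trans ht2.2⟩
    have h4 := hf.W_mono ht2.1 ht2.2 le_rfl
    linarith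
  by_cases hS : ∀ t ∈ Set.Icc a b, r t ≤ Rm
  · have hb : b ∈ Set.Icc a b := ⟨hab, le_rfl⟩
    refine key b hb hS ?_
    have h1 := hf.hzq b hb hzb
    rw [hzb]
    exact H_exit_z hC (r b) (q b) (hf.hr0 b hb) (hS b hb) h1.1 h1.2
  · set S : Set ℝ := {t | t ∈ Set.Icc a b ∧ Rm < r t} with hSd
    have hne : S.Nonempty := by
      by_contra h
      apply hS
      intro t ht
      by_contra h1
      exact h ⟨t, ht, not_le.1 h1⟩
    have hbd : BddBelow S := ⟨a, fun t ht => ht.1.1⟩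
    have hat : a ≤ sInf S := le_csInf hne fun t ht => ht.1.1
    have htb : sInf S ≤ b := by
      obtain ⟨t, ht⟩ := hne
      exact (csInf_le hbd ht).trans ht.1.2
    have hmem : sInf S ∈ Set.Icc a b := ⟨hat, htb⟩
    have hbelow : ∀ t, a ≤ t → t < sInf S → r t ≤ Rm := by
      intro t h1 h2
      by_contra h3
      exact absurd (csInf_le hbd (show t ∈ S from ⟨⟨h1, h2.le.trans htb⟩, not_le.1 h3⟩)) (not_le.2 h2)
    have hge : Rm ≤ r (sInf S) := by
      have hcl : IsClosed (Set.Icc a b ∩ r ⁻¹' Set.Ici Rm) :=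
        hf.cont_r.preimage_isClosed_of_isClosed isClosed_Icc isClosed_Ici
      have h1 : S ⊆ Set.Icc a b ∩ r ⁻¹' Set.Ici Rm := fun t ht => ⟨ht.1, ht.2.le⟩
      exact (hcl.closure_subset_iff.2 h1 (csInf_mem_closure hne hbd)).2
    have hle : r (sInf S) ≤ Rm := by
      rcases hat.eq_or_lt with h1 | h1
      · rw [← h1]
        exact hr
      · have hcl : IsClosed (Set.Icc a b ∩ r ⁻¹' Set.Iic Rm) :=
          hf.cont_r.preimage_isClosed_of_isClosed isClosed_Icc isClosed_Iic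
        have h2 : Set.Ico a (sInf S) ⊆ Set.Icc a b ∩ r ⁻¹' Set.Iic Rm := fun t ht =>
          ⟨⟨ht.1, ht.2.le.trans htb⟩, hbelow t ht.1 ht.2⟩
        have h3 := hcl.closure_subset_iff.2 h2
        rw [closure_Ico h1.ne] at h3
        exact (h3 ⟨hat, le_rfl⟩).2
    have hq0 : 0 ≤ q (sInf S) := by
      by_contra hneg
      have hneg' : q (sInf S) < 0 := not_le.1 hneg
      have hd := hf.hr (sInf S) hmem
      have hd0 : 2 * q (sInf S) * u (sInf S) < 0 :=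
        mul_neg_of_neg_of_pos (by linarith) (hf.hu _ hmem)
      have h1 := (hasDerivAt_iff_tendsto_slope.1 hd).eventually (gt_mem_nhds hd0)
      have h2 : ∀ᶠ t in nhdsWithin (sInf S) (Set.Ioi (sInf S)), slope r (sInf S) t < 0 :=
        h1.filter_mono (nhdsWithin_mono _ fun t ht => ne_of_gt ht)
      obtain ⟨w, hw, hsub⟩ := mem_nhdsGT_iff_exists_Ioo_subset.1 h2
      obtain ⟨t, htS, htw⟩ := exists_lt_of_csInf_lt hne hw
      have h3 : sInf S ≤ t := csInf_le hbd htS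
      have h4 : sInf S ≠ t := by
        intro h5
        have h6 := htS.2
        rw [← h5] at h6
        linarith
      have h5 : sInf S < t := lt_of_le_of_ne h3 h4
      have h6 : slope r (sInf S) t < 0 := hsub ⟨h5, htw⟩
      rw [slope_def_field, div_neg_iff] at h6
      have h7 := htS.2
      rcases h6 with h6 | h6
      · linarith [h6.2]
      · linarith [h6.1]
    have heq : r (sInf S) = Rm := le_antisymm hle hge
    refine key (sInf S) hmem (fun t ht => ?_) ?_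
    · rcases ht.2.eq_or_lt with h1 | h1
      · rw [h1]
        exact hle
      · exact hbelow t ht.1 h1
    · rw [heq]
      exact H_exit_r hC _ _ (hf.hz0 _ hmem) (hzt _ hmem) hq0 (hf.hq1 _ hmem).2

end SShr
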