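import Pool.Agent.Lib.MP_49c3df_gt.PolyS
import Pool.Agent.Lib.MP_49c3df_gt.PosS

/-! Lower bounds for the exponential function. -/

namespace SShr

/-- Taylor lower bound of degree 8 -/
noncomputable def T8 (x : ℝ) : ℝ :=
  1 + x + x ^ 2 / 2 + x ^ 3 / 6 + x ^ 4 / 24 + x ^ 5 / 120 + x ^ 6 / 720 + x ^ 7 / 5040
    - x ^ 8 / 35840

theorem T8_le (x : ℝ) (hx : |x| ≤ 1) : T8 x ≤ Real.exp x := by
  have h := Real.exp_bound hx (n := 8) (by norm_num)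
  have h1 := (abs_le.1 h).1
  have h2 : |x| ^ 8 = x ^ 8 := by
    rw [← abs_pow, abs_of_nonneg (by positivity)]
  rw [h2] at h1
  simp only [Finset.sum_range_succ, Finset.sum_range_zero] at h1
  norm_num [Nat.factorial] at h1
  unfold T8
  linarith

/-- the integer polynomial `322560 * 100 ^ 8 * T8 (X / 100)` of an integer polynomial `X` -/
noncomputable def tpoly (X : P1) : P1 :=
  let X2 := mul1 X X
  let X3 := mul1 X X2
  let X4 := mul1 X2 X2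
  let X5 := mul1 X X4
  let X6 := mul1 X2 X4
  let X7 := mul1 X X6
  let X8 := mul1 X4 X4
  add1 [3225600000000000000000] (add1 (sm1 32256000000000000000 X)
    (add1 (sm1 161280000000000000 X2) (add1 (sm1 537600000000000 X3)
    (add1 (sm1 1344000000000 X4) (add1 (sm1 2688000000 X5) (add1 (sm1 4480000 X6)
    (add1 (sm1 6400 X7) (sm1 (-9) X8))))))))

theorem ev1_tpoly (X : P1) (t : ℝ) :
    ev1 t (tpoly X) = 3225600000000000000000 * T8 (ev1 t X / 100) := by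
  have e : ∀ a : ℤ, ev1 t [a] = a := by intro a; simp [ev1, evG]
  unfold tpoly T8
  simp only [ev1_add, ev1_sm, ev1_mul, e]
  push_cast
  ring

/-- test for the quadratic lower bound on a cell -/
noncomputable def qchk (Ra dR mn en Q0 Q1 Q2 : ℤ) : Bool :=
  pos1 (add1 (sm1 en (tpoly [mn - Ra * Ra, -(2 * Ra * dR), -(dR * dR)]))
    (sm1 (-32256000000000000000000000) [Q0, Q1 * dR, Q2 * (dR * dR)]))

theorem qchk_sound (Ra dR mn en Q0 Q1 Q2 : ℤ) (h : qchk Ra dR mn en Q0 Q1 Q2 = true)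
    (hRa : 0 ≤ Ra) (hdR : 0 < dR) (hm1 : (Ra + dR) * (Ra + dR) ≤ mn + 100)
    (hm2 : mn ≤ 100 + Ra * Ra)
    (he0 : 0 ≤ en) (he : (en : ℝ) / 10 ^ 9 ≤ Real.exp (-(mn / 100))) (R : ℝ) (h0 : (Ra : ℝ) ≤ R)
    (h1 : R ≤ Ra + dR) :
    (Q0 + Q1 * (R - Ra) + Q2 * (R - Ra) ^ 2) / 10 ^ 5 ≤ Real.exp (-(R ^ 2 / 100)) := by
  have hdR' : (0 : ℝ) < dR := by exact_mod_cast hdR
  have hRa' : (0 : ℝ) ≤ Ra := by exact_mod_cast hRa
  set t : ℝ := (R - Ra) / dR with ht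
  have hRt : R = Ra + dR * t := by rw [ht]; field_simp; ring
  have ht0 : 0 ≤ t := div_nonneg (by linarith) hdR'.le
  have ht1 : t ≤ 1 := by rw [ht, div_le_one hdR']; linarith
  have hp := pos1_sound _ t ht0 ht1 h
  rw [ev1_add, ev1_sm, ev1_sm, ev1_tpoly] at hp
  have hX : ev1 t [mn - Ra * Ra, -(2 * Ra * dR), -(dR * dR)] = mn - R ^ 2 := by
    rw [hRt]; simp [ev1, evG]; ring
  have hQ : ev1 t [Q0, Q1 * dR, Q2 * (dR * dR)] = Q0 + Q1 * (R - Ra) + Q2 * (R - Ra) ^ 2 := by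
    rw [hRt]; simp [ev1, evG]; ring
  rw [hX, hQ] at hp
  push_cast at hp
  have m1 : (mn : ℝ) ≤ 100 + Ra * Ra := by exact_mod_cast hm2
  have m2 : ((Ra : ℝ) + dR) * (Ra + dR) ≤ mn + 100 := by exact_mod_cast hm1
  have hR2 : R ^ 2 ≤ ((Ra : ℝ) + dR) * (Ra + dR) := by nlinarith
  have hR3 : (Ra : ℝ) * Ra ≤ R ^ 2 := by nlinarith
  have hx : |((mn : ℝ) - R ^ 2) / 100| ≤ 1 := by
    rw [abs_le]; constructor
    · linarith
    · linarith
  have hT := T8_le _ hx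
  have hen : (0 : ℝ) ≤ en := by exact_mod_cast he0
  have hsplit : Real.exp (-(R ^ 2 / 100)) = Real.exp (-(mn / 100)) *
      Real.exp (((mn : ℝ) - R ^ 2) / 100) := by
    rw [← Real.exp_add]; congr 1; ring
  have h3 : (en : ℝ) / 10 ^ 9 * T8 (((mn : ℝ) - R ^ 2) / 100) ≤ Real.exp (-(R ^ 2 / 100)) := by
    rw [hsplit]
    calc (en : ℝ) / 10 ^ 9 * T8 (((mn : ℝ) - R ^ 2) / 100)
        ≤ (en : ℝ) / 10 ^ 9 * Real.exp (((mn : ℝ) - R ^ 2) / 100) :=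
          mul_le_mul_of_nonneg_left hT (by positivity)
      _ ≤ _ := mul_le_mul_of_nonneg_right he (Real.exp_pos _).le
  refine le_trans ?_ h3
  linarith

/-- `exp (-m)` from below for `0 ≤ m ≤ 8` -/
theorem exp8_le (m e : ℝ) (hm : 0 ≤ m) (hm1 : m ≤ 8) (hT : 0 ≤ T8 (-(m / 8)))
    (h : e ≤ T8 (-(m / 8)) ^ 8) : e ≤ Real.exp (-m) := by
  have h1 : |-(m / 8)| ≤ 1 := by rw [abs_neg, abs_of_nonneg (by positivity)]; linarith
  have h2 := T8_le _ h1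
  have h3 : Real.exp (-m) = Real.exp (-(m / 8)) ^ 8 := by
    rw [← Real.exp_nat_mul]; congr 1; push_cast; ring
  rw [h3]
  exact h.trans (pow_le_pow_left₀ hT h2 8)

/-- tangent line bound for the Gaussian in `z` -/
theorem ptan (A B c2 e0 u0 z : ℝ) (h1 : A / 10 ^ 4 ≤ e0 * (1 + u0)) (h2 : e0 / 4 ≤ B * c2 / 10 ^ 4)
    (h3 : e0 ≤ Real.exp (-u0)) (hz : z ^ 2 / 4 ≤ 1 + u0) :
    (A - B * (c2 * z ^ 2)) / 10 ^ 4 ≤ Real.exp (-(z ^ 2 / 4)) := by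
  have hsplit : Real.exp (-(z ^ 2 / 4)) = Real.exp (-u0) * Real.exp (u0 - z ^ 2 / 4) := by
    rw [← Real.exp_add]; congr 1; ring
  have h4 := Real.add_one_le_exp (u0 - z ^ 2 / 4)
  have h5 : e0 * (1 + u0 - z ^ 2 / 4) ≤ Real.exp (-(z ^ 2 / 4)) := by
    rw [hsplit]
    calc e0 * (1 + u0 - z ^ 2 / 4) ≤ Real.exp (-u0) * (1 + u0 - z ^ 2 / 4) :=
          mul_le_mul_of_nonneg_right h3 (by linarith)
      _ ≤ _ := mul_le_mul_of_nonneg_left (by linarith) (Real.exp_pos _).le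
  refine le_trans ?_ h5
  nlinarith [sq_nonneg z]

end SShr
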