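import Pool.Agent.Lib.MP_49c3df_gt.Inst2
import Pool.Agent.Lib.MP_49c3df_gt.DataD

/-! Elementary facts about certificate D. -/

set_option maxRecDepth 100000

namespace SShr

theorem hqD0 (R : ℝ) (h0 : (dataD.rk 0 : ℝ) ≤ R) (h1 : R ≤ dataD.rk (0 + 1)) :
    (dataD.q 0 0 + dataD.q 0 1 * (R - dataD.rk 0) + dataD.q 0 2 * (R - dataD.rk 0) ^ 2) / 10 ^ 5
      ≤ Real.exp (-(R ^ 2 / 100)) := by
  refine hq_of dataD 0 8 923116346 (by decide +kernel) (by decide +kernel) ?_ R h0 h1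
  have h := exp8_le (8 / 100) (923116346 / 10 ^ 9) (by norm_num) (by norm_num)
    (by norm_num [T8]) (by norm_num [T8])
  rw [Int.cast_ofNat, Int.cast_ofNat]
  exact h

theorem hqD1 (R : ℝ) (h0 : (dataD.rk 1 : ℝ) ≤ R) (h1 : R ≤ dataD.rk (1 + 1)) :
    (dataD.q 1 0 + dataD.q 1 1 * (R - dataD.rk 1) + dataD.q 1 2 * (R - dataD.rk 1) ^ 2) / 10 ^ 5
      ≤ Real.exp (-(R ^ 2 / 100)) := by
  refine hq_of dataD 1 40 670320046 (by decide +kernel) (by decide +kernel) ?_ R h0 h1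
  have h := exp8_le (40 / 100) (670320046 / 10 ^ 9) (by norm_num) (by norm_num)
    (by norm_num [T8]) (by norm_num [T8])
  rw [Int.cast_ofNat, Int.cast_ofNat]
  exact h

theorem hqD2 (R : ℝ) (h0 : (dataD.rk 2 : ℝ) ≤ R) (h1 : R ≤ dataD.rk (2 + 1)) :
    (dataD.q 2 0 + dataD.q 2 1 * (R - dataD.rk 2) + dataD.q 2 2 * (R - dataD.rk 2) ^ 2) / 10 ^ 5
      ≤ Real.exp (-(R ^ 2 / 100)) := by
  refine hq_of dataD 2 104 353454681 (by decide +kernel) (by decide +kernel) ?_ R h0 h1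
  have h := exp8_le (104 / 100) (353454681 / 10 ^ 9) (by norm_num) (by norm_num)
    (by norm_num [T8]) (by norm_num [T8])
  rw [Int.cast_ofNat, Int.cast_ofNat]
  exact h

theorem hqD3 (R : ℝ) (h0 : (dataD.rk 3 : ℝ) ≤ R) (h1 : R ≤ dataD.rk (3 + 1)) :
    (dataD.q 3 0 + dataD.q 3 1 * (R - dataD.rk 3) + dataD.q 3 2 * (R - dataD.rk 3) ^ 2) / 10 ^ 5
      ≤ Real.exp (-(R ^ 2 / 100)) := by
  refine hq_of dataD 3 200 135335282 (by decide +kernel) (by decide +kernel) ?_ R h0 h1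
  have h := exp8_le (200 / 100) (135335282 / 10 ^ 9) (by norm_num) (by norm_num)
    (by norm_num [T8]) (by norm_num [T8])
  rw [Int.cast_ofNat, Int.cast_ofNat]
  exact h

theorem hqD4 (R : ℝ) (h0 : (dataD.rk 4 : ℝ) ≤ R) (h1 : R ≤ dataD.rk (4 + 1)) :
    (dataD.q 4 0 + dataD.q 4 1 * (R - dataD.rk 4) + dataD.q 4 2 * (R - dataD.rk 4) ^ 2) / 10 ^ 5
      ≤ Real.exp (-(R ^ 2 / 100)) := by
  refine hq_of dataD 4 290 55023210 (by decide +kernel) (by decide +kernel) ?_ R h0 h1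
  have h := exp8_le (290 / 100) (55023210 / 10 ^ 9) (by norm_num) (by norm_num)
    (by norm_num [T8]) (by norm_num [T8])
  rw [Int.cast_ofNat, Int.cast_ofNat]
  exact h

theorem hqD5 (R : ℝ) (h0 : (dataD.rk 5 : ℝ) ≤ R) (h1 : R ≤ dataD.rk (5 + 1)) :
    (dataD.q 5 0 + dataD.q 5 1 * (R - dataD.rk 5) + dataD.q 5 2 * (R - dataD.rk 5) ^ 2) / 10 ^ 5
      ≤ Real.exp (-(R ^ 2 / 100)) := by
  refine hq_of dataD 5 362 26782645 (by decide +kernel) (by decide +kernel) ?_ R h0 h1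
  have h := exp8_le (362 / 100) (26782645 / 10 ^ 9) (by norm_num) (by norm_num)
    (by norm_num [T8]) (by norm_num [T8])
  rw [Int.cast_ofNat, Int.cast_ofNat]
  exact h

theorem hqD6 (R : ℝ) (h0 : (dataD.rk 6 : ℝ) ≤ R) (h1 : R ≤ dataD.rk (6 + 1)) :
    (dataD.q 6 0 + dataD.q 6 1 * (R - dataD.rk 6) + dataD.q 6 2 * (R - dataD.rk 6) ^ 2) / 10 ^ 5
      ≤ Real.exp (-(R ^ 2 / 100)) := by
  refine hq_of dataD 6 442 12034157 (by decide +kernel) (by decide +kernel) ?_ R h0 h1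
  have h := exp8_le (442 / 100) (12034157 / 10 ^ 9) (by norm_num) (by norm_num)
    (by norm_num [T8]) (by norm_num [T8])
  rw [Int.cast_ofNat, Int.cast_ofNat]
  exact h

theorem hqD7 (R : ℝ) (h0 : (dataD.rk 7 : ℝ) ≤ R) (h1 : R ≤ dataD.rk (7 + 1)) :
    (dataD.q 7 0 + dataD.q 7 1 * (R - dataD.rk 7) + dataD.q 7 2 * (R - dataD.rk 7) ^ 2) / 10 ^ 5
      ≤ Real.exp (-(R ^ 2 / 100)) := by
  refine hq_of dataD 7 530 4991447 (by decide +kernel) (by decide +kernel) ?_ R h0 h1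
  have h := exp8_le (530 / 100) (4991447 / 10 ^ 9) (by norm_num) (by norm_num)
    (by norm_num [T8]) (by norm_num [T8])
  rw [Int.cast_ofNat, Int.cast_ofNat]
  exact h

theorem hqD8 (R : ℝ) (h0 : (dataD.rk 8 : ℝ) ≤ R) (h1 : R ≤ dataD.rk (8 + 1)) :
    (dataD.q 8 0 + dataD.q 8 1 * (R - dataD.rk 8) + dataD.q 8 2 * (R - dataD.rk 8) ^ 2) / 10 ^ 5
      ≤ Real.exp (-(R ^ 2 / 100)) := by
  refine hq_of dataD 8 626 1911007 (by decide +kernel) (by decide +kernel) ?_ R h0 h1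
  have h := exp8_le (626 / 100) (1911007 / 10 ^ 9) (by norm_num) (by norm_num)
    (by norm_num [T8]) (by norm_num [T8])
  rw [Int.cast_ofNat, Int.cast_ofNat]
  exact h

theorem hqD : ∀ i < dataD.NR, ∀ R : ℝ, (dataD.rk i : ℝ) ≤ R → R ≤ dataD.rk (i + 1) →
    (dataD.q i 0 + dataD.q i 1 * (R - dataD.rk i) + dataD.q i 2 * (R - dataD.rk i) ^ 2) / 10 ^ 5
      ≤ Real.exp (-(R ^ 2 / 100)) := by
  intro i hi
  have hi' : i < 9 := hi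
  interval_cases i
  · exact hqD0
  · exact hqD1
  · exact hqD2
  · exact hqD3
  · exact hqD4
  · exact hqD5
  · exact hqD6
  · exact hqD7
  · exact hqD8

theorem ckDA1 : (dataD.kn : ℝ) / dataD.kd = 5 / 6 ∧ (dataD.DX : ℝ) * dataD.DZ = 2 := by
  constructor
  · show ((5 : ℤ) : ℝ) / ((6 : ℤ) : ℝ) = _
    norm_num
  · show ((1 : ℕ) : ℝ) * ((2 : ℕ) : ℝ) = _
    norm_num

theorem pD1_0_0 : ∀ z : ℝ, 0 ≤ z → (dataD.kn : ℝ) / dataD.kd * z ≤ 1 →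
    0 ≤ ((ab dataD.A1 0 0 0 : ℝ) - ab dataD.A1 0 0 1 * ((dataD.DX : ℝ) * dataD.DZ * ((dataD.kn : ℝ) / dataD.kd * z)) ^ 2) ∧
    ((ab dataD.A1 0 0 0 : ℝ) - ab dataD.A1 0 0 1 * ((dataD.DX : ℝ) * dataD.DZ * ((dataD.kn : ℝ) / dataD.kd * z)) ^ 2) / 10 ^ 4
      ≤ Real.exp (-(z ^ 2 / 4)) := by
  intro z hz hz1
  have hA : ab dataD.A1 0 0 0 = 9998 := rfl
  have hB : ab dataD.A1 0 0 1 = 887 := rfl
  rw [hA, hB, (ckDA1).1, (ckDA1).2]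
  rw [(ckDA1).1] at hz1
  have he : (61531 / 62500 : ℝ) ≤ Real.exp (-(1 / 64)) :=
    exp8_le _ _ (by norm_num) (by norm_num) (by norm_num [T8]) (by norm_num [T8])
  exact p_of _ _ (6 / 5) (61531 / 62500) (1 / 64) _ _ (by norm_num) (by norm_num) he (by norm_num)
    (by norm_num) (by norm_num) z hz (by linarith)

theorem pD1_0_1 : ∀ z : ℝ, 0 ≤ z → (dataD.kn : ℝ) / dataD.kd * z ≤ 1 →
    0 ≤ ((ab dataD.A1 0 1 0 : ℝ) - ab dataD.A1 0 1 1 * ((dataD.DX : ℝ) * dataD.DZ * ((dataD.kn : ℝ) / dataD.kd * z)) ^ 2) ∧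
    ((ab dataD.A1 0 1 0 : ℝ) - ab dataD.A1 0 1 1 * ((dataD.DX : ℝ) * dataD.DZ * ((dataD.kn : ℝ) / dataD.kd * z)) ^ 2) / 10 ^ 4
      ≤ Real.exp (-(z ^ 2 / 4)) := by
  intro z hz hz1
  have hA : ab dataD.A1 0 1 0 = 9958 := rfl
  have hB : ab dataD.A1 0 1 1 = 820 := rfl
  rw [hA, hB, (ckDA1).1, (ckDA1).2]
  rw [(ckDA1).1] at hz1
  have he : (91051 / 100000 : ℝ) ≤ Real.exp (-(3 / 32)) :=
    exp8_le _ _ (by norm_num) (by norm_num) (by norm_num [T8]) (by norm_num [T8])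
  exact p_of _ _ (6 / 5) (91051 / 100000) (3 / 32) _ _ (by norm_num) (by norm_num) he (by norm_num)
    (by norm_num) (by norm_num) z hz (by linarith)

theorem pD1 : ∀ a < dataD.DX, ∀ b < dataD.DZ, ∀ z : ℝ, 0 ≤ z → (dataD.kn : ℝ) / dataD.kd * z ≤ 1 →
    0 ≤ ((ab dataD.A1 a b 0 : ℝ) - ab dataD.A1 a b 1 * ((dataD.DX : ℝ) * dataD.DZ * ((dataD.kn : ℝ) / dataD.kd * z)) ^ 2) ∧
    ((ab dataD.A1 a b 0 : ℝ) - ab dataD.A1 a b 1 * ((dataD.DX : ℝ) * dataD.DZ * ((dataD.kn : ℝ) / dataD.kd * z)) ^ 2) / 10 ^ 4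
      ≤ Real.exp (-(z ^ 2 / 4)) := by
  intro a ha b hb
  have ha' : a < 1 := ha
  have hb' : b < 2 := hb
  interval_cases a <;> interval_cases b
  · exact pD1_0_0
  · exact pD1_0_1

theorem ckDA2 : (dataD.kn : ℝ) / dataD.kd = 5 / 6 ∧ (dataD.DX : ℝ) = 1 := by
  constructor
  · show ((5 : ℤ) : ℝ) / ((6 : ℤ) : ℝ) = _
    norm_num
  · show ((1 : ℕ) : ℝ) = _
    norm_num

theorem pD2_0_0 : ∀ z : ℝ, 0 ≤ z → (dataD.kn : ℝ) / dataD.kd * z ≤ 1 →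
    0 ≤ ((ab dataD.A2 0 0 0 : ℝ) - ab dataD.A2 0 0 1 * ((dataD.DX : ℝ) * ((dataD.kn : ℝ) / dataD.kd * z)) ^ 2) ∧
    ((ab dataD.A2 0 0 0 : ℝ) - ab dataD.A2 0 0 1 * ((dataD.DX : ℝ) * ((dataD.kn : ℝ) / dataD.kd * z)) ^ 2) / 10 ^ 4
      ≤ Real.exp (-(z ^ 2 / 4)) := by
  intro z hz hz1
  have hA : ab dataD.A2 0 0 0 = 9958 := rfl
  have hB : ab dataD.A2 0 0 1 = 3278 := rfl
  rw [hA, hB, (ckDA2).1, (ckDA2).2]
  rw [(ckDA2).1] at hz1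
  have he : (91051 / 100000 : ℝ) ≤ Real.exp (-(3 / 32)) :=
    exp8_le _ _ (by norm_num) (by norm_num) (by norm_num [T8]) (by norm_num [T8])
  exact p_of _ _ (6 / 5) (91051 / 100000) (3 / 32) _ _ (by norm_num) (by norm_num) he (by norm_num)
    (by norm_num) (by norm_num) z hz (by linarith)

theorem pD2_0_1 : ∀ z : ℝ, 0 ≤ z → (dataD.kn : ℝ) / dataD.kd * z ≤ 1 →
    0 ≤ ((ab dataD.A2 0 1 0 : ℝ) - ab dataD.A2 0 1 1 * ((dataD.DX : ℝ) * ((dataD.kn : ℝ) / dataD.kd * z)) ^ 2) ∧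
    ((ab dataD.A2 0 1 0 : ℝ) - ab dataD.A2 0 1 1 * ((dataD.DX : ℝ) * ((dataD.kn : ℝ) / dataD.kd * z)) ^ 2) / 10 ^ 4
      ≤ Real.exp (-(z ^ 2 / 4)) := by
  intro z hz hz1
  have hA : ab dataD.A2 0 1 0 = 9958 := rfl
  have hB : ab dataD.A2 0 1 1 = 3278 := rfl
  rw [hA, hB, (ckDA2).1, (ckDA2).2]
  rw [(ckDA2).1] at hz1
  have he : (91051 / 100000 : ℝ) ≤ Real.exp (-(3 / 32)) :=
    exp8_le _ _ (by norm_num) (by norm_num) (by norm_num [T8]) (by norm_num [T8])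
  exact p_of _ _ (6 / 5) (91051 / 100000) (3 / 32) _ _ (by norm_num) (by norm_num) he (by norm_num)
    (by norm_num) (by norm_num) z hz (by linarith)

theorem pD2_0_2 : ∀ z : ℝ, 0 ≤ z → (dataD.kn : ℝ) / dataD.kd * z ≤ 1 →
    0 ≤ ((ab dataD.A2 0 2 0 : ℝ) - ab dataD.A2 0 2 1 * ((dataD.DX : ℝ) * ((dataD.kn : ℝ) / dataD.kd * z)) ^ 2) ∧
    ((ab dataD.A2 0 2 0 : ℝ) - ab dataD.A2 0 2 1 * ((dataD.DX : ℝ) * ((dataD.kn : ℝ) / dataD.kd * z)) ^ 2) / 10 ^ 4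
      ≤ Real.exp (-(z ^ 2 / 4)) := by
  intro z hz hz1
  have hA : ab dataD.A2 0 2 0 = 9958 := rfl
  have hB : ab dataD.A2 0 2 1 = 3278 := rfl
  rw [hA, hB, (ckDA2).1, (ckDA2).2]
  rw [(ckDA2).1] at hz1
  have he : (91051 / 100000 : ℝ) ≤ Real.exp (-(3 / 32)) :=
    exp8_le _ _ (by norm_num) (by norm_num) (by norm_num [T8]) (by norm_num [T8])
  exact p_of _ _ (6 / 5) (91051 / 100000) (3 / 32) _ _ (by norm_num) (by norm_num) he (by norm_num)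
    (by norm_num) (by norm_num) z hz (by linarith)

theorem pD2 : ∀ a < dataD.DX, ∀ b < dataD.DY, ∀ z : ℝ, 0 ≤ z → (dataD.kn : ℝ) / dataD.kd * z ≤ 1 →
    0 ≤ ((ab dataD.A2 a b 0 : ℝ) - ab dataD.A2 a b 1 * ((dataD.DX : ℝ) * ((dataD.kn : ℝ) / dataD.kd * z)) ^ 2) ∧
    ((ab dataD.A2 a b 0 : ℝ) - ab dataD.A2 a b 1 * ((dataD.DX : ℝ) * ((dataD.kn : ℝ) / dataD.kd * z)) ^ 2) / 10 ^ 4
      ≤ Real.exp (-(z ^ 2 / 4)) := by
  intro a ha b hb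
  have ha' : a < 1 := ha
  have hb' : b < 3 := hb
  interval_cases a <;> interval_cases b
  · exact pD2_0_0
  · exact pD2_0_1
  · exact pD2_0_2

theorem ckDA3 : (dataD.kn : ℝ) / dataD.kd = 5 / 6 ∧ (dataD.DT : ℝ) = 3 := by
  constructor
  · show ((5 : ℤ) : ℝ) / ((6 : ℤ) : ℝ) = _
    norm_num
  · show ((3 : ℕ) : ℝ) = _
    norm_num

theorem pD3_0_0 : ∀ z : ℝ, 0 ≤ z → z ≤ 2 →
    0 ≤ ((ab dataD.A3 0 0 0 : ℝ) - ab dataD.A3 0 0 1 * ((dataD.DT : ℝ) * ((dataD.kn : ℝ) / dataD.kd * z)) ^ 2) ∧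
    ((ab dataD.A3 0 0 0 : ℝ) - ab dataD.A3 0 0 1 * ((dataD.DT : ℝ) * ((dataD.kn : ℝ) / dataD.kd * z)) ^ 2) / 10 ^ 4
      ≤ Real.exp (-(z ^ 2 / 4)) := by
  intro z hz hz1
  have hA : ab dataD.A3 0 0 0 = 9097 := rfl
  have hB : ab dataD.A3 0 0 1 = 243 := rfl
  rw [hA, hB, (ckDA3).1, (ckDA3).2]
  have he : (60653 / 100000 : ℝ) ≤ Real.exp (-(1 / 2)) :=
    exp8_le _ _ (by norm_num) (by norm_num) (by norm_num [T8]) (by norm_num [T8])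
  exact p_of _ _ (2) (60653 / 100000) (1 / 2) _ _ (by norm_num) (by norm_num) he (by norm_num)
    (by norm_num) (by norm_num) z hz (by linarith)

theorem pD3_0_1 : ∀ z : ℝ, 0 ≤ z → z ≤ 2 →
    0 ≤ ((ab dataD.A3 0 1 0 : ℝ) - ab dataD.A3 0 1 1 * ((dataD.DT : ℝ) * ((dataD.kn : ℝ) / dataD.kd * z)) ^ 2) ∧
    ((ab dataD.A3 0 1 0 : ℝ) - ab dataD.A3 0 1 1 * ((dataD.DT : ℝ) * ((dataD.kn : ℝ) / dataD.kd * z)) ^ 2) / 10 ^ 4
      ≤ Real.exp (-(z ^ 2 / 4)) := by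
  intro z hz hz1
  have hA : ab dataD.A3 0 1 0 = 9097 := rfl
  have hB : ab dataD.A3 0 1 1 = 243 := rfl
  rw [hA, hB, (ckDA3).1, (ckDA3).2]
  have he : (60653 / 100000 : ℝ) ≤ Real.exp (-(1 / 2)) :=
    exp8_le _ _ (by norm_num) (by norm_num) (by norm_num [T8]) (by norm_num [T8])
  exact p_of _ _ (2) (60653 / 100000) (1 / 2) _ _ (by norm_num) (by norm_num) he (by norm_num)
    (by norm_num) (by norm_num) z hz (by linarith)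

theorem pD3_0_2 : ∀ z : ℝ, 0 ≤ z → z ≤ 2 →
    0 ≤ ((ab dataD.A3 0 2 0 : ℝ) - ab dataD.A3 0 2 1 * ((dataD.DT : ℝ) * ((dataD.kn : ℝ) / dataD.kd * z)) ^ 2) ∧
    ((ab dataD.A3 0 2 0 : ℝ) - ab dataD.A3 0 2 1 * ((dataD.DT : ℝ) * ((dataD.kn : ℝ) / dataD.kd * z)) ^ 2) / 10 ^ 4
      ≤ Real.exp (-(z ^ 2 / 4)) := by
  intro z hz hz1
  have hA : ab dataD.A3 0 2 0 = 9097 := rfl
  have hB : ab dataD.A3 0 2 1 = 243 := rfl
  rw [hA, hB, (ckDA3).1, (ckDA3).2]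
  have he : (60653 / 100000 : ℝ) ≤ Real.exp (-(1 / 2)) :=
    exp8_le _ _ (by norm_num) (by norm_num) (by norm_num [T8]) (by norm_num [T8])
  exact p_of _ _ (2) (60653 / 100000) (1 / 2) _ _ (by norm_num) (by norm_num) he (by norm_num)
    (by norm_num) (by norm_num) z hz (by linarith)

theorem pD3_1_0 : ∀ z : ℝ, 0 ≤ z → z ≤ 2 →
    0 ≤ ((ab dataD.A3 1 0 0 : ℝ) - ab dataD.A3 1 0 1 * ((dataD.DT : ℝ) * ((dataD.kn : ℝ) / dataD.kd * z)) ^ 2) ∧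
    ((ab dataD.A3 1 0 0 : ℝ) - ab dataD.A3 1 0 1 * ((dataD.DT : ℝ) * ((dataD.kn : ℝ) / dataD.kd * z)) ^ 2) / 10 ^ 4
      ≤ Real.exp (-(z ^ 2 / 4)) := by
  intro z hz hz1
  have hA : ab dataD.A3 1 0 0 = 8042 := rfl
  have hB : ab dataD.A3 1 0 1 = 178 := rfl
  rw [hA, hB, (ckDA3).1, (ckDA3).2]
  have he : (443747 / 1000000 : ℝ) ≤ Real.exp (-(13 / 16)) :=
    exp8_le _ _ (by norm_num) (by norm_num) (by norm_num [T8]) (by norm_num [T8])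
  exact p_of _ _ (2) (443747 / 1000000) (13 / 16) _ _ (by norm_num) (by norm_num) he (by norm_num)
    (by norm_num) (by norm_num) z hz (by linarith)

theorem pD3_1_1 : ∀ z : ℝ, 0 ≤ z → z ≤ 2 →
    0 ≤ ((ab dataD.A3 1 1 0 : ℝ) - ab dataD.A3 1 1 1 * ((dataD.DT : ℝ) * ((dataD.kn : ℝ) / dataD.kd * z)) ^ 2) ∧
    ((ab dataD.A3 1 1 0 : ℝ) - ab dataD.A3 1 1 1 * ((dataD.DT : ℝ) * ((dataD.kn : ℝ) / dataD.kd * z)) ^ 2) / 10 ^ 4
      ≤ Real.exp (-(z ^ 2 / 4)) := by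
  intro z hz hz1
  have hA : ab dataD.A3 1 1 0 = 8042 := rfl
  have hB : ab dataD.A3 1 1 1 = 178 := rfl
  rw [hA, hB, (ckDA3).1, (ckDA3).2]
  have he : (443747 / 1000000 : ℝ) ≤ Real.exp (-(13 / 16)) :=
    exp8_le _ _ (by norm_num) (by norm_num) (by norm_num [T8]) (by norm_num [T8])
  exact p_of _ _ (2) (443747 / 1000000) (13 / 16) _ _ (by norm_num) (by norm_num) he (by norm_num)
    (by norm_num) (by norm_num) z hz (by linarith)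

theorem pD3_1_2 : ∀ z : ℝ, 0 ≤ z → z ≤ 2 →
    0 ≤ ((ab dataD.A3 1 2 0 : ℝ) - ab dataD.A3 1 2 1 * ((dataD.DT : ℝ) * ((dataD.kn : ℝ) / dataD.kd * z)) ^ 2) ∧
    ((ab dataD.A3 1 2 0 : ℝ) - ab dataD.A3 1 2 1 * ((dataD.DT : ℝ) * ((dataD.kn : ℝ) / dataD.kd * z)) ^ 2) / 10 ^ 4
      ≤ Real.exp (-(z ^ 2 / 4)) := by
  intro z hz hz1
  have hA : ab dataD.A3 1 2 0 = 8042 := rfl
  have hB : ab dataD.A3 1 2 1 = 178 := rfl
  rw [hA, hB, (ckDA3).1, (ckDA3).2]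
  have he : (443747 / 1000000 : ℝ) ≤ Real.exp (-(13 / 16)) :=
    exp8_le _ _ (by norm_num) (by norm_num) (by norm_num [T8]) (by norm_num [T8])
  exact p_of _ _ (2) (443747 / 1000000) (13 / 16) _ _ (by norm_num) (by norm_num) he (by norm_num)
    (by norm_num) (by norm_num) z hz (by linarith)

theorem pD3 : ∀ a < dataD.NT, ∀ b < dataD.DY, ∀ z : ℝ, 0 ≤ z → z ≤ 2 →
    0 ≤ ((ab dataD.A3 a b 0 : ℝ) - ab dataD.A3 a b 1 * ((dataD.DT : ℝ) * ((dataD.kn : ℝ) / dataD.kd * z)) ^ 2) ∧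
    ((ab dataD.A3 a b 0 : ℝ) - ab dataD.A3 a b 1 * ((dataD.DT : ℝ) * ((dataD.kn : ℝ) / dataD.kd * z)) ^ 2) / 10 ^ 4
      ≤ Real.exp (-(z ^ 2 / 4)) := by
  intro a ha b hb
  have ha' : a < 2 := ha
  have hb' : b < 3 := hb
  interval_cases a <;> interval_cases b
  · exact pD3_0_0
  · exact pD3_0_1
  · exact pD3_0_2
  · exact pD3_1_0
  · exact pD3_1_1
  · exact pD3_1_2

end SShr
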