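import Pool.Agent.Lib.MP_49c3df_gt.Inst2
import Pool.Agent.Lib.MP_49c3df_gt.DataM

/-! Elementary facts about certificate M. -/

set_option maxRecDepth 100000

namespace SShr

theorem hqM0 (R : ℝ) (h0 : (dataM.rk 0 : ℝ) ≤ R) (h1 : R ≤ dataM.rk (0 + 1)) :
    (dataM.q 0 0 + dataM.q 0 1 * (R - dataM.rk 0) + dataM.q 0 2 * (R - dataM.rk 0) ^ 2) / 10 ^ 5
      ≤ Real.exp (-(R ^ 2 / 100)) := by
  refine hq_of dataM 0 2 980198673 (by decide +kernel) (by decide +kernel) ?_ R h0 h1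
  have h := exp8_le (2 / 100) (980198673 / 10 ^ 9) (by norm_num) (by norm_num)
    (by norm_num [T8]) (by norm_num [T8])
  rw [Int.cast_ofNat, Int.cast_ofNat]
  exact h

theorem hqM1 (R : ℝ) (h0 : (dataM.rk 1 : ℝ) ≤ R) (h1 : R ≤ dataM.rk (1 + 1)) :
    (dataM.q 1 0 + dataM.q 1 1 * (R - dataM.rk 1) + dataM.q 1 2 * (R - dataM.rk 1) ^ 2) / 10 ^ 5
      ≤ Real.exp (-(R ^ 2 / 100)) := by
  refine hq_of dataM 1 10 904837418 (by decide +kernel) (by decide +kernel) ?_ R h0 h1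
  have h := exp8_le (10 / 100) (904837418 / 10 ^ 9) (by norm_num) (by norm_num)
    (by norm_num [T8]) (by norm_num [T8])
  rw [Int.cast_ofNat, Int.cast_ofNat]
  exact h

theorem hqM2 (R : ℝ) (h0 : (dataM.rk 2 : ℝ) ≤ R) (h1 : R ≤ dataM.rk (2 + 1)) :
    (dataM.q 2 0 + dataM.q 2 1 * (R - dataM.rk 2) + dataM.q 2 2 * (R - dataM.rk 2) ^ 2) / 10 ^ 5
      ≤ Real.exp (-(R ^ 2 / 100)) := by
  refine hq_of dataM 2 26 771051585 (by decide +kernel) (by decide +kernel) ?_ R h0 h1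
  have h := exp8_le (26 / 100) (771051585 / 10 ^ 9) (by norm_num) (by norm_num)
    (by norm_num [T8]) (by norm_num [T8])
  rw [Int.cast_ofNat, Int.cast_ofNat]
  exact h

theorem hqM3 (R : ℝ) (h0 : (dataM.rk 3 : ℝ) ≤ R) (h1 : R ≤ dataM.rk (3 + 1)) :
    (dataM.q 3 0 + dataM.q 3 1 * (R - dataM.rk 3) + dataM.q 3 2 * (R - dataM.rk 3) ^ 2) / 10 ^ 5
      ≤ Real.exp (-(R ^ 2 / 100)) := by
  refine hq_of dataM 3 50 606530659 (by decide +kernel) (by decide +kernel) ?_ R h0 h1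
  have h := exp8_le (50 / 100) (606530659 / 10 ^ 9) (by norm_num) (by norm_num)
    (by norm_num [T8]) (by norm_num [T8])
  rw [Int.cast_ofNat, Int.cast_ofNat]
  exact h

theorem hqM4 (R : ℝ) (h0 : (dataM.rk 4 : ℝ) ≤ R) (h1 : R ≤ dataM.rk (4 + 1)) :
    (dataM.q 4 0 + dataM.q 4 1 * (R - dataM.rk 4) + dataM.q 4 2 * (R - dataM.rk 4) ^ 2) / 10 ^ 5
      ≤ Real.exp (-(R ^ 2 / 100)) := by
  refine hq_of dataM 4 82 440431654 (by decide +kernel) (by decide +kernel) ?_ R h0 h1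
  have h := exp8_le (82 / 100) (440431654 / 10 ^ 9) (by norm_num) (by norm_num)
    (by norm_num [T8]) (by norm_num [T8])
  rw [Int.cast_ofNat, Int.cast_ofNat]
  exact h

theorem hqM5 (R : ℝ) (h0 : (dataM.rk 5 : ℝ) ≤ R) (h1 : R ≤ dataM.rk (5 + 1)) :
    (dataM.q 5 0 + dataM.q 5 1 * (R - dataM.rk 5) + dataM.q 5 2 * (R - dataM.rk 5) ^ 2) / 10 ^ 5
      ≤ Real.exp (-(R ^ 2 / 100)) := by
  refine hq_of dataM 5 122 295230166 (by decide +kernel) (by decide +kernel) ?_ R h0 h1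
  have h := exp8_le (122 / 100) (295230166 / 10 ^ 9) (by norm_num) (by norm_num)
    (by norm_num [T8]) (by norm_num [T8])
  rw [Int.cast_ofNat, Int.cast_ofNat]
  exact h

theorem hqM6 (R : ℝ) (h0 : (dataM.rk 6 : ℝ) ≤ R) (h1 : R ≤ dataM.rk (6 + 1)) :
    (dataM.q 6 0 + dataM.q 6 1 * (R - dataM.rk 6) + dataM.q 6 2 * (R - dataM.rk 6) ^ 2) / 10 ^ 5
      ≤ Real.exp (-(R ^ 2 / 100)) := by
  refine hq_of dataM 6 170 182683523 (by decide +kernel) (by decide +kernel) ?_ R h0 h1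
  have h := exp8_le (170 / 100) (182683523 / 10 ^ 9) (by norm_num) (by norm_num)
    (by norm_num [T8]) (by norm_num [T8])
  rw [Int.cast_ofNat, Int.cast_ofNat]
  exact h

theorem hqM7 (R : ℝ) (h0 : (dataM.rk 7 : ℝ) ≤ R) (h1 : R ≤ dataM.rk (7 + 1)) :
    (dataM.q 7 0 + dataM.q 7 1 * (R - dataM.rk 7) + dataM.q 7 2 * (R - dataM.rk 7) ^ 2) / 10 ^ 5
      ≤ Real.exp (-(R ^ 2 / 100)) := by
  refine hq_of dataM 7 226 104350482 (by decide +kernel) (by decide +kernel) ?_ R h0 h1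
  have h := exp8_le (226 / 100) (104350482 / 10 ^ 9) (by norm_num) (by norm_num)
    (by norm_num [T8]) (by norm_num [T8])
  rw [Int.cast_ofNat, Int.cast_ofNat]
  exact h

theorem hqM8 (R : ℝ) (h0 : (dataM.rk 8 : ℝ) ≤ R) (h1 : R ≤ dataM.rk (8 + 1)) :
    (dataM.q 8 0 + dataM.q 8 1 * (R - dataM.rk 8) + dataM.q 8 2 * (R - dataM.rk 8) ^ 2) / 10 ^ 5
      ≤ Real.exp (-(R ^ 2 / 100)) := by
  refine hq_of dataM 8 290 55023210 (by decide +kernel) (by decide +kernel) ?_ R h0 h1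
  have h := exp8_le (290 / 100) (55023210 / 10 ^ 9) (by norm_num) (by norm_num)
    (by norm_num [T8]) (by norm_num [T8])
  rw [Int.cast_ofNat, Int.cast_ofNat]
  exact h

theorem hqM9 (R : ℝ) (h0 : (dataM.rk 9 : ℝ) ≤ R) (h1 : R ≤ dataM.rk (9 + 1)) :
    (dataM.q 9 0 + dataM.q 9 1 * (R - dataM.rk 9) + dataM.q 9 2 * (R - dataM.rk 9) ^ 2) / 10 ^ 5
      ≤ Real.exp (-(R ^ 2 / 100)) := by
  refine hq_of dataM 9 382 21927761 (by decide +kernel) (by decide +kernel) ?_ R h0 h1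
  have h := exp8_le (382 / 100) (21927761 / 10 ^ 9) (by norm_num) (by norm_num)
    (by norm_num [T8]) (by norm_num [T8])
  rw [Int.cast_ofNat, Int.cast_ofNat]
  exact h

theorem hqM10 (R : ℝ) (h0 : (dataM.rk 10 : ℝ) ≤ R) (h1 : R ≤ dataM.rk (10 + 1)) :
    (dataM.q 10 0 + dataM.q 10 1 * (R - dataM.rk 10) + dataM.q 10 2 * (R - dataM.rk 10) ^ 2) / 10 ^ 5
      ≤ Real.exp (-(R ^ 2 / 100)) := by
  refine hq_of dataM 10 533 4843920 (by decide +kernel) (by decide +kernel) ?_ R h0 h1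
  have h := exp8_le (533 / 100) (4843920 / 10 ^ 9) (by norm_num) (by norm_num)
    (by norm_num [T8]) (by norm_num [T8])
  rw [Int.cast_ofNat, Int.cast_ofNat]
  exact h

theorem hqM : ∀ i < dataM.NR, ∀ R : ℝ, (dataM.rk i : ℝ) ≤ R → R ≤ dataM.rk (i + 1) →
    (dataM.q i 0 + dataM.q i 1 * (R - dataM.rk i) + dataM.q i 2 * (R - dataM.rk i) ^ 2) / 10 ^ 5
      ≤ Real.exp (-(R ^ 2 / 100)) := by
  intro i hi
  have hi' : i < 11 := hi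
  interval_cases i
  · exact hqM0
  · exact hqM1
  · exact hqM2
  · exact hqM3
  · exact hqM4
  · exact hqM5
  · exact hqM6
  · exact hqM7
  · exact hqM8
  · exact hqM9
  · exact hqM10

theorem ckMA1 : (dataM.kn : ℝ) / dataM.kd = 1 ∧ (dataM.DX : ℝ) * dataM.DZ = 6 := by
  constructor
  · show ((1 : ℤ) : ℝ) / ((1 : ℤ) : ℝ) = _
    norm_num
  · show ((2 : ℕ) : ℝ) * ((3 : ℕ) : ℝ) = _
    norm_num

theorem pM1_0_0 : ∀ z : ℝ, 0 ≤ z → (dataM.kn : ℝ) / dataM.kd * z ≤ 1 →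
    0 ≤ ((ab dataM.A1 0 0 0 : ℝ) - ab dataM.A1 0 0 1 * ((dataM.DX : ℝ) * dataM.DZ * ((dataM.kn : ℝ) / dataM.kd * z)) ^ 2) ∧
    ((ab dataM.A1 0 0 0 : ℝ) - ab dataM.A1 0 0 1 * ((dataM.DX : ℝ) * dataM.DZ * ((dataM.kn : ℝ) / dataM.kd * z)) ^ 2) / 10 ^ 4
      ≤ Real.exp (-(z ^ 2 / 4)) := by
  intro z hz hz1
  have hA : ab dataM.A1 0 0 0 = 10000 := rfl
  have hB : ab dataM.A1 0 0 1 = 70 := rfl
  rw [hA, hB, (ckMA1).1, (ckMA1).2]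
  rw [(ckMA1).1] at hz1
  have he : (1 : ℝ) ≤ Real.exp (-(0)) :=
    exp8_le _ _ (by norm_num) (by norm_num) (by norm_num [T8]) (by norm_num [T8])
  exact p_of _ _ (1) (1) (0) _ _ (by norm_num) (by norm_num) he (by norm_num)
    (by norm_num) (by norm_num) z hz (by linarith)

theorem pM1_0_1 : ∀ z : ℝ, 0 ≤ z → (dataM.kn : ℝ) / dataM.kd * z ≤ 1 →
    0 ≤ ((ab dataM.A1 0 1 0 : ℝ) - ab dataM.A1 0 1 1 * ((dataM.DX : ℝ) * dataM.DZ * ((dataM.kn : ℝ) / dataM.kd * z)) ^ 2) ∧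
    ((ab dataM.A1 0 1 0 : ℝ) - ab dataM.A1 0 1 1 * ((dataM.DX : ℝ) * dataM.DZ * ((dataM.kn : ℝ) / dataM.kd * z)) ^ 2) / 10 ^ 4
      ≤ Real.exp (-(z ^ 2 / 4)) := by
  intro z hz hz1
  have hA : ab dataM.A1 0 1 0 = 10000 := rfl
  have hB : ab dataM.A1 0 1 1 = 70 := rfl
  rw [hA, hB, (ckMA1).1, (ckMA1).2]
  rw [(ckMA1).1] at hz1
  have he : (1 : ℝ) ≤ Real.exp (-(0)) :=
    exp8_le _ _ (by norm_num) (by norm_num) (by norm_num [T8]) (by norm_num [T8])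
  exact p_of _ _ (1) (1) (0) _ _ (by norm_num) (by norm_num) he (by norm_num)
    (by norm_num) (by norm_num) z hz (by linarith)

theorem pM1_0_2 : ∀ z : ℝ, 0 ≤ z → (dataM.kn : ℝ) / dataM.kd * z ≤ 1 →
    0 ≤ ((ab dataM.A1 0 2 0 : ℝ) - ab dataM.A1 0 2 1 * ((dataM.DX : ℝ) * dataM.DZ * ((dataM.kn : ℝ) / dataM.kd * z)) ^ 2) ∧
    ((ab dataM.A1 0 2 0 : ℝ) - ab dataM.A1 0 2 1 * ((dataM.DX : ℝ) * dataM.DZ * ((dataM.kn : ℝ) / dataM.kd * z)) ^ 2) / 10 ^ 4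
      ≤ Real.exp (-(z ^ 2 / 4)) := by
  intro z hz hz1
  have hA : ab dataM.A1 0 2 0 = 9998 := rfl
  have hB : ab dataM.A1 0 2 1 = 69 := rfl
  rw [hA, hB, (ckMA1).1, (ckMA1).2]
  rw [(ckMA1).1] at hz1
  have he : (61531 / 62500 : ℝ) ≤ Real.exp (-(1 / 64)) :=
    exp8_le _ _ (by norm_num) (by norm_num) (by norm_num [T8]) (by norm_num [T8])
  exact p_of _ _ (1) (61531 / 62500) (1 / 64) _ _ (by norm_num) (by norm_num) he (by norm_num)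
    (by norm_num) (by norm_num) z hz (by linarith)

theorem pM1_1_0 : ∀ z : ℝ, 0 ≤ z → (dataM.kn : ℝ) / dataM.kd * z ≤ 1 →
    0 ≤ ((ab dataM.A1 1 0 0 : ℝ) - ab dataM.A1 1 0 1 * ((dataM.DX : ℝ) * dataM.DZ * ((dataM.kn : ℝ) / dataM.kd * z)) ^ 2) ∧
    ((ab dataM.A1 1 0 0 : ℝ) - ab dataM.A1 1 0 1 * ((dataM.DX : ℝ) * dataM.DZ * ((dataM.kn : ℝ) / dataM.kd * z)) ^ 2) / 10 ^ 4
      ≤ Real.exp (-(z ^ 2 / 4)) := by
  intro z hz hz1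
  have hA : ab dataM.A1 1 0 0 = 10000 := rfl
  have hB : ab dataM.A1 1 0 1 = 70 := rfl
  rw [hA, hB, (ckMA1).1, (ckMA1).2]
  rw [(ckMA1).1] at hz1
  have he : (1 : ℝ) ≤ Real.exp (-(0)) :=
    exp8_le _ _ (by norm_num) (by norm_num) (by norm_num [T8]) (by norm_num [T8])
  exact p_of _ _ (1) (1) (0) _ _ (by norm_num) (by norm_num) he (by norm_num)
    (by norm_num) (by norm_num) z hz (by linarith)

theorem pM1_1_1 : ∀ z : ℝ, 0 ≤ z → (dataM.kn : ℝ) / dataM.kd * z ≤ 1 →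
    0 ≤ ((ab dataM.A1 1 1 0 : ℝ) - ab dataM.A1 1 1 1 * ((dataM.DX : ℝ) * dataM.DZ * ((dataM.kn : ℝ) / dataM.kd * z)) ^ 2) ∧
    ((ab dataM.A1 1 1 0 : ℝ) - ab dataM.A1 1 1 1 * ((dataM.DX : ℝ) * dataM.DZ * ((dataM.kn : ℝ) / dataM.kd * z)) ^ 2) / 10 ^ 4
      ≤ Real.exp (-(z ^ 2 / 4)) := by
  intro z hz hz1
  have hA : ab dataM.A1 1 1 0 = 9981 := rfl
  have hB : ab dataM.A1 1 1 1 = 66 := rfl
  rw [hA, hB, (ckMA1).1, (ckMA1).2]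
  rw [(ckMA1).1] at hz1
  have he : (939413 / 1000000 : ℝ) ≤ Real.exp (-(1 / 16)) :=
    exp8_le _ _ (by norm_num) (by norm_num) (by norm_num [T8]) (by norm_num [T8])
  exact p_of _ _ (1) (939413 / 1000000) (1 / 16) _ _ (by norm_num) (by norm_num) he (by norm_num)
    (by norm_num) (by norm_num) z hz (by linarith)

theorem pM1_1_2 : ∀ z : ℝ, 0 ≤ z → (dataM.kn : ℝ) / dataM.kd * z ≤ 1 →
    0 ≤ ((ab dataM.A1 1 2 0 : ℝ) - ab dataM.A1 1 2 1 * ((dataM.DX : ℝ) * dataM.DZ * ((dataM.kn : ℝ) / dataM.kd * z)) ^ 2) ∧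
    ((ab dataM.A1 1 2 0 : ℝ) - ab dataM.A1 1 2 1 * ((dataM.DX : ℝ) * dataM.DZ * ((dataM.kn : ℝ) / dataM.kd * z)) ^ 2) / 10 ^ 4
      ≤ Real.exp (-(z ^ 2 / 4)) := by
  intro z hz hz1
  have hA : ab dataM.A1 1 2 0 = 9909 := rfl
  have hB : ab dataM.A1 1 2 1 = 61 := rfl
  rw [hA, hB, (ckMA1).1, (ckMA1).2]
  rw [(ckMA1).1] at hz1
  have he : (173763 / 200000 : ℝ) ≤ Real.exp (-(9 / 64)) :=
    exp8_le _ _ (by norm_num) (by norm_num) (by norm_num [T8]) (by norm_num [T8])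
  exact p_of _ _ (1) (173763 / 200000) (9 / 64) _ _ (by norm_num) (by norm_num) he (by norm_num)
    (by norm_num) (by norm_num) z hz (by linarith)

theorem pM1 : ∀ a < dataM.DX, ∀ b < dataM.DZ, ∀ z : ℝ, 0 ≤ z → (dataM.kn : ℝ) / dataM.kd * z ≤ 1 →
    0 ≤ ((ab dataM.A1 a b 0 : ℝ) - ab dataM.A1 a b 1 * ((dataM.DX : ℝ) * dataM.DZ * ((dataM.kn : ℝ) / dataM.kd * z)) ^ 2) ∧
    ((ab dataM.A1 a b 0 : ℝ) - ab dataM.A1 a b 1 * ((dataM.DX : ℝ) * dataM.DZ * ((dataM.kn : ℝ) / dataM.kd * z)) ^ 2) / 10 ^ 4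
      ≤ Real.exp (-(z ^ 2 / 4)) := by
  intro a ha b hb
  have ha' : a < 2 := ha
  have hb' : b < 3 := hb
  interval_cases a <;> interval_cases b
  · exact pM1_0_0
  · exact pM1_0_1
  · exact pM1_0_2
  · exact pM1_1_0
  · exact pM1_1_1
  · exact pM1_1_2

theorem ckMA2 : (dataM.kn : ℝ) / dataM.kd = 1 ∧ (dataM.DX : ℝ) = 2 := by
  constructor
  · show ((1 : ℤ) : ℝ) / ((1 : ℤ) : ℝ) = _
    norm_num
  · show ((2 : ℕ) : ℝ) = _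
    norm_num

theorem pM2_0_0 : ∀ z : ℝ, 0 ≤ z → (dataM.kn : ℝ) / dataM.kd * z ≤ 1 →
    0 ≤ ((ab dataM.A2 0 0 0 : ℝ) - ab dataM.A2 0 0 1 * ((dataM.DX : ℝ) * ((dataM.kn : ℝ) / dataM.kd * z)) ^ 2) ∧
    ((ab dataM.A2 0 0 0 : ℝ) - ab dataM.A2 0 0 1 * ((dataM.DX : ℝ) * ((dataM.kn : ℝ) / dataM.kd * z)) ^ 2) / 10 ^ 4
      ≤ Real.exp (-(z ^ 2 / 4)) := by
  intro z hz hz1
  have hA : ab dataM.A2 0 0 0 = 9998 := rfl
  have hB : ab dataM.A2 0 0 1 = 616 := rfl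
  rw [hA, hB, (ckMA2).1, (ckMA2).2]
  rw [(ckMA2).1] at hz1
  have he : (61531 / 62500 : ℝ) ≤ Real.exp (-(1 / 64)) :=
    exp8_le _ _ (by norm_num) (by norm_num) (by norm_num [T8]) (by norm_num [T8])
  exact p_of _ _ (1) (61531 / 62500) (1 / 64) _ _ (by norm_num) (by norm_num) he (by norm_num)
    (by norm_num) (by norm_num) z hz (by linarith)

theorem pM2_0_1 : ∀ z : ℝ, 0 ≤ z → (dataM.kn : ℝ) / dataM.kd * z ≤ 1 →
    0 ≤ ((ab dataM.A2 0 1 0 : ℝ) - ab dataM.A2 0 1 1 * ((dataM.DX : ℝ) * ((dataM.kn : ℝ) / dataM.kd * z)) ^ 2) ∧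
    ((ab dataM.A2 0 1 0 : ℝ) - ab dataM.A2 0 1 1 * ((dataM.DX : ℝ) * ((dataM.kn : ℝ) / dataM.kd * z)) ^ 2) / 10 ^ 4
      ≤ Real.exp (-(z ^ 2 / 4)) := by
  intro z hz hz1
  have hA : ab dataM.A2 0 1 0 = 9998 := rfl
  have hB : ab dataM.A2 0 1 1 = 616 := rfl
  rw [hA, hB, (ckMA2).1, (ckMA2).2]
  rw [(ckMA2).1] at hz1
  have he : (61531 / 62500 : ℝ) ≤ Real.exp (-(1 / 64)) :=
    exp8_le _ _ (by norm_num) (by norm_num) (by norm_num [T8]) (by norm_num [T8])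
  exact p_of _ _ (1) (61531 / 62500) (1 / 64) _ _ (by norm_num) (by norm_num) he (by norm_num)
    (by norm_num) (by norm_num) z hz (by linarith)

theorem pM2_0_2 : ∀ z : ℝ, 0 ≤ z → (dataM.kn : ℝ) / dataM.kd * z ≤ 1 →
    0 ≤ ((ab dataM.A2 0 2 0 : ℝ) - ab dataM.A2 0 2 1 * ((dataM.DX : ℝ) * ((dataM.kn : ℝ) / dataM.kd * z)) ^ 2) ∧
    ((ab dataM.A2 0 2 0 : ℝ) - ab dataM.A2 0 2 1 * ((dataM.DX : ℝ) * ((dataM.kn : ℝ) / dataM.kd * z)) ^ 2) / 10 ^ 4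
      ≤ Real.exp (-(z ^ 2 / 4)) := by
  intro z hz hz1
  have hA : ab dataM.A2 0 2 0 = 9998 := rfl
  have hB : ab dataM.A2 0 2 1 = 616 := rfl
  rw [hA, hB, (ckMA2).1, (ckMA2).2]
  rw [(ckMA2).1] at hz1
  have he : (61531 / 62500 : ℝ) ≤ Real.exp (-(1 / 64)) :=
    exp8_le _ _ (by norm_num) (by norm_num) (by norm_num [T8]) (by norm_num [T8])
  exact p_of _ _ (1) (61531 / 62500) (1 / 64) _ _ (by norm_num) (by norm_num) he (by norm_num)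
    (by norm_num) (by norm_num) z hz (by linarith)

theorem pM2_0_3 : ∀ z : ℝ, 0 ≤ z → (dataM.kn : ℝ) / dataM.kd * z ≤ 1 →
    0 ≤ ((ab dataM.A2 0 3 0 : ℝ) - ab dataM.A2 0 3 1 * ((dataM.DX : ℝ) * ((dataM.kn : ℝ) / dataM.kd * z)) ^ 2) ∧
    ((ab dataM.A2 0 3 0 : ℝ) - ab dataM.A2 0 3 1 * ((dataM.DX : ℝ) * ((dataM.kn : ℝ) / dataM.kd * z)) ^ 2) / 10 ^ 4
      ≤ Real.exp (-(z ^ 2 / 4)) := by
  intro z hz hz1
  have hA : ab dataM.A2 0 3 0 = 9998 := rfl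
  have hB : ab dataM.A2 0 3 1 = 616 := rfl
  rw [hA, hB, (ckMA2).1, (ckMA2).2]
  rw [(ckMA2).1] at hz1
  have he : (61531 / 62500 : ℝ) ≤ Real.exp (-(1 / 64)) :=
    exp8_le _ _ (by norm_num) (by norm_num) (by norm_num [T8]) (by norm_num [T8])
  exact p_of _ _ (1) (61531 / 62500) (1 / 64) _ _ (by norm_num) (by norm_num) he (by norm_num)
    (by norm_num) (by norm_num) z hz (by linarith)

theorem pM2_1_0 : ∀ z : ℝ, 0 ≤ z → (dataM.kn : ℝ) / dataM.kd * z ≤ 1 →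
    0 ≤ ((ab dataM.A2 1 0 0 : ℝ) - ab dataM.A2 1 0 1 * ((dataM.DX : ℝ) * ((dataM.kn : ℝ) / dataM.kd * z)) ^ 2) ∧
    ((ab dataM.A2 1 0 0 : ℝ) - ab dataM.A2 1 0 1 * ((dataM.DX : ℝ) * ((dataM.kn : ℝ) / dataM.kd * z)) ^ 2) / 10 ^ 4
      ≤ Real.exp (-(z ^ 2 / 4)) := by
  intro z hz hz1
  have hA : ab dataM.A2 1 0 0 = 9889 := rfl
  have hB : ab dataM.A2 1 0 1 = 535 := rfl
  rw [hA, hB, (ckMA2).1, (ckMA2).2]
  rw [(ckMA2).1] at hz1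
  have he : (171069 / 200000 : ℝ) ≤ Real.exp (-(5 / 32)) :=
    exp8_le _ _ (by norm_num) (by norm_num) (by norm_num [T8]) (by norm_num [T8])
  exact p_of _ _ (1) (171069 / 200000) (5 / 32) _ _ (by norm_num) (by norm_num) he (by norm_num)
    (by norm_num) (by norm_num) z hz (by linarith)

theorem pM2_1_1 : ∀ z : ℝ, 0 ≤ z → (dataM.kn : ℝ) / dataM.kd * z ≤ 1 →
    0 ≤ ((ab dataM.A2 1 1 0 : ℝ) - ab dataM.A2 1 1 1 * ((dataM.DX : ℝ) * ((dataM.kn : ℝ) / dataM.kd * z)) ^ 2) ∧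
    ((ab dataM.A2 1 1 0 : ℝ) - ab dataM.A2 1 1 1 * ((dataM.DX : ℝ) * ((dataM.kn : ℝ) / dataM.kd * z)) ^ 2) / 10 ^ 4
      ≤ Real.exp (-(z ^ 2 / 4)) := by
  intro z hz hz1
  have hA : ab dataM.A2 1 1 0 = 9889 := rfl
  have hB : ab dataM.A2 1 1 1 = 535 := rfl
  rw [hA, hB, (ckMA2).1, (ckMA2).2]
  rw [(ckMA2).1] at hz1
  have he : (171069 / 200000 : ℝ) ≤ Real.exp (-(5 / 32)) :=
    exp8_le _ _ (by norm_num) (by norm_num) (by norm_num [T8]) (by norm_num [T8])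
  exact p_of _ _ (1) (171069 / 200000) (5 / 32) _ _ (by norm_num) (by norm_num) he (by norm_num)
    (by norm_num) (by norm_num) z hz (by linarith)

theorem pM2_1_2 : ∀ z : ℝ, 0 ≤ z → (dataM.kn : ℝ) / dataM.kd * z ≤ 1 →
    0 ≤ ((ab dataM.A2 1 2 0 : ℝ) - ab dataM.A2 1 2 1 * ((dataM.DX : ℝ) * ((dataM.kn : ℝ) / dataM.kd * z)) ^ 2) ∧
    ((ab dataM.A2 1 2 0 : ℝ) - ab dataM.A2 1 2 1 * ((dataM.DX : ℝ) * ((dataM.kn : ℝ) / dataM.kd * z)) ^ 2) / 10 ^ 4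
      ≤ Real.exp (-(z ^ 2 / 4)) := by
  intro z hz hz1
  have hA : ab dataM.A2 1 2 0 = 9889 := rfl
  have hB : ab dataM.A2 1 2 1 = 535 := rfl
  rw [hA, hB, (ckMA2).1, (ckMA2).2]
  rw [(ckMA2).1] at hz1
  have he : (171069 / 200000 : ℝ) ≤ Real.exp (-(5 / 32)) :=
    exp8_le _ _ (by norm_num) (by norm_num) (by norm_num [T8]) (by norm_num [T8])
  exact p_of _ _ (1) (171069 / 200000) (5 / 32) _ _ (by norm_num) (by norm_num) he (by norm_num)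
    (by norm_num) (by norm_num) z hz (by linarith)

theorem pM2_1_3 : ∀ z : ℝ, 0 ≤ z → (dataM.kn : ℝ) / dataM.kd * z ≤ 1 →
    0 ≤ ((ab dataM.A2 1 3 0 : ℝ) - ab dataM.A2 1 3 1 * ((dataM.DX : ℝ) * ((dataM.kn : ℝ) / dataM.kd * z)) ^ 2) ∧
    ((ab dataM.A2 1 3 0 : ℝ) - ab dataM.A2 1 3 1 * ((dataM.DX : ℝ) * ((dataM.kn : ℝ) / dataM.kd * z)) ^ 2) / 10 ^ 4
      ≤ Real.exp (-(z ^ 2 / 4)) := by
  intro z hz hz1
  have hA : ab dataM.A2 1 3 0 = 9889 := rfl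
  have hB : ab dataM.A2 1 3 1 = 535 := rfl
  rw [hA, hB, (ckMA2).1, (ckMA2).2]
  rw [(ckMA2).1] at hz1
  have he : (171069 / 200000 : ℝ) ≤ Real.exp (-(5 / 32)) :=
    exp8_le _ _ (by norm_num) (by norm_num) (by norm_num [T8]) (by norm_num [T8])
  exact p_of _ _ (1) (171069 / 200000) (5 / 32) _ _ (by norm_num) (by norm_num) he (by norm_num)
    (by norm_num) (by norm_num) z hz (by linarith)

theorem pM2 : ∀ a < dataM.DX, ∀ b < dataM.DY, ∀ z : ℝ, 0 ≤ z → (dataM.kn : ℝ) / dataM.kd * z ≤ 1 →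
    0 ≤ ((ab dataM.A2 a b 0 : ℝ) - ab dataM.A2 a b 1 * ((dataM.DX : ℝ) * ((dataM.kn : ℝ) / dataM.kd * z)) ^ 2) ∧
    ((ab dataM.A2 a b 0 : ℝ) - ab dataM.A2 a b 1 * ((dataM.DX : ℝ) * ((dataM.kn : ℝ) / dataM.kd * z)) ^ 2) / 10 ^ 4
      ≤ Real.exp (-(z ^ 2 / 4)) := by
  intro a ha b hb
  have ha' : a < 2 := ha
  have hb' : b < 4 := hb
  interval_cases a <;> interval_cases b
  · exact pM2_0_0
  · exact pM2_0_1
  · exact pM2_0_2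
  · exact pM2_0_3
  · exact pM2_1_0
  · exact pM2_1_1
  · exact pM2_1_2
  · exact pM2_1_3

theorem ckMA3 : (dataM.kn : ℝ) / dataM.kd = 1 ∧ (dataM.DT : ℝ) = 2 := by
  constructor
  · show ((1 : ℤ) : ℝ) / ((1 : ℤ) : ℝ) = _
    norm_num
  · show ((2 : ℕ) : ℝ) = _
    norm_num

theorem pM3_0_0 : ∀ z : ℝ, 0 ≤ z → z ≤ 2 →
    0 ≤ ((ab dataM.A3 0 0 0 : ℝ) - ab dataM.A3 0 0 1 * ((dataM.DT : ℝ) * ((dataM.kn : ℝ) / dataM.kd * z)) ^ 2) ∧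
    ((ab dataM.A3 0 0 0 : ℝ) - ab dataM.A3 0 0 1 * ((dataM.DT : ℝ) * ((dataM.kn : ℝ) / dataM.kd * z)) ^ 2) / 10 ^ 4
      ≤ Real.exp (-(z ^ 2 / 4)) := by
  intro z hz hz1
  have hA : ab dataM.A3 0 0 0 = 9367 := rfl
  have hB : ab dataM.A3 0 0 1 = 417 := rfl
  rw [hA, hB, (ckMA3).1, (ckMA3).2]
  have he : (666143 / 1000000 : ℝ) ≤ Real.exp (-(13 / 32)) :=
    exp8_le _ _ (by norm_num) (by norm_num) (by norm_num [T8]) (by norm_num [T8])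
  exact p_of _ _ (2) (666143 / 1000000) (13 / 32) _ _ (by norm_num) (by norm_num) he (by norm_num)
    (by norm_num) (by norm_num) z hz (by linarith)

theorem pM3_0_1 : ∀ z : ℝ, 0 ≤ z → z ≤ 2 →
    0 ≤ ((ab dataM.A3 0 1 0 : ℝ) - ab dataM.A3 0 1 1 * ((dataM.DT : ℝ) * ((dataM.kn : ℝ) / dataM.kd * z)) ^ 2) ∧
    ((ab dataM.A3 0 1 0 : ℝ) - ab dataM.A3 0 1 1 * ((dataM.DT : ℝ) * ((dataM.kn : ℝ) / dataM.kd * z)) ^ 2) / 10 ^ 4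
      ≤ Real.exp (-(z ^ 2 / 4)) := by
  intro z hz hz1
  have hA : ab dataM.A3 0 1 0 = 9367 := rfl
  have hB : ab dataM.A3 0 1 1 = 417 := rfl
  rw [hA, hB, (ckMA3).1, (ckMA3).2]
  have he : (666143 / 1000000 : ℝ) ≤ Real.exp (-(13 / 32)) :=
    exp8_le _ _ (by norm_num) (by norm_num) (by norm_num [T8]) (by norm_num [T8])
  exact p_of _ _ (2) (666143 / 1000000) (13 / 32) _ _ (by norm_num) (by norm_num) he (by norm_num)
    (by norm_num) (by norm_num) z hz (by linarith)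

theorem pM3_0_2 : ∀ z : ℝ, 0 ≤ z → z ≤ 2 →
    0 ≤ ((ab dataM.A3 0 2 0 : ℝ) - ab dataM.A3 0 2 1 * ((dataM.DT : ℝ) * ((dataM.kn : ℝ) / dataM.kd * z)) ^ 2) ∧
    ((ab dataM.A3 0 2 0 : ℝ) - ab dataM.A3 0 2 1 * ((dataM.DT : ℝ) * ((dataM.kn : ℝ) / dataM.kd * z)) ^ 2) / 10 ^ 4
      ≤ Real.exp (-(z ^ 2 / 4)) := by
  intro z hz hz1
  have hA : ab dataM.A3 0 2 0 = 9367 := rfl
  have hB : ab dataM.A3 0 2 1 = 417 := rfl
  rw [hA, hB, (ckMA3).1, (ckMA3).2]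
  have he : (666143 / 1000000 : ℝ) ≤ Real.exp (-(13 / 32)) :=
    exp8_le _ _ (by norm_num) (by norm_num) (by norm_num [T8]) (by norm_num [T8])
  exact p_of _ _ (2) (666143 / 1000000) (13 / 32) _ _ (by norm_num) (by norm_num) he (by norm_num)
    (by norm_num) (by norm_num) z hz (by linarith)

theorem pM3_0_3 : ∀ z : ℝ, 0 ≤ z → z ≤ 2 →
    0 ≤ ((ab dataM.A3 0 3 0 : ℝ) - ab dataM.A3 0 3 1 * ((dataM.DT : ℝ) * ((dataM.kn : ℝ) / dataM.kd * z)) ^ 2) ∧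
    ((ab dataM.A3 0 3 0 : ℝ) - ab dataM.A3 0 3 1 * ((dataM.DT : ℝ) * ((dataM.kn : ℝ) / dataM.kd * z)) ^ 2) / 10 ^ 4
      ≤ Real.exp (-(z ^ 2 / 4)) := by
  intro z hz hz1
  have hA : ab dataM.A3 0 3 0 = 9367 := rfl
  have hB : ab dataM.A3 0 3 1 = 417 := rfl
  rw [hA, hB, (ckMA3).1, (ckMA3).2]
  have he : (666143 / 1000000 : ℝ) ≤ Real.exp (-(13 / 32)) :=
    exp8_le _ _ (by norm_num) (by norm_num) (by norm_num [T8]) (by norm_num [T8])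
  exact p_of _ _ (2) (666143 / 1000000) (13 / 32) _ _ (by norm_num) (by norm_num) he (by norm_num)
    (by norm_num) (by norm_num) z hz (by linarith)

theorem pM3_1_0 : ∀ z : ℝ, 0 ≤ z → z ≤ 2 →
    0 ≤ ((ab dataM.A3 1 0 0 : ℝ) - ab dataM.A3 1 0 1 * ((dataM.DT : ℝ) * ((dataM.kn : ℝ) / dataM.kd * z)) ^ 2) ∧
    ((ab dataM.A3 1 0 0 : ℝ) - ab dataM.A3 1 0 1 * ((dataM.DT : ℝ) * ((dataM.kn : ℝ) / dataM.kd * z)) ^ 2) / 10 ^ 4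
      ≤ Real.exp (-(z ^ 2 / 4)) := by
  intro z hz hz1
  have hA : ab dataM.A3 1 0 0 = 8155 := rfl
  have hB : ab dataM.A3 1 0 1 = 287 := rfl
  rw [hA, hB, (ckMA3).1, (ckMA3).2]
  have he : (457833 / 1000000 : ℝ) ≤ Real.exp (-(25 / 32)) :=
    exp8_le _ _ (by norm_num) (by norm_num) (by norm_num [T8]) (by norm_num [T8])
  exact p_of _ _ (2) (457833 / 1000000) (25 / 32) _ _ (by norm_num) (by norm_num) he (by norm_num)
    (by norm_num) (by norm_num) z hz (by linarith)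

theorem pM3_1_1 : ∀ z : ℝ, 0 ≤ z → z ≤ 2 →
    0 ≤ ((ab dataM.A3 1 1 0 : ℝ) - ab dataM.A3 1 1 1 * ((dataM.DT : ℝ) * ((dataM.kn : ℝ) / dataM.kd * z)) ^ 2) ∧
    ((ab dataM.A3 1 1 0 : ℝ) - ab dataM.A3 1 1 1 * ((dataM.DT : ℝ) * ((dataM.kn : ℝ) / dataM.kd * z)) ^ 2) / 10 ^ 4
      ≤ Real.exp (-(z ^ 2 / 4)) := by
  intro z hz hz1
  have hA : ab dataM.A3 1 1 0 = 8155 := rfl
  have hB : ab dataM.A3 1 1 1 = 287 := rfl
  rw [hA, hB, (ckMA3).1, (ckMA3).2]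
  have he : (457833 / 1000000 : ℝ) ≤ Real.exp (-(25 / 32)) :=
    exp8_le _ _ (by norm_num) (by norm_num) (by norm_num [T8]) (by norm_num [T8])
  exact p_of _ _ (2) (457833 / 1000000) (25 / 32) _ _ (by norm_num) (by norm_num) he (by norm_num)
    (by norm_num) (by norm_num) z hz (by linarith)

theorem pM3_1_2 : ∀ z : ℝ, 0 ≤ z → z ≤ 2 →
    0 ≤ ((ab dataM.A3 1 2 0 : ℝ) - ab dataM.A3 1 2 1 * ((dataM.DT : ℝ) * ((dataM.kn : ℝ) / dataM.kd * z)) ^ 2) ∧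
    ((ab dataM.A3 1 2 0 : ℝ) - ab dataM.A3 1 2 1 * ((dataM.DT : ℝ) * ((dataM.kn : ℝ) / dataM.kd * z)) ^ 2) / 10 ^ 4
      ≤ Real.exp (-(z ^ 2 / 4)) := by
  intro z hz hz1
  have hA : ab dataM.A3 1 2 0 = 8155 := rfl
  have hB : ab dataM.A3 1 2 1 = 287 := rfl
  rw [hA, hB, (ckMA3).1, (ckMA3).2]
  have he : (457833 / 1000000 : ℝ) ≤ Real.exp (-(25 / 32)) :=
    exp8_le _ _ (by norm_num) (by norm_num) (by norm_num [T8]) (by norm_num [T8])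
  exact p_of _ _ (2) (457833 / 1000000) (25 / 32) _ _ (by norm_num) (by norm_num) he (by norm_num)
    (by norm_num) (by norm_num) z hz (by linarith)

theorem pM3_1_3 : ∀ z : ℝ, 0 ≤ z → z ≤ 2 →
    0 ≤ ((ab dataM.A3 1 3 0 : ℝ) - ab dataM.A3 1 3 1 * ((dataM.DT : ℝ) * ((dataM.kn : ℝ) / dataM.kd * z)) ^ 2) ∧
    ((ab dataM.A3 1 3 0 : ℝ) - ab dataM.A3 1 3 1 * ((dataM.DT : ℝ) * ((dataM.kn : ℝ) / dataM.kd * z)) ^ 2) / 10 ^ 4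
      ≤ Real.exp (-(z ^ 2 / 4)) := by
  intro z hz hz1
  have hA : ab dataM.A3 1 3 0 = 8155 := rfl
  have hB : ab dataM.A3 1 3 1 = 287 := rfl
  rw [hA, hB, (ckMA3).1, (ckMA3).2]
  have he : (457833 / 1000000 : ℝ) ≤ Real.exp (-(25 / 32)) :=
    exp8_le _ _ (by norm_num) (by norm_num) (by norm_num [T8]) (by norm_num [T8])
  exact p_of _ _ (2) (457833 / 1000000) (25 / 32) _ _ (by norm_num) (by norm_num) he (by norm_num)
    (by norm_num) (by norm_num) z hz (by linarith)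

theorem pM3 : ∀ a < dataM.NT, ∀ b < dataM.DY, ∀ z : ℝ, 0 ≤ z → z ≤ 2 →
    0 ≤ ((ab dataM.A3 a b 0 : ℝ) - ab dataM.A3 a b 1 * ((dataM.DT : ℝ) * ((dataM.kn : ℝ) / dataM.kd * z)) ^ 2) ∧
    ((ab dataM.A3 a b 0 : ℝ) - ab dataM.A3 a b 1 * ((dataM.DT : ℝ) * ((dataM.kn : ℝ) / dataM.kd * z)) ^ 2) / 10 ^ 4
      ≤ Real.exp (-(z ^ 2 / 4)) := by
  intro a ha b hb
  have ha' : a < 2 := ha
  have hb' : b < 4 := hb
  interval_cases a <;> interval_cases b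
  · exact pM3_0_0
  · exact pM3_0_1
  · exact pM3_0_2
  · exact pM3_0_3
  · exact pM3_1_0
  · exact pM3_1_1
  · exact pM3_1_2
  · exact pM3_1_3

end SShr
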