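import Pool.Agent.Lib.MP_49c3df_gt.FlowA

/-! JOB FarA (MP_49c3df_gt): a trajectory starting at a far top, going inwards, crosses `r = 5` in
the narrow region `1 + q ≤ z / 4`, `q ≤ 0`.

PROOF. Write `x = 1 + q`, `f = z / 4 - x`. `f a = z a / 4 > 0`. Claim: if `5 ≤ r` on `[a, t1]` then `f > 0` on `[a, t1]`.
Otherwise let `t0` be the first zero of `f` in `[a, t1]` (`f` is continuous; closed nonempty set of zeros by the
intermediate value theorem, `sInf`), `f > 0` on `[a, t0)`, `f t0 = 0`, `t0 > a`; so the derivative of `f` at `t0` is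
`≤ 0`. At `t0`: `z = 4 x`, `x ≥ 0`; `x = 0` would give `z = 0` and `q = -1`, excluded by `hzq`; so `x > 0`, and
`x = z/4 ≤ 1/2`. `q = x - 1`, `1 - q^2 = x (2 - x)`, `N = 1 + q^2 = 1 + (1 - x)^2`,
`f' / u = -x (2 - x) / 4 - N / 2 * ((1/r - r/2) x (2 - x) + z (1 - x))` and `1/r - r/2 ≤ -23/10` (as `r ≥ 5`), so
`f' / u ≥ x * ((2 - x) (23/20 * N - 1/4) - 2 N (1 - x)) = x * (1/10 + 27/20 x - 7/5 x^2 + 17/20 x^3) > 0`
on `(0, 1]`: contradiction.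
Now if `5 < r` on all of `[a, b]`, the claim gives `f b > 0`, but `f b = 0 - x b ≤ 0`. So the closed set
`{t ∈ [a, b] | r t ≤ 5}` is nonempty; let `t1` be its infimum. `r t1 = 5` (continuity, `r a ≥ 5`), `r ≥ 5` on
`[a, t1]`, so `f t1 > 0`: `1 + q < z / 4`, hence `z t1 > 0` (as `1 + q ≥ 0`), `q < -1/2`. -/

namespace SShr

open Filter Topology in
private theorem FarA_deriv {g : ℝ → ℝ} {a t0 g' : ℝ} (hat : a < t0) (hd : HasDerivAt g g' t0)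
    (h0 : g t0 = 0) (hlt : ∀ t ∈ Set.Ico a t0, 0 < g t) : g' ≤ 0 := by
  by_contra hcon
  push Not at hcon
  have h1 := hasDerivAt_iff_tendsto_slope.1 hd
  have h2 : ∀ᶠ t in 𝓝[≠] t0, 0 < slope g t0 t := h1.eventually (lt_mem_nhds hcon)
  have h3 : ∀ᶠ t in 𝓝[<] t0, 0 < slope g t0 t :=
    h2.filter_mono (nhdsWithin_mono _ fun t ht => ne_of_lt ht)
  have h4 : ∀ᶠ t in 𝓝[<] t0, t ∈ Set.Ioo a t0 := Ioo_mem_nhdsLT hat
  obtain ⟨t, ht, ht'⟩ := (h3.and h4).exists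
  rw [slope_def_field, h0, sub_zero] at ht
  have h5 := hlt t ⟨ht'.1.le, ht'.2⟩
  have h6 : g t / (t - t0) < 0 := div_neg_of_pos_of_neg h5 (by linarith [ht'.2])
  linarith

private theorem FarA_first {g : ℝ → ℝ} {a b c : ℝ} (hg : ContinuousOn g (Set.Icc a b))
    (ha : c ≤ g a) {s : ℝ} (hs : s ∈ Set.Icc a b) (hs' : g s ≤ c) :
    ∃ t1 ∈ Set.Icc a b, t1 ≤ s ∧ g t1 = c ∧ ∀ t ∈ Set.Ico a t1, c < g t := by
  have hgs : ContinuousOn g (Set.Icc a s) := hg.mono (Set.Icc_subset_Icc_right hs.2)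
  have hS : IsClosed (Set.Icc a s ∩ g ⁻¹' Set.Iic c) :=
    hgs.preimage_isClosed_of_isClosed isClosed_Icc isClosed_Iic
  have hne : (Set.Icc a s ∩ g ⁻¹' Set.Iic c).Nonempty := ⟨s, ⟨hs.1, le_rfl⟩, hs'⟩
  have hbdd : BddBelow (Set.Icc a s ∩ g ⁻¹' Set.Iic c) := ⟨a, fun t ht => ht.1.1⟩
  obtain ⟨t1, ht1⟩ : ∃ t1, t1 = sInf (Set.Icc a s ∩ g ⁻¹' Set.Iic c) := ⟨_, rfl⟩
  have hmem : t1 ∈ Set.Icc a s ∩ g ⁻¹' Set.Iic c := by
    rw [ht1]
    exact hS.csInf_mem hne hbdd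
  have hlt : ∀ t ∈ Set.Ico a t1, c < g t := by
    intro t ht
    by_contra hcon
    push Not at hcon
    have h1 : sInf (Set.Icc a s ∩ g ⁻¹' Set.Iic c) ≤ t :=
      csInf_le hbdd ⟨⟨ht.1, ht.2.le.trans hmem.1.2⟩, hcon⟩
    rw [← ht1] at h1
    exact absurd h1 (not_le.2 ht.2)
  refine ⟨t1, ⟨hmem.1.1, hmem.1.2.trans hs.2⟩, hmem.1.2, ?_, hlt⟩
  have h2 : c ∈ Set.Icc (g t1) (g a) := ⟨hmem.2, ha⟩
  obtain ⟨t, ht, htc⟩ := intermediate_value_Icc' hmem.1.1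
    (hgs.mono (Set.Icc_subset_Icc_right hmem.1.2)) h2
  rcases ht.2.eq_or_lt with h | h
  · rw [← h]
    exact htc
  · have h3 := hlt t ⟨ht.1, h⟩
    linarith

private theorem FarA_ineq {R Z Q U x : ℝ} (hR : 5 ≤ R) (hU : 0 < U) (hx0 : 0 < x) (hx1 : x ≤ 1 / 2)
    (hQ : Q = x - 1) (hZ : Z = 4 * x) :
    0 < -(1 - Q ^ 2) * U / 4 - (0 + U * (1 + Q ^ 2) / 2 * ((1 / R - R / 2) * (1 - Q ^ 2) - Z * Q)) := by
  have hA : 1 / R - R / 2 ≤ -23 / 10 := by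
    have h1 : 1 / R ≤ 1 / 5 := one_div_le_one_div_of_le (by norm_num) hR
    linarith
  generalize 1 / R - R / 2 = A at hA ⊢
  have e : -(1 - Q ^ 2) * U / 4 - (0 + U * (1 + Q ^ 2) / 2 * (A * (1 - Q ^ 2) - Z * Q)) =
      U * (x * (1 / 10 + x * (27 / 20 - 7 / 5 * x) + 17 / 20 * x ^ 3) +
        (1 + (1 - x) ^ 2) / 2 * (x * (2 - x)) * (-23 / 10 - A)) := by
    rw [hQ, hZ]
    ring
  rw [e]
  refine mul_pos hU (add_pos_of_pos_of_nonneg (mul_pos hx0 ?_) ?_)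
  · have h1 : 0 ≤ x * (27 / 20 - 7 / 5 * x) := mul_nonneg hx0.le (by linarith)
    positivity
  · exact mul_nonneg (mul_nonneg (by positivity) (mul_nonneg hx0.le (by linarith))) (by linarith)

private theorem FarA_claim {r z q u W : ℝ → ℝ} {a b : ℝ} (hf : Flow r z q u W a b) (hz : z a ≤ 2)
    (hz0 : 0 < z a) (hq : q a = -1) {t1 : ℝ} (ht1 : t1 ∈ Set.Icc a b)
    (hr : ∀ t ∈ Set.Icc a t1, 5 ≤ r t) : 0 < z t1 / 4 - (1 + q t1) := by
  by_contra hcon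
  push Not at hcon
  have hm : Flow r z q u W a t1 := hf.mono le_rfl ht1.2
  have hcont : ContinuousOn (fun t => z t / 4 - (1 + q t)) (Set.Icc a t1) :=
    (hm.cont_z.div_const 4).sub (continuousOn_const.add hm.cont_q)
  obtain ⟨t0, ht0, _, h0, hlt⟩ := FarA_first (c := 0) hcont (by
    show 0 ≤ z a / 4 - (1 + q a)
    rw [hq]
    linarith) (s := t1) ⟨ht1.1, le_rfl⟩ hcon
  have h0' : z t0 / 4 - (1 + q t0) = 0 := h0
  have hat : a < t0 := by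
    rcases ht0.1.eq_or_lt with h | h
    · exfalso
      rw [← h, hq] at h0'
      linarith
    · exact h
  have hd := ((hm.hz t0 ht0).div_const 4).sub ((hasDerivAt_const t0 (1 : ℝ)).add (hm.hq t0 ht0))
  have hle := FarA_deriv hat hd h0 hlt
  have hq1 := hm.hq1 t0 ht0
  have hzt : z t0 ≤ z a := hm.z_anti le_rfl ht0.1 ht0.2
  have hx0 : 0 < 1 + q t0 := by
    rcases lt_or_ge 0 (1 + q t0) with h | h
    · exact h
    · exfalso
      have h1 : z t0 = 0 := by linarith [hm.hz0 t0 ht0]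
      have h2 := (hm.hzq t0 ht0 h1).1
      linarith
  have hpos := FarA_ineq (R := r t0) (Z := z t0) (Q := q t0) (U := u t0) (x := 1 + q t0) (hr t0 ht0)
    (hm.hu t0 ht0) hx0 (by linarith) (by ring) (by linarith)
  linarith

theorem far_a {r z q u W : ℝ → ℝ} {a b : ℝ} (hab : a ≤ b) (hf : Flow r z q u W a b)
    (hr : 5 ≤ r a) (hz : z a ≤ 2) (hz0 : 0 < z a) (hq : q a = -1) (hzb : z b = 0) :
    ∃ t1 ∈ Set.Icc a b, r t1 = 5 ∧ q t1 ≤ 0 ∧ 1 + q t1 ≤ z t1 / 4 ∧ 0 < z t1 := by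

  have hex : ∃ s ∈ Set.Icc a b, r s ≤ 5 := by
    by_contra hcon
    push Not at hcon
    have h1 := FarA_claim hf hz hz0 hq (t1 := b) ⟨hab, le_rfl⟩ fun t ht => (hcon t ht).le
    have h2 := (hf.hq1 b ⟨hab, le_rfl⟩).1
    rw [hzb] at h1
    linarith
  obtain ⟨s, hs, hs'⟩ := hex
  obtain ⟨t1, ht1, _, h1, h2⟩ := FarA_first hf.cont_r hr hs hs'
  have h3 : ∀ t ∈ Set.Icc a t1, 5 ≤ r t := by
    intro t ht
    rcases ht.2.eq_or_lt with h | h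
    · rw [h, h1]
    · exact (h2 t ⟨ht.1, h⟩).le
  have h4 := FarA_claim hf hz hz0 hq ht1 h3
  have h5 := hf.hq1 t1 ht1
  have h6 : z t1 ≤ z a := hf.z_anti le_rfl ht1.1 ht1.2
  exact ⟨t1, ht1, h1, by linarith, by linarith, by linarith [h5.1]⟩

end SShr
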