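import Pool.Agent.Lib.MP_49c3df_gt.FlowA

namespace SShr

private theorem FarB1_pos {z r q u : ℝ} (hr : 22 / 5 ≤ r) (hz : 0 ≤ z) (hq0 : 0 ≤ q) (hq1 : q ≤ 1) (hu : 0 < u) :
    0 ≤ -(1 - q ^ 2) * u - 220 / 217 *
      (1 / (1 + q ^ 2) * (u * (1 + q ^ 2) / 2 * ((1 / r - r / 2) * (1 - q ^ 2) - z * q))) := by
  have h1 : (0 : ℝ) < 1 + q ^ 2 := by positivity
  have h2 : 1 / (1 + q ^ 2) * (u * (1 + q ^ 2) / 2 * ((1 / r - r / 2) * (1 - q ^ 2) - z * q)) =
      u / 2 * ((1 / r - r / 2) * (1 - q ^ 2) - z * q) := by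
    field_simp
  rw [h2]
  have h3 : 1 / r ≤ 5 / 22 := by
    rw [div_le_div_iff₀ (by linarith) (by norm_num)]
    linarith
  have h4 : 0 ≤ 1 - q ^ 2 := by nlinarith
  have h5 : (1 / r - r / 2) * (1 - q ^ 2) ≤ -(217 / 110) * (1 - q ^ 2) := by
    refine mul_le_mul_of_nonneg_right ?_ h4
    linarith
  have h6 : 0 ≤ z * q := mul_nonneg hz hq0
  have h7 : u / 2 * ((1 / r - r / 2) * (1 - q ^ 2) - z * q) ≤ u / 2 * (-(217 / 110) * (1 - q ^ 2)) := by
    refine mul_le_mul_of_nonneg_left ?_ (by linarith)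
    linarith
  linarith

private theorem FarB1_key {r z q u W : ℝ → ℝ} {a b : ℝ} (hf : Flow r z q u W a b)
    (hr : 22 / 5 ≤ r a) (hz : z a = 2) {t : ℝ} (hat : a ≤ t) (htb : t ≤ b) (hq : ∀ s ∈ Set.Icc a t, 0 ≤ q s) :
    22 / 5 ≤ r t ∧ 6 / 5 < z t := by
  have hsub : ∀ s ∈ Set.Icc a t, s ∈ Set.Icc a b := fun s hs => ⟨hs.1, hs.2.trans htb⟩
  have hint : ∀ s ∈ interior (Set.Icc a t), s ∈ Set.Icc a t := fun s hs => interior_subset hs
  have hmr : MonotoneOn r (Set.Icc a t) := by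
    refine monotoneOn_of_hasDerivWithinAt_nonneg (convex_Icc a t)
      (fun s hs => (hf.hr s (hsub s hs)).continuousAt.continuousWithinAt)
      (fun s hs => (hf.hr s (hsub s (hint s hs))).hasDerivWithinAt) (fun s hs => ?_)
    have h1 := hq s (hint s hs)
    have h2 := hf.hu s (hsub s (hint s hs))
    positivity
  have hrs : ∀ s ∈ Set.Icc a t, 22 / 5 ≤ r s := fun s hs => hr.trans (hmr ⟨le_rfl, hat⟩ hs hs.1)
  refine ⟨hrs t ⟨hat, le_rfl⟩, ?_⟩
  have hd : ∀ s ∈ Set.Icc a t, HasDerivAt (fun s => z s - 220 / 217 * Real.arctan (q s))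
      (-(1 - q s ^ 2) * u s - 220 / 217 * (1 / (1 + q s ^ 2) *
        (u s * (1 + q s ^ 2) / 2 * ((1 / r s - r s / 2) * (1 - q s ^ 2) - z s * q s)))) s := by
    intro s hs
    exact (hf.hz s (hsub s hs)).sub (((hf.hq s (hsub s hs)).arctan).const_mul _)
  have hmG : MonotoneOn (fun s => z s - 220 / 217 * Real.arctan (q s)) (Set.Icc a t) := by
    refine monotoneOn_of_hasDerivWithinAt_nonneg (convex_Icc a t)
      (fun s hs => (hd s hs).continuousAt.continuousWithinAt)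
      (fun s hs => (hd s (hint s hs)).hasDerivWithinAt) (fun s hs => ?_)
    have hs' := hint s hs
    exact FarB1_pos (hrs s hs') (hf.hz0 s (hsub s hs')) (hq s hs') (hf.hq1 s (hsub s hs')).2 (hf.hu s (hsub s hs'))
  have h1 := hmG (Set.left_mem_Icc.2 hat) (Set.right_mem_Icc.2 hat) hat
  simp only [] at h1
  rw [hz] at h1
  have h2 : Real.arctan (q a) ≤ Real.pi / 4 := by
    rw [← Real.arctan_one]
    exact Real.arctan_strictMono.monotone (hf.hq1 a ⟨le_rfl, hat.trans htb⟩).2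
  have h3 : 0 ≤ Real.arctan (q t) := by
    rw [← Real.arctan_zero]
    exact Real.arctan_strictMono.monotone (hq t ⟨hat, le_rfl⟩)
  have h4 := Real.pi_lt_d2
  linarith

/-- JOB FarB1. The trajectory becomes inward (`q ≤ 0`) while still high (`z ≥ 6/5`) and far.
PROOF. If `q a ≤ 0` take `t0 = a`. Let `q a > 0`. On any `[a, t]` with `q ≥ 0` on it, `r' = 2 q u ≥ 0`, so `r ≥ 22/5`
and `1/r - r/2 ≤ 5/22 - 11/5 = -217/110`. Put `A = 217/110`. `G = z - (2 / A) arctan q` has derivative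
`-(1 - q^2) u - (2/A) (u/2) ((1/r - r/2)(1 - q^2) - z q) ≥ -(1-q^2) u + (1-q^2) u + 0 ≥ 0` there, so
`z t ≥ z a + (2/A) (arctan (q t) - arctan (q a)) ≥ 2 - (2/A) (π/4)` (`arctan` is monotone, `arctan 1 = π/4`,
`q a ≤ 1`, `q t ≥ 0`), and `2 - π / (2 A) = 2 - 55 π / 217 ≥ 6/5` as `π < 3.15` (`55 * 3.15 / 217 < 0.7985`). So
`q ≥ 0` on all of `[a, b]` is impossible as `z b = 0`; let `t0` be the infimum of `{t ∈ [a, b] | q t ≤ 0}` (closed,
nonempty). Then `q ≥ 0` on `[a, t0]`, `q t0 = 0`, and the bounds hold at `t0`. -/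
theorem far_b1 {r z q u W : ℝ → ℝ} {a b : ℝ} (hab : a ≤ b) (hf : Flow r z q u W a b)
    (hr : 22 / 5 ≤ r a) (hz : z a = 2) (hzb : z b = 0) :
    ∃ t0 ∈ Set.Icc a b, 22 / 5 ≤ r t0 ∧ q t0 ≤ 0 ∧ 6 / 5 < z t0 := by
  rcases le_or_gt (q a) 0 with hqa | hqa
  · exact ⟨a, ⟨le_rfl, hab⟩, hr, hqa, by rw [hz]; norm_num⟩
  have hqc : ContinuousOn q (Set.Icc a b) := fun s hs => (hf.hq s hs).continuousAt.continuousWithinAt
  obtain ⟨S, hS⟩ : ∃ S : Set ℝ, S = Set.Icc a b ∩ q ⁻¹' Set.Iic 0 := ⟨_, rfl⟩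
  have hSc : IsCompact S := by
    rw [hS]
    exact isCompact_Icc.of_isClosed_subset (hqc.preimage_isClosed_of_isClosed isClosed_Icc isClosed_Iic)
      Set.inter_subset_left
  have hSn : S.Nonempty := by
    by_contra h
    have h1 : ∀ s ∈ Set.Icc a b, 0 ≤ q s := by
      intro s hs
      rcases le_or_gt (q s) 0 with h2 | h2
      · exfalso
        refine h ⟨s, ?_⟩
        rw [hS]
        exact ⟨hs, h2⟩
      · exact h2.le
    have h2 := (FarB1_key hf hr hz hab le_rfl h1).2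
    rw [hzb] at h2
    norm_num at h2
  have hmem := hSc.sInf_mem hSn
  obtain ⟨t0, ht0⟩ : ∃ t0, t0 = sInf S := ⟨_, rfl⟩
  rw [← ht0] at hmem
  have hle : ∀ s ∈ S, t0 ≤ s := by
    intro s hs
    rw [ht0]
    exact csInf_le hSc.bddBelow hs
  rw [hS] at hmem
  have hq : ∀ s ∈ Set.Icc a t0, 0 ≤ q s := by
    intro s hs
    rcases lt_or_eq_of_le hs.2 with h1 | h1
    · rcases le_or_gt (q s) 0 with h2 | h2
      · exfalso
        have h3 := hle s (by
          rw [hS]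
          exact ⟨⟨hs.1, h1.le.trans hmem.1.2⟩, h2⟩)
        linarith
      · exact h2.le
    · rw [h1]
      obtain ⟨s', hs', h2⟩ := intermediate_value_Icc' hmem.1.1
        (hqc.mono (Set.Icc_subset_Icc_right hmem.1.2)) ⟨hmem.2, hqa.le⟩
      have h3 := hle s' (by
        rw [hS]
        exact ⟨⟨hs'.1, hs'.2.trans hmem.1.2⟩, h2.le⟩)
      have h4 : s' = t0 := le_antisymm hs'.2 h3
      rw [← h4, h2]
  have hk := FarB1_key hf hr hz hmem.1.1 hmem.1.2 hq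
  exact ⟨t0, hmem.1, hk.1, hmem.2, hk.2⟩

end SShr
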