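import Pool.Agent.Lib.MP_49c3df_gt.FlowA

namespace SShr

open Set Filter Topology

private theorem FarB2_right {f : ℝ → ℝ} {f' t : ℝ} (h : HasDerivAt f f' t) (hf : f' < 0) :
    ∀ᶠ s in 𝓝[>] t, f s < f t := by
  have h1 := hasDerivAt_iff_tendsto_slope.1 h
  have h2 : Tendsto (slope f t) (𝓝[>] t) (𝓝 f') := h1.mono_left (nhdsWithin_mono _ fun x hx => (ne_of_gt hx : x ≠ t))
  filter_upwards [h2.eventually (gt_mem_nhds hf), self_mem_nhdsWithin] with s hs hst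
  have hst' : 0 < s - t := sub_pos.2 hst
  rw [slope_def_field] at hs
  have h3 := mul_neg_of_neg_of_pos hs hst'
  rw [div_mul_cancel₀ _ hst'.ne'] at h3
  linarith

private theorem FarB2_left {f : ℝ → ℝ} {f' t : ℝ} (h : HasDerivAt f f' t) (hf : 0 < f') :
    ∀ᶠ s in 𝓝[<] t, f s < f t := by
  have h1 := hasDerivAt_iff_tendsto_slope.1 h
  have h2 : Tendsto (slope f t) (𝓝[<] t) (𝓝 f') := h1.mono_left (nhdsWithin_mono _ fun x hx => (ne_of_lt hx : x ≠ t))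
  filter_upwards [h2.eventually (lt_mem_nhds hf), self_mem_nhdsWithin] with s hs hst
  have hst' : s - t < 0 := sub_neg.2 hst
  rw [slope_def_field] at hs
  have h3 := mul_neg_of_pos_of_neg hs hst'
  rw [div_mul_cancel₀ _ hst'.ne] at h3
  linarith

private theorem FarB2_least {g : ℝ → ℝ} {a b c : ℝ} (hg : ContinuousOn g (Icc a b)) (hex : ∃ t ∈ Icc a b, g t ≤ c) :
    ∃ t ∈ Icc a b, g t ≤ c ∧ ∀ s ∈ Icc a b, s < t → c < g s := by
  have h1 : IsCompact (Icc a b ∩ g ⁻¹' Iic c) :=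
    isCompact_Icc.of_isClosed_subset (hg.preimage_isClosed_of_isClosed isClosed_Icc isClosed_Iic) inter_subset_left
  obtain ⟨t0, h2, h3⟩ := hex
  obtain ⟨t, ⟨ht1, ht2⟩, ht3⟩ := h1.exists_isLeast ⟨t0, h2, h3⟩
  refine ⟨t, ht1, ht2, fun s hs hst => ?_⟩
  by_contra h
  push Not at h
  exact absurd (ht3 ⟨hs, h⟩) (not_le.2 hst)

private theorem FarB2_last {g : ℝ → ℝ} {a b c : ℝ} (hg : ContinuousOn g (Icc a b)) (hex : ∃ t ∈ Icc a b, g t ≤ c) :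
    ∃ t ∈ Icc a b, g t ≤ c ∧ ∀ s ∈ Icc a b, t < s → c < g s := by
  have h1 : IsCompact (Icc a b ∩ g ⁻¹' Iic c) :=
    isCompact_Icc.of_isClosed_subset (hg.preimage_isClosed_of_isClosed isClosed_Icc isClosed_Iic) inter_subset_left
  obtain ⟨t0, h2, h3⟩ := hex
  obtain ⟨t, ⟨ht1, ht2⟩, ht3⟩ := h1.exists_isGreatest ⟨t0, h2, h3⟩
  refine ⟨t, ht1, ht2, fun s hs hst => ?_⟩
  by_contra h
  push Not at h
  exact absurd (ht3 ⟨hs, h⟩) (not_le.2 hst)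

private theorem FarB2_geL {g : ℝ → ℝ} {a t c : ℝ} (hat : a < t) (hg : ContinuousAt g t) (h : ∀ s, a ≤ s → s < t → c < g s) :
    c ≤ g t := by
  have h1 : Tendsto g (𝓝[<] t) (𝓝 (g t)) := hg.tendsto.mono_left nhdsWithin_le_nhds
  refine ge_of_tendsto h1 ?_
  filter_upwards [Ioo_mem_nhdsLT hat] with s hs
  exact (h s hs.1.le hs.2).le

private theorem FarB2_geR {g : ℝ → ℝ} {b t c : ℝ} (hat : t < b) (hg : ContinuousAt g t) (h : ∀ s, t < s → s ≤ b → c < g s) :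
    c ≤ g t := by
  have h1 : Tendsto g (𝓝[>] t) (𝓝 (g t)) := hg.tendsto.mono_left nhdsWithin_le_nhds
  refine ge_of_tendsto h1 ?_
  filter_upwards [Ioo_mem_nhdsGT hat] with s hs
  exact (h s hs.1 hs.2.le).le

private theorem FarB2_r {r : ℝ} (h : 22 / 5 ≤ r) : 1 / r - r / 2 ≤ -(217 / 110) := by
  have h1 : 1 / r ≤ 1 / (22 / 5) := one_div_le_one_div_of_le (by norm_num) h
  have h2 : (1 : ℝ) / (22 / 5) = 5 / 22 := by norm_num
  linarith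

private theorem FarB2_poly {x : ℝ} (h0 : 0 ≤ x) (h1 : x ≤ 1) :
    0 < (2 - x) * (217 / 220 * (1 + (1 - x) ^ 2) - 5 / 6) - 3 / 5 * (1 + (1 - x) ^ 2) * (1 - x) := by
  nlinarith [mul_nonneg h0 (sub_nonneg.2 h1), mul_nonneg (mul_nonneg h0 h0) (sub_nonneg.2 h1), sq_nonneg (1 - x),
    mul_nonneg h0 (sq_nonneg (1 - x)), mul_nonneg (sub_nonneg.2 h1) (sq_nonneg (1 - x))]

/-- claim A -/
private theorem FarB2_q {r z q u W : ℝ → ℝ} {t0 t1 : ℝ} (hf : Flow r z q u W t0 t1) (hq : q t0 ≤ 0)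
    (hr : ∀ t ∈ Icc t0 t1, 22 / 5 ≤ r t) : ∀ t ∈ Icc t0 t1, q t ≤ 0 := by
  intro t2 ht2
  by_contra hcon
  push Not at hcon
  have hf2 : Flow r z q u W t0 t2 := hf.mono le_rfl ht2.2
  obtain ⟨t', ht', hq', hpos⟩ := FarB2_last (c := 0) hf2.cont_q ⟨t0, ⟨le_rfl, ht2.1⟩, hq⟩
  have hlt : t' < t2 := by
    refine lt_of_le_of_ne ht'.2 fun h => ?_
    rw [h] at hq'
    linarith
  have hmem : t' ∈ Icc t0 t1 := ⟨ht'.1, ht'.2.trans ht2.2⟩
  have hd := hf.hq t' hmem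
  have hq0 : q t' = 0 := by
    refine le_antisymm hq' (FarB2_geR hlt hd.continuousAt fun s hs1 hs2 => hpos s ⟨ht'.1.trans hs1.le, hs2⟩ hs1)
  have hneg : u t' * (1 + q t' ^ 2) / 2 * ((1 / r t' - r t' / 2) * (1 - q t' ^ 2) - z t' * q t') < 0 := by
    rw [hq0]
    have h1 := FarB2_r (hr t' hmem)
    have h2 := hf.hu t' hmem
    have h3 : u t' * (1 + 0 ^ 2) / 2 * ((1 / r t' - r t' / 2) * (1 - 0 ^ 2) - z t' * 0) = u t' / 2 * (1 / r t' - r t' / 2) := by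
      ring
    rw [h3]
    exact mul_neg_of_pos_of_neg (by linarith) (by linarith)
  have h1 := FarB2_right hd hneg
  obtain ⟨s, hs1, hs2⟩ := (h1.and (Ioo_mem_nhdsGT hlt)).exists
  have h2 := hpos s ⟨ht'.1.trans hs2.1.le, hs2.2.le⟩ hs2.1
  rw [hq0] at hs1
  linarith

/-- claim B -/
private theorem FarB2_f {r z q u W : ℝ → ℝ} {t0 t1 : ℝ} (hf : Flow r z q u W t0 t1) (hq : q t0 ≤ 0) (hz : 6 / 5 < z t0)
    (hr : ∀ t ∈ Icc t0 t1, 22 / 5 ≤ r t) : ∀ t ∈ Icc t0 t1, 0 < 5 / 6 * z t - (1 + q t) := by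
  intro t2 ht2
  by_contra hcon
  push Not at hcon
  have hA := FarB2_q hf hq hr
  have hf2 : Flow r z q u W t0 t2 := hf.mono le_rfl ht2.2
  have hcont : ContinuousOn (fun t => 5 / 6 * z t - (1 + q t)) (Icc t0 t2) :=
    (continuousOn_const.mul hf2.cont_z).sub (continuousOn_const.add hf2.cont_q)
  obtain ⟨t', ht', hf', hpos⟩ := FarB2_least (g := fun t => 5 / 6 * z t - (1 + q t)) (c := 0) hcont
    ⟨t2, ⟨ht2.1, le_rfl⟩, hcon⟩
  have hlt : t0 < t' := by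
    refine lt_of_le_of_ne ht'.1 fun h => ?_
    rw [← h] at hf'
    linarith
  have hmem : t' ∈ Icc t0 t1 := ⟨ht'.1, ht'.2.trans ht2.2⟩
  have hd : HasDerivAt (fun t => 5 / 6 * z t - (1 + q t)) (5 / 6 * (-(1 - q t' ^ 2) * u t') -
      (u t' * (1 + q t' ^ 2) / 2 * ((1 / r t' - r t' / 2) * (1 - q t' ^ 2) - z t' * q t'))) t' :=
    ((hf.hz t' hmem).const_mul (5 / 6)).sub ((hf.hq t' hmem).const_add 1)
  have h0 : 5 / 6 * z t' - (1 + q t') = 0 := by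
    refine le_antisymm hf' (FarB2_geL (g := fun t => 5 / 6 * z t - (1 + q t)) hlt hd.continuousAt fun s hs1 hs2 =>
      hpos s ⟨hs1, hs2.le.trans ht'.2⟩ hs2)
  have hqt := hA t' hmem
  have hzt := hf.hz0 t' hmem
  have hx : 0 < 1 + q t' := by
    rcases eq_or_lt_of_le hzt with h | h
    · have h1 := hf.hzq t' hmem h.symm
      linarith [h1.1]
    · linarith
  have hR := FarB2_r (hr t' hmem)
  have hu := hf.hu t' hmem
  obtain ⟨x, hxe⟩ : ∃ x, x = 1 + q t' := ⟨_, rfl⟩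
  have hqe : q t' = x - 1 := by linarith
  have hze : z t' = 6 / 5 * x := by linarith
  obtain ⟨ρ, hρ⟩ : ∃ ρ, ρ = 1 / r t' - r t' / 2 := ⟨_, rfl⟩
  have hx0 : 0 < x := by rw [hxe]; exact hx
  have hx1 : x ≤ 1 := by linarith
  have hval : 0 < 5 / 6 * (-(1 - q t' ^ 2) * u t') -
      (u t' * (1 + q t' ^ 2) / 2 * ((1 / r t' - r t' / 2) * (1 - q t' ^ 2) - z t' * q t')) := by
    rw [hqe, hze, ← hρ]
    rw [← hρ] at hR
    have e1 : 5 / 6 * (-(1 - (x - 1) ^ 2) * u t') -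
        (u t' * (1 + (x - 1) ^ 2) / 2 * (ρ * (1 - (x - 1) ^ 2) - 6 / 5 * x * (x - 1))) =
        u t' * x * (((2 - x) * (217 / 220 * (1 + (1 - x) ^ 2) - 5 / 6) - 3 / 5 * (1 + (1 - x) ^ 2) * (1 - x)) +
          (1 + (1 - x) ^ 2) / 2 * (2 - x) * (-(217 / 110) - ρ)) := by ring
    rw [e1]
    have h1 := FarB2_poly hx0.le hx1
    have h2 : 0 ≤ (1 + (1 - x) ^ 2) / 2 * (2 - x) * (-(217 / 110) - ρ) := by
      refine mul_nonneg (mul_nonneg (by positivity) (by linarith)) (by linarith)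
    exact mul_pos (mul_pos hu hx0) (by linarith)
  have h1 := FarB2_left hd hval
  obtain ⟨s, hs1, hs2⟩ := (h1.and (Ioo_mem_nhdsLT hlt)).exists
  have h2 := hpos s ⟨hs2.1.le, hs2.2.le.trans ht'.2⟩ hs2.2
  rw [h0] at hs1
  linarith

/-- JOB FarB2. From such a state the trajectory crosses `r = 22/5` inwards in the region
`1 + q ≤ (5/6) z`.
PROOF. `κ = 5/6`, `x = 1 + q`, `f = κ z - x`. `f t0 > 1 - 1 = 0` (as `z > 6/5`, `q ≤ 0`).
Claim: if `22/5 ≤ r` on `[t0, t1]` then `f > 0` and `q ≤ 0` on `[t0, t1]`. At a time with `q = 0`, `r ≥ 22/5` the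
derivative of `q` is `(u/2)(1/r - r/2) < 0`, so `q` cannot become positive: if `q t2 > 0` for some `t2`, let `t'` be
the supremum of `{t ∈ [t0, t2] | q t ≤ 0}`; `q t' = 0`, `q > 0` on `(t', t2]`, contradicting `q' (t') < 0`. Hence `q ≤ 0`,
`x ≤ 1`. If `f` vanishes let `t'` be its first zero, `f > 0` on `[t0, t')`, so `f' (t') ≤ 0`. There `z = x / κ`,
`x > 0` (else `z = 0`, `q = -1`, excluded), `x ≤ 1`, `N = 1 + (1-x)^2`, `1/r - r/2 ≤ -217/110`, and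
`f' / u = -κ x (2-x) - N/2 ((1/r - r/2) x (2-x) + z (1-x))
≥ x ((2 - x) (217/220 * N - 5/6) - 3/5 * N (1 - x)) > 0`: contradiction (the cubic is `> 0.1` on `[0, 1]`;
use `nlinarith` or split `[0,1]`).
Hence if `22/5 < r` on all of `[t0, b]` then `f b > 0`, but `f b = -x b ≤ 0`. So let `t1` be the infimum of
`{t ∈ [t0, b] | r t ≤ 22/5}`: `r t1 = 22/5`, `q t1 ≤ 0`, `1 + q t1 < (5/6) z t1`, `z t1 > 0`. -/
theorem far_b2 {r z q u W : ℝ → ℝ} {t0 b : ℝ} (hab : t0 ≤ b) (hf : Flow r z q u W t0 b)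
    (hr : 22 / 5 ≤ r t0) (hq : q t0 ≤ 0) (hz : 6 / 5 < z t0) (hzb : z b = 0) :
    ∃ t1 ∈ Set.Icc t0 b, r t1 = 22 / 5 ∧ q t1 ≤ 0 ∧ 1 + q t1 ≤ 5 / 6 * z t1 ∧ 0 < z t1 := by
  have hex : ∃ t ∈ Icc t0 b, r t ≤ 22 / 5 := by
    by_contra hcon
    push Not at hcon
    have h1 := FarB2_f hf hq hz (fun t ht => (hcon t ht).le) b ⟨hab, le_rfl⟩
    have h2 := (hf.hq1 b ⟨hab, le_rfl⟩).1
    rw [hzb] at h1
    linarith
  obtain ⟨t1, ht1, hr1, hpos⟩ := FarB2_least hf.cont_r hex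
  have hr1' : 22 / 5 ≤ r t1 := by
    rcases eq_or_lt_of_le ht1.1 with h | h
    · rw [← h]
      exact hr
    · exact FarB2_geL h (hf.hr t1 ht1).continuousAt fun s hs1 hs2 => hpos s ⟨hs1, hs2.le.trans ht1.2⟩ hs2
  have hre : ∀ t ∈ Icc t0 t1, 22 / 5 ≤ r t := by
    intro t ht
    rcases eq_or_lt_of_le ht.2 with h | h
    · rw [h]
      exact hr1'
    · exact (hpos t ⟨ht.1, ht.2.trans ht1.2⟩ h).le
  have hf1 : Flow r z q u W t0 t1 := hf.mono le_rfl ht1.2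
  have h1 := FarB2_q hf1 hq hre t1 ⟨ht1.1, le_rfl⟩
  have h2 := FarB2_f hf1 hq hz hre t1 ⟨ht1.1, le_rfl⟩
  have h3 := (hf.hq1 t1 ht1).1
  exact ⟨t1, ht1, le_antisymm hr1 hr1', h1, by linarith, by linarith⟩

end SShr
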