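import Pool.Agent.Lib.MP_49c3df_gt.Defs

/-! JOB GeoA1 (MP_49c3df_gt): symmetries of geodesics.

* `Geo.rev`, `Geo.refl`: chain rule, `kap (r) (z) (-c) (-s) = - kap r z c s`, `kap r (-z) c (-s) = - kap r z c s`.
-/

namespace SShr

variable {r z c s v : ℝ → ℝ}

private theorem GeoA1_comp {f : ℝ → ℝ} {f' t : ℝ} (h : HasDerivAt f f' (-t)) :
    HasDerivAt (fun t => f (-t)) (-f') t := by
  have h1 := h.comp t (hasDerivAt_neg t)
  rw [mul_neg, mul_one] at h1
  exact h1

theorem Geo.rev (hg : Geo r z c s v) :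
    Geo (fun t => r (-t)) (fun t => z (-t)) (fun t => -c (-t)) (fun t => -s (-t))
      (fun t => v (-t)) := by
  refine ⟨fun t => ?_, fun t => ?_, fun t => ?_, fun t => ?_, fun t => ?_, fun t => hg.r0 _, fun t => hg.v0 _,
    hg.vc.comp continuous_neg⟩
  · refine (GeoA1_comp (hg.hr (-t))).congr_deriv ?_
    ring
  · refine (GeoA1_comp (hg.hz (-t))).congr_deriv ?_
    ring
  · refine (GeoA1_comp (hg.hc (-t))).neg.congr_deriv ?_
    unfold kap
    ring
  · refine (GeoA1_comp (hg.hs (-t))).neg.congr_deriv ?_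
    unfold kap
    ring
  · have h := hg.cs (-t)
    show (-c (-t)) ^ 2 + (-s (-t)) ^ 2 = 1
    rw [neg_sq, neg_sq]
    exact h

theorem Geo.refl (hg : Geo r z c s v) :
    Geo r (fun t => -z t) c (fun t => -s t) v := by
  refine ⟨hg.hr, fun t => ?_, fun t => ?_, fun t => ?_, fun t => ?_, hg.r0, hg.v0, hg.vc⟩
  · refine (hg.hz t).neg.congr_deriv ?_
    ring
  · refine (hg.hc t).congr_deriv ?_
    unfold kap
    ring
  · refine (hg.hs t).neg.congr_deriv ?_
    unfold kap
    ring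
  · show c t ^ 2 + (-s t) ^ 2 = 1
    rw [neg_sq]
    exact hg.cs t

end SShr
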