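import Pool.Agent.Lib.MP_49c3df_gt.Defs

/-! JOB GeoA2 (MP_49c3df_gt): a geodesic tangent to `z = 0` stays in it.

* `Geo.ne_zero`: `(z, s)` solves the linear system `z' = v s`, `s' = -v c (1/r - r/2) s - v c^2 / 2 * z`. Let
  `E = z^2 + s^2`. Suppose `E t0 = 0` and `E t1 > 0`. On the compact interval between `t0` and `t1` the
  coefficients are bounded (all functions are continuous, `r > 0`), so `|E'| ≤ M E` for a constant `M`; then
  `E exp(M t)` is nondecreasing and `E exp(-M t)` is nonincreasing on it, which forces `E t1 = 0`. (Or use a Gronwall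
  lemma / `ODE_solution_unique`.) So if `E t0 = 0` for one `t0`, then `z = s = 0` everywhere.
-/

namespace SShr

variable {r z c s v : ℝ → ℝ}

private theorem GeoA2_pt {R Z C S V : ℝ} (hcs : C ^ 2 + S ^ 2 = 1) (hv : 0 < V) :
    |2 * Z * (V * S) + 2 * S * (V * C * kap R Z C S)| ≤ V * (2 + 2 * |1 / R - R / 2|) * (Z ^ 2 + S ^ 2) := by
  have hC : |C| ≤ 1 := by
    rw [← abs_one, ← sq_le_sq]
    nlinarith [sq_nonneg S]
  have hC2 : C ^ 2 ≤ 1 := by nlinarith [sq_nonneg S]
  obtain ⟨k, hk⟩ : ∃ k, k = 1 / R - R / 2 := ⟨_, rfl⟩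
  have e : 2 * Z * (V * S) + 2 * S * (V * C * kap R Z C S) =
      V * ((2 * Z * S) - 2 * (C * k) * S ^ 2 - C ^ 2 * (Z * S)) := by
    unfold kap
    rw [← hk]
    ring
  rw [← hk, e, abs_mul, abs_of_pos hv, mul_assoc V (2 + 2 * |k|)]
  refine mul_le_mul_of_nonneg_left ?_ hv.le
  have hzs : |Z * S| ≤ (Z ^ 2 + S ^ 2) / 2 := by
    rw [abs_le]
    constructor <;> nlinarith [sq_nonneg (Z + S), sq_nonneg (Z - S)]
  have hS : 0 ≤ S ^ 2 := sq_nonneg S
  have hZ : 0 ≤ Z ^ 2 := sq_nonneg Z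
  have h1 : |2 * Z * S| ≤ Z ^ 2 + S ^ 2 := by
    rw [mul_assoc, abs_mul, abs_two]
    linarith
  have h2 : |2 * (C * k) * S ^ 2| ≤ 2 * |k| * (Z ^ 2 + S ^ 2) := by
    rw [abs_mul, abs_mul, abs_mul, abs_two, abs_of_nonneg hS]
    have h3 : |C| * |k| ≤ |k| := by
      calc |C| * |k| ≤ 1 * |k| := mul_le_mul_of_nonneg_right hC (abs_nonneg k)
        _ = |k| := one_mul _
    have h4 : 0 ≤ |k| := abs_nonneg k
    calc 2 * (|C| * |k|) * S ^ 2 ≤ 2 * |k| * S ^ 2 := by
          refine mul_le_mul_of_nonneg_right ?_ hS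
          linarith
      _ ≤ 2 * |k| * (Z ^ 2 + S ^ 2) := by
          refine mul_le_mul_of_nonneg_left ?_ (by linarith)
          linarith
  have h3 : |C ^ 2 * (Z * S)| ≤ Z ^ 2 + S ^ 2 := by
    rw [abs_mul, abs_of_nonneg (sq_nonneg C)]
    calc C ^ 2 * |Z * S| ≤ 1 * |Z * S| := mul_le_mul_of_nonneg_right hC2 (abs_nonneg _)
      _ ≤ Z ^ 2 + S ^ 2 := by linarith
  calc |2 * Z * S - 2 * (C * k) * S ^ 2 - C ^ 2 * (Z * S)|
      ≤ |2 * Z * S - 2 * (C * k) * S ^ 2| + |C ^ 2 * (Z * S)| := abs_sub _ _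
    _ ≤ |2 * Z * S| + |2 * (C * k) * S ^ 2| + |C ^ 2 * (Z * S)| := by
        have := abs_sub (2 * Z * S) (2 * (C * k) * S ^ 2)
        linarith
    _ ≤ (2 + 2 * |k|) * (Z ^ 2 + S ^ 2) := by linarith

private theorem GeoA2_deriv (hg : Geo r z c s v) (t : ℝ) : HasDerivAt (fun t => z t ^ 2 + s t ^ 2)
    (2 * z t * (v t * s t) + 2 * s t * (v t * c t * kap (r t) (z t) (c t) (s t))) t := by
  have h1 := ((hg.hz t).pow 2).add ((hg.hs t).pow 2)
  refine h1.congr_deriv ?_
  simp only [Nat.cast_ofNat, Nat.add_one_sub_one, pow_one]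

private theorem GeoA2_bd (hg : Geo r z c s v) (a b : ℝ) : ∃ M : ℝ, ∀ t ∈ Set.Icc a b,
    |2 * z t * (v t * s t) + 2 * s t * (v t * c t * kap (r t) (z t) (c t) (s t))| ≤
      M * (z t ^ 2 + s t ^ 2) := by
  have hr : Continuous r := continuous_iff_continuousAt.2 fun t => (hg.hr t).continuousAt
  have hm : Continuous fun t => v t * (2 + 2 * |1 / r t - r t / 2|) :=
    hg.vc.mul (continuous_const.add (continuous_const.mul
      ((continuous_const.div hr fun t => (hg.r0 t).ne').sub (hr.div_const 2)).abs))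
  obtain ⟨M, hM⟩ := (isCompact_Icc (a := a) (b := b)).bddAbove_image hm.continuousOn
  refine ⟨M, fun t ht => (GeoA2_pt (hg.cs t) (hg.v0 t)).trans ?_⟩
  exact mul_le_mul_of_nonneg_right (hM ⟨t, ht, rfl⟩) (by positivity)

theorem Geo.ne_zero (hg : Geo r z c s v) (t0 t1 : ℝ) (h : z t0 = 0 ∧ s t0 = 0) : z t1 = 0 ∧ s t1 = 0 := by
  have hE0 : z t0 ^ 2 + s t0 ^ 2 = 0 := by
    rw [h.1, h.2]
    ring
  have key : z t1 ^ 2 + s t1 ^ 2 ≤ 0 := by
    rcases le_total t0 t1 with hle | hle
    · obtain ⟨M, hM⟩ := GeoA2_bd hg t0 t1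
      have hd : ∀ t, HasDerivAt (fun t => (z t ^ 2 + s t ^ 2) * Real.exp (-M * t))
          ((2 * z t * (v t * s t) + 2 * s t * (v t * c t * kap (r t) (z t) (c t) (s t))) * Real.exp (-M * t) +
            (z t ^ 2 + s t ^ 2) * (Real.exp (-M * t) * (-M))) t := by
        intro t
        have h2 : HasDerivAt (fun t => Real.exp (-M * t)) (Real.exp (-M * t) * (-M)) t := by
          have h3 := ((hasDerivAt_id t).const_mul (-M)).exp
          simpa using h3
        exact (GeoA2_deriv hg t).mul h2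
      have hanti : AntitoneOn (fun t => (z t ^ 2 + s t ^ 2) * Real.exp (-M * t)) (Set.Icc t0 t1) := by
        refine antitoneOn_of_deriv_nonpos (convex_Icc t0 t1) (fun t _ => (hd t).continuousAt.continuousWithinAt)
          (fun t _ => (hd t).differentiableAt.differentiableWithinAt) fun t ht => ?_
        rw [(hd t).deriv]
        rw [interior_Icc] at ht
        have h4 := (abs_le.1 (hM t ⟨ht.1.le, ht.2.le⟩)).2
        have h5 := Real.exp_pos (-M * t)
        nlinarith
      have h6 := hanti (Set.left_mem_Icc.2 hle) (Set.right_mem_Icc.2 hle) hle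
      simp only [hE0, zero_mul] at h6
      have h7 := Real.exp_pos (-M * t1)
      by_contra hcon
      push Not at hcon
      have := mul_pos hcon h7
      linarith
    · obtain ⟨M, hM⟩ := GeoA2_bd hg t1 t0
      have hd : ∀ t, HasDerivAt (fun t => (z t ^ 2 + s t ^ 2) * Real.exp (M * t))
          ((2 * z t * (v t * s t) + 2 * s t * (v t * c t * kap (r t) (z t) (c t) (s t))) * Real.exp (M * t) +
            (z t ^ 2 + s t ^ 2) * (Real.exp (M * t) * M)) t := by
        intro t
        have h2 : HasDerivAt (fun t => Real.exp (M * t)) (Real.exp (M * t) * M) t := by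
          have h3 := ((hasDerivAt_id t).const_mul M).exp
          simpa using h3
        exact (GeoA2_deriv hg t).mul h2
      have hmono : MonotoneOn (fun t => (z t ^ 2 + s t ^ 2) * Real.exp (M * t)) (Set.Icc t1 t0) := by
        refine monotoneOn_of_deriv_nonneg (convex_Icc t1 t0) (fun t _ => (hd t).continuousAt.continuousWithinAt)
          (fun t _ => (hd t).differentiableAt.differentiableWithinAt) fun t ht => ?_
        rw [(hd t).deriv]
        rw [interior_Icc] at ht
        have h4 := (abs_le.1 (hM t ⟨ht.1.le, ht.2.le⟩)).1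
        have h5 := Real.exp_pos (M * t)
        nlinarith
      have h6 := hmono (Set.left_mem_Icc.2 hle) (Set.right_mem_Icc.2 hle) hle
      simp only [hE0, zero_mul] at h6
      have h7 := Real.exp_pos (M * t1)
      by_contra hcon
      push Not at hcon
      have := mul_pos hcon h7
      linarith
  have hz : z t1 ^ 2 = 0 := by nlinarith [sq_nonneg (z t1), sq_nonneg (s t1)]
  have hs : s t1 ^ 2 = 0 := by nlinarith [sq_nonneg (z t1), sq_nonneg (s t1)]
  exact ⟨pow_eq_zero_iff two_ne_zero |>.1 hz, pow_eq_zero_iff two_ne_zero |>.1 hs⟩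

end SShr
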