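import Pool.Agent.Lib.MP_49c3df_gt.GeoA2

/-! JOB GeoA3 (MP_49c3df_gt): after a top the curve goes down.

* `Geo.s_neg`: at `tM`: `s = 0`, `c^2 = 1`, `s' = v c kap = -v z / 2 < 0`, so `s < 0` on a right neighbourhood. If
  `s` is not negative on all of `(tM, b]` let `t1` be the first time in `(tM, b]` with `s t1 ≥ 0`; then `s t1 = 0`,
  `s < 0` on `(tM, t1)`, so `s' (t1) ≥ 0`. If `t1 < b`: `z t1 > 0` and `s' (t1) = -v z / 2 < 0`, contradiction. If
  `t1 = b`: `z = s = 0` there, contradicting `Geo.ne_zero` (as `z tM > 0`).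
-/

open Filter Topology

namespace SShr

variable {r z c s v : ℝ → ℝ}

private theorem GeoA3_slope (hg : Geo r z c s v) {t0 : ℝ} (hs : s t0 = 0) (hz : 0 < z t0) :
    ∀ᶠ t in 𝓝[≠] t0, slope s t0 t < 0 := by
  have h1 := (hasDerivAt_iff_tendsto_slope.1 (hg.hs t0))
  refine h1.eventually (gt_mem_nhds ?_)
  have hc := hg.cs t0
  rw [hs] at hc
  have hc' : c t0 ^ 2 = 1 := by linarith
  have h2 : v t0 * c t0 * kap (r t0) (z t0) (c t0) (s t0) = -(v t0 * z t0 / 2 * c t0 ^ 2) := by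
    unfold kap
    rw [hs]
    ring
  rw [h2, hc']
  have h3 := mul_pos (hg.v0 t0) hz
  linarith

private theorem GeoA3_slope_def (hg : Geo r z c s v) {t0 : ℝ} (hs : s t0 = 0) (hz : 0 < z t0) :
    ∃ δ > 0, ∀ t, |t - t0| < δ → t ≠ t0 → s t * (t - t0) < 0 := by
  have h1 := GeoA3_slope hg hs hz
  rw [eventually_nhdsWithin_iff, Metric.eventually_nhds_iff] at h1
  obtain ⟨δ, hδ, h⟩ := h1
  refine ⟨δ, hδ, fun t ht hne => ?_⟩
  have h2 := h (y := t) (by rw [Real.dist_eq]; exact ht) hne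
  rw [slope_def_field, hs, sub_zero] at h2
  rcases div_neg_iff.1 h2 with h3 | h3
  · exact mul_neg_of_pos_of_neg h3.1 h3.2
  · exact mul_neg_of_neg_of_pos h3.1 h3.2

theorem Geo.s_neg (hg : Geo r z c s v) {tM b : ℝ} (hs : s tM = 0)
    (hz : ∀ t ∈ Set.Ico tM b, 0 < z t) : ∀ t ∈ Set.Ioc tM b, s t < 0 := by
  intro t1 ht1
  have hb : tM < b := lt_of_lt_of_le ht1.1 ht1.2
  have hzM : 0 < z tM := hz tM ⟨le_refl _, hb⟩
  have hsc : Continuous s := continuous_iff_continuousAt.2 fun t => (hg.hs t).continuousAt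
  have hzc : Continuous z := continuous_iff_continuousAt.2 fun t => (hg.hz t).continuousAt
  have hz0 : ∀ t ∈ Set.Icc tM b, s t = 0 → 0 < z t := by
    intro t ht hst
    rcases ht.2.lt_or_eq with h1 | h1
    · exact hz t ⟨ht.1, h1⟩
    · have h2 : 0 ≤ z t := by
        rw [h1]
        have h3 : ∀ᶠ x in 𝓝[<] b, 0 < z x := by
          filter_upwards [Ico_mem_nhdsLT hb] with x hx
          exact hz x hx
        exact ge_of_tendsto (hzc.continuousAt.tendsto.mono_left nhdsWithin_le_nhds)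
          (h3.mono fun x hx => hx.le)
      rcases h2.lt_or_eq with h3 | h3
      · exact h3
      · exact absurd (hg.ne_zero t tM ⟨h3.symm, hst⟩).1 hzM.ne'
  by_contra hcon
  have hcon' : 0 ≤ s t1 := not_lt.1 hcon
  obtain ⟨δ, hδ, hd⟩ := GeoA3_slope_def hg hs hzM
  have hd' : ∀ t, tM < t → t < tM + δ → s t < 0 := by
    intro t h1 h2
    have h3 := hd t (by rw [abs_of_pos (by linarith)]; linarith) h1.ne'
    by_contra h4
    have := mul_nonneg (not_lt.1 h4) (show 0 ≤ t - tM by linarith)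
    linarith
  have hS : IsCompact (Set.Icc (tM + δ) t1 ∩ {t | 0 ≤ s t}) :=
    isCompact_Icc.inter_right (isClosed_le continuous_const hsc)
  have ht1δ : tM + δ ≤ t1 := by
    by_contra h
    exact absurd (hd' t1 ht1.1 (not_le.1 h)) (not_lt.2 hcon')
  obtain ⟨τ, hτ⟩ := hS.exists_isLeast ⟨t1, ⟨ht1δ, le_refl _⟩, hcon'⟩
  have hτ1 := hτ.1.1
  have hτ2 : 0 ≤ s τ := hτ.1.2
  have hneg : ∀ t, tM < t → t < τ → s t < 0 := by
    intro t h1 h2
    by_cases h3 : t < tM + δ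
    · exact hd' t h1 h3
    · by_contra h4
      exact absurd (hτ.2 ⟨⟨not_lt.1 h3, by linarith [hτ1.2]⟩, not_lt.1 h4⟩) (not_le.2 h2)
  have hτM : tM < τ := by linarith [hτ1.1]
  have hs0 : s τ = 0 := by
    refine le_antisymm ?_ hτ2
    have h3 : ∀ᶠ x in 𝓝[<] τ, s x ≤ 0 := by
      filter_upwards [Ioo_mem_nhdsLT hτM] with x hx
      exact (hneg x hx.1 hx.2).le
    exact le_of_tendsto (hsc.continuousAt.tendsto.mono_left nhdsWithin_le_nhds) h3
  have hzτ := hz0 τ ⟨hτM.le, by linarith [hτ1.2, ht1.2]⟩ hs0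
  obtain ⟨ε, hε, he⟩ := GeoA3_slope_def hg hs0 hzτ
  obtain ⟨t, h1, h2⟩ := exists_between (show max tM (τ - ε) < τ from max_lt hτM (by linarith))
  have h3 : tM < t := lt_of_le_of_lt (le_max_left _ _) h1
  have h4 : τ - ε < t := lt_of_le_of_lt (le_max_right _ _) h1
  have h5 := he t (by rw [abs_of_neg (by linarith)]; linarith) h2.ne
  have h6 := hneg t h3 h2
  have h7 := mul_pos_of_neg_of_neg h6 (show t - τ < 0 by linarith)
  linarith

end SShr
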