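import Pool.Agent.Lib.MP_49c3df_gt.GeoA3

/-! The half branch from a top in the variable `q = c / (1 - s)`.

* `Geo.flow`: `q = c / (1 - s)`, `u = v / (1 + q^2)`. On `[tM, b]` `s ≤ 0`, so `1 - s ≥ 1`. Identities:
  `1 + q^2 = 2 / (1 - s)`, `2 q u = v c`, `(1 - q^2) u = -v s`, `(1 + q^2) u = v`, `q' = v kap / (1 - s)`, and
  `kap = (1/r - r/2) (1 - q^2)/(1 + q^2) - z q / (1 + q^2)`. `|q| ≤ 1` since
  `q^2 = (1 + s) / (1 - s)`, and `|q| < 1` if `s < 0` (`z t = 0` forces `t > tM`). -/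

namespace SShr

variable {r z c s v : ℝ → ℝ}

/-- `1 + q^2 = 2 / (1 - s)` -/
private theorem GeoA4_q1 {C S : ℝ} (h : C ^ 2 + S ^ 2 = 1) (hS : 0 < 1 - S) :
    1 + (C / (1 - S)) ^ 2 = 2 / (1 - S) := by
  have h1 : (1 - S) ≠ 0 := hS.ne'
  rw [div_pow, eq_div_iff h1]
  have h2 : (1 + C ^ 2 / (1 - S) ^ 2) * (1 - S) = ((1 - S) ^ 2 + C ^ 2) / (1 - S) := by
    field_simp
  rw [h2, div_eq_iff h1]
  linear_combination h

/-- `v / (1 + q^2) = v (1 - s) / 2` -/
private theorem GeoA4_u {C S V : ℝ} (h : C ^ 2 + S ^ 2 = 1) (hS : 0 < 1 - S) :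
    V / (1 + (C / (1 - S)) ^ 2) = V * (1 - S) / 2 := by
  rw [GeoA4_q1 h hS]
  have h1 : (1 - S) ≠ 0 := hS.ne'
  field_simp

/-- `1 - q^2 = - 2 s / (1 - s)` -/
private theorem GeoA4_q2 {C S : ℝ} (h : C ^ 2 + S ^ 2 = 1) (hS : 0 < 1 - S) :
    1 - (C / (1 - S)) ^ 2 = -(2 * S) / (1 - S) := by
  have h1 := GeoA4_q1 h hS
  have h2 : (1 - S) ≠ 0 := hS.ne'
  have h3 : (C / (1 - S)) ^ 2 = 2 / (1 - S) - 1 := by linarith
  rw [h3]
  field_simp
  ring

theorem Geo.flow (hg : Geo r z c s v) {tM b : ℝ} (hb : tM < b) (hs : s tM = 0)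
    (hz : ∀ t ∈ Set.Ico tM b, 0 < z t) (hzb : z b = 0) (W : ℝ → ℝ)
    (hW : ∀ t, HasDerivAt W (wl r z v t) t) :
    Flow r z (fun t => c t / (1 - s t)) (fun t => v t / (1 + (c t / (1 - s t)) ^ 2)) W tM b := by
  have hneg := hg.s_neg hs hz
  have hS0 : ∀ t ∈ Set.Icc tM b, s t ≤ 0 := by
    intro t ht
    rcases eq_or_lt_of_le ht.1 with h | h
    · rw [← h, hs]
    · exact (hneg t ⟨h, ht.2⟩).le
  have hS1 : ∀ t ∈ Set.Icc tM b, 0 < 1 - s t := fun t ht => by
    have := hS0 t ht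
    linarith
  have habs : ∀ t ∈ Set.Icc tM b, c t ^ 2 ≤ (1 - s t) ^ 2 := by
    intro t ht
    have h1 := hg.cs t
    have h2 := hS0 t ht
    have h3 := hS1 t ht
    nlinarith
  refine ⟨fun t ht => ?_, fun t ht => ?_, fun t ht => ?_, fun t ht => ?_, fun t ht => ?_,
    fun t _ => hg.r0 t, fun t ht => ?_, fun t ht => ?_, fun t ht hz0 => ?_⟩
  · have h1 := hS1 t ht
    have h2 : 2 * (c t / (1 - s t)) * (v t / (1 + (c t / (1 - s t)) ^ 2)) = v t * c t := by
      rw [GeoA4_u (hg.cs t) h1]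
      have h3 : (1 - s t) ≠ 0 := h1.ne'
      field_simp
    show HasDerivAt r (2 * (c t / (1 - s t)) * (v t / (1 + (c t / (1 - s t)) ^ 2))) t
    rw [h2]
    exact hg.hr t
  · have h1 := hS1 t ht
    have h2 : -(1 - (c t / (1 - s t)) ^ 2) * (v t / (1 + (c t / (1 - s t)) ^ 2)) =
        v t * s t := by
      rw [GeoA4_u (hg.cs t) h1, GeoA4_q2 (hg.cs t) h1]
      have h3 : (1 - s t) ≠ 0 := h1.ne'
      field_simp
    show HasDerivAt z (-(1 - (c t / (1 - s t)) ^ 2) * (v t / (1 + (c t / (1 - s t)) ^ 2))) t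
    rw [h2]
    exact hg.hz t
  · have h1 := hS1 t ht
    have h3 : (1 - s t) ≠ 0 := h1.ne'
    have hd : HasDerivAt (fun t => c t / (1 - s t))
        ((-(v t * s t * kap (r t) (z t) (c t) (s t)) * (1 - s t) -
          c t * (-(v t * c t * kap (r t) (z t) (c t) (s t)))) / (1 - s t) ^ 2) t :=
      (hg.hc t).div ((hg.hs t).const_sub 1) h3
    have h4 : (-(v t * s t * kap (r t) (z t) (c t) (s t)) * (1 - s t) -
          c t * (-(v t * c t * kap (r t) (z t) (c t) (s t)))) / (1 - s t) ^ 2 =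
        v t / (1 + (c t / (1 - s t)) ^ 2) * (1 + (c t / (1 - s t)) ^ 2) / 2 *
          ((1 / r t - r t / 2) * (1 - (c t / (1 - s t)) ^ 2) - z t * (c t / (1 - s t))) := by
      have h5 : -(v t * s t * kap (r t) (z t) (c t) (s t)) * (1 - s t) -
          c t * (-(v t * c t * kap (r t) (z t) (c t) (s t))) =
          v t * kap (r t) (z t) (c t) (s t) * (1 - s t) := by
        have := hg.cs t
        linear_combination (v t * kap (r t) (z t) (c t) (s t)) * this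
      rw [h5, GeoA4_u (hg.cs t) h1, GeoA4_q1 (hg.cs t) h1, GeoA4_q2 (hg.cs t) h1]
      unfold kap
      have h6 : r t ≠ 0 := (hg.r0 t).ne'
      field_simp
    show HasDerivAt (fun t => c t / (1 - s t))
      (v t / (1 + (c t / (1 - s t)) ^ 2) * (1 + (c t / (1 - s t)) ^ 2) / 2 *
          ((1 / r t - r t / 2) * (1 - (c t / (1 - s t)) ^ 2) - z t * (c t / (1 - s t)))) t
    rw [← h4]
    exact hd
  · have h2 : r t * gw (r t) (z t) * (1 + (c t / (1 - s t)) ^ 2) *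
        (v t / (1 + (c t / (1 - s t)) ^ 2)) = wl r z v t := by
      unfold wl
      have h3 : (1 + (c t / (1 - s t)) ^ 2) ≠ 0 := by positivity
      field_simp
    show HasDerivAt W (r t * gw (r t) (z t) * (1 + (c t / (1 - s t)) ^ 2) *
        (v t / (1 + (c t / (1 - s t)) ^ 2))) t
    rw [h2]
    exact hW t
  · have h2 := hg.v0 t
    show 0 < v t / (1 + (c t / (1 - s t)) ^ 2)
    positivity
  · rcases eq_or_lt_of_le ht.2 with h | h
    · rw [h, hzb]
    · exact (hz t ⟨ht.1, h⟩).le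
  · have h1 := hS1 t ht
    have h2 := abs_le_of_sq_le_sq' (habs t ht) h1.le
    show -1 ≤ c t / (1 - s t) ∧ c t / (1 - s t) ≤ 1
    constructor
    · rw [le_div_iff₀ h1]
      linarith [h2.1]
    · rw [div_le_iff₀ h1]
      linarith [h2.2]
  · have h1 := hS1 t ht
    have htb : t = b := by
      by_contra hne
      have := hz t ⟨ht.1, lt_of_le_of_ne ht.2 hne⟩
      linarith
    have hSn : s t < 0 := hneg t ⟨by rw [htb]; exact hb, ht.2⟩
    have h2 : c t ^ 2 < (1 - s t) ^ 2 := by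
      have := hg.cs t
      nlinarith
    have h3 := abs_lt_of_sq_lt_sq' h2 h1.le
    show -1 < c t / (1 - s t) ∧ c t / (1 - s t) < 1
    constructor
    · rw [lt_div_iff₀ h1]
      linarith [h3.1]
    · rw [div_lt_iff₀ h1]
      linarith [h3.2]

end SShr
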