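import Pool.Agent.Lib.MP_49c3df_gt.ExitT
import Pool.Agent.Lib.MP_49c3df_gt.Bd
import Pool.Agent.Lib.MP_49c3df_gt.FarA
import Pool.Agent.Lib.MP_49c3df_gt.FarB1
import Pool.Agent.Lib.MP_49c3df_gt.FarB2

/-! JOB PairT (MP_49c3df_gt): the two branches from a top have total length at least `m`.

`MFacts C m` and `DFacts C m` list what we need from the two certificates.
PROOFS.
* `high_branch` (`z a > 2`): by the intermediate value theorem there is `t1 ∈ [a, b]` with `z t1 = 2`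
  (`z` continuous, `z a > 2`, `z b = 0`). `Flow.mono` to `[t1, b]`, `W b - W a ≥ W b - W t1`. If `r t1 ≤ 22/5`:
  `exit_bound` for `D` (`22/5 ≤ 26/5`) and `DFacts.roof`. Else `far_b1`, then `far_b2` on `[t0, b]` (`Flow.mono`) give `t2`
  with `r t2 = 22/5` etc., `z t2 ≤ 2` by `z_anti`; `exit_bound` for `D` on `[t2, b]` and `DFacts.wall`.
* `far_branch`: `far_a`, then `exit_bound` for `M` on `[t1, b]` and `MFacts.wall` (`z t1 ≤ z a ≤ 2`).
* `pair_bound`: three cases: `2 < z0` (both branches `≥ m / 2`), `z0 ≤ 2, r0 ≤ 5` (`exit_bound` for `M` for both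
  and `MFacts.top`), `z0 ≤ 2, 5 < r0` (`far_branch` for the inward branch, `W_mono` for the other: its length is
  `≥ 0`). -/

namespace SShr

structure MFacts (C : Cert) (m : ℝ) : Prop where
  valid : C.Valid 5 2
  top : ∀ r z : ℝ, 0 < r → r ≤ 5 → 0 < z → z ≤ 2 → m ≤ C.H r z 1 + C.H r z (-1)
  wall : ∀ z q : ℝ, 0 < z → z ≤ 2 → -1 ≤ q → q ≤ 0 → 1 + q ≤ z / 4 → m ≤ C.H 5 z q

structure DFacts (C : Cert) (m : ℝ) : Prop where
  valid : C.Valid (26 / 5) 2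
  roof : ∀ r q : ℝ, 0 < r → r ≤ 22 / 5 → -1 ≤ q → q ≤ 1 → m / 2 ≤ C.H r 2 q
  wall : ∀ z q : ℝ, 0 < z → z ≤ 2 → -1 ≤ q → q ≤ 0 → 1 + q ≤ 5 / 6 * z → m / 2 ≤ C.H (22 / 5) z q

theorem high_branch {D : Cert} {m : ℝ} (hD : DFacts D m) {r z q u W : ℝ → ℝ} {a b : ℝ}
    (hab : a ≤ b) (hf : Flow r z q u W a b) (hz : 2 < z a) (hzb : z b = 0) :
    m / 2 ≤ W b - W a := by
  have hba : (2 : ℝ) ∈ Set.Icc (z b) (z a) := by
    constructor
    · rw [hzb]; norm_num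
    · exact hz.le
  obtain ⟨t1, ht1, hz1⟩ := intermediate_value_Icc' hab hf.cont_z hba
  have hf1 : Flow r z q u W t1 b := hf.mono ht1.1 le_rfl
  have hW1 : W a ≤ W t1 := hf.W_mono le_rfl ht1.1 ht1.2
  have hr1 : 0 < r t1 := hf.hr0 t1 ht1
  have hq1 := hf.hq1 t1 ht1
  by_cases hr : r t1 ≤ 22 / 5
  · have h1 := exit_bound hD.valid ht1.2 hf1 (by linarith) (by rw [hz1]) hzb
    have h2 := hD.roof (r t1) (q t1) hr1 hr hq1.1 hq1.2
    rw [hz1] at h1
    linarith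
  · have hr' : 22 / 5 ≤ r t1 := (not_le.mp hr).le
    obtain ⟨t0, ht0, hrt0, hqt0, hzt0⟩ := far_b1 ht1.2 hf1 hr' hz1 hzb
    have hf0 : Flow r z q u W t0 b := hf1.mono ht0.1 le_rfl
    have hW0 : W t1 ≤ W t0 := hf1.W_mono le_rfl ht0.1 ht0.2
    obtain ⟨t2, ht2, hrt2, hqt2, hx2, hzt2⟩ := far_b2 ht0.2 hf0 hrt0 hqt0 hzt0 hzb
    have hf2 : Flow r z q u W t2 b := hf0.mono ht2.1 le_rfl
    have hW2 : W t0 ≤ W t2 := hf0.W_mono le_rfl ht2.1 ht2.2
    have hz2 : z t2 ≤ z t1 := hf1.z_anti le_rfl (ht0.1.trans ht2.1) ht2.2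
    have hq2 := hf0.hq1 t2 ht2
    have hz2' : z t2 ≤ 2 := by rw [hz1] at hz2; exact hz2
    have h1 := exit_bound hD.valid ht2.2 hf2 (by rw [hrt2]; norm_num) hz2' hzb
    have h2 := hD.wall (z t2) (q t2) hzt2 hz2' hq2.1 hqt2 hx2
    rw [hrt2] at h1
    linarith

theorem far_branch {M : Cert} {m : ℝ} (hM : MFacts M m) {r z q u W : ℝ → ℝ} {a b : ℝ}
    (hab : a ≤ b) (hf : Flow r z q u W a b) (hr : 5 ≤ r a) (hz : z a ≤ 2) (hz0 : 0 < z a)
    (hq : q a = -1) (hzb : z b = 0) :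
    m ≤ W b - W a := by
  obtain ⟨t1, ht1, hr1, hq1, hx1, hz1⟩ := far_a hab hf hr hz hz0 hq hzb
  have hf1 : Flow r z q u W t1 b := hf.mono ht1.1 le_rfl
  have hW1 : W a ≤ W t1 := hf.W_mono le_rfl ht1.1 ht1.2
  have hz2 : z t1 ≤ z a := hf.z_anti le_rfl ht1.1 ht1.2
  have hqq := hf.hq1 t1 ht1
  have h1 := exit_bound hM.valid ht1.2 hf1 (by rw [hr1]) (hz2.trans hz) hzb
  have h2 := hM.wall (z t1) (q t1) hz1 (hz2.trans hz) hqq.1 hq1 hx1
  rw [hr1] at h1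
  linarith

theorem pair_bound {M D : Cert} {m : ℝ} (hM : MFacts M m) (hD : DFacts D m)
    {r z q u W r' z' q' u' W' : ℝ → ℝ} {a b a' b' : ℝ}
    (hab : a ≤ b) (hf : Flow r z q u W a b) (hzb : z b = 0)
    (hab' : a' ≤ b') (hf' : Flow r' z' q' u' W' a' b') (hzb' : z' b' = 0)
    (hq : q a = 1) (hq' : q' a' = -1) (hr : r a = r' a') (hz : z a = z' a') (hz0 : 0 < z a) :
    m ≤ (W b - W a) + (W' b' - W' a') := by
  have hr0 : 0 < r a := hf.hr0 a ⟨le_rfl, hab⟩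
  by_cases hz2 : 2 < z a
  · have h1 := high_branch hD hab hf hz2 hzb
    have h2 := high_branch hD hab' hf' (by rw [← hz]; exact hz2) hzb'
    linarith
  · have hz2' : z a ≤ 2 := not_lt.mp hz2
    by_cases hr5 : r a ≤ 5
    · have h1 := exit_bound hM.valid hab hf hr5 hz2' hzb
      have h2 := exit_bound hM.valid hab' hf' (by rw [← hr]; exact hr5) (by rw [← hz]; exact hz2') hzb'
      have h3 := hM.top (r a) (z a) hr0 hr5 hz0 hz2'
      rw [hq] at h1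
      rw [hq', ← hr, ← hz] at h2
      linarith
    · have hr5' : 5 ≤ r' a' := by rw [← hr]; exact (not_le.mp hr5).le
      have h1 := far_branch hM hab' hf' hr5' (by rw [← hz]; exact hz2') (by rw [← hz]; exact hz0)
        hq' hzb'
      have h2 := hf.W_mono le_rfl hab le_rfl
      linarith

end SShr
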