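import Pool.Agent.Lib.MP_49c3df_gt.GeoA1
import Pool.Agent.Lib.MP_49c3df_gt.GeoA4
import Pool.Agent.Lib.MP_49c3df_gt.PairT

/-! JOB GeoB1 (MP_49c3df_gt): arcs above `z = 0`.

* `arc_bound`: `W t = ∫ x in tM..t, wl r z v x` has derivative `wl r z v` everywhere (continuity). Forward branch:
  `Geo.flow` on `[tM, t2]`. Backward branch: `Geo.rev`, on `[-tM, -t1]`, with
  `W' t = ∫ x in -tM..t, wl (r∘neg) (z∘neg) (v∘neg) x`; `W' (-t1) = ∫ x in t1..tM, wl r z v x`
  (`intervalIntegral.integral_comp_neg`). At `tM`: `s = 0`, so `c tM = 1` or `-1`; the values of `q` at the two tops are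
  `c tM` and `-c tM`. `pair_bound` (in the appropriate order) and additivity of the integral.
-/

namespace SShr

variable {r z c s v : ℝ → ℝ}

theorem GeoB1_cont (hg : Geo r z c s v) : Continuous (wl r z v) := by
  have hr : Continuous r := continuous_iff_continuousAt.2 fun t => (hg.hr t).continuousAt
  have hz : Continuous z := continuous_iff_continuousAt.2 fun t => (hg.hz t).continuousAt
  have hv : Continuous v := hg.vc
  unfold wl gw
  fun_prop

theorem GeoB1_deriv (hg : Geo r z c s v) (a t : ℝ) :
    HasDerivAt (fun t => ∫ x in a..t, wl r z v x) (wl r z v t) t :=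
  ((GeoB1_cont hg).integral_hasStrictDerivAt a t).hasDerivAt

theorem arc_bound {M D : Cert} {m : ℝ} (hM : MFacts M m) (hD : DFacts D m)
    (hg : Geo r z c s v) {t1 tM t2 : ℝ} (h1 : t1 < tM) (h2 : tM < t2) (hs : s tM = 0)
    (hz : ∀ t ∈ Set.Ioo t1 t2, 0 < z t) (hz1 : z t1 = 0) (hz2 : z t2 = 0) :
    m ≤ ∫ t in t1..t2, wl r z v t := by
  have hcont := GeoB1_cont hg
  -- forward branch
  have hF := hg.flow (tM := tM) (b := t2) h2 hs
    (fun t ht => hz t ⟨lt_of_lt_of_le h1 ht.1, ht.2⟩) hz2
    (fun t => ∫ x in tM..t, wl r z v x) (GeoB1_deriv hg tM)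
  -- backward branch
  have hB := hg.rev.flow (tM := -tM) (b := -t1) (by linarith) (by simp [hs])
    (fun t ht => hz (-t) ⟨by linarith [ht.2], by linarith [ht.1]⟩) (by simp [hz1])
    (fun t => ∫ x in (-tM)..t, wl (fun t => r (-t)) (fun t => z (-t)) (fun t => v (-t)) x)
    (GeoB1_deriv hg.rev (-tM))
  have hint : (∫ x in (-tM)..(-t1), wl (fun t => r (-t)) (fun t => z (-t)) (fun t => v (-t)) x)
      = ∫ x in t1..tM, wl r z v x := by
    have e : (fun x => wl (fun t => r (-t)) (fun t => z (-t)) (fun t => v (-t)) x)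
        = fun x => wl r z v (-x) := rfl
    rw [e, intervalIntegral.integral_comp_neg (fun x => wl r z v x)]
    simp
  have hsum : (∫ x in t1..t2, wl r z v x)
      = (∫ x in t1..tM, wl r z v x) + ∫ x in tM..t2, wl r z v x :=
    (intervalIntegral.integral_add_adjacent_intervals (hcont.intervalIntegrable _ _)
      (hcont.intervalIntegrable _ _)).symm
  have hz0 : 0 < z tM := hz tM ⟨h1, h2⟩
  have hc2 : c tM ^ 2 = 1 := by
    have := hg.cs tM
    rw [hs] at this
    linarith
  have hc : c tM = 1 ∨ c tM = -1 := by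
    have : (c tM - 1) * (c tM + 1) = 0 := by linarith
    rcases mul_eq_zero.1 this with h | h
    · left; linarith
    · right; linarith
  rcases hc with hc | hc
  · have key := pair_bound hM hD h2.le hF hz2 (by linarith) hB (by simp [hz1])
      (by simp [hs, hc]) (by simp [hs, hc]) (by simp) (by simp) hz0
    simp only [intervalIntegral.integral_same, sub_zero] at key
    rw [hint] at key
    rw [hsum]
    linarith
  · have key := pair_bound hM hD (by linarith) hB (by simp [hz1]) h2.le hF hz2
      (by simp [hs, hc]) (by simp [hs, hc]) (by simp) (by simp) (by simpa using hz0)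
    simp only [intervalIntegral.integral_same, sub_zero] at key
    rw [hint] at key
    rw [hsum]
    linarith

end SShr
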