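import Pool.Agent.Lib.MP_49c3df_gt.GeoA2

/-! JOB GeoB2 (MP_49c3df_gt): a closed geodesic has a top above `z = 0`.

* `exists_top`: `z` is continuous and periodic, so it has a maximum, at `tM` say
  (`IsCompact.exists_isMaxOn` on `[0, L]` and periodicity). The derivative `v s` vanishes: `s tM = 0`, `c^2 = 1`. If
  `z tM = 0`: `Geo.ne_zero` gives `s = 0` everywhere, so `c^2 = 1` everywhere, `c` is constant (continuous), `r' = v c`
  has constant sign, so `r` is strictly monotone, contradicting the period. If `z tM < 0`: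
  `s' (tM) = -v z / 2 > 0`, so `s > 0` and `z' > 0` right after `tM`: contradiction. So `z tM > 0`.
-/

namespace SShr

variable {r z c s v : ℝ → ℝ}

private theorem GeoB2_flat (hg : Geo r z c s v) {L : ℝ} (hL : 0 < L) (hr : Function.Periodic r L)
    (h : ∀ t, s t = 0) : False := by
  have hc : ∀ t, HasDerivAt c 0 t := by
    intro t
    have h1 := hg.hc t
    have h2 : -(v t * s t * kap (r t) (z t) (c t) (s t)) = 0 := by
      rw [h t, mul_zero, zero_mul, neg_zero]
    rwa [h2] at h1
  have hcc : ∀ t, c t = c 0 := by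
    intro t
    exact is_const_of_deriv_eq_zero (fun t => (hc t).differentiableAt) (fun t => (hc t).deriv) t 0
  have h1 : c 0 = 1 ∨ c 0 = -1 := by
    have h2 := hg.cs 0
    rw [h 0] at h2
    have h3 : (c 0 - 1) * (c 0 + 1) = 0 := by linarith
    rcases mul_eq_zero.1 h3 with h4 | h4
    · exact Or.inl (by linarith)
    · exact Or.inr (by linarith)
  have hL0 : r L = r 0 := by
    have := hr 0
    rwa [zero_add] at this
  rcases h1 with h1 | h1
  · have h3 : StrictMono r := strictMono_of_deriv_pos fun t => by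
      rw [(hg.hr t).deriv, hcc t, h1, mul_one]
      exact hg.v0 t
    exact absurd (h3 hL) (by rw [hL0]; exact lt_irrefl _)
  · have h3 : StrictAnti r := strictAnti_of_deriv_neg fun t => by
      rw [(hg.hr t).deriv, hcc t, h1]
      have := hg.v0 t
      linarith
    exact absurd (h3 hL) (by rw [hL0]; exact lt_irrefl _)

private theorem GeoB2_up {z s v : ℝ → ℝ} (hz : ∀ t, HasDerivAt z (v t * s t) t) (hv : ∀ t, 0 < v t)
    {tM d : ℝ} (hs : HasDerivAt s d tM) (hd : 0 < d) (h0 : s tM = 0) :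
    ∃ t, z tM < z t := by
  have h1 : ∀ᶠ t in nhdsWithin tM (Set.Ioi tM), 0 < slope s tM t := by
    have h2 := hasDerivAt_iff_tendsto_slope.1 hs
    have h3 : Filter.Tendsto (slope s tM) (nhdsWithin tM (Set.Ioi tM)) (nhds d) :=
      h2.mono_left (nhdsWithin_mono _ fun t ht => (ne_of_gt ht : t ≠ tM))
    exact h3.eventually (lt_mem_nhds hd)
  have h4 : ∀ᶠ t in nhdsWithin tM (Set.Ioi tM), 0 < s t := by
    filter_upwards [h1, self_mem_nhdsWithin] with t ht ht'
    have ht'' : 0 < t - tM := sub_pos.2 ht'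
    rw [slope_def_field, h0, sub_zero] at ht
    by_contra hcon
    have : s t / (t - tM) ≤ 0 := div_nonpos_of_nonpos_of_nonneg (not_lt.1 hcon) ht''.le
    linarith
  obtain ⟨w, hw, hsub⟩ := mem_nhdsGT_iff_exists_Ioo_subset.1 h4
  have hw' : tM < w := hw
  refine ⟨(tM + w) / 2, ?_⟩
  have h5 : tM < (tM + w) / 2 := by linarith
  obtain ⟨y, hy, hy'⟩ := exists_hasDerivAt_eq_slope z (fun t => v t * s t) h5
    (fun t _ => (hz t).continuousAt.continuousWithinAt) (fun t _ => hz t)
  have h6 : 0 < s y := hsub ⟨hy.1, by linarith [hy.2]⟩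
  have h7 : 0 < v y * s y := mul_pos (hv y) h6
  have hy'' : v y * s y = (z ((tM + w) / 2) - z tM) / ((tM + w) / 2 - tM) := hy'
  rw [hy''] at h7
  have h8 : 0 < (tM + w) / 2 - tM := by linarith
  by_contra hcon
  have h9 : (z ((tM + w) / 2) - z tM) / ((tM + w) / 2 - tM) ≤ 0 :=
    div_nonpos_of_nonpos_of_nonneg (by linarith) h8.le
  linarith

theorem exists_top (hg : Geo r z c s v) {L : ℝ} (hL : 0 < L) (hr : Function.Periodic r L)
    (hz : Function.Periodic z L) : ∃ tM, s tM = 0 ∧ 0 < z tM := by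
  have hzc : Continuous z := continuous_iff_continuousAt.2 fun t => (hg.hz t).continuousAt
  obtain ⟨tM, -, hM⟩ := (isCompact_Icc (a := (0 : ℝ)) (b := L)).exists_isMaxOn
    ⟨0, le_refl _, hL.le⟩ hzc.continuousOn
  have hmax : ∀ t, z t ≤ z tM := by
    intro t
    obtain ⟨y, hy, hyt⟩ := hz.exists_mem_Ico₀ hL t
    rw [hyt]
    exact hM ⟨hy.1, hy.2.le⟩
  have hs0 : s tM = 0 := by
    have h1 : IsLocalMax z tM := Filter.Eventually.of_forall hmax
    have h2 : v tM * s tM = 0 := h1.hasDerivAt_eq_zero (hg.hz tM)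
    rcases mul_eq_zero.1 h2 with h3 | h3
    · exact absurd h3 (hg.v0 tM).ne'
    · exact h3
  refine ⟨tM, hs0, ?_⟩
  rcases lt_trichotomy 0 (z tM) with h | h | h
  · exact h
  · exact absurd (GeoB2_flat hg hL hr fun t => (hg.ne_zero tM t ⟨h.symm, hs0⟩).2) not_false
  · exfalso
    have h1 := hg.cs tM
    rw [hs0] at h1
    have h2 : v tM * c tM * kap (r tM) (z tM) (c tM) (s tM) = v tM * (-z tM / 2) := by
      rw [kap, hs0]
      have h3 : c tM ^ 2 = 1 := by linarith
      have h4 : v tM * c tM * (-(1 / r tM - r tM / 2) * 0 - z tM / 2 * c tM) =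
          v tM * (-z tM / 2) * c tM ^ 2 := by ring
      rw [h4, h3, mul_one]
    have h5 := hg.hs tM
    rw [h2] at h5
    obtain ⟨t, ht⟩ := GeoB2_up hg.hz hg.v0 h5 (mul_pos (hg.v0 tM) (by linarith)) hs0
    exact absurd (hmax t) (not_le.2 ht)

end SShr
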