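import Pool.Agent.Lib.MP_49c3df_gt.GeoB1
import Pool.Agent.Lib.MP_49c3df_gt.GeoB2

/-! JOB GeoB3 (MP_49c3df_gt): closed geodesics.

* `closed_bound`: top at `tM` (`exists_top`), bottom by `Geo.refl` and `exists_top` for `-z`: `z tm < 0`, `s tm = 0`.
  Shift `tm` by a multiple of `L` so that `tM < tm < tM + L` (`z` is periodic, so `tm ≠ tM` modulo `L`). Let `t2` be
  the first zero of `z` after `tM`, `t1` the last zero before `tM`: `tm - L < t1 < tM < t2 < tm`. Let `t3` be the
  last zero before `tm`, `t4` the first zero after `tm`: `t2 ≤ t3 < tm < t4 ≤ t1 + L`. By `arc_bound` (and for the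
  bottom `arc_bound` for `Geo.refl`; `wl` is even in `z`) `∫ t1..t2 ≥ m`, `∫ t3..t4 ≥ m`. `wl ≥ 0`, so
  `∫ t1..(t1+L) ≥ 2 m`, and the integral over a period does not depend on the starting point
  (`Function.Periodic.intervalIntegral_add_eq`). -/

namespace SShr

variable {r z c s v : ℝ → ℝ}

theorem GeoB3_first {f : ℝ → ℝ} (hf : Continuous f) {a b : ℝ} (hab : a < b) (ha : 0 < f a)
    (hb : f b < 0) : ∃ t, a < t ∧ t < b ∧ f t = 0 ∧ ∀ x ∈ Set.Ico a t, 0 < f x := by
  have hcl : IsClosed (Set.Icc a b ∩ f ⁻¹' {0}) :=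
    isClosed_Icc.inter (isClosed_singleton.preimage hf)
  have hcomp : IsCompact (Set.Icc a b ∩ f ⁻¹' {0}) :=
    isCompact_Icc.of_isClosed_subset hcl Set.inter_subset_left
  have hne : (Set.Icc a b ∩ f ⁻¹' {0}).Nonempty := by
    have := intermediate_value_Icc' hab.le hf.continuousOn
    obtain ⟨x, hx, hx0⟩ := this ⟨hb.le, ha.le⟩
    exact ⟨x, hx, hx0⟩
  obtain ⟨t, ht⟩ := hcomp.exists_isLeast hne
  have ht1 : t ∈ Set.Icc a b := ht.1.1
  have ht0 : f t = 0 := ht.1.2
  have hat : a < t := by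
    rcases eq_or_lt_of_le ht1.1 with h | h
    · rw [← h] at ht0; linarith
    · exact h
  have htb : t < b := by
    rcases eq_or_lt_of_le ht1.2 with h | h
    · rw [h] at ht0; linarith
    · exact h
  refine ⟨t, hat, htb, ht0, ?_⟩
  intro x hx
  by_contra hneg
  have hx0 : f x ≤ 0 := not_lt.1 hneg
  obtain ⟨y, hy, hy0⟩ := intermediate_value_Icc' hx.1 hf.continuousOn ⟨hx0, ha.le⟩
  have := ht.2 (show y ∈ Set.Icc a b ∩ f ⁻¹' {0} from
    ⟨⟨hy.1, hy.2.trans (hx.2.le.trans htb.le)⟩, hy0⟩)
  linarith [hx.2, hy.2]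

theorem GeoB3_last {f : ℝ → ℝ} (hf : Continuous f) {a b : ℝ} (hab : a < b) (ha : f a < 0)
    (hb : 0 < f b) : ∃ t, a < t ∧ t < b ∧ f t = 0 ∧ ∀ x ∈ Set.Ioc t b, 0 < f x := by
  obtain ⟨t, h1, h2, h3, h4⟩ := GeoB3_first (f := fun x => f (-x)) (hf.comp continuous_neg)
    (a := -b) (b := -a) (by linarith) (by simpa using hb) (by simpa using ha)
  refine ⟨-t, by linarith, by linarith, h3, ?_⟩
  intro x hx
  have := h4 (-x) ⟨by linarith [hx.2], by linarith [hx.1]⟩
  simpa using this

theorem GeoB3_sper (hg : Geo r z c s v) {L : ℝ} (hz : Function.Periodic z L)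
    (hv : Function.Periodic v L) : Function.Periodic s L := by
  intro t
  have h1 : HasDerivAt (fun x => z (x + L)) (v (t + L) * s (t + L)) t := by
    have := (hg.hz (t + L)).comp_add_const t L
    simpa using this
  have h2 : (fun x => z (x + L)) = z := funext hz
  rw [h2, hv t] at h1
  have h3 := h1.unique (hg.hz t)
  exact mul_left_cancel₀ (hg.v0 t).ne' h3

theorem GeoB3_cont (hg : Geo r z c s v) : Continuous (wl r z v) := by
  have hr : Continuous r := continuous_iff_continuousAt.2 fun t => (hg.hr t).continuousAt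
  have hz : Continuous z := continuous_iff_continuousAt.2 fun t => (hg.hz t).continuousAt
  have hv : Continuous v := hg.vc
  unfold wl gw
  fun_prop

theorem GeoB3_wl : wl r (fun t => -z t) v = wl r z v := by
  funext t
  simp only [wl, gw]
  rw [neg_sq]

theorem GeoB3_nonneg (hg : Geo r z c s v) (t : ℝ) : 0 ≤ wl r z v t := by
  unfold wl gw
  have h1 := hg.r0 t
  have h2 := hg.v0 t
  positivity

theorem closed_bound {M D : Cert} {m : ℝ} (hM : MFacts M m) (hD : DFacts D m)
    (hg : Geo r z c s v) {L : ℝ} (hL : 0 < L) (hr : Function.Periodic r L)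
    (hz : Function.Periodic z L) (hv : Function.Periodic v L) :
    2 * m ≤ ∫ t in (0 : ℝ)..L, wl r z v t := by
  have hs := GeoB3_sper hg hz hv
  have hzc : Continuous z := continuous_iff_continuousAt.2 fun t => (hg.hz t).continuousAt
  have hcont := GeoB3_cont hg
  obtain ⟨tM, hsM, hzM⟩ := exists_top hg hL hr hz
  obtain ⟨tm0, hsm0, hzm0⟩ := exists_top hg.refl hL hr (fun t => by simp [hz t])
  have hsm0' : s tm0 = 0 := by simpa using hsm0
  have hzm0' : z tm0 < 0 := by simpa using hzm0
  have hp : Function.Periodic (fun t => (z t, s t)) L := by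
    intro t
    simp [hz t, hs t]
  obtain ⟨tm, htm, hxy⟩ := hp.exists_mem_Ioc hL tm0 tM
  have hxy1 : z tm0 = z tm := congrArg Prod.fst hxy
  have hxy2 : s tm0 = s tm := congrArg Prod.snd hxy
  have hsm : s tm = 0 := by rw [← hxy2]; exact hsm0'
  have hzm : z tm < 0 := by rw [← hxy1]; exact hzm0'
  have hMm : tM < tm := htm.1
  have hmML : tm < tM + L := by
    rcases eq_or_lt_of_le htm.2 with h | h
    · exfalso
      rw [h, hz tM] at hzm
      linarith
    · exact h
  have hzmL : z (tm - L) < 0 := by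
    have := hz (tm - L)
    rw [sub_add_cancel] at this
    rw [← this]; exact hzm
  have hzML : 0 < z (tM + L) := by rw [hz tM]; exact hzM
  have hnc : Continuous (fun t => -z t) := hzc.neg
  obtain ⟨t2, a1, a2, a3, a4⟩ := GeoB3_first hzc hMm hzM hzm
  obtain ⟨t1, b1, b2, b3, b4⟩ := GeoB3_last hzc (a := tm - L) (b := tM) (by linarith) hzmL hzM
  obtain ⟨t3, c1, c2, c3, c4⟩ := GeoB3_last (f := fun t => -z t) hnc hMm (by linarith)
    (by linarith)
  obtain ⟨t4, d1, d2, d3, d4⟩ := GeoB3_first (f := fun t => -z t) hnc (a := tm) (b := tM + L)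
    hmML (by linarith) (by linarith)
  have c3' : z t3 = 0 := by linarith
  have d3' : z t4 = 0 := by linarith
  have h23 : t2 ≤ t3 := by
    by_contra hlt
    have hlt : t3 < t2 := not_le.1 hlt
    have e1 := a4 ((t3 + t2) / 2) ⟨by linarith, by linarith⟩
    have e2 := c4 ((t3 + t2) / 2) ⟨by linarith, by linarith⟩
    linarith
  have h41 : t4 ≤ t1 + L := by
    by_contra hlt
    have hlt : t1 + L < t4 := not_le.1 hlt
    have e1 := b4 ((t1 + L + t4) / 2 - L) ⟨by linarith, by linarith⟩
    have e2 := d4 ((t1 + L + t4) / 2) ⟨by linarith, by linarith⟩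
    have e3 := hz ((t1 + L + t4) / 2 - L)
    rw [sub_add_cancel] at e3
    rw [← e3] at e1
    linarith
  have hA : m ≤ ∫ t in t1..t2, wl r z v t := by
    refine arc_bound hM hD hg b2 a1 hsM ?_ b3 a3
    intro t ht
    rcases le_total t tM with h | h
    · exact b4 t ⟨ht.1, h⟩
    · exact a4 t ⟨h, ht.2⟩
  have hB : m ≤ ∫ t in t3..t4, wl r z v t := by
    have := arc_bound hM hD hg.refl (t1 := t3) (tM := tm) (t2 := t4) c2 d1 (by simp [hsm]) ?_ c3 d3
    · rwa [GeoB3_wl] at this
    · intro t ht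
      rcases le_total t tm with h | h
      · exact c4 t ⟨ht.1, h⟩
      · exact d4 t ⟨h, ht.2⟩
  have hii : ∀ a b : ℝ, IntervalIntegrable (wl r z v) MeasureTheory.volume a b :=
    fun a b => hcont.intervalIntegrable _ _
  have hC : 0 ≤ ∫ t in t2..t3, wl r z v t :=
    intervalIntegral.integral_nonneg h23 fun t _ => GeoB3_nonneg hg t
  have hD' : 0 ≤ ∫ t in t4..(t1 + L), wl r z v t :=
    intervalIntegral.integral_nonneg h41 fun t _ => GeoB3_nonneg hg t
  have hper : Function.Periodic (wl r z v) L := by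
    intro t
    simp only [wl, hr t, hz t, hv t]
  have hshift : (∫ t in (0 : ℝ)..L, wl r z v t) = ∫ t in t1..(t1 + L), wl r z v t := by
    have := hper.intervalIntegral_add_eq 0 t1
    rwa [zero_add] at this
  rw [hshift, ← intervalIntegral.integral_add_adjacent_intervals (hii t1 t2) (hii t2 (t1 + L)),
    ← intervalIntegral.integral_add_adjacent_intervals (hii t2 t3) (hii t3 (t1 + L)),
    ← intervalIntegral.integral_add_adjacent_intervals (hii t3 t4) (hii t4 (t1 + L))]
  linarith

end SShr
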