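import Pool.Agent.Lib.MP_49c3df_gt.S3A

/-! JOB GlueH (MP_49c3df_gt): the certificate function equals each chart function on the closed
domain of that chart.

NOTATION `κ = C.ka > 0`. All `S3` evaluations use knots `a`, `b` (integers) or `C.DT + a`.
PROOFS.
* `sh_c3`: `if_pos`.
* `sh_c2`: if `κ z < 1`: unfold `Cert.sh`, `if_neg`, `if_pos`. If `κ z = 1`: `sh = c3 s r 1 x` and we need
  `c3 s r 1 x = c2 s r 1 x`. `c3 s r 1 x = S3 .. (C.DT * 1) (C.DY * x)`, `C.DT * 1 = C.DT + 0` is the knot `0` of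
  `fun a => C.DT + a`, so `S3_U` gives `spl KR (fun i => spl _ (g3 s i 0) ..) (5r) NR`; `c2 s r 1 x` is at the
  knot `C.DX`, `S3_U` gives the controls `g2 s i (2 * DX)`; these agree by `glue23` (`spl_congr` twice).
* `sh_c1`: if `κ z < x`: then `κ z < 1` (as `x ≤ 1`) and not `x ≤ κ z`: `if_neg` twice. If `κ z = x`: by
  `sh_c2` the value is `c2 s r x 1` and `c1 s r x 1 = c2 s r x 1` by `S3_V` at the knots `DZ`, `DY` and
  `glue12` (`spl_congr` twice; the knots in `U` are the same).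
* `sh_pm`: `κ z ≥ 1`: `c3 true r (κ z) 1 = c3 false r (κ z) 1` by `S3_V` at the knot `DY` and `pm3`.
  `κ z < 1`: `c1 true r 1 (κ z / 1) = c1 false r 1 (κ z / 1)` (`if_neg`, `if_neg`) by `S3_U` at the knot `DX`
  and `pm1`.
* `H_sh`: `s = true`: `0 ≤ q`, `if_pos`. `s = false`: `-q ≥ 0`; if `q < 0`, `if_neg`; if `q = 0` use `sh_pm`. -/

namespace SShr

variable {C : Cert} {Rm zm : ℝ}

theorem sh_c3 (s : Bool) (r z x : ℝ) (h : 1 ≤ C.ka * z) :
    C.sh s r z x = C.c3 s r (C.ka * z) x := by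

  unfold Cert.sh
  rw [if_pos h]

theorem sh_c2 (hG : C.Glue Rm zm) (s : Bool) (r z x : ℝ) (h : C.ka * z ≤ 1) (hx : x ≤ C.ka * z) :
    C.sh s r z x = C.c2 s r (C.ka * z) (x / (C.ka * z)) := by

  by_cases h1 : 1 ≤ C.ka * z
  · have e : C.ka * z = 1 := le_antisymm h h1
    rw [sh_c3 s r z x h1, e, div_one]
    unfold Cert.c3 Cert.c2
    have h3 := S3_U C.KR (fun a : ℕ => (C.DT : ℝ) + a) (fun b : ℕ => (b : ℝ)) C.NR C.NT C.DY (C.g3 s)
      (5 * r) (C.DY * x) (fun i _ => by push_cast; linarith) 0 (Nat.zero_le _)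
    have h2 := S3_U C.KR (fun a : ℕ => (a : ℝ)) (fun b : ℕ => (b : ℝ)) C.NR C.DX C.DY (C.g2 s)
      (5 * r) (C.DY * x) (fun i _ => by push_cast; linarith) C.DX le_rfl
    simp only [Nat.cast_zero, add_zero, mul_zero] at h3
    rw [mul_one, mul_one, h3, h2]
    refine spl_congr _ _ _ _ _ fun i hi => spl_congr _ _ _ _ _ fun k hk => ?_
    exact (hG.glue23 s i hi k hk).symm
  · unfold Cert.sh
    rw [if_neg h1, if_pos hx]

theorem sh_c1 (hG : C.Glue Rm zm) (s : Bool) (r z x : ℝ) (hx0 : 0 < x) (hx1 : x ≤ 1)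
    (hx : C.ka * z ≤ x) :
    C.sh s r z x = C.c1 s r x (C.ka * z / x) := by

  rcases hx.eq_or_lt with e | hlt
  · rw [sh_c2 hG s r z x (by linarith) e.ge, e, div_self hx0.ne']
    unfold Cert.c1 Cert.c2
    have h1 := S3_V C.KR (fun a : ℕ => (a : ℝ)) (fun b : ℕ => (b : ℝ)) C.NR C.DX C.DZ (C.g1 s)
      (5 * r) (C.DX * x) (fun i _ => by push_cast; linarith) C.DZ le_rfl
    have h2 := S3_V C.KR (fun a : ℕ => (a : ℝ)) (fun b : ℕ => (b : ℝ)) C.NR C.DX C.DY (C.g2 s)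
      (5 * r) (C.DX * x) (fun i _ => by push_cast; linarith) C.DY le_rfl
    rw [mul_one, mul_one, h1, h2]
    refine spl_congr _ _ _ _ _ fun i hi => spl_congr _ _ _ _ _ fun j hj => ?_
    exact (hG.glue12 s i hi j hj).symm
  · unfold Cert.sh
    rw [if_neg (not_le.2 (by linarith)), if_neg (not_le.2 hlt)]

theorem sh_pm (hG : C.Glue Rm zm) (r z : ℝ) : C.sh true r z 1 = C.sh false r z 1 := by

  rcases le_or_gt 1 (C.ka * z) with h | h
  · rw [sh_c3 true r z 1 h, sh_c3 false r z 1 h]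
    unfold Cert.c3
    have h1 := fun s => S3_V C.KR (fun a : ℕ => (C.DT : ℝ) + a) (fun b : ℕ => (b : ℝ)) C.NR C.NT C.DY
      (C.g3 s) (5 * r) (C.DT * (C.ka * z)) (fun i _ => by push_cast; linarith) C.DY le_rfl
    rw [mul_one, h1, h1]
    refine spl_congr _ _ _ _ _ fun i hi => spl_congr _ _ _ _ _ fun j hj => ?_
    exact hG.pm3 i hi j hj
  · rw [sh_c1 hG true r z 1 one_pos le_rfl h.le, sh_c1 hG false r z 1 one_pos le_rfl h.le]
    unfold Cert.c1
    have h1 := fun s => S3_U C.KR (fun a : ℕ => (a : ℝ)) (fun b : ℕ => (b : ℝ)) C.NR C.DX C.DZ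
      (C.g1 s) (5 * r) (C.DZ * (C.ka * z / 1)) (fun i _ => by push_cast; linarith) C.DX le_rfl
    rw [mul_one, h1, h1]
    refine spl_congr _ _ _ _ _ fun i hi => spl_congr _ _ _ _ _ fun k hk => ?_
    exact hG.pm1 i hi k hk

theorem H_sh (hG : C.Glue Rm zm) (s : Bool) (r z q : ℝ) (hq : 0 ≤ sgn s * q) :
    C.H r z q = C.sh s r z (1 - sgn s * q) := by

  unfold Cert.H
  cases s with
  | true =>
    have e : sgn true = 1 := rfl
    rw [e, one_mul] at hq ⊢
    rw [if_pos hq]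
  | false =>
    have e : sgn false = -1 := rfl
    rw [e] at hq ⊢
    rcases lt_or_ge q 0 with h | h
    · rw [if_neg (not_le.2 h)]
      congr 1
      ring
    · have h0 : q = 0 := by linarith
      subst h0
      rw [if_pos le_rfl, sub_zero, mul_zero, sub_zero]
      exact sh_pm hG r z

end SShr
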