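/-! Integer polynomials in one, two and three variables as nested coefficient lists, with the
operations used by the certificate checker.  Everything is defined by recursors so that the
kernel evaluates it quickly. -/

namespace SShr

/-- sum of coefficient lists -/
noncomputable def addG {α : Type} (ad : α → α → α) (p : List α) : List α → List α :=
  List.rec (motive := fun _ => List α → List α) (fun q => q)
    (fun a p' ih q => List.rec (motive := fun _ => List α) (a :: p')
      (fun b q' _ => ad a b :: ih q') q) p

noncomputable def mapG {α β : Type} (f : α → β) (p : List α) : List β :=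
  List.rec (motive := fun _ => List β) [] (fun a _ ih => f a :: ih) p

noncomputable def allG {α : Type} (f : α → Bool) (p : List α) : Bool :=
  List.rec (motive := fun _ => Bool) true (fun a _ ih => Bool.rec false ih (f a)) p

noncomputable def snocG {α : Type} (p : List α) (x : α) : List α :=
  List.rec (motive := fun _ => List α) [x] (fun a _ ih => a :: ih) p

/-- product of coefficient lists -/
noncomputable def mulG {α : Type} (ad mu : α → α → α) (z : α) (p q : List α) : List α :=
  List.rec (motive := fun _ => List α) [] (fun a _ ih => addG ad (mapG (mu a) q) (z :: ih)) p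

abbrev P1 := List Int
abbrev P2 := List P1
abbrev P3 := List P2

noncomputable def add1 : P1 → P1 → P1 := addG Int.add
noncomputable def add2 : P2 → P2 → P2 := addG add1
noncomputable def add3 : P3 → P3 → P3 := addG add2
noncomputable def sm1 (c : Int) (p : P1) : P1 := mapG (Int.mul c) p
noncomputable def sm2 (c : Int) (p : P2) : P2 := mapG (sm1 c) p
noncomputable def sm3 (c : Int) (p : P3) : P3 := mapG (sm2 c) p
noncomputable def mul1 : P1 → P1 → P1 := mulG Int.add Int.mul 0
noncomputable def mul2 : P2 → P2 → P2 := mulG add1 mul1 []
/-- product of a polynomial in the last two variables with a polynomial in three -/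
noncomputable def mul23 (w : P2) (p : P3) : P3 := mapG (mul2 w) p
/-- product of a polynomial in the first variable with a polynomial in three -/
noncomputable def mulR (w : P1) (p : P3) : P3 :=
  List.rec (motive := fun _ => P3) [] (fun a _ ih => add3 (sm3 a p) ([] :: ih)) w

/-- unnormalised Bernstein coefficients: the accumulator holds the coefficients of the
homogeneous form of the part already read -/
noncomputable def bernG {α : Type} (ad : α → α → α) (z : α) (p : List α) : List α → List α :=
  List.rec (motive := fun _ => List α → List α) (fun acc => acc)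
    (fun a _ ih acc => ih (addG ad (snocG acc a) (z :: acc))) p

noncomputable def pos1 (p : P1) : Bool :=
  allG (fun a => Int.rec (fun _ => true) (fun _ => false) a) (bernG Int.add 0 p [])
noncomputable def pos2 (p : P2) : Bool := allG pos1 (bernG add1 [] p [])
noncomputable def pos3 (p : P3) : Bool := allG pos2 (bernG add2 [] p [])

/-- power form of a quadratic in Bernstein form, and its derivative -/
def pwG {α : Type} (ad : α → α → α) (sm : Int → α → α) (a b c : α) : List α :=
  [a, ad (sm 2 b) (sm (-2) a), ad (ad a (sm (-2) b)) c]
def dpwG {α : Type} (ad : α → α → α) (sm : Int → α → α) (a b c : α) : List α :=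
  [ad (sm 2 b) (sm (-2) a), ad (ad (sm 2 a) (sm (-4) b)) (sm 2 c)]

/-- entry of a list -/
noncomputable def nth {α : Type} (d : α) (l : List α) : Nat → α :=
  List.rec (motive := fun _ => Nat → α) (fun _ => d)
    (fun a _ ih n => Nat.rec (motive := fun _ => α) a (fun m _ => ih m) n) l

/-- entry of a net -/
noncomputable def gt (net : P3) (i j k : Nat) : Int := nth 0 (nth [] (nth [] net i) j) k

noncomputable def h1 (net : P3) (i j k : Nat) : P1 :=
  pwG Int.add Int.mul (gt net i j (2 * k)) (gt net i j (2 * k + 1)) (gt net i j (2 * k + 2))
noncomputable def d1 (net : P3) (i j k : Nat) : P1 :=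
  dpwG Int.add Int.mul (gt net i j (2 * k)) (gt net i j (2 * k + 1)) (gt net i j (2 * k + 2))
noncomputable def h2 (net : P3) (i j k : Nat) : P2 :=
  pwG add1 sm1 (h1 net i (2 * j) k) (h1 net i (2 * j + 1) k) (h1 net i (2 * j + 2) k)
noncomputable def h2U (net : P3) (i j k : Nat) : P2 :=
  dpwG add1 sm1 (h1 net i (2 * j) k) (h1 net i (2 * j + 1) k) (h1 net i (2 * j + 2) k)
noncomputable def h2V (net : P3) (i j k : Nat) : P2 :=
  pwG add1 sm1 (d1 net i (2 * j) k) (d1 net i (2 * j + 1) k) (d1 net i (2 * j + 2) k)
/-- derivatives of the cell polynomial in the three local variables -/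
noncomputable def hR (net : P3) (i j k : Nat) : P3 :=
  dpwG add2 sm2 (h2 net (2 * i) j k) (h2 net (2 * i + 1) j k) (h2 net (2 * i + 2) j k)
noncomputable def hU (net : P3) (i j k : Nat) : P3 :=
  pwG add2 sm2 (h2U net (2 * i) j k) (h2U net (2 * i + 1) j k) (h2U net (2 * i + 2) j k)
noncomputable def hV (net : P3) (i j k : Nat) : P3 :=
  pwG add2 sm2 (h2V net (2 * i) j k) (h2V net (2 * i + 1) j k) (h2V net (2 * i + 2) j k)

end SShr
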