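import Mathlib
import Pool.Agent.Lib.MP_49c3df_gt.PolyC

/-! Real values of list polynomials. -/

namespace SShr

/-- value of a coefficient list -/
noncomputable def evG {α : Type} (e : α → ℝ) (t : ℝ) : List α → ℝ
  | [] => 0
  | a :: p => e a + t * evG e t p

noncomputable def ev1 (z : ℝ) (p : P1) : ℝ := evG (fun a : ℤ => (a : ℝ)) z p
noncomputable def ev2 (y z : ℝ) (p : P2) : ℝ := evG (ev1 z) y p
noncomputable def ev3 (x y z : ℝ) (p : P3) : ℝ := evG (ev2 y z) x p

end SShr
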