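import Pool.Agent.Lib.MP_49c3df_gt.Defs

/-! JOB TensD (MP_49c3df_gt): chain rule for the cell polynomials, and linearity.

PROOF of `tens_deriv`. First `bq_deriv`: if `A, B, C, T` have derivatives `A', B', C', T'` at `t` then
`fun t => bq (A t) (B t) (C t) (T t)` has derivative `bq A' B' C' (T t) + dbq (A t) (B t) (C t) (T t) * T'`
(unfold `bq`, `HasDerivAt` of products, `ring`). Then, at level `z`: for fixed `i' j'` the function
`fun t => tn bq (g i' j') k (Z t)` has derivative `tn dbq (g i' j') k (Z t) * Z'`; at level `y` the function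
`fun t => tn bq (fun j' => tn bq (g i' j') k (Z t)) j (Y t)` has derivative
`tn bq (fun j' => tn dbq (g i' j') k (Z t)) j (Y t) * Z' + tn dbq (fun j' => tn bq (g i' j') k (Z t)) j (Y t) * Y'`;
the same at level `x`. Finish by unfolding `tens`, `tn`, `bq`, `dbq` and `ring`.
(Alternatively unfold everything: it is a polynomial in `X t, Y t, Z t`.)
`tens_div`: unfold `tens tn` and use that `f0, f1, f2 ∈ {bq, dbq}` are linear; the three cases needed
are stated separately. -/

namespace SShr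

theorem bq_deriv {A B C T : ℝ → ℝ} {A' B' C' T' t : ℝ} (hA : HasDerivAt A A' t)
    (hB : HasDerivAt B B' t) (hC : HasDerivAt C C' t) (hT : HasDerivAt T T' t) :
    HasDerivAt (fun t => bq (A t) (B t) (C t) (T t))
      (bq A' B' C' (T t) + dbq (A t) (B t) (C t) (T t) * T') t := by
  have h1 : HasDerivAt (fun t => 1 - T t) (-T') t := hT.const_sub 1
  have h2 : HasDerivAt (fun t => A t * (1 - T t) ^ 2)
      (A' * (1 - T t) ^ 2 + A t * (2 * (1 - T t) * (-T'))) t := by
    have h := hA.mul (h1.pow 2)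
    refine h.congr_deriv ?_
    simp
  have h3 : HasDerivAt (fun t => 2 * B t * T t * (1 - T t))
      ((2 * B' * T t + 2 * B t * T') * (1 - T t) + 2 * B t * T t * (-T')) t :=
    ((hB.const_mul 2).mul hT).mul h1
  have h4 : HasDerivAt (fun t => C t * T t ^ 2) (C' * T t ^ 2 + C t * (2 * T t * T')) t := by
    have h := hC.mul (hT.pow 2)
    refine h.congr_deriv ?_
    simp
  have h5 := (h2.add h3).add h4
  refine h5.congr_deriv ?_
  unfold bq dbq
  ring

private theorem TensD_tn {G : ℝ → ℕ → ℝ} {G' : ℕ → ℝ} {T : ℝ → ℝ} {T' t : ℝ} (k : ℕ)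
    (hG : ∀ i, HasDerivAt (fun t => G t i) (G' i) t) (hT : HasDerivAt T T' t) :
    HasDerivAt (fun t => tn bq (G t) k (T t)) (tn bq G' k (T t) + tn dbq (G t) k (T t) * T') t :=
  bq_deriv (hG _) (hG _) (hG _) hT

private theorem TensD_add (G G' : ℕ → ℝ) (k : ℕ) (x : ℝ) :
    tn bq (fun i => G i + G' i) k x = tn bq G k x + tn bq G' k x := by
  unfold tn bq
  ring

private theorem TensD_mul (G : ℕ → ℝ) (c : ℝ) (k : ℕ) (x : ℝ) :
    tn bq (fun i => G i * c) k x = tn bq G k x * c := by
  unfold tn bq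
  ring

theorem tens_deriv (g : ℕ → ℕ → ℕ → ℝ) (i j k : ℕ) {X Y Z : ℝ → ℝ} {X' Y' Z' t : ℝ}
    (hX : HasDerivAt X X' t) (hY : HasDerivAt Y Y' t) (hZ : HasDerivAt Z Z' t) :
    HasDerivAt (fun t => tens bq bq bq g i j k (X t) (Y t) (Z t))
      (tens dbq bq bq g i j k (X t) (Y t) (Z t) * X'
        + tens bq dbq bq g i j k (X t) (Y t) (Z t) * Y'
        + tens bq bq dbq g i j k (X t) (Y t) (Z t) * Z') t := by
  have h1 : ∀ i' j', HasDerivAt (fun t => tn bq (g i' j') k (Z t))
      (tn dbq (g i' j') k (Z t) * Z') t := by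
    intro i' j'
    have h := TensD_tn (G := fun _ => g i' j') (G' := fun _ => 0) k
      (fun m => hasDerivAt_const t (g i' j' m)) hZ
    refine h.congr_deriv ?_
    have h0 : tn bq (fun _ => (0 : ℝ)) k (Z t) = 0 := by
      unfold tn bq
      ring
    rw [h0, zero_add]
  have h2 : ∀ i', HasDerivAt (fun t => tn bq (fun j' => tn bq (g i' j') k (Z t)) j (Y t))
      (tn bq (fun j' => tn dbq (g i' j') k (Z t)) j (Y t) * Z' +
        tn dbq (fun j' => tn bq (g i' j') k (Z t)) j (Y t) * Y') t := by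
    intro i'
    have h := TensD_tn (G := fun t j' => tn bq (g i' j') k (Z t))
      (G' := fun j' => tn dbq (g i' j') k (Z t) * Z') j (fun j' => h1 i' j') hY
    refine h.congr_deriv ?_
    rw [TensD_mul]
  have h3 := TensD_tn
    (G := fun t i' => tn bq (fun j' => tn bq (g i' j') k (Z t)) j (Y t))
    (G' := fun i' => tn bq (fun j' => tn dbq (g i' j') k (Z t)) j (Y t) * Z' +
        tn dbq (fun j' => tn bq (g i' j') k (Z t)) j (Y t) * Y') i h2 hX
  refine h3.congr_deriv ?_
  rw [TensD_add, TensD_mul, TensD_mul]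
  unfold tens
  ring

theorem tens_div_R (g : ℕ → ℕ → ℕ → ℝ) (d : ℝ) (i j k : ℕ) (x y z : ℝ) :
    tens dbq bq bq (fun i j k => g i j k / d) i j k x y z = tens dbq bq bq g i j k x y z / d := by
  unfold tens tn dbq bq
  ring

theorem tens_div_U (g : ℕ → ℕ → ℕ → ℝ) (d : ℝ) (i j k : ℕ) (x y z : ℝ) :
    tens bq dbq bq (fun i j k => g i j k / d) i j k x y z = tens bq dbq bq g i j k x y z / d := by
  unfold tens tn dbq bq
  ring

theorem tens_div_V (g : ℕ → ℕ → ℕ → ℝ) (d : ℝ) (i j k : ℕ) (x y z : ℝ) :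
    tens bq bq dbq (fun i j k => g i j k / d) i j k x y z = tens bq bq dbq g i j k x y z / d := by
  unfold tens tn dbq bq
  ring

end SShr
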