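import Pool.Agent.Lib.MP_49c3df_gt.Check
import Pool.Agent.Lib.MP_49c3df_gt.Poly
import Pool.Agent.Lib.MP_49c3df_gt.Cell1S
import Pool.Agent.Lib.MP_49c3df_gt.Cell2S
import Pool.Agent.Lib.MP_49c3df_gt.Cell3S
import Pool.Agent.Lib.MP_49c3df_gt.TensD
import Pool.Agent.Lib.MP_49c3df_gt.ExpS

/-! From the kernel checks to the cell inequalities of a certificate. -/

namespace SShr

theorem allN_iff (n : ℕ) (f : ℕ → Bool) : allN n f = true ↔ ∀ i < n, f i = true := by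
  induction n with
  | zero => simp [allN]
  | succ n ih =>
    have e : allN (n + 1) f = Bool.rec false (allN n f) (f n) := rfl
    rw [e]
    cases hf : f n with
    | false =>
      constructor
      · intro h; exact absurd h (by simp)
      · intro h; exact absurd (h n (Nat.lt_succ_self n)) (by simp [hf])
    | true =>
      constructor
      · intro h i hi
        rcases Nat.lt_succ_iff_lt_or_eq.1 hi with h1 | h1
        · exact ih.1 h i h1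
        · rw [h1]; exact hf
      · intro h
        exact ih.2 fun i hi => h i (Nat.lt_succ_of_lt hi)

theorem Chart.chk_cell (C : Chart) (E : ℤ → ℤ → ℤ → ℤ → ℤ → ℤ → ℤ → ℤ → ℤ → ℤ → ℤ → ℤ → ℤ → ℤ →
    P3 → ℕ → ℕ → ℕ → P3) (nR nU nV : ℕ) (h : C.chk E nR nU nV = true) (i a b : ℕ) (hi : i < nR)
    (ha : a < nU) (hb : b < nV) : pos3 (C.cell E i a b) = true := by
  have h1 := (allN_iff _ _).1 h i hi
  have h2 := (allN_iff _ _).1 h1 a ha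
  exact (allN_iff _ _).1 h2 b hb

theorem sgz_cast (s : Bool) : ((sgz s : ℤ) : ℝ) = sgn s := by
  cases s <;> simp [sgz, sgn]

noncomputable def CData.rk (D : CData) (i : ℕ) : ℤ := nth 0 D.RK i
noncomputable def CData.q (D : CData) (i k : ℕ) : ℤ := nth 0 (nth [] D.QL i) k

noncomputable def ab (L : List (List (List ℤ))) (a b k : ℕ) : ℤ := nth 0 (nth [] (nth [] L a) b) k

noncomputable def CData.cert (D : CData) : Cert where
  ka := (D.kn : ℝ) / D.kd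
  NR := D.NR
  KR := fun i => (D.rk i : ℝ)
  DX := D.DX
  DZ := D.DZ
  DY := D.DY
  DT := D.DT
  NT := D.NT
  g1 := fun s i j k => rn (D.n1 s) i j k / 10 ^ 9
  g2 := fun s i j k => rn (D.n2 s) i j k / 10 ^ 9
  g3 := fun s i j k => rn (D.n3 s) i j k / 10 ^ 9

/-- everything that the kernel and elementary estimates have to provide -/
structure CData.OK (D : CData) (zm : ℝ) : Prop where
  kn0 : 0 < D.kn
  kd0 : 0 < D.kd
  DX0 : 0 < D.DX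
  DZ0 : 0 < D.DZ
  DY0 : 0 < D.DY
  DT0 : 0 < D.DT
  rk_mono : ∀ i < D.NR, D.rk i < D.rk (i + 1)
  c1 : ∀ s, (D.ch1 s).chk cellE1 D.NR D.DX D.DZ = true
  c2 : ∀ s, (D.ch2 s).chk cellE2 D.NR D.DX D.DY = true
  c3 : ∀ s, (D.ch3 s).chk cellE3 D.NR D.NT D.DY = true
  hq : ∀ i < D.NR, ∀ R : ℝ, (D.rk i : ℝ) ≤ R → R ≤ D.rk (i + 1) →
    (D.q i 0 + D.q i 1 * (R - D.rk i) + D.q i 2 * (R - D.rk i) ^ 2) / 10 ^ 5
      ≤ Real.exp (-(R ^ 2 / 100))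
  p1 : ∀ a < D.DX, ∀ b < D.DZ, ∀ z : ℝ, 0 ≤ z → (D.kn : ℝ) / D.kd * z ≤ 1 →
    0 ≤ ((ab D.A1 a b 0 : ℝ) - ab D.A1 a b 1 * (D.DX * D.DZ * ((D.kn : ℝ) / D.kd * z)) ^ 2) ∧
    ((ab D.A1 a b 0 : ℝ) - ab D.A1 a b 1 * (D.DX * D.DZ * ((D.kn : ℝ) / D.kd * z)) ^ 2) / 10 ^ 4
      ≤ Real.exp (-(z ^ 2 / 4))
  p2 : ∀ a < D.DX, ∀ b < D.DY, ∀ z : ℝ, 0 ≤ z → (D.kn : ℝ) / D.kd * z ≤ 1 →
    0 ≤ ((ab D.A2 a b 0 : ℝ) - ab D.A2 a b 1 * (D.DX * ((D.kn : ℝ) / D.kd * z)) ^ 2) ∧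
    ((ab D.A2 a b 0 : ℝ) - ab D.A2 a b 1 * (D.DX * ((D.kn : ℝ) / D.kd * z)) ^ 2) / 10 ^ 4
      ≤ Real.exp (-(z ^ 2 / 4))
  p3 : ∀ a < D.NT, ∀ b < D.DY, ∀ z : ℝ, 0 ≤ z → z ≤ zm →
    0 ≤ ((ab D.A3 a b 0 : ℝ) - ab D.A3 a b 1 * (D.DT * ((D.kn : ℝ) / D.kd * z)) ^ 2) ∧
    ((ab D.A3 a b 0 : ℝ) - ab D.A3 a b 1 * (D.DT * ((D.kn : ℝ) / D.kd * z)) ^ 2) / 10 ^ 4
      ≤ Real.exp (-(z ^ 2 / 4))

/-- weight bound -/
theorem w_le (Q P r z : ℝ) (hP : 0 ≤ P) (hQ : Q / 10 ^ 5 ≤ Real.exp (-((5 * r) ^ 2 / 100)))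
    (hp : P / 10 ^ 4 ≤ Real.exp (-(z ^ 2 / 4))) : Q * P / 10 ^ 9 ≤ gw r z := by
  have e : gw r z = Real.exp (-((5 * r) ^ 2 / 100)) * Real.exp (-(z ^ 2 / 4)) := by
    unfold gw; rw [← Real.exp_add]; congr 1; ring
  rw [e]
  calc Q * P / 10 ^ 9 = Q / 10 ^ 5 * (P / 10 ^ 4) := by ring
    _ ≤ Real.exp (-((5 * r) ^ 2 / 100)) * (P / 10 ^ 4) :=
      mul_le_mul_of_nonneg_right hQ (by positivity)
    _ ≤ _ := mul_le_mul_of_nonneg_left hp (Real.exp_pos _).le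

theorem E1n_mono (κ s r u v hr hu hv w w' : ℝ) (h : w ≤ w') :
    E1n κ s r u v hr hu hv w ≤ E1n κ s r u v hr hu hv w' := by
  unfold E1n
  have : (1 + (1 - u) ^ 2) * r ^ 2 * w ≤ (1 + (1 - u) ^ 2) * r ^ 2 * w' :=
    mul_le_mul_of_nonneg_left h (by positivity)
  linarith

theorem E2n_mono (κ s r u v hr hu hv w w' : ℝ) (h : w ≤ w') :
    E2n κ s r u v hr hu hv w ≤ E2n κ s r u v hr hu hv w' := by
  unfold E2n
  have : (1 + (1 - u * v) ^ 2) * r ^ 2 * w ≤ (1 + (1 - u * v) ^ 2) * r ^ 2 * w' :=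
    mul_le_mul_of_nonneg_left h (by positivity)
  linarith

theorem E3n_mono (κ s r u v hr hu hv w w' : ℝ) (h : w ≤ w') :
    E3n κ s r u v hr hu hv w ≤ E3n κ s r u v hr hu hv w' := by
  unfold E3n
  have : (1 + (1 - v) ^ 2) * r ^ 2 * w ≤ (1 + (1 - v) ^ 2) * r ^ 2 * w' :=
    mul_le_mul_of_nonneg_left h (by positivity)
  linarith

theorem CData_loc (D : CData) (i : ℕ) (r : ℝ) (hR' : (0 : ℝ) < (D.rk (i + 1) : ℝ) - D.rk i) :
    ((nth 0 D.RK (i + 1) - nth 0 D.RK i : ℤ) : ℝ) *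
      ((5 * r - D.rk i) / (D.rk (i + 1) - D.rk i)) = 5 * r - D.rk i := by
  have e : ((nth 0 D.RK (i + 1) - nth 0 D.RK i : ℤ) : ℝ) = D.rk (i + 1) - D.rk i := by
    push_cast; rfl
  rw [e, mul_div_cancel₀ _ hR'.ne']

theorem CData_fr (D : CData) (i : ℕ) :
    (5 : ℝ) / ((nth 0 D.RK (i + 1) - nth 0 D.RK i : ℤ) : ℝ) = 5 / (D.rk (i + 1) - D.rk i) := by
  have e : ((nth 0 D.RK (i + 1) - nth 0 D.RK i : ℤ) : ℝ) = D.rk (i + 1) - D.rk i := by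
    push_cast; rfl
  rw [e]

theorem CData.ineq1 (D : CData) (zm : ℝ) (h : D.OK zm) (s : Bool) (i : ℕ) (hi : i < D.NR)
    (a : ℕ) (ha : a < D.DX) (b : ℕ) (hb : b < D.DZ) (r u v : ℝ)
    (h1 : (D.rk i : ℝ) ≤ 5 * r) (h2 : 5 * r ≤ D.rk (i + 1)) (h3 : (a : ℝ) ≤ D.DX * u)
    (h4 : D.DX * u ≤ (a : ℝ) + 1) (h5 : (b : ℝ) ≤ D.DZ * v) (h6 : D.DZ * v ≤ (b : ℝ) + 1) :
    0 ≤ E1n ((D.kn : ℝ) / D.kd) (sgn s) r u v
      (5 / (D.rk (i + 1) - D.rk i) * (tens dbq bq bq (rn (D.n1 s)) i a b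
        ((5 * r - D.rk i) / (D.rk (i + 1) - D.rk i)) (D.DX * u - a) (D.DZ * v - b) / 10 ^ 9))
      (D.DX * (tens bq dbq bq (rn (D.n1 s)) i a b
        ((5 * r - D.rk i) / (D.rk (i + 1) - D.rk i)) (D.DX * u - a) (D.DZ * v - b) / 10 ^ 9))
      (D.DZ * (tens bq bq dbq (rn (D.n1 s)) i a b
        ((5 * r - D.rk i) / (D.rk (i + 1) - D.rk i)) (D.DX * u - a) (D.DZ * v - b) / 10 ^ 9))
      (gw r (u * v / ((D.kn : ℝ) / D.kd))) := by
  have hkn : (0 : ℝ) < D.kn := by exact_mod_cast h.kn0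
  have hkd : (0 : ℝ) < D.kd := by exact_mod_cast h.kd0
  have hκ : (0 : ℝ) < (D.kn : ℝ) / D.kd := by positivity
  have hDX : (0 : ℝ) < D.DX := by exact_mod_cast h.DX0
  have hDZ : (0 : ℝ) < D.DZ := by exact_mod_cast h.DZ0
  have hR : (0 : ℝ) < ((D.rk (i + 1) - D.rk i : ℤ) : ℝ) := by
    exact_mod_cast sub_pos.2 (h.rk_mono i hi)
  have hR' : (0 : ℝ) < (D.rk (i + 1) : ℝ) - D.rk i := by push_cast at hR; exact hR
  have hu0 : 0 ≤ u := by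
    have : (0 : ℝ) ≤ D.DX * u := le_trans (Nat.cast_nonneg a) h3
    exact nonneg_of_mul_nonneg_right this hDX
  have hv0 : 0 ≤ v := by
    have : (0 : ℝ) ≤ D.DZ * v := le_trans (Nat.cast_nonneg b) h5
    exact nonneg_of_mul_nonneg_right this hDZ
  have hu1 : u ≤ 1 := by
    have h7 : (a : ℝ) + 1 ≤ D.DX := by exact_mod_cast ha
    have : (D.DX : ℝ) * u ≤ D.DX * 1 := by linarith
    exact le_of_mul_le_mul_left this hDX
  have hv1 : v ≤ 1 := by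
    have h7 : (b : ℝ) + 1 ≤ D.DZ := by exact_mod_cast hb
    have : (D.DZ : ℝ) * v ≤ D.DZ * 1 := by linarith
    exact le_of_mul_le_mul_left this hDZ
  have hc := cell1_sound _ _ _ _ _ _ _ _ _ _ _ _ _ _ _ _ _ _
    (Chart.chk_cell _ _ _ _ _ (h.c1 s) i a b hi ha hb)
    h.kn0 h.kd0 (Int.natCast_pos.2 h.DX0) (Int.natCast_pos.2 h.DZ0)
    (sub_pos.2 (h.rk_mono i hi)) (10 ^ 9) (by positivity)
    ((5 * r - D.rk i) / (D.rk (i + 1) - D.rk i)) (D.DX * u - a) (D.DZ * v - b)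
    (div_nonneg (by linarith) hR'.le) ((div_le_one hR').2 (by linarith))
    (by linarith) (by linarith) (by linarith) (by linarith)
  simp only [CData.ch1] at hc
  rw [sgz_cast, CData_loc D i r hR', CData_fr D i] at hc
  have e2 : (((0 + (a : ℤ) : ℤ) : ℝ) + (D.DX * u - a)) = D.DX * u := by push_cast; ring
  have e3 : (((0 + (b : ℤ) : ℤ) : ℝ) + (D.DZ * v - b)) = D.DZ * v := by push_cast; ring
  have e1 : (((nth 0 D.RK i : ℤ) : ℝ) + (5 * r - D.rk i)) / 5 = r := by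
    have : ((nth 0 D.RK i : ℤ) : ℝ) = D.rk i := rfl
    rw [this]; ring
  have e4 : (D.DX * u : ℝ) / ((D.DX : ℤ) : ℝ) = u := by
    rw [Int.cast_natCast]; exact mul_div_cancel_left₀ u hDX.ne'
  have e5 : (D.DZ * v : ℝ) / ((D.DZ : ℤ) : ℝ) = v := by
    rw [Int.cast_natCast]; exact mul_div_cancel_left₀ v hDZ.ne'
  rw [e2, e3, e1, e4, e5, Int.cast_natCast, Int.cast_natCast] at hc
  have hz := h.p1 a ha b hb (u * v / ((D.kn : ℝ) / D.kd)) (by positivity)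
    (by rw [mul_div_cancel₀ _ hκ.ne']; exact mul_le_one₀ hu1 hv0 hv1)
  rw [mul_div_cancel₀ _ hκ.ne'] at hz
  have hw := w_le _ _ r _ hz.1 (h.hq i hi (5 * r) h1 h2) hz.2
  refine le_trans hc (E1n_mono _ _ _ _ _ _ _ _ _ _ (le_trans (le_of_eq ?_) hw))
  have e6 : (D.DX * u : ℝ) * (D.DZ * v) = D.DX * D.DZ * (u * v) := by ring
  rw [e6]
  rfl

theorem CData.ineq2 (D : CData) (zm : ℝ) (h : D.OK zm) (s : Bool) (i : ℕ) (hi : i < D.NR)
    (a : ℕ) (ha : a < D.DX) (b : ℕ) (hb : b < D.DY) (r u v : ℝ)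
    (h1 : (D.rk i : ℝ) ≤ 5 * r) (h2 : 5 * r ≤ D.rk (i + 1)) (h3 : (a : ℝ) ≤ D.DX * u)
    (h4 : D.DX * u ≤ (a : ℝ) + 1) (h5 : (b : ℝ) ≤ D.DY * v) (h6 : D.DY * v ≤ (b : ℝ) + 1) :
    0 ≤ E2n ((D.kn : ℝ) / D.kd) (sgn s) r u v
      (5 / (D.rk (i + 1) - D.rk i) * (tens dbq bq bq (rn (D.n2 s)) i a b
        ((5 * r - D.rk i) / (D.rk (i + 1) - D.rk i)) (D.DX * u - a) (D.DY * v - b) / 10 ^ 9))
      (D.DX * (tens bq dbq bq (rn (D.n2 s)) i a b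
        ((5 * r - D.rk i) / (D.rk (i + 1) - D.rk i)) (D.DX * u - a) (D.DY * v - b) / 10 ^ 9))
      (D.DY * (tens bq bq dbq (rn (D.n2 s)) i a b
        ((5 * r - D.rk i) / (D.rk (i + 1) - D.rk i)) (D.DX * u - a) (D.DY * v - b) / 10 ^ 9))
      (gw r (u / ((D.kn : ℝ) / D.kd))) := by
  have hkn : (0 : ℝ) < D.kn := by exact_mod_cast h.kn0
  have hkd : (0 : ℝ) < D.kd := by exact_mod_cast h.kd0
  have hκ : (0 : ℝ) < (D.kn : ℝ) / D.kd := by positivity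
  have hDX : (0 : ℝ) < D.DX := by exact_mod_cast h.DX0
  have hDY : (0 : ℝ) < D.DY := by exact_mod_cast h.DY0
  have hR : (0 : ℝ) < ((D.rk (i + 1) - D.rk i : ℤ) : ℝ) := by
    exact_mod_cast sub_pos.2 (h.rk_mono i hi)
  have hR' : (0 : ℝ) < (D.rk (i + 1) : ℝ) - D.rk i := by push_cast at hR; exact hR
  have hu0 : 0 ≤ u := by
    have : (0 : ℝ) ≤ D.DX * u := le_trans (Nat.cast_nonneg a) h3
    exact nonneg_of_mul_nonneg_right this hDX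
  have hu1 : u ≤ 1 := by
    have h7 : (a : ℝ) + 1 ≤ D.DX := by exact_mod_cast ha
    have : (D.DX : ℝ) * u ≤ D.DX * 1 := by linarith
    exact le_of_mul_le_mul_left this hDX
  have hc := cell2_sound _ _ _ _ _ _ _ _ _ _ _ _ _ _ _ _ _ _
    (Chart.chk_cell _ _ _ _ _ (h.c2 s) i a b hi ha hb)
    h.kn0 h.kd0 (Int.natCast_pos.2 h.DX0) (Int.natCast_pos.2 h.DY0)
    (sub_pos.2 (h.rk_mono i hi)) (10 ^ 9) (by positivity)
    ((5 * r - D.rk i) / (D.rk (i + 1) - D.rk i)) (D.DX * u - a) (D.DY * v - b)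
    (div_nonneg (by linarith) hR'.le) ((div_le_one hR').2 (by linarith))
    (by linarith) (by linarith) (by linarith) (by linarith)
  simp only [CData.ch2] at hc
  rw [sgz_cast, CData_loc D i r hR', CData_fr D i] at hc
  have e2 : (((0 + (a : ℤ) : ℤ) : ℝ) + (D.DX * u - a)) = D.DX * u := by push_cast; ring
  have e3 : (((0 + (b : ℤ) : ℤ) : ℝ) + (D.DY * v - b)) = D.DY * v := by push_cast; ring
  have e1 : (((nth 0 D.RK i : ℤ) : ℝ) + (5 * r - D.rk i)) / 5 = r := by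
    have : ((nth 0 D.RK i : ℤ) : ℝ) = D.rk i := rfl
    rw [this]; ring
  have e4 : (D.DX * u : ℝ) / ((D.DX : ℤ) : ℝ) = u := by
    rw [Int.cast_natCast]; exact mul_div_cancel_left₀ u hDX.ne'
  have e5 : (D.DY * v : ℝ) / ((D.DY : ℤ) : ℝ) = v := by
    rw [Int.cast_natCast]; exact mul_div_cancel_left₀ v hDY.ne'
  rw [e2, e3, e1, e4, e5, Int.cast_natCast, Int.cast_natCast] at hc
  have hz := h.p2 a ha b hb (u / ((D.kn : ℝ) / D.kd)) (by positivity)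
    (by rw [mul_div_cancel₀ _ hκ.ne']; exact hu1)
  rw [mul_div_cancel₀ _ hκ.ne'] at hz
  have hw := w_le _ _ r _ hz.1 (h.hq i hi (5 * r) h1 h2) hz.2
  exact le_trans hc (E2n_mono _ _ _ _ _ _ _ _ _ _ hw)

theorem CData.ineq3 (D : CData) (zm : ℝ) (h : D.OK zm) (s : Bool) (i : ℕ) (hi : i < D.NR)
    (a : ℕ) (ha : a < D.NT) (b : ℕ) (hb : b < D.DY) (r u v : ℝ)
    (hum : u ≤ (D.kn : ℝ) / D.kd * zm)
    (h1 : (D.rk i : ℝ) ≤ 5 * r) (h2 : 5 * r ≤ D.rk (i + 1)) (h3 : (D.DT : ℝ) + a ≤ D.DT * u)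
    (h4 : D.DT * u ≤ (D.DT : ℝ) + a + 1) (h5 : (b : ℝ) ≤ D.DY * v)
    (h6 : D.DY * v ≤ (b : ℝ) + 1) :
    0 ≤ E3n ((D.kn : ℝ) / D.kd) (sgn s) r u v
      (5 / (D.rk (i + 1) - D.rk i) * (tens dbq bq bq (rn (D.n3 s)) i a b
        ((5 * r - D.rk i) / (D.rk (i + 1) - D.rk i)) (D.DT * u - (D.DT + a)) (D.DY * v - b)
        / 10 ^ 9))
      (D.DT * (tens bq dbq bq (rn (D.n3 s)) i a b
        ((5 * r - D.rk i) / (D.rk (i + 1) - D.rk i)) (D.DT * u - (D.DT + a)) (D.DY * v - b)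
        / 10 ^ 9))
      (D.DY * (tens bq bq dbq (rn (D.n3 s)) i a b
        ((5 * r - D.rk i) / (D.rk (i + 1) - D.rk i)) (D.DT * u - (D.DT + a)) (D.DY * v - b)
        / 10 ^ 9))
      (gw r (u / ((D.kn : ℝ) / D.kd))) := by
  have hkn : (0 : ℝ) < D.kn := by exact_mod_cast h.kn0
  have hkd : (0 : ℝ) < D.kd := by exact_mod_cast h.kd0
  have hκ : (0 : ℝ) < (D.kn : ℝ) / D.kd := by positivity
  have hDT : (0 : ℝ) < D.DT := by exact_mod_cast h.DT0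
  have hDY : (0 : ℝ) < D.DY := by exact_mod_cast h.DY0
  have hR : (0 : ℝ) < ((D.rk (i + 1) - D.rk i : ℤ) : ℝ) := by
    exact_mod_cast sub_pos.2 (h.rk_mono i hi)
  have hR' : (0 : ℝ) < (D.rk (i + 1) : ℝ) - D.rk i := by push_cast at hR; exact hR
  have hu0 : 0 ≤ u := by
    have : (0 : ℝ) ≤ D.DT * u := le_trans (by positivity) h3
    exact nonneg_of_mul_nonneg_right this hDT
  have hc := cell3_sound _ _ _ _ _ _ _ _ _ _ _ _ _ _ _ _ _ _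
    (Chart.chk_cell _ _ _ _ _ (h.c3 s) i a b hi ha hb)
    h.kn0 h.kd0 (Int.natCast_pos.2 h.DT0) (Int.natCast_pos.2 h.DY0)
    (sub_pos.2 (h.rk_mono i hi)) (10 ^ 9) (by positivity)
    ((5 * r - D.rk i) / (D.rk (i + 1) - D.rk i)) (D.DT * u - (D.DT + a)) (D.DY * v - b)
    (div_nonneg (by linarith) hR'.le) ((div_le_one hR').2 (by linarith))
    (by linarith) (by linarith) (by linarith) (by linarith)
  simp only [CData.ch3] at hc
  rw [sgz_cast, CData_loc D i r hR', CData_fr D i] at hc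
  have e2 : ((((D.DT : ℤ) + (a : ℤ) : ℤ) : ℝ) + (D.DT * u - (D.DT + a))) = D.DT * u := by
    push_cast; ring
  have e3 : (((0 + (b : ℤ) : ℤ) : ℝ) + (D.DY * v - b)) = D.DY * v := by push_cast; ring
  have e1 : (((nth 0 D.RK i : ℤ) : ℝ) + (5 * r - D.rk i)) / 5 = r := by
    have : ((nth 0 D.RK i : ℤ) : ℝ) = D.rk i := rfl
    rw [this]; ring
  have e4 : (D.DT * u : ℝ) / ((D.DT : ℤ) : ℝ) = u := by
    rw [Int.cast_natCast]; exact mul_div_cancel_left₀ u hDT.ne'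
  have e5 : (D.DY * v : ℝ) / ((D.DY : ℤ) : ℝ) = v := by
    rw [Int.cast_natCast]; exact mul_div_cancel_left₀ v hDY.ne'
  rw [e2, e3, e1, e4, e5, Int.cast_natCast, Int.cast_natCast] at hc
  have hz := h.p3 a ha b hb (u / ((D.kn : ℝ) / D.kd)) (by positivity)
    (by rw [div_le_iff₀ hκ]; linarith)
  rw [mul_div_cancel₀ _ hκ.ne'] at hz
  have hw := w_le _ _ r _ hz.1 (h.hq i hi (5 * r) h1 h2) hz.2
  exact le_trans hc (E3n_mono _ _ _ _ _ _ _ _ _ _ hw)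

theorem CData.ineq (D : CData) (zm : ℝ) (h : D.OK zm) : D.cert.Ineq zm := by
  constructor
  · intro s i hi a ha b hb r u v _ h1 h2 h3 h4 h5 h6
    have hh := D.ineq1 zm h s i hi a ha b hb r u v h1 h2 h3 h4 h5 h6
    simp only [CData.cert, Cert.fr, Cert.lx, tens_div_R, tens_div_U, tens_div_V] at *
    exact hh
  · intro s i hi a ha b hb r u v _ h1 h2 h3 h4 h5 h6
    have hh := D.ineq2 zm h s i hi a ha b hb r u v h1 h2 h3 h4 h5 h6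
    simp only [CData.cert, Cert.fr, Cert.lx, tens_div_R, tens_div_U, tens_div_V] at *
    exact hh
  · intro s i hi a ha b hb r u v _ hum h1 h2 h3 h4 h5 h6
    have hh := D.ineq3 zm h s i hi a ha b hb r u v hum h1 h2 h3 h4 h5 h6
    simp only [CData.cert, Cert.fr, Cert.lx, tens_div_R, tens_div_U, tens_div_V] at *
    exact hh

end SShr
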