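import Pool.Agent.Lib.MP_49c3df_gt.Inst

/-! Gluing, exit conditions and bounds of a certificate from kernel checks; Gaussian bounds. -/

namespace SShr

theorem allN2 {n m : ℕ} {f : ℕ → ℕ → Bool} (h : (allN (n + 1) fun i => allN (m + 1) fun j => f i j) = true)
    (i j : ℕ) (hi : i ≤ n) (hj : j ≤ m) : f i j = true :=
  (allN_iff _ _).1 ((allN_iff _ _).1 h i (Nat.lt_succ_of_le hi)) j (Nat.lt_succ_of_le hj)

theorem CData.glue_of (D : CData) (Rm zm : ℝ) (hkn : 0 < D.kn) (hkd : 0 < D.kd)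
    (hK0 : D.rk 0 = 0) (hm : ∀ i < D.NR, D.rk i < D.rk (i + 1))
    (hl : (D.rk D.NR : ℝ) = 5 * Rm) (hN : 0 < D.NR ∧ 0 < D.DX ∧ 0 < D.DZ ∧ 0 < D.DY ∧ 0 < D.DT ∧ 0 < D.NT)
    (hz : (D.DT : ℝ) * ((D.kn : ℝ) / D.kd * zm) ≤ D.DT + D.NT)
    (h12 : ∀ s, (allN (2 * D.NR + 1) fun i => allN (2 * D.DX + 1) fun j =>
      decide (gt (D.n1 s) i j (2 * D.DZ) = gt (D.n2 s) i j (2 * D.DY))) = true)
    (h23 : ∀ s, (allN (2 * D.NR + 1) fun i => allN (2 * D.DY + 1) fun k =>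
      decide (gt (D.n2 s) i (2 * D.DX) k = gt (D.n3 s) i 0 k)) = true)
    (hp1 : (allN (2 * D.NR + 1) fun i => allN (2 * D.DZ + 1) fun k =>
      decide (gt (D.n1 true) i (2 * D.DX) k = gt (D.n1 false) i (2 * D.DX) k)) = true)
    (hp3 : (allN (2 * D.NR + 1) fun i => allN (2 * D.NT + 1) fun j =>
      decide (gt (D.n3 true) i j (2 * D.DY) = gt (D.n3 false) i j (2 * D.DY))) = true) :
    D.cert.Glue Rm zm where
  ka0 := by
    have h1 : (0 : ℝ) < D.kn := by exact_mod_cast hkn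
    have h2 : (0 : ℝ) < D.kd := by exact_mod_cast hkd
    exact div_pos h1 h2
  K0 := by simp only [CData.cert]; rw [hK0]; simp
  Kmono := by
    intro i hi
    simp only [CData.cert]
    exact_mod_cast hm i hi
  Klast := hl
  NR0 := hN.1
  DX0 := hN.2.1
  DZ0 := hN.2.2.1
  DY0 := hN.2.2.2.1
  DT0 := hN.2.2.2.2.1
  NT0 := hN.2.2.2.2.2
  hzm := hz
  glue12 := by
    intro s i hi j hj
    have := of_decide_eq_true (allN2 (h12 s) i j hi hj)
    simp only [CData.cert, rn]; rw [this]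
  glue23 := by
    intro s i hi j hj
    have := of_decide_eq_true (allN2 (h23 s) i j hi hj)
    simp only [CData.cert, rn]; rw [this]
  pm1 := by
    intro i hi j hj
    have := of_decide_eq_true (allN2 hp1 i j hi hj)
    simp only [CData.cert, rn]; rw [this]
  pm3 := by
    intro i hi j hj
    have := of_decide_eq_true (allN2 hp3 i j hi hj)
    simp only [CData.cert, rn]; rw [this]

theorem rn_le {net : P3} {i j k : ℕ} {m : ℤ} (h : gt net i j k ≤ m) :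
    rn net i j k / 10 ^ 9 ≤ (m : ℝ) / 10 ^ 9 := by
  have : rn net i j k ≤ m := by unfold rn; exact_mod_cast h
  gcongr

theorem rn_ge {net : P3} {i j k : ℕ} {m : ℤ} (h : m ≤ gt net i j k) :
    (m : ℝ) / 10 ^ 9 ≤ rn net i j k / 10 ^ 9 := by
  have : (m : ℝ) ≤ rn net i j k := by unfold rn; exact_mod_cast h
  gcongr

theorem CData.exit_of (D : CData)
    (hz : ∀ s, (allN (2 * D.NR + 1) fun i => allN (2 * D.DX + 1) fun j =>
      decide (gt (D.n1 s) i j 0 ≤ 0)) = true)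
    (h1 : (allN (2 * D.DX + 1) fun j => allN (2 * D.DZ + 1) fun k =>
      decide (gt (D.n1 true) (2 * D.NR) j k ≤ 0)) = true)
    (h2 : (allN (2 * D.DX + 1) fun j => allN (2 * D.DY + 1) fun k =>
      decide (gt (D.n2 true) (2 * D.NR) j k ≤ 0)) = true)
    (h3 : (allN (2 * D.NT + 1) fun j => allN (2 * D.DY + 1) fun k =>
      decide (gt (D.n3 true) (2 * D.NR) j k ≤ 0)) = true) : D.cert.Exit where
  z1 := by
    intro s i hi j hj
    have := rn_le (of_decide_eq_true (allN2 (hz s) i j hi hj))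
    simp only [CData.cert]
    simpa using this
  r1 := by
    intro i hi j hj
    have := rn_le (of_decide_eq_true (allN2 h1 i j hi hj))
    simp only [CData.cert]
    simpa using this
  r2 := by
    intro i hi j hj
    have := rn_le (of_decide_eq_true (allN2 h2 i j hi hj))
    simp only [CData.cert]
    simpa using this
  r3 := by
    intro i hi j hj
    have := rn_le (of_decide_eq_true (allN2 h3 i j hi hj))
    simp only [CData.cert]
    simpa using this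

/-- quadratic lower bound for the Gaussian on a cell of `R` -/
theorem hq_of (D : CData) (i : ℕ) (mn en : ℤ)
    (h : qchk (D.rk i) (D.rk (i + 1) - D.rk i) mn en (D.q i 0) (D.q i 1) (D.q i 2) = true)
    (c : decide (0 ≤ D.rk i ∧ 0 < D.rk (i + 1) - D.rk i ∧
      D.rk (i + 1) * D.rk (i + 1) ≤ mn + 100 ∧ mn ≤ 100 + D.rk i * D.rk i ∧ 0 ≤ en) = true)
    (he : (en : ℝ) / 10 ^ 9 ≤ Real.exp (-(mn / 100))) (R : ℝ)
    (h0 : (D.rk i : ℝ) ≤ R) (h1 : R ≤ D.rk (i + 1)) :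
    (D.q i 0 + D.q i 1 * (R - D.rk i) + D.q i 2 * (R - D.rk i) ^ 2) / 10 ^ 5
      ≤ Real.exp (-(R ^ 2 / 100)) := by
  obtain ⟨c1, c2, c3, c4, c5⟩ := of_decide_eq_true c
  refine qchk_sound _ _ mn en _ _ _ h c1 c2 ?_ c4 c5 he R h0 ?_
  · have : D.rk i + (D.rk (i + 1) - D.rk i) = D.rk (i + 1) := by ring
    rw [this]; exact c3
  · push_cast; linarith

/-- Gaussian bound in `z` on a patch -/
theorem p_of (κ c zmax e0 u0 A B : ℝ) (h1 : A / 10 ^ 4 ≤ e0 * (1 + u0))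
    (h2 : e0 / 4 ≤ B * (c ^ 2 * κ ^ 2) / 10 ^ 4) (h3 : e0 ≤ Real.exp (-u0))
    (h4 : zmax ^ 2 / 4 ≤ 1 + u0) (h5 : B * (c ^ 2 * κ ^ 2) * zmax ^ 2 ≤ A) (hB : 0 ≤ B)
    (z : ℝ) (hz : 0 ≤ z) (hz1 : z ≤ zmax) :
    0 ≤ A - B * (c * (κ * z)) ^ 2 ∧
    (A - B * (c * (κ * z)) ^ 2) / 10 ^ 4 ≤ Real.exp (-(z ^ 2 / 4)) := by
  have hzz : z ^ 2 ≤ zmax ^ 2 := pow_le_pow_left₀ hz hz1 2
  constructor
  · have : B * (c ^ 2 * κ ^ 2) * z ^ 2 ≤ B * (c ^ 2 * κ ^ 2) * zmax ^ 2 :=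
      mul_le_mul_of_nonneg_left hzz (by positivity)
    nlinarith
  · have := ptan A B (c ^ 2 * κ ^ 2) e0 u0 z h1 h2 h3 (by linarith)
    have e : B * (c * (κ * z)) ^ 2 = B * (c ^ 2 * κ ^ 2 * z ^ 2) := by ring
    rw [e]; exact this

end SShr
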