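import Pool.Agent.Lib.MP_49c3df_gt.FactM
import Pool.Agent.Lib.MP_49c3df_gt.FactD
import Pool.Agent.Lib.MP_49c3df_gt.CkAll
import Pool.Agent.Lib.MP_49c3df_gt.PairT

/-! The two certificates are valid, with the constant `1573 / 1000`. -/

set_option maxRecDepth 100000

namespace SShr

theorem kM : (dataM.kn : ℝ) / dataM.kd = 1 := (ckMA1).1
theorem kD : (dataD.kn : ℝ) / dataD.kd = 5 / 6 := (ckDA1).1

theorem okM : dataM.OK 2 where
  kn0 := by decide
  kd0 := by decide
  DX0 := by decide
  DZ0 := by decide
  DY0 := by decide
  DT0 := by decide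
  rk_mono := by
    intro i hi
    have hi' : i < 11 := hi
    interval_cases i <;> decide +kernel
  c1 := by
    intro s; cases s
    · exact ckM1m
    · exact ckM1p
  c2 := by
    intro s; cases s
    · exact ckM2m
    · exact ckM2p
  c3 := by
    intro s; cases s
    · exact ckM3m
    · exact ckM3p
  hq := hqM
  p1 := pM1
  p2 := pM2
  p3 := pM3

theorem okD : dataD.OK 2 where
  kn0 := by decide
  kd0 := by decide
  DX0 := by decide
  DZ0 := by decide
  DY0 := by decide
  DT0 := by decide
  rk_mono := by
    intro i hi
    have hi' : i < 9 := hi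
    interval_cases i <;> decide +kernel
  c1 := by
    intro s; cases s
    · exact ckD1m
    · exact ckD1p
  c2 := by
    intro s; cases s
    · exact ckD2m
    · exact ckD2p
  c3 := by
    intro s; cases s
    · exact ckD3m
    · exact ckD3p
  hq := hqD
  p1 := pD1
  p2 := pD2
  p3 := pD3

theorem glueM : dataM.cert.Glue 5 2 := by
  refine dataM.glue_of 5 2 (by decide) (by decide) (by decide +kernel) okM.rk_mono ?_
    (by decide) ?_ ?_ ?_ (by decide +kernel) (by decide +kernel)
  · have : dataM.rk dataM.NR = 25 := by decide +kernel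
    rw [this]; norm_num
  · rw [kM]
    show ((2 : ℕ) : ℝ) * (1 * 2) ≤ ((2 : ℕ) : ℝ) + ((2 : ℕ) : ℝ)
    norm_num
  · intro s; cases s <;> decide +kernel
  · intro s; cases s <;> decide +kernel

theorem glueD : dataD.cert.Glue (26 / 5) 2 := by
  refine dataD.glue_of (26 / 5) 2 (by decide) (by decide) (by decide +kernel) okD.rk_mono ?_
    (by decide) ?_ ?_ ?_ (by decide +kernel) (by decide +kernel)
  · have : dataD.rk dataD.NR = 26 := by decide +kernel
    rw [this]; norm_num
  · rw [kD]
    show ((3 : ℕ) : ℝ) * (5 / 6 * 2) ≤ ((3 : ℕ) : ℝ) + ((2 : ℕ) : ℝ)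
    norm_num
  · intro s; cases s <;> decide +kernel
  · intro s; cases s <;> decide +kernel

theorem exitM : dataM.cert.Exit := by
  refine dataM.exit_of ?_ (by decide +kernel) (by decide +kernel) (by decide +kernel)
  intro s; cases s <;> decide +kernel

theorem exitD : dataD.cert.Exit := by
  refine dataD.exit_of ?_ (by decide +kernel) (by decide +kernel) (by decide +kernel)
  intro s; cases s <;> decide +kernel

theorem validM : dataM.cert.Valid 5 2 := ⟨glueM, exitM, dataM.ineq 2 okM⟩
theorem validD : dataD.cert.Valid (26 / 5) 2 := ⟨glueD, exitD, dataD.ineq 2 okD⟩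

theorem factsM : MFacts dataM.cert (1573 / 1000) where
  valid := validM
  top := by
    intro r z hr hr1 hz hz1
    refine top_bound glueM _ ?_ ?_ r z hr hr1 hz hz1
    · intro i hi j hj
      have hk : (allN (2 * dataM.NR + 1) fun i => allN (2 * dataM.DX + 1) fun j =>
        decide (1573000000 ≤ gt (dataM.n2 true) i j 0 + gt (dataM.n2 false) i j 0)) = true := by
        decide +kernel
      have h := of_decide_eq_true (allN2 hk i j hi hj)
      have h' : (1573000000 : ℝ) ≤ rn (dataM.n2 true) i j 0 + rn (dataM.n2 false) i j 0 := by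
        unfold rn; exact_mod_cast h
      simp only [CData.cert]
      linarith
    · intro i hi j hj
      have hk : (allN (2 * dataM.NR + 1) fun i => allN (2 * dataM.NT + 1) fun j =>
        decide (1573000000 ≤ gt (dataM.n3 true) i j 0 + gt (dataM.n3 false) i j 0)) = true := by
        decide +kernel
      have h := of_decide_eq_true (allN2 hk i j hi hj)
      have h' : (1573000000 : ℝ) ≤ rn (dataM.n3 true) i j 0 + rn (dataM.n3 false) i j 0 := by
        unfold rn; exact_mod_cast h
      simp only [CData.cert]
      linarith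
  wall := by
    intro z q hz hz1 hq hq1 hx
    refine wall_bound glueM _ 11 1 2 ?_ ?_ ?_ ?_ ?_ 5 z q ?_ hz hz1 hq hq1 ?_ ?_
    · exact le_of_eq rfl
    · show 1 ≤ 4
      norm_num
    · show 2 ≤ 4
      norm_num
    · intro j hj k hk
      have hh : (allN (2 * dataM.DX + 1) fun j => allN (2 * 1 + 1) fun k =>
        decide (1573000000 ≤ gt (dataM.n2 false) (2 * 11) j k)) = true := by
        decide +kernel
      have h := rn_ge (of_decide_eq_true (allN2 hh j k hj hk))
      simp only [CData.cert]
      refine le_trans (le_of_eq ?_) h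
      norm_num
    · intro j hj k hk
      have hh : (allN (2 * dataM.NT + 1) fun j => allN (2 * 2 + 1) fun k =>
        decide (1573000000 ≤ gt (dataM.n3 false) (2 * 11) j k)) = true := by
        decide +kernel
      have h := rn_ge (of_decide_eq_true (allN2 hh j k hj hk))
      simp only [CData.cert]
      refine le_trans (le_of_eq ?_) h
      norm_num
    · have : dataM.rk 11 = 25 := by decide +kernel
      simp only [CData.cert]
      rw [this]; norm_num
    · intro _
      simp only [CData.cert]
      rw [kM, one_mul]
      refine ⟨by linarith, ?_⟩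
      show ((4 : ℕ) : ℝ) * ((1 + q) / z) ≤ ((1 : ℕ) : ℝ)
      rw [← mul_div_assoc, div_le_iff₀ hz]
      push_cast
      linarith
    · intro _
      show ((4 : ℕ) : ℝ) * (1 + q) ≤ ((2 : ℕ) : ℝ)
      push_cast
      linarith

theorem factsD : DFacts dataD.cert (1573 / 1000) where
  valid := validD
  roof := by
    intro r q hr hr1 hq hq1
    refine roof_bound glueD _ 7 ?_ ?_ ?_ r q hr ?_ hq hq1
    · show 7 ≤ 9
      norm_num
    · simp only [CData.cert]
      rw [kD]
      show ((3 : ℕ) : ℝ) * (5 / 6 * 2) = ((3 : ℕ) : ℝ) + ((2 : ℕ) : ℝ)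
      norm_num
    · intro s i hi k hk
      have hh : ∀ s, (allN (2 * 7 + 1) fun i => allN (2 * dataD.DY + 1) fun k =>
        decide (786500000 ≤ gt (dataD.n3 s) i (2 * dataD.NT) k)) = true := by
        intro s; cases s <;> decide +kernel
      have h := rn_ge (of_decide_eq_true (allN2 (hh s) i k hi hk))
      simp only [CData.cert]
      refine le_trans (le_of_eq ?_) h
      norm_num
    · have : dataD.rk 7 = 22 := by decide +kernel
      simp only [CData.cert]
      rw [this]; push_cast; linarith
  wall := by
    intro z q hz hz1 hq hq1 hx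
    refine wall_bound glueD _ 7 3 3 ?_ ?_ ?_ ?_ ?_ (22 / 5) z q ?_ hz hz1 hq hq1 ?_ ?_
    · show 7 ≤ 9
      norm_num
    · exact le_of_eq rfl
    · exact le_of_eq rfl
    · intro j hj k hk
      have hh : (allN (2 * dataD.DX + 1) fun j => allN (2 * 3 + 1) fun k =>
        decide (786500000 ≤ gt (dataD.n2 false) (2 * 7) j k)) = true := by
        decide +kernel
      have h := rn_ge (of_decide_eq_true (allN2 hh j k hj hk))
      simp only [CData.cert]
      refine le_trans (le_of_eq ?_) h
      norm_num
    · intro j hj k hk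
      have hh : (allN (2 * dataD.NT + 1) fun j => allN (2 * 3 + 1) fun k =>
        decide (786500000 ≤ gt (dataD.n3 false) (2 * 7) j k)) = true := by
        decide +kernel
      have h := rn_ge (of_decide_eq_true (allN2 hh j k hj hk))
      simp only [CData.cert]
      refine le_trans (le_of_eq ?_) h
      norm_num
    · have : dataD.rk 7 = 22 := by decide +kernel
      simp only [CData.cert]
      rw [this]; norm_num
    · intro _
      simp only [CData.cert]
      rw [kD]
      refine ⟨hx, ?_⟩
      show ((3 : ℕ) : ℝ) * ((1 + q) / (5 / 6 * z)) ≤ ((3 : ℕ) : ℝ)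
      have h56 : 0 < 5 / 6 * z := by positivity
      rw [← mul_div_assoc, div_le_iff₀ h56]
      push_cast
      linarith
    · intro _
      show ((3 : ℕ) : ℝ) * (1 + q) ≤ ((3 : ℕ) : ℝ)
      push_cast
      linarith

end SShr
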