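import Pool.Agent.Lib.MP_49c3df_gt.Poly
import Pool.Agent.Lib.MP_49c3df_gt.Defs

/-! JOB PolyS (MP_49c3df_gt): evaluation of the list polynomials is a ring homomorphism.

PROOFS. All functions are defined by recursors; their unfolding equations hold by `rfl`, e.g.
`addG ad [] q = q`, `addG ad (a :: p) [] = a :: p`, `addG ad (a :: p) (b :: q) = ad a b :: addG ad p q`,
`mapG f (a :: p) = f a :: mapG f p`, `mulG ad mu z (a :: p) q = addG ad (mapG (mu a) q) (z :: mulG ad mu z p q)`,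
`mulR (a :: w) p = add3 (sm3 a p) ([] :: mulR w p)`. State them as simp lemmas first (as done below for `addG`).
* `evG_addG`: induction on `p`, cases on `q`. `evG_mapG`: if `e' (f a) = k * e a` for all `a` then
  `evG e' t (mapG f p) = k * evG e t p`. `evG_mulG`: induction on `p`, with `e z = 0`.
* `ev1_add`, ... : instances (`Int.add a b = a + b`, `Int.mul a b = a * b`; `push_cast`).
* `ev1_h1`, ..., `ev3_hR` etc.: unfold `pwG`/`dpwG`, `evG` on a list of three elements, `ev_add`, `ev_sm`; then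
  `tens`, `tn`, `bq`, `dbq`, `ring`. (`bq a b c t = a + t * ((2 b - 2 a) + t * (a - 2 b + c))`.) -/

namespace SShr

@[simp] theorem addG_nil {α : Type} (ad : α → α → α) (q : List α) : addG ad [] q = q := rfl
@[simp] theorem addG_cons_nil {α : Type} (ad : α → α → α) (a : α) (p : List α) :
    addG ad (a :: p) [] = a :: p := rfl
@[simp] theorem addG_cons_cons {α : Type} (ad : α → α → α) (a b : α) (p q : List α) :
    addG ad (a :: p) (b :: q) = ad a b :: addG ad p q := rfl

theorem evG_addG {α : Type} (e : α → ℝ) (ad : α → α → α) (h : ∀ a b, e (ad a b) = e a + e b)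
    (t : ℝ) (p q : List α) : evG e t (addG ad p q) = evG e t p + evG e t q := by
  induction p generalizing q with
  | nil =>
    rw [addG_nil]
    show evG e t q = 0 + evG e t q
    rw [zero_add]
  | cons a p ih =>
    cases q with
    | nil =>
      rw [addG_cons_nil]
      show evG e t (a :: p) = evG e t (a :: p) + 0
      rw [add_zero]
    | cons b q =>
      rw [addG_cons_cons]
      show e (ad a b) + t * evG e t (addG ad p q) = (e a + t * evG e t p) + (e b + t * evG e t q)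
      rw [h, ih]
      ring

theorem evG_mapG {α β : Type} (e : α → ℝ) (e' : β → ℝ) (f : α → β) (k : ℝ)
    (h : ∀ a, e' (f a) = k * e a) (t : ℝ) (p : List α) : evG e' t (mapG f p) = k * evG e t p := by
  induction p with
  | nil =>
    show (0 : ℝ) = k * 0
    rw [mul_zero]
  | cons a p ih =>
    show e' (f a) + t * evG e' t (mapG f p) = k * (e a + t * evG e t p)
    rw [h, ih]
    ring

theorem evG_mulG {α : Type} (e : α → ℝ) (ad mu : α → α → α) (z : α)
    (h : ∀ a b, e (ad a b) = e a + e b) (h' : ∀ a b, e (mu a b) = e a * e b) (hz : e z = 0)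
    (t : ℝ) (p q : List α) : evG e t (mulG ad mu z p q) = evG e t p * evG e t q := by
  induction p with
  | nil =>
    show (0 : ℝ) = 0 * evG e t q
    rw [zero_mul]
  | cons a p ih =>
    show evG e t (addG ad (mapG (mu a) q) (z :: mulG ad mu z p q)) =
      (e a + t * evG e t p) * evG e t q
    rw [evG_addG e ad h, evG_mapG e e (mu a) (e a) (h' a)]
    show e a * evG e t q + (e z + t * evG e t (mulG ad mu z p q)) = _
    rw [hz, ih]
    ring

theorem ev1_add (z : ℝ) (p q : P1) : ev1 z (add1 p q) = ev1 z p + ev1 z q :=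
  evG_addG (fun a : ℤ => (a : ℝ)) Int.add (fun a b => Int.cast_add a b) z p q

theorem ev2_add (y z : ℝ) (p q : P2) : ev2 y z (add2 p q) = ev2 y z p + ev2 y z q :=
  evG_addG (ev1 z) add1 (ev1_add z) y p q

theorem ev3_add (x y z : ℝ) (p q : P3) : ev3 x y z (add3 p q) = ev3 x y z p + ev3 x y z q :=
  evG_addG (ev2 y z) add2 (ev2_add y z) x p q

theorem ev1_sm (z : ℝ) (c : ℤ) (p : P1) : ev1 z (sm1 c p) = c * ev1 z p :=
  evG_mapG (fun a : ℤ => (a : ℝ)) (fun a : ℤ => (a : ℝ)) (Int.mul c) c (fun a => Int.cast_mul c a) z p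

theorem ev2_sm (y z : ℝ) (c : ℤ) (p : P2) : ev2 y z (sm2 c p) = c * ev2 y z p :=
  evG_mapG (ev1 z) (ev1 z) (sm1 c) c (ev1_sm z c) y p

theorem ev3_sm (x y z : ℝ) (c : ℤ) (p : P3) : ev3 x y z (sm3 c p) = c * ev3 x y z p :=
  evG_mapG (ev2 y z) (ev2 y z) (sm2 c) c (ev2_sm y z c) x p

theorem ev1_mul (z : ℝ) (p q : P1) : ev1 z (mul1 p q) = ev1 z p * ev1 z q :=
  evG_mulG (fun a : ℤ => (a : ℝ)) Int.add Int.mul 0 (fun a b => Int.cast_add a b)
    (fun a b => Int.cast_mul a b) Int.cast_zero z p q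

theorem ev2_mul (y z : ℝ) (p q : P2) : ev2 y z (mul2 p q) = ev2 y z p * ev2 y z q :=
  evG_mulG (ev1 z) add1 mul1 [] (ev1_add z) (ev1_mul z) rfl y p q

theorem ev3_mul23 (x y z : ℝ) (w : P2) (p : P3) :
    ev3 x y z (mul23 w p) = ev2 y z w * ev3 x y z p :=
  evG_mapG (ev2 y z) (ev2 y z) (mul2 w) (ev2 y z w) (ev2_mul y z w) x p

theorem ev3_mulR (x y z : ℝ) (w : P1) (p : P3) :
    ev3 x y z (mulR w p) = ev1 x w * ev3 x y z p := by
  induction w with
  | nil =>
    show (0 : ℝ) = 0 * ev3 x y z p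
    rw [zero_mul]
  | cons a w ih =>
    show ev3 x y z (add3 (sm3 a p) ([] :: mulR w p)) = ((a : ℝ) + x * ev1 x w) * ev3 x y z p
    rw [ev3_add, ev3_sm]
    show (a : ℝ) * ev3 x y z p + (0 + x * ev3 x y z (mulR w p)) = _
    rw [ih]
    ring

private theorem PolyS_pw {α : Type} (e : α → ℝ) (ad : α → α → α) (sm : ℤ → α → α)
    (h : ∀ a b, e (ad a b) = e a + e b) (h' : ∀ (k : ℤ) a, e (sm k a) = k * e a) (t : ℝ)
    (a b c : α) : evG e t (pwG ad sm a b c) = bq (e a) (e b) (e c) t := by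
  show e a + t * (e (ad (sm 2 b) (sm (-2) a)) + t * (e (ad (ad a (sm (-2) b)) c) + t * 0)) = _
  rw [h, h, h, h', h', h', bq]
  push_cast
  ring

private theorem PolyS_dpw {α : Type} (e : α → ℝ) (ad : α → α → α) (sm : ℤ → α → α)
    (h : ∀ a b, e (ad a b) = e a + e b) (h' : ∀ (k : ℤ) a, e (sm k a) = k * e a) (t : ℝ)
    (a b c : α) : evG e t (dpwG ad sm a b c) = dbq (e a) (e b) (e c) t := by
  show e (ad (sm 2 b) (sm (-2) a)) + t * (e (ad (ad (sm 2 a) (sm (-4) b)) (sm 2 c)) + t * 0) = _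
  rw [h, h, h, h', h', h', h', h', dbq]
  push_cast
  ring

/-- real net of an integer net -/
noncomputable def rn (net : P3) (i j k : ℕ) : ℝ := (gt net i j k : ℝ)

private theorem PolyS_h1 (net : P3) (i j k : ℕ) (z : ℝ) :
    ev1 z (h1 net i j k) = tn bq (rn net i j) k z :=
  PolyS_pw (fun a : ℤ => (a : ℝ)) Int.add Int.mul (fun a b => Int.cast_add a b)
    (fun k a => Int.cast_mul k a) z (gt net i j (2 * k)) (gt net i j (2 * k + 1))
    (gt net i j (2 * k + 2))

private theorem PolyS_d1 (net : P3) (i j k : ℕ) (z : ℝ) :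
    ev1 z (d1 net i j k) = tn dbq (rn net i j) k z :=
  PolyS_dpw (fun a : ℤ => (a : ℝ)) Int.add Int.mul (fun a b => Int.cast_add a b)
    (fun k a => Int.cast_mul k a) z (gt net i j (2 * k)) (gt net i j (2 * k + 1))
    (gt net i j (2 * k + 2))

private theorem PolyS_h2 (net : P3) (i j k : ℕ) (y z : ℝ) :
    ev2 y z (h2 net i j k) = tn bq (fun j' => tn bq (rn net i j') k z) j y := by
  have h := PolyS_pw (ev1 z) add1 sm1 (ev1_add z) (ev1_sm z) y (h1 net i (2 * j) k)
    (h1 net i (2 * j + 1) k) (h1 net i (2 * j + 2) k)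
  rw [PolyS_h1, PolyS_h1, PolyS_h1] at h
  exact h

private theorem PolyS_h2U (net : P3) (i j k : ℕ) (y z : ℝ) :
    ev2 y z (h2U net i j k) = tn dbq (fun j' => tn bq (rn net i j') k z) j y := by
  have h := PolyS_dpw (ev1 z) add1 sm1 (ev1_add z) (ev1_sm z) y (h1 net i (2 * j) k)
    (h1 net i (2 * j + 1) k) (h1 net i (2 * j + 2) k)
  rw [PolyS_h1, PolyS_h1, PolyS_h1] at h
  exact h

private theorem PolyS_h2V (net : P3) (i j k : ℕ) (y z : ℝ) :
    ev2 y z (h2V net i j k) = tn bq (fun j' => tn dbq (rn net i j') k z) j y := by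
  have h := PolyS_pw (ev1 z) add1 sm1 (ev1_add z) (ev1_sm z) y (d1 net i (2 * j) k)
    (d1 net i (2 * j + 1) k) (d1 net i (2 * j + 2) k)
  rw [PolyS_d1, PolyS_d1, PolyS_d1] at h
  exact h

theorem ev3_hR (net : P3) (i j k : ℕ) (x y z : ℝ) :
    ev3 x y z (hR net i j k) = tens dbq bq bq (rn net) i j k x y z := by
  have h := PolyS_dpw (ev2 y z) add2 sm2 (ev2_add y z) (ev2_sm y z) x (h2 net (2 * i) j k)
    (h2 net (2 * i + 1) j k) (h2 net (2 * i + 2) j k)
  rw [PolyS_h2, PolyS_h2, PolyS_h2] at h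
  exact h

theorem ev3_hU (net : P3) (i j k : ℕ) (x y z : ℝ) :
    ev3 x y z (hU net i j k) = tens bq dbq bq (rn net) i j k x y z := by
  have h := PolyS_pw (ev2 y z) add2 sm2 (ev2_add y z) (ev2_sm y z) x (h2U net (2 * i) j k)
    (h2U net (2 * i + 1) j k) (h2U net (2 * i + 2) j k)
  rw [PolyS_h2U, PolyS_h2U, PolyS_h2U] at h
  exact h

theorem ev3_hV (net : P3) (i j k : ℕ) (x y z : ℝ) :
    ev3 x y z (hV net i j k) = tens bq bq dbq (rn net) i j k x y z := by
  have h := PolyS_pw (ev2 y z) add2 sm2 (ev2_add y z) (ev2_sm y z) x (h2V net (2 * i) j k)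
    (h2V net (2 * i + 1) j k) (h2V net (2 * i + 2) j k)
  rw [PolyS_h2V, PolyS_h2V, PolyS_h2V] at h
  exact h

end SShr
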