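import Pool.Agent.Lib.MP_49c3df_gt.RedDefs

/-! Area density of a surface of revolution. -/

namespace SShr

theorem RedA_hd {f g h : ℝ → ℝ} {f' g' h' t : ℝ} (hf : HasDerivAt f f' t) (hg : HasDerivAt g g' t)
    (hh : HasDerivAt h h' t) : HasDerivAt (fun x => (!₂[f x, g x, h x] : E3)) !₂[f', g', h'] t := by
  have h1 : HasDerivAt (fun x => (![f x, g x, h x] : Fin 3 → ℝ)) ![f', g', h'] t := by
    rw [hasDerivAt_pi]
    intro i
    fin_cases i
    · exact hf
    · exact hg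
    · exact hh
  have h2 := ((EuclideanSpace.equiv (Fin 3) ℝ).symm.toContinuousLinearMap.hasFDerivAt
    (x := (![f t, g t, h t] : Fin 3 → ℝ))).comp_hasDerivAt t h1
  exact h2

theorem RedA_inner (a b c a' b' c' : ℝ) :
    inner ℝ (!₂[a, b, c] : E3) (!₂[a', b', c'] : E3) = a * a' + b * b' + c * c' := by
  rw [EuclideanSpace.inner_eq_star_dotProduct]
  simp [dotProduct, Fin.sum_univ_three]
  ring

theorem Profile.hr (γ : Profile) (t : ℝ) : HasDerivAt γ.r (deriv γ.r t) t :=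
  ((γ.r_smooth.differentiable (by norm_num)) t).hasDerivAt

theorem Profile.hz (γ : Profile) (t : ℝ) : HasDerivAt γ.z (deriv γ.z t) t :=
  ((γ.z_smooth.differentiable (by norm_num)) t).hasDerivAt

/-- the first derivatives (needed also in RedB; prove them first) -/
theorem Profile.Xt_eq (γ : Profile) (t φ : ℝ) :
    Xt γ.surface t φ = !₂[deriv γ.r t * Real.cos φ, deriv γ.r t * Real.sin φ, deriv γ.z t] :=
  (RedA_hd ((γ.hr t).mul_const _) ((γ.hr t).mul_const _) (γ.hz t)).deriv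

theorem Profile.Xp_eq (γ : Profile) (t φ : ℝ) :
    Xp γ.surface t φ = !₂[-γ.r t * Real.sin φ, γ.r t * Real.cos φ, 0] := by
  have h1 : HasDerivAt (fun φ => γ.r t * Real.cos φ) (-γ.r t * Real.sin φ) φ := by
    have := (Real.hasDerivAt_cos φ).const_mul (γ.r t)
    rwa [show γ.r t * -Real.sin φ = -γ.r t * Real.sin φ by ring] at this
  have h2 : HasDerivAt (fun φ => γ.r t * Real.sin φ) (γ.r t * Real.cos φ) φ :=
    (Real.hasDerivAt_sin φ).const_mul (γ.r t)
  exact (RedA_hd h1 h2 (hasDerivAt_const φ (γ.z t))).deriv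

theorem Profile.fE_eq (γ : Profile) (t φ : ℝ) :
    fE γ.surface t φ = deriv γ.r t ^ 2 + deriv γ.z t ^ 2 := by
  unfold fE
  rw [γ.Xt_eq, RedA_inner]
  linear_combination (deriv γ.r t ^ 2) * Real.sin_sq_add_cos_sq φ

theorem Profile.fF_eq (γ : Profile) (t φ : ℝ) : fF γ.surface t φ = 0 := by
  unfold fF
  rw [γ.Xt_eq, γ.Xp_eq, RedA_inner]
  ring

theorem Profile.fG_eq (γ : Profile) (t φ : ℝ) : fG γ.surface t φ = γ.r t ^ 2 := by
  unfold fG
  rw [γ.Xp_eq, RedA_inner]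
  linear_combination (γ.r t ^ 2) * Real.sin_sq_add_cos_sq φ

theorem Profile.v_pos (γ : Profile) (t : ℝ) : 0 < γ.v t := by
  unfold Profile.v
  apply Real.sqrt_pos.2
  rcases γ.regular t with h | h
  · have := sq_nonneg (deriv γ.z t)
    have h2 : 0 < deriv γ.r t ^ 2 := by positivity
    linarith
  · have := sq_nonneg (deriv γ.r t)
    have h2 : 0 < deriv γ.z t ^ 2 := by positivity
    linarith

theorem Profile.area_eq (γ : Profile) (t φ : ℝ) :
    areaDensity γ.surface t φ = γ.r t * γ.v t := by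
  unfold areaDensity Profile.v
  rw [γ.fE_eq, γ.fF_eq, γ.fG_eq]
  have h0 : (0 : ℝ) ≤ γ.r t := (γ.r_pos t).le
  rw [show (deriv γ.r t ^ 2 + deriv γ.z t ^ 2) * γ.r t ^ 2 - 0 ^ 2
    = (deriv γ.r t ^ 2 + deriv γ.z t ^ 2) * γ.r t ^ 2 by ring]
  rw [Real.sqrt_mul (by positivity), Real.sqrt_sq h0, mul_comm]

end SShr
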