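import Pool.Agent.Lib.MP_49c3df_gt.RedA

/-! JOB RedB (MP_49c3df_gt): the self-shrinker equation of a surface of revolution.
PROOF. By RedA (`Xt_eq`, `Xp_eq` as functions) `X_tt = (r'' cos φ, r'' sin φ, z'')`, `X_φφ = (-r cos φ, -r sin φ, 0)`;
`F = 0` kills the mixed term. The vector `n = (-z' cos φ, -z' sin φ, r')` is orthogonal to `X_t` and `X_φ`, so
`⟪n, normalPart w⟫ = ⟪n, w⟫` for all `w` (`n` is in the orthogonal complement, which the projection fixes, and
the projection is self-adjoint). Take the inner product of the equation with `n` at `φ = 0`: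
`(v^2 r^2)⁻¹ (r^2 (r' z'' - z' r'') + v^2 r z') + (1/2) (r' z - z' r) = 0`, where `v^2 = r'^2 + z'^2`. Hence
`r' z'' - z' r'' = v^2 (-(z'/r) - (r' z - z' r)/2) = v^3 kap(r, z, r'/v, z'/v)`. -/

namespace SShr

theorem RedB_hd {f g h : ℝ → ℝ} {f' g' h' t : ℝ} (hf : HasDerivAt f f' t) (hg : HasDerivAt g g' t)
    (hh : HasDerivAt h h' t) : HasDerivAt (fun x => (!₂[f x, g x, h x] : E3)) !₂[f', g', h'] t := by
  have h1 : HasDerivAt (fun x => (![f x, g x, h x] : Fin 3 → ℝ)) ![f', g', h'] t := by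
    rw [hasDerivAt_pi]
    intro i
    fin_cases i
    · exact hf
    · exact hg
    · exact hh
  have h2 := ((EuclideanSpace.equiv (Fin 3) ℝ).symm.toContinuousLinearMap.hasFDerivAt
    (x := (![f t, g t, h t] : Fin 3 → ℝ))).comp_hasDerivAt t h1
  exact h2

theorem RedB_inner (a b c a' b' c' : ℝ) :
    inner ℝ (!₂[a, b, c] : E3) (!₂[a', b', c'] : E3) = a * a' + b * b' + c * c' := by
  rw [EuclideanSpace.inner_eq_star_dotProduct]
  simp [dotProduct, Fin.sum_univ_three]
  ring

theorem RedB_proj {X : ℝ → ℝ → E3} {t φ : ℝ} {n : E3} (h1 : inner ℝ n (Xt X t φ) = 0)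
    (h2 : inner ℝ n (Xp X t φ) = 0) (w : E3) :
    inner ℝ n (normalPart X t φ w) = inner ℝ n w := by
  have hn : n ∈ (Submodule.span ℝ {Xt X t φ, Xp X t φ})ᗮ := by
    rw [Submodule.mem_orthogonal']
    intro u hu
    obtain ⟨a, b, rfl⟩ := Submodule.mem_span_pair.1 hu
    rw [inner_add_right, inner_smul_right, inner_smul_right, h1, h2, mul_zero, mul_zero, add_zero]
  unfold normalPart
  rw [← Submodule.inner_starProjection_left_eq_right, Submodule.starProjection_eq_self_iff.2 hn]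

theorem Profile.ode (γ : Profile) (h : IsSelfShrinker γ.surface) (t : ℝ) :
    deriv γ.r t * deriv (deriv γ.z) t - deriv γ.z t * deriv (deriv γ.r) t
      = γ.v t ^ 3 * kap (γ.r t) (γ.z t) (γ.c t) (γ.s t) := by
  have hr2 : HasDerivAt (deriv γ.r) (deriv (deriv γ.r) t) t :=
    ((γ.r_smooth.differentiable_deriv_two) t).hasDerivAt
  have hz2 : HasDerivAt (deriv γ.z) (deriv (deriv γ.z) t) t :=
    ((γ.z_smooth.differentiable_deriv_two) t).hasDerivAt
  have eXt : Xt γ.surface = fun t φ =>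
      (!₂[deriv γ.r t * Real.cos φ, deriv γ.r t * Real.sin φ, deriv γ.z t] : E3) := by
    funext t φ
    exact γ.Xt_eq t φ
  have eXp : Xp γ.surface = fun t φ =>
      (!₂[-γ.r t * Real.sin φ, γ.r t * Real.cos φ, 0] : E3) := by
    funext t φ
    exact γ.Xp_eq t φ
  have hXtt : Xt (Xt γ.surface) t 0 = !₂[deriv (deriv γ.r) t, 0, deriv (deriv γ.z) t] := by
    rw [eXt]
    have h1 : HasDerivAt (fun x => deriv γ.r x * Real.cos 0) (deriv (deriv γ.r) t) t := by
      simpa using hr2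
    have h2 : HasDerivAt (fun x => deriv γ.r x * Real.sin 0) 0 t := by
      simpa using hasDerivAt_const t (0 : ℝ)
    exact (RedB_hd h1 h2 hz2).deriv
  have hXpp : Xp (Xp γ.surface) t 0 = !₂[-γ.r t, 0, 0] := by
    rw [eXp]
    have h1 : HasDerivAt (fun φ => -γ.r t * Real.sin φ) (-γ.r t) 0 := by
      simpa using (Real.hasDerivAt_sin 0).const_mul (-γ.r t)
    have h2 : HasDerivAt (fun φ => γ.r t * Real.cos φ) 0 0 := by
      simpa using (Real.hasDerivAt_cos 0).const_mul (γ.r t)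
    exact (RedB_hd h1 h2 (hasDerivAt_const 0 (0 : ℝ))).deriv
  have hXt : Xt γ.surface t 0 = !₂[deriv γ.r t, 0, deriv γ.z t] := by
    rw [γ.Xt_eq t 0]
    simp
  have hXp : Xp γ.surface t 0 = !₂[0, γ.r t, 0] := by
    rw [γ.Xp_eq t 0]
    simp
  have hX : γ.surface t 0 = !₂[γ.r t, 0, γ.z t] := by
    simp [Profile.surface]
  have hr0 := γ.r_pos t
  have hv0 := γ.v_pos t
  have hv2 : γ.v t ^ 2 = deriv γ.r t ^ 2 + deriv γ.z t ^ 2 := by
    rw [Profile.v, Real.sq_sqrt (by positivity)]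
  set n : E3 := !₂[-deriv γ.z t, 0, deriv γ.r t] with hn
  have h1 : inner ℝ n (Xt γ.surface t 0) = 0 := by
    rw [hn, hXt, RedB_inner]
    ring
  have h2 : inner ℝ n (Xp γ.surface t 0) = 0 := by
    rw [hn, hXp, RedB_inner]
    ring
  have h3 := congrArg (fun w => inner ℝ n w) (h t 0)
  simp only [meanCurvature] at h3
  rw [inner_add_right, inner_smul_right, RedB_proj h1 h2, RedB_proj h1 h2, inner_zero_right,
    inner_smul_right, inner_add_right, inner_sub_right, inner_smul_right, inner_smul_right,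
    inner_smul_right, γ.fE_eq, γ.fF_eq, γ.fG_eq, hXtt, hXpp, hX, hn, RedB_inner, RedB_inner,
    RedB_inner, ← hv2] at h3
  simp only [mul_zero, zero_mul, zero_pow two_ne_zero, sub_zero, add_zero] at h3
  have hc : γ.c t = deriv γ.r t / γ.v t := rfl
  have hs : γ.s t = deriv γ.z t / γ.v t := rfl
  rw [hc, hs, kap]
  have hvne : γ.v t ≠ 0 := hv0.ne'
  have hrne : γ.r t ≠ 0 := hr0.ne'
  field_simp at h3 ⊢
  linear_combination h3

end SShr
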