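import Pool.Agent.Lib.MP_49c3df_gt.RedB

/-! JOB RedC (MP_49c3df_gt): the profile of a self-shrinker is a geodesic.
PROOF. `v` is `C^1` (`sqrt` of a positive `C^1` function; `deriv r`, `deriv z` are `C^1`) and
`c' = (r'' v^2 - r' (r' r'' + z' z'')) / v^3 = -z' (r' z'' - z' r'') / v^3 = -z' kap = -(v s kap)`, similarly
`s' = r' (r' z'' - z' r'') / v^3 = v c kap`, by `Profile.ode`. `c^2 + s^2 = 1`. -/

namespace SShr

theorem RedC_deriv {f : ℝ → ℝ} (hf : ContDiff ℝ 2 f) :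
    (∀ t, HasDerivAt f (deriv f t) t) ∧ (∀ t, HasDerivAt (deriv f) (deriv (deriv f) t) t) := by
  have h1 : Differentiable ℝ f := hf.differentiable (by norm_num)
  have h2 : ContDiff ℝ ((1 + 1 : ℕ) : WithTop ℕ∞) f := by
    have e : ((1 + 1 : ℕ) : WithTop ℕ∞) = 2 := by norm_num
    rw [e]
    exact hf
  have h3 : ContDiff ℝ ((1 : ℕ) : WithTop ℕ∞) (deriv^[1] f) := ContDiff.iterate_deriv' 1 1 h2
  have h4 : Differentiable ℝ (deriv f) := h3.differentiable (by norm_num)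
  exact ⟨fun t => (h1 t).hasDerivAt, fun t => (h4 t).hasDerivAt⟩

theorem Profile.geo (γ : Profile) (h : IsSelfShrinker γ.surface) :
    Geo γ.r γ.z γ.c γ.s γ.v := by
  obtain ⟨hr, hr'⟩ := RedC_deriv γ.r_smooth
  obtain ⟨hz, hz'⟩ := RedC_deriv γ.z_smooth
  have hv0 : ∀ t, 0 < γ.v t := γ.v_pos
  have hv2 : ∀ t, γ.v t ^ 2 = deriv γ.r t ^ 2 + deriv γ.z t ^ 2 := fun t =>
    Real.sq_sqrt (by positivity)
  have hvc : ∀ t, γ.v t * γ.c t = deriv γ.r t := fun t => by
    unfold Profile.c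
    exact mul_div_cancel₀ _ (hv0 t).ne'
  have hvs : ∀ t, γ.v t * γ.s t = deriv γ.z t := fun t => by
    unfold Profile.s
    exact mul_div_cancel₀ _ (hv0 t).ne'
  have hode := γ.ode h
  have hv' : ∀ t, HasDerivAt γ.v
      ((deriv γ.r t * deriv (deriv γ.r) t + deriv γ.z t * deriv (deriv γ.z) t) / γ.v t) t := by
    intro t
    have h1 : HasDerivAt (fun t => deriv γ.r t ^ 2 + deriv γ.z t ^ 2)
        (2 * deriv γ.r t * deriv (deriv γ.r) t + 2 * deriv γ.z t * deriv (deriv γ.z) t) t := by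
      have h2 := ((hr' t).pow 2).add ((hz' t).pow 2)
      refine h2.congr_deriv ?_
      push_cast
      ring
    have h3 : deriv γ.r t ^ 2 + deriv γ.z t ^ 2 ≠ 0 := by
      rw [← hv2 t]
      exact pow_ne_zero 2 (hv0 t).ne'
    have h4 := h1.sqrt h3
    have h5 : HasDerivAt γ.v ((2 * deriv γ.r t * deriv (deriv γ.r) t + 2 * deriv γ.z t * deriv (deriv γ.z) t) /
        (2 * √(deriv γ.r t ^ 2 + deriv γ.z t ^ 2))) t := h4
    refine h5.congr_deriv ?_
    have h6 : √(deriv γ.r t ^ 2 + deriv γ.z t ^ 2) = γ.v t := rfl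
    rw [h6]
    have h7 := (hv0 t).ne'
    field_simp
  refine ⟨fun t => ?_, fun t => ?_, fun t => ?_, fun t => ?_, fun t => ?_, γ.r_pos, hv0, ?_⟩
  · rw [hvc t]
    exact hr t
  · rw [hvs t]
    exact hz t
  · have h1 := (hr' t).div (hv' t) (hv0 t).ne'
    have h2 : HasDerivAt γ.c ((deriv (deriv γ.r) t * γ.v t - deriv γ.r t *
        ((deriv γ.r t * deriv (deriv γ.r) t + deriv γ.z t * deriv (deriv γ.z) t) / γ.v t)) / γ.v t ^ 2) t := h1
    refine h2.congr_deriv ?_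
    have h3 := (hv0 t).ne'
    have h4 : kap (γ.r t) (γ.z t) (γ.c t) (γ.s t) = (deriv γ.r t * deriv (deriv γ.z) t -
        deriv γ.z t * deriv (deriv γ.r) t) / γ.v t ^ 3 := by
      rw [hode t]
      field_simp
    rw [hvs t, h4]
    have h5 := hv2 t
    have h6 : deriv (deriv γ.r) t * γ.v t - deriv γ.r t *
        ((deriv γ.r t * deriv (deriv γ.r) t + deriv γ.z t * deriv (deriv γ.z) t) / γ.v t) =
        (deriv (deriv γ.r) t * (deriv γ.r t ^ 2 + deriv γ.z t ^ 2) - deriv γ.r t *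
        (deriv γ.r t * deriv (deriv γ.r) t + deriv γ.z t * deriv (deriv γ.z) t)) / γ.v t := by
      rw [← h5]
      field_simp
    rw [h6]
    field_simp
    ring
  · have h1 := (hz' t).div (hv' t) (hv0 t).ne'
    have h2 : HasDerivAt γ.s ((deriv (deriv γ.z) t * γ.v t - deriv γ.z t *
        ((deriv γ.r t * deriv (deriv γ.r) t + deriv γ.z t * deriv (deriv γ.z) t) / γ.v t)) / γ.v t ^ 2) t := h1
    refine h2.congr_deriv ?_
    have h3 := (hv0 t).ne'
    have h4 : kap (γ.r t) (γ.z t) (γ.c t) (γ.s t) = (deriv γ.r t * deriv (deriv γ.z) t -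
        deriv γ.z t * deriv (deriv γ.r) t) / γ.v t ^ 3 := by
      rw [hode t]
      field_simp
    rw [hvc t, h4]
    have h5 := hv2 t
    have h6 : deriv (deriv γ.z) t * γ.v t - deriv γ.z t *
        ((deriv γ.r t * deriv (deriv γ.r) t + deriv γ.z t * deriv (deriv γ.z) t) / γ.v t) =
        (deriv (deriv γ.z) t * (deriv γ.r t ^ 2 + deriv γ.z t ^ 2) - deriv γ.z t *
        (deriv γ.r t * deriv (deriv γ.r) t + deriv γ.z t * deriv (deriv γ.z) t)) / γ.v t := by
      rw [← h5]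
      field_simp
    rw [h6]
    field_simp
    ring
  · have h3 := (hv0 t).ne'
    have h4 : γ.v t ^ 2 * (γ.c t ^ 2 + γ.s t ^ 2) = γ.v t ^ 2 * 1 := by
      have e : γ.v t ^ 2 * (γ.c t ^ 2 + γ.s t ^ 2) = (γ.v t * γ.c t) ^ 2 + (γ.v t * γ.s t) ^ 2 := by ring
      rw [e, hvc t, hvs t, mul_one, hv2 t]
    exact mul_left_cancel₀ (pow_ne_zero 2 h3) h4
  · exact continuous_iff_continuousAt.2 fun t => (hv' t).continuousAt

end SShr
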