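import Pool.Agent.Lib.MP_49c3df_gt.RedA

/-! Gaussian area of a surface of revolution at the origin, scale 1. -/

namespace SShr

theorem Profile.v_per (γ : Profile) : Function.Periodic γ.v γ.L := by
  intro t
  unfold Profile.v
  have h1 : deriv γ.r (t + γ.L) = deriv γ.r t := by
    have h : (fun x => γ.r (x + γ.L)) = γ.r := funext γ.r_per
    rw [← deriv_comp_add_const, h]
  have h2 : deriv γ.z (t + γ.L) = deriv γ.z t := by
    have h : (fun x => γ.z (x + γ.L)) = γ.z := funext γ.z_per
    rw [← deriv_comp_add_const, h]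
  rw [h1, h2]

theorem RedD_norm (γ : Profile) (t φ : ℝ) : ‖γ.surface t φ - 0‖ ^ 2 = γ.r t ^ 2 + γ.z t ^ 2 := by
  rw [sub_zero, ← real_inner_self_eq_norm_sq]
  unfold Profile.surface
  rw [RedA_inner]
  linear_combination (γ.r t ^ 2) * Real.sin_sq_add_cos_sq φ

theorem Profile.gauss (γ : Profile) :
    gaussianArea γ.surface γ.L 0 1 = (1 / 2) * ∫ t in (0 : ℝ)..γ.L, wl γ.r γ.z γ.v t := by
  unfold gaussianArea
  have h : ∀ t φ, Real.exp (-‖γ.surface t φ - 0‖ ^ 2 / (4 * 1)) * areaDensity γ.surface t φ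
      = wl γ.r γ.z γ.v t := by
    intro t φ
    rw [γ.area_eq]
    unfold wl gw
    rw [neg_div, RedD_norm, neg_div, mul_one]
    ring
  simp only [h]
  simp only [intervalIntegral.integral_const, smul_eq_mul, sub_zero]
  rw [intervalIntegral.integral_const_mul]
  have hpi : Real.pi ≠ 0 := Real.pi_ne_zero
  field_simp
  ring

theorem Profile.entropy_ge (γ : Profile) (m : ℝ) (h : m ≤ gaussianArea γ.surface γ.L 0 1) :
    ENNReal.ofReal m ≤ entropy γ.surface γ.L := by
  unfold entropy
  refine le_trans (ENNReal.ofReal_le_ofReal h) ?_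
  exact le_iSup_of_le (0 : E3) (le_iSup_of_le (1 : ℝ) (le_iSup_of_le one_pos le_rfl))

end SShr
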