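import Pool.Agent.Lib.MP_49c3df_gt.Stmt
import Pool.Agent.Lib.MP_49c3df_gt.Defs

/-! Speed and direction of a profile. -/

namespace SShr

open MeasureTheory

/-- speed and direction of a profile -/
noncomputable def Profile.v (γ : Profile) (t : ℝ) : ℝ :=
  Real.sqrt (deriv γ.r t ^ 2 + deriv γ.z t ^ 2)
noncomputable def Profile.c (γ : Profile) (t : ℝ) : ℝ := deriv γ.r t / γ.v t
noncomputable def Profile.s (γ : Profile) (t : ℝ) : ℝ := deriv γ.z t / γ.v t

end SShr
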