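import Pool.Agent.Lib.MP_49c3df_gt.SplA

/-! JOB S3A (MP_49c3df_gt): piecewise triquadratic functions. Everything follows by applying the
one dimensional lemmas of `SplA.lean` three times. `S3 KR KU KV nR nU nV g R U V
= spl KR (fun i => spl KU (fun j => spl KV (g i j) V nV) U nU) R nR`.

PROOFS.
* `S3_cell`: rewrite with `spl_cell` in `R`; inside `tn bq (fun i => ..)` unfold `tn` and use
  `spl_cell` in `U`, then in `V` (three and nine times; `simp only [spl_cell ...]` or `funext`: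
  prove first `(fun i => spl KU (..) U nU) = (fun i => tn bq (fun j => tn bq (g i j) c _) b _)` by
  `funext`, the cell conditions do not depend on `i`, `j`).
* `S3_U`: value at a knot of `U` (`spl_knot` under `funext`); `S3_V`, `S3_R` the same.
* `S3_ge`, `S3_le`: `spl_ge` three times. `S3_congr`: `spl_congr`.
-/

namespace SShr

theorem S3_cell (KR KU KV : ℕ → ℝ) (nR nU nV : ℕ) (g : ℕ → ℕ → ℕ → ℝ) (R U V : ℝ)
    (hR : ∀ i < nR, KR i < KR (i + 1)) (hU : ∀ i < nU, KU i < KU (i + 1))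
    (hV : ∀ i < nV, KV i < KV (i + 1)) (i a b : ℕ) (hi : i < nR) (ha : a < nU) (hb : b < nV)
    (h1 : KR i ≤ R) (h2 : R ≤ KR (i + 1)) (h3 : KU a ≤ U) (h4 : U ≤ KU (a + 1))
    (h5 : KV b ≤ V) (h6 : V ≤ KV (b + 1)) :
    S3 KR KU KV nR nU nV g R U V
      = tens bq bq bq g i a b ((R - KR i) / (KR (i + 1) - KR i))
        ((U - KU a) / (KU (a + 1) - KU a)) ((V - KV b) / (KV (b + 1) - KV b)) := by
  unfold S3 tens
  rw [spl_cell KR _ R nR hR i hi h1 h2]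
  congr 1
  funext i'
  rw [spl_cell KU _ U nU hU a ha h3 h4]
  congr 1
  funext j'
  exact spl_cell KV _ V nV hV b hb h5 h6

theorem S3_U (KR KU KV : ℕ → ℝ) (nR nU nV : ℕ) (g : ℕ → ℕ → ℕ → ℝ) (R V : ℝ)
    (hU : ∀ i < nU, KU i < KU (i + 1)) (a : ℕ) (ha : a ≤ nU) :
    S3 KR KU KV nR nU nV g R (KU a) V
      = spl KR (fun i => spl KV (g i (2 * a)) V nV) R nR := by
  unfold S3
  congr 1
  funext i'
  exact spl_knot KU _ nU hU a ha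

theorem S3_V (KR KU KV : ℕ → ℝ) (nR nU nV : ℕ) (g : ℕ → ℕ → ℕ → ℝ) (R U : ℝ)
    (hV : ∀ i < nV, KV i < KV (i + 1)) (b : ℕ) (hb : b ≤ nV) :
    S3 KR KU KV nR nU nV g R U (KV b)
      = spl KR (fun i => spl KU (fun j => g i j (2 * b)) U nU) R nR := by
  unfold S3
  congr 1
  funext i'
  congr 1
  funext j'
  exact spl_knot KV _ nV hV b hb

theorem S3_R (KR KU KV : ℕ → ℝ) (nR nU nV : ℕ) (g : ℕ → ℕ → ℕ → ℝ) (U V : ℝ)
    (hR : ∀ i < nR, KR i < KR (i + 1)) (i : ℕ) (hi : i ≤ nR) :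
    S3 KR KU KV nR nU nV g (KR i) U V = spl KU (fun j => spl KV (g (2 * i) j) V nV) U nU := by
  unfold S3
  exact spl_knot KR _ nR hR i hi

/-- lower bound on the part `R ≤ KR i`, `U ≤ KU a`, `V ≤ KV b` -/
theorem S3_ge (KR KU KV : ℕ → ℝ) (nR nU nV : ℕ) (g : ℕ → ℕ → ℕ → ℝ) (R U V m : ℝ)
    (hR : ∀ i < nR, KR i < KR (i + 1)) (hU : ∀ i < nU, KU i < KU (i + 1))
    (hV : ∀ i < nV, KV i < KV (i + 1)) (i a b : ℕ) (hi : i ≤ nR) (ha : a ≤ nU) (hb : b ≤ nV)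
    (h1 : KR 0 ≤ R) (h2 : R ≤ KR i) (h3 : KU 0 ≤ U) (h4 : U ≤ KU a) (h5 : KV 0 ≤ V)
    (h6 : V ≤ KV b)
    (hg : ∀ i' ≤ 2 * i, ∀ j' ≤ 2 * a, ∀ k' ≤ 2 * b, m ≤ g i' j' k') :
    m ≤ S3 KR KU KV nR nU nV g R U V := by
  unfold S3
  exact spl_ge KR _ R m nR hR i hi h1 h2 fun i' hi' => spl_ge KU _ U m nU hU a ha h3 h4 fun j' hj' =>
    spl_ge KV _ V m nV hV b hb h5 h6 fun k' hk' => hg i' hi' j' hj' k' hk'

theorem S3_le (KR KU KV : ℕ → ℝ) (nR nU nV : ℕ) (g : ℕ → ℕ → ℕ → ℝ) (R U V m : ℝ)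
    (hR : ∀ i < nR, KR i < KR (i + 1)) (hU : ∀ i < nU, KU i < KU (i + 1))
    (hV : ∀ i < nV, KV i < KV (i + 1)) (i a b : ℕ) (hi : i ≤ nR) (ha : a ≤ nU) (hb : b ≤ nV)
    (h1 : KR 0 ≤ R) (h2 : R ≤ KR i) (h3 : KU 0 ≤ U) (h4 : U ≤ KU a) (h5 : KV 0 ≤ V)
    (h6 : V ≤ KV b)
    (hg : ∀ i' ≤ 2 * i, ∀ j' ≤ 2 * a, ∀ k' ≤ 2 * b, g i' j' k' ≤ m) :
    S3 KR KU KV nR nU nV g R U V ≤ m := by
  unfold S3
  exact spl_le KR _ R m nR hR i hi h1 h2 fun i' hi' => spl_le KU _ U m nU hU a ha h3 h4 fun j' hj' =>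
    spl_le KV _ V m nV hV b hb h5 h6 fun k' hk' => hg i' hi' j' hj' k' hk'

theorem S3_add (KR KU KV : ℕ → ℝ) (nR nU nV : ℕ) (g g' : ℕ → ℕ → ℕ → ℝ) (R U V : ℝ) :
    S3 KR KU KV nR nU nV (fun i j k => g i j k + g' i j k) R U V
      = S3 KR KU KV nR nU nV g R U V + S3 KR KU KV nR nU nV g' R U V := by
  unfold S3
  rw [← spl_add]
  congr 1
  funext i'
  rw [← spl_add]
  congr 1
  funext j'
  exact spl_add KV _ _ V nV

end SShr
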