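import Pool.Agent.Lib.MP_49c3df_gt.Defs

/-! JOB SplA (MP_49c3df_gt): one dimensional piecewise quadratic functions.

Recall `bq a b c t = a (1-t)^2 + 2 b t (1-t) + c t^2`, `tn f g k z = f (g (2k)) (g (2k+1)) (g (2k+2)) z`,
`spl K c x 0 = c 0`, `spl K c x (n+1) = if x ≤ K n then spl K c x n else tn bq c n ((x - K n)/(K (n+1) - K n))`.

PROOFS (all by induction on `n`, unfolding `spl`).
* `spl_cell`: induction on `n`. Step `n+1`, `i < n+1`. If `x ≤ K n`: if `i < n` use the induction
  hypothesis (`spl` value is `spl K c x n`); if `i = n` then `x = K n`, local coordinate `0`, value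
  `c (2n)`; and `spl K c (K n) n = c (2n)`: for `n = 0` by definition, for `n = m+1` by the induction
  hypothesis with `i = m` at `x = K (m+1)`, local coordinate `1`. If `K n < x` then `i = n` (else
  `x ≤ K (i+1) ≤ K n` by monotonicity), so the value is the cell formula.
* `spl_knot`: from `spl_cell` (`i < n`: cell `i`, local coordinate `0`; `i = n`, `n > 0`: cell `n-1`,
  local coordinate 1; `n = 0`: definition).
* `spl_ge`: `x` lies in a cell `j ≤ i` (`exists_cell` for `i+1` cells), `spl_cell`, and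
  `bq a b c t ≥ m` if `a, b, c ≥ m`, `t ∈ [0,1]` since `bq m m m t = m`. `spl_le` similarly.
* `spl_add`, `spl_congr`: induction on `n`.
-/

namespace SShr

theorem bq_ge {m a b c t : ℝ} (ha : m ≤ a) (hb : m ≤ b) (hc : m ≤ c) (h0 : 0 ≤ t) (h1 : t ≤ 1) :
    m ≤ bq a b c t := by
  unfold bq
  have e1 : 0 ≤ (a - m) * (1 - t) ^ 2 := mul_nonneg (by linarith) (sq_nonneg _)
  have e2 : 0 ≤ (b - m) * (t * (1 - t)) := mul_nonneg (by linarith) (mul_nonneg h0 (by linarith))
  have e3 : 0 ≤ (c - m) * t ^ 2 := mul_nonneg (by linarith) (sq_nonneg _)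
  nlinarith

theorem bq_le {m a b c t : ℝ} (ha : a ≤ m) (hb : b ≤ m) (hc : c ≤ m) (h0 : 0 ≤ t) (h1 : t ≤ 1) :
    bq a b c t ≤ m := by
  unfold bq
  have e1 : 0 ≤ (m - a) * (1 - t) ^ 2 := mul_nonneg (by linarith) (sq_nonneg _)
  have e2 : 0 ≤ (m - b) * (t * (1 - t)) := mul_nonneg (by linarith) (mul_nonneg h0 (by linarith))
  have e3 : 0 ≤ (m - c) * t ^ 2 := mul_nonneg (by linarith) (sq_nonneg _)
  nlinarith

theorem exists_cell (K : ℕ → ℝ) (x : ℝ) (n : ℕ) (hn : 0 < n) (h0 : K 0 ≤ x) (h1 : x ≤ K n) :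
    ∃ i < n, K i ≤ x ∧ x ≤ K (i + 1) := by
  induction n with
  | zero => exact absurd hn (lt_irrefl 0)
  | succ n ih =>
    by_cases hx : x ≤ K n
    · rcases Nat.eq_zero_or_pos n with h | h
      · subst h
        exact ⟨0, Nat.zero_lt_one, h0, h1⟩
      · obtain ⟨i, hi, h2, h3⟩ := ih h hx
        exact ⟨i, Nat.lt_succ_of_lt hi, h2, h3⟩
    · exact ⟨n, Nat.lt_succ_self n, (not_le.1 hx).le, h1⟩

private theorem SplA_mono {K : ℕ → ℝ} {n : ℕ} (hK : ∀ i < n, K i < K (i + 1)) {i j : ℕ} (hij : i ≤ j)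
    (hj : j ≤ n) : K i ≤ K j := by
  induction j, hij using Nat.le_induction with
  | base => exact le_rfl
  | succ j _ ih => exact (ih (by omega)).trans (hK j (by omega)).le

private theorem SplA_zero (c : ℕ → ℝ) (k : ℕ) : tn bq c k 0 = c (2 * k) := by
  unfold tn bq
  ring

private theorem SplA_one (c : ℕ → ℝ) (k : ℕ) : tn bq c k 1 = c (2 * k + 2) := by
  unfold tn bq
  ring

theorem spl_cell (K c : ℕ → ℝ) (x : ℝ) (n : ℕ) (hK : ∀ i < n, K i < K (i + 1)) (i : ℕ) (hi : i < n)
    (h0 : K i ≤ x) (h1 : x ≤ K (i + 1)) :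
    spl K c x n = tn bq c i ((x - K i) / (K (i + 1) - K i)) := by
  induction n generalizing i x with
  | zero => exact absurd hi (Nat.not_lt_zero i)
  | succ n ih =>
    have hK' : ∀ i < n, K i < K (i + 1) := fun i hi => hK i (Nat.lt_succ_of_lt hi)
    have hu : spl K c x (n + 1) =
        if x ≤ K n then spl K c x n else tn bq c n ((x - K n) / (K (n + 1) - K n)) := rfl
    rw [hu]
    by_cases hx : x ≤ K n
    · rw [if_pos hx]
      rcases Nat.lt_or_ge i n with h | h
      · exact ih x hK' i h h0 h1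
      · have hin : i = n := by omega
        subst hin
        have hxi : x = K i := le_antisymm hx h0
        rw [hxi, sub_self, zero_div, SplA_zero]
        rcases i with _ | m
        · rfl
        · have h2 := ih (K (m + 1)) hK' m (Nat.lt_succ_self m) (hK' m (Nat.lt_succ_self m)).le le_rfl
          rw [h2, div_self (sub_pos.2 (hK' m (Nat.lt_succ_self m))).ne', SplA_one]
          rfl
    · rw [if_neg hx]
      have hin : i = n := by
        by_contra h
        have h2 : K (i + 1) ≤ K n := SplA_mono hK (i := i + 1) (j := n) (by omega) (by omega)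
        exact hx (h1.trans h2)
      rw [hin]

theorem spl_knot (K c : ℕ → ℝ) (n : ℕ) (hK : ∀ i < n, K i < K (i + 1)) (i : ℕ) (hi : i ≤ n) :
    spl K c (K i) n = c (2 * i) := by
  rcases Nat.lt_or_ge i n with h | h
  · rw [spl_cell K c (K i) n hK i h le_rfl (hK i h).le, sub_self, zero_div, SplA_zero]
  · have hin : i = n := by omega
    subst hin
    rcases i with _ | m
    · rfl
    · have h1 := hK m (Nat.lt_succ_self m)
      rw [spl_cell K c (K (m + 1)) (m + 1) hK m (Nat.lt_succ_self m) h1.le le_rfl,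
        div_self (sub_pos.2 h1).ne', SplA_one]
      rfl

/-- lower bound on the part `x ≤ K i` -/
theorem spl_ge (K c : ℕ → ℝ) (x m : ℝ) (n : ℕ) (hK : ∀ i < n, K i < K (i + 1)) (i : ℕ) (hi : i ≤ n)
    (h0 : K 0 ≤ x) (h1 : x ≤ K i) (hc : ∀ j ≤ 2 * i, m ≤ c j) : m ≤ spl K c x n := by
  rcases Nat.eq_zero_or_pos i with h | h
  · subst h
    have hx : x = K 0 := le_antisymm h1 h0
    rw [hx, spl_knot K c n hK 0 (Nat.zero_le n)]
    exact hc _ le_rfl
  · obtain ⟨j, hj, h2, h3⟩ := exists_cell K x i h h0 h1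
    have h4 := sub_pos.2 (hK j (by omega))
    rw [spl_cell K c x n hK j (by omega) h2 h3]
    exact bq_ge (hc _ (by omega)) (hc _ (by omega)) (hc _ (by omega))
      (div_nonneg (by linarith) h4.le) ((div_le_one h4).2 (by linarith))

theorem spl_le (K c : ℕ → ℝ) (x m : ℝ) (n : ℕ) (hK : ∀ i < n, K i < K (i + 1)) (i : ℕ) (hi : i ≤ n)
    (h0 : K 0 ≤ x) (h1 : x ≤ K i) (hc : ∀ j ≤ 2 * i, c j ≤ m) : spl K c x n ≤ m := by
  rcases Nat.eq_zero_or_pos i with h | h
  · subst h
    have hx : x = K 0 := le_antisymm h1 h0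
    rw [hx, spl_knot K c n hK 0 (Nat.zero_le n)]
    exact hc _ le_rfl
  · obtain ⟨j, hj, h2, h3⟩ := exists_cell K x i h h0 h1
    have h4 := sub_pos.2 (hK j (by omega))
    rw [spl_cell K c x n hK j (by omega) h2 h3]
    exact bq_le (hc _ (by omega)) (hc _ (by omega)) (hc _ (by omega))
      (div_nonneg (by linarith) h4.le) ((div_le_one h4).2 (by linarith))

theorem spl_add (K c d : ℕ → ℝ) (x : ℝ) (n : ℕ) :
    spl K (fun i => c i + d i) x n = spl K c x n + spl K d x n := by
  induction n with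
  | zero => rfl
  | succ n ih =>
    have hu : ∀ e : ℕ → ℝ, spl K e x (n + 1) =
        if x ≤ K n then spl K e x n else tn bq e n ((x - K n) / (K (n + 1) - K n)) := fun _ => rfl
    rw [hu, hu, hu]
    by_cases hx : x ≤ K n
    · rw [if_pos hx, if_pos hx, if_pos hx, ih]
    · rw [if_neg hx, if_neg hx, if_neg hx]
      unfold tn bq
      ring

theorem spl_congr (K c d : ℕ → ℝ) (x : ℝ) (n : ℕ) (h : ∀ i ≤ 2 * n, c i = d i) :
    spl K c x n = spl K d x n := by
  induction n with
  | zero => exact h 0 le_rfl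
  | succ n ih =>
    have hu : ∀ e : ℕ → ℝ, spl K e x (n + 1) =
        if x ≤ K n then spl K e x n else tn bq e n ((x - K n) / (K (n + 1) - K n)) := fun _ => rfl
    rw [hu, hu]
    by_cases hx : x ≤ K n
    · rw [if_pos hx, if_pos hx, ih fun i hi => h i (by omega)]
    · rw [if_neg hx, if_neg hx]
      unfold tn
      rw [h (2 * n) (by omega), h (2 * n + 1) (by omega), h (2 * n + 2) (by omega)]

end SShr
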