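import Mathlib

/-! Parametrised surfaces in `ℝ³`: mean curvature vector, self-shrinkers, entropy, and surfaces of
revolution generated by closed plane curves. -/

namespace SShr

open MeasureTheory

/-- Euclidean three-space -/
abbrev E3 := EuclideanSpace ℝ (Fin 3)

/-! ### Parametrised surfaces `X : ℝ → ℝ → E3`, `(t, φ) ↦ X t φ` -/

/-- first partial derivatives -/
noncomputable def Xt (X : ℝ → ℝ → E3) (t φ : ℝ) : E3 := deriv (fun t => X t φ) t
noncomputable def Xp (X : ℝ → ℝ → E3) (t φ : ℝ) : E3 := deriv (fun φ => X t φ) φ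

/-- coefficients of the first fundamental form -/
noncomputable def fE (X : ℝ → ℝ → E3) (t φ : ℝ) : ℝ := inner ℝ (Xt X t φ) (Xt X t φ)
noncomputable def fF (X : ℝ → ℝ → E3) (t φ : ℝ) : ℝ := inner ℝ (Xt X t φ) (Xp X t φ)
noncomputable def fG (X : ℝ → ℝ → E3) (t φ : ℝ) : ℝ := inner ℝ (Xp X t φ) (Xp X t φ)

/-- area density: the area element is `areaDensity X t φ dt dφ` -/
noncomputable def areaDensity (X : ℝ → ℝ → E3) (t φ : ℝ) : ℝ :=
  Real.sqrt (fE X t φ * fG X t φ - fF X t φ ^ 2)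

/-- component of `w` normal to the surface at `(t, φ)` -/
noncomputable def normalPart (X : ℝ → ℝ → E3) (t φ : ℝ) (w : E3) : E3 :=
  (Submodule.span ℝ {Xt X t φ, Xp X t φ})ᗮ.starProjection w

/-- the mean curvature vector: the normal part of `g^{ij} ∂_i ∂_j X`, where `g` is the first
fundamental form -/
noncomputable def meanCurvature (X : ℝ → ℝ → E3) (t φ : ℝ) : E3 :=
  normalPart X t φ ((fE X t φ * fG X t φ - fF X t φ ^ 2)⁻¹ •
    (fG X t φ • Xt (Xt X) t φ - (2 * fF X t φ) • Xt (Xp X) t φ + fE X t φ • Xp (Xp X) t φ))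

/-- the self-shrinker equation `H + x^⊥ / 2 = 0` at every point of the surface -/
def IsSelfShrinker (X : ℝ → ℝ → E3) : Prop :=
  ∀ t φ, meanCurvature X t φ + (1 / 2 : ℝ) • normalPart X t φ (X t φ) = 0

/-- `(4 π t₀)⁻¹ ∫ exp(-|x - x₀|² / (4 t₀))` over the surface patch `0 ≤ t ≤ L`, `0 ≤ φ ≤ 2 π` -/
noncomputable def gaussianArea (X : ℝ → ℝ → E3) (L : ℝ) (x₀ : E3) (t₀ : ℝ) : ℝ :=
  (4 * Real.pi * t₀)⁻¹ * ∫ t in (0 : ℝ)..L, ∫ φ in (0 : ℝ)..(2 * Real.pi),
    Real.exp (-‖X t φ - x₀‖ ^ 2 / (4 * t₀)) * areaDensity X t φ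

/-- Colding–Minicozzi entropy of the surface `X` with `t ∈ [0, L]`, `φ ∈ [0, 2π]`: supremum of the
Gaussian areas over all centres `x₀` and scales `t₀ > 0` -/
noncomputable def entropy (X : ℝ → ℝ → E3) (L : ℝ) : ENNReal :=
  ⨆ (x₀ : E3) (t₀ : ℝ) (_ : 0 < t₀), ENNReal.ofReal (gaussianArea X L x₀ t₀)

/-! ### Closed profile curves and surfaces of revolution -/

/-- a closed regular `C²` curve `t ↦ (r t, z t)` in the open half plane `r > 0`, parametrised over
`ℝ` with period `L` (self-intersections are allowed) -/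
structure Profile where
  r : ℝ → ℝ
  z : ℝ → ℝ
  L : ℝ
  L_pos : 0 < L
  r_smooth : ContDiff ℝ 2 r
  z_smooth : ContDiff ℝ 2 z
  r_per : Function.Periodic r L
  z_per : Function.Periodic z L
  r_pos : ∀ t, 0 < r t
  regular : ∀ t, deriv r t ≠ 0 ∨ deriv z t ≠ 0

/-- the surface of revolution: the curve `(r, z)` rotated about the third axis -/
noncomputable def Profile.surface (γ : Profile) (t φ : ℝ) : E3 :=
  !₂[γ.r t * Real.cos φ, γ.r t * Real.sin φ, γ.z t]

end SShr
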